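import Pool.Agent.helper43.SplitGroup

set_option autoImplicit false

/-!
The order of the group `GG` is `2 ^ 12 * 3`.
-/

namespace Pool.Agent.H43

/-- The subgroup `GG` of `Big`. -/
abbrev CC : Subgroup Big := Subgroup.closure (Set.range qB ∪ Set.range iB)

/-- The functions on the grid with all row sums and column sums zero. -/
def fill (a : Fin 6 → ZMod 2) : ZMod 4 → ZMod 3 → ZMod 2 :=
  (![![a 0, a 1, a 0 + a 1], ![a 2, a 3, a 2 + a 3], ![a 4, a 5, a 4 + a 5],
    ![a 0 + a 2 + a 4, a 1 + a 3 + a 5, a 0 + a 1 + a 2 + a 3 + a 4 + a 5]] : Fin 4 → Fin 3 → ZMod 2)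

/-- Elements with trivial second component. -/
def mkv (v : ZMod 4 → ZMod 3 → ZMod 2) : Big := ⟨v, 1⟩

theorem mkv_add (v w : ZMod 4 → ZMod 3 → ZMod 2) : mkv (v + w) = mkv v * mkv w := by
  apply Big.ext'
  · intro k m
    simp [mkv]
  · simp [mkv]

theorem mkv_zero : mkv 0 = 1 := by
  apply Big.ext'
  · intro k m; rfl
  · rfl

/-- The functions that belong to the group. -/
def TT : AddSubgroup (ZMod 4 → ZMod 3 → ZMod 2) where
  carrier := {v | mkv v ∈ CC}
  zero_mem' := by
    change mkv 0 ∈ CC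
    rw [mkv_zero]
    exact CC.one_mem
  add_mem' := by
    intro v w hv hw
    change mkv (v + w) ∈ CC
    rw [mkv_add]
    exact CC.mul_mem hv hw
  neg_mem' := by
    intro v hv
    have h1 : -v = v := by
      funext k m
      exact CharTwo.neg_eq _
    change mkv (-v) ∈ CC
    rw [h1]
    exact hv

theorem qB_mem (x : Ed) : (qB x).v ∈ TT := by
  change mkv (qB x).v ∈ CC
  exact Subgroup.subset_closure (Or.inl ⟨x, rfl⟩)

theorem fill_add (a b : Fin 6 → ZMod 2) : fill (a + b) = fill a + fill b := by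
  have h : ∀ (i : Fin 4) (j : Fin 3), fill (a + b) i j = fill a i j + fill b i j := by
    intro i j
    fin_cases i <;> fin_cases j <;> simp [fill] <;> ring
  funext k m
  exact h k m

theorem fill_basis : (∀ (k : ZMod 4) (m : ZMod 3), fill (Pi.single 0 1) k m = (qB ⟨3, 1⟩).v k m) ∧
    (∀ (k : ZMod 4) (m : ZMod 3), fill (Pi.single 1 1) k m = (qB ⟨3, 0⟩).v k m) ∧
    (∀ (k : ZMod 4) (m : ZMod 3), fill (Pi.single 2 1) k m = (qB ⟨1, 1⟩).v k m + (qB ⟨2, 1⟩).v k m) ∧
    (∀ (k : ZMod 4) (m : ZMod 3), fill (Pi.single 3 1) k m = (qB ⟨1, 0⟩).v k m + (qB ⟨2, 0⟩).v k m) ∧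
    (∀ (k : ZMod 4) (m : ZMod 3), fill (Pi.single 4 1) k m = (qB ⟨2, 1⟩).v k m) ∧
    ∀ (k : ZMod 4) (m : ZMod 3), fill (Pi.single 5 1) k m = (qB ⟨2, 0⟩).v k m := by
  unfold fill qB
  decide +kernel

theorem fill_single_mem (i : Fin 6) : fill (Pi.single i 1) ∈ TT := by
  obtain ⟨h0, h1, h2, h3, h4, h5⟩ := fill_basis
  fin_cases i
  · have e : fill (Pi.single 0 1) = (qB ⟨3, 1⟩).v := by funext k m; exact h0 k m
    change fill (Pi.single 0 1) ∈ TT
    rw [e]; exact qB_mem _
  · have e : fill (Pi.single 1 1) = (qB ⟨3, 0⟩).v := by funext k m; exact h1 k m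
    change fill (Pi.single 1 1) ∈ TT
    rw [e]; exact qB_mem _
  · have e : fill (Pi.single 2 1) = (qB ⟨1, 1⟩).v + (qB ⟨2, 1⟩).v := by funext k m; exact h2 k m
    change fill (Pi.single 2 1) ∈ TT
    rw [e]; exact TT.add_mem (qB_mem _) (qB_mem _)
  · have e : fill (Pi.single 3 1) = (qB ⟨1, 0⟩).v + (qB ⟨2, 0⟩).v := by funext k m; exact h3 k m
    change fill (Pi.single 3 1) ∈ TT
    rw [e]; exact TT.add_mem (qB_mem _) (qB_mem _)
  · have e : fill (Pi.single 4 1) = (qB ⟨2, 1⟩).v := by funext k m; exact h4 k m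
    change fill (Pi.single 4 1) ∈ TT
    rw [e]; exact qB_mem _
  · have e : fill (Pi.single 5 1) = (qB ⟨2, 0⟩).v := by funext k m; exact h5 k m
    change fill (Pi.single 5 1) ∈ TT
    rw [e]; exact qB_mem _

/-- `fill` as a homomorphism. -/
def fillH : (Fin 6 → ZMod 2) →+ (ZMod 4 → ZMod 3 → ZMod 2) := AddMonoidHom.mk' fill fill_add

theorem fill_mem (a : Fin 6 → ZMod 2) : fill a ∈ TT := by
  have h1 : a = ∑ i, Pi.single i (a i) := by
    funext j
    simp [Finset.sum_apply, Pi.single_apply]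
  have h2 : fill a = ∑ i, fill (Pi.single i (a i)) := by
    conv_lhs => rw [h1]
    exact map_sum fillH _ _
  rw [h2]
  refine TT.sum_mem fun i _ => ?_
  have h3 : ∀ z : ZMod 2, z = 0 ∨ z = 1 := by decide
  rcases h3 (a i) with h4 | h4
  · rw [h4, Pi.single_zero]
    have h5 : fill 0 = 0 := map_zero fillH
    rw [h5]
    exact TT.zero_mem
  · rw [h4]
    exact fill_single_mem i

/-- The range of the parametrization, as a subgroup. -/
def good (v : ZMod 4 → ZMod 3 → ZMod 2) : Prop :=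
  (∀ m, ∑ k, v k m = 0) ∧ ∀ k, ∑ m, v k m = 0

theorem good_fill (v : ZMod 4 → ZMod 3 → ZMod 2) (h : good v) :
    v = fill ![v 0 0, v 0 1, v 1 0, v 1 1, v 2 0, v 2 1] := by
  obtain ⟨h1, h2⟩ := h
  have c : ∀ x : ZMod 2, x + x = 0 := CharTwo.add_self_eq_zero
  have r0 : v 0 0 + v 0 1 + v 0 2 = 0 := by
    have := h2 0
    rwa [show (∑ m : ZMod 3, v 0 m) = v 0 0 + v 0 1 + v 0 2 from Fin.sum_univ_three _] at this
  have r1 : v 1 0 + v 1 1 + v 1 2 = 0 := by
    have := h2 1
    rwa [show (∑ m : ZMod 3, v 1 m) = v 1 0 + v 1 1 + v 1 2 from Fin.sum_univ_three _] at this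
  have r2 : v 2 0 + v 2 1 + v 2 2 = 0 := by
    have := h2 2
    rwa [show (∑ m : ZMod 3, v 2 m) = v 2 0 + v 2 1 + v 2 2 from Fin.sum_univ_three _] at this
  have r3 : v 3 0 + v 3 1 + v 3 2 = 0 := by
    have := h2 3
    rwa [show (∑ m : ZMod 3, v 3 m) = v 3 0 + v 3 1 + v 3 2 from Fin.sum_univ_three _] at this
  have s0 : v 0 0 + v 1 0 + v 2 0 + v 3 0 = 0 := by
    have := h1 0
    rwa [show (∑ k : ZMod 4, v k 0) = v 0 0 + v 1 0 + v 2 0 + v 3 0 from Fin.sum_univ_four _] at this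
  have s1 : v 0 1 + v 1 1 + v 2 1 + v 3 1 = 0 := by
    have := h1 1
    rwa [show (∑ k : ZMod 4, v k 1) = v 0 1 + v 1 1 + v 2 1 + v 3 1 from Fin.sum_univ_four _] at this
  have ne : ∀ x y : ZMod 2, x + y = 0 → y = x := by decide
  have q0 := ne _ _ r0
  have q1 := ne _ _ r1
  have q2 := ne _ _ r2
  have q3 := ne _ _ r3
  have p0 := ne _ _ s0
  have p1 := ne _ _ s1
  rw [p0, p1] at q3
  have h : ∀ (i : Fin 4) (j : Fin 3),
      v i j = fill ![v 0 0, v 0 1, v 1 0, v 1 1, v 2 0, v 2 1] i j := by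
    intro i j
    fin_cases i <;> fin_cases j
    · rfl
    · rfl
    · exact q0
    · rfl
    · rfl
    · exact q1
    · rfl
    · rfl
    · exact q2
    · exact p0
    · exact p1
    · refine q3.trans ?_
      change v 0 0 + v 1 0 + v 2 0 + (v 0 1 + v 1 1 + v 2 1) =
        v 0 0 + v 0 1 + v 1 0 + v 1 1 + v 2 0 + v 2 1
      ring
  funext k m
  exact h k m

theorem good_of_mem (a : Big) (ha : a ∈ CC) : good a.v := by
  induction ha using Subgroup.closure_induction with
  | mem x hx =>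
    rcases hx with ⟨y, rfl⟩ | ⟨y, rfl⟩
    · have h1 : ∀ (k : ZMod 4) (m : ZMod 3), good (qB ⟨k, m⟩).v := by
        unfold good qB
        decide +kernel
      exact h1 y.k y.m
    · exact ⟨fun m => Finset.sum_const_zero, fun k => Finset.sum_const_zero⟩
  | one => exact ⟨fun m => Finset.sum_const_zero, fun k => Finset.sum_const_zero⟩
  | mul x y _ _ hx hy =>
    refine ⟨fun m => ?_, fun k => ?_⟩
    · simp only [Big.mul_v]
      rw [Finset.sum_add_distrib, hx.1 m, zero_add]
      rw [← hy.1 (x.h.f • (m - x.h.l))]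
      exact Equiv.sum_comp ((Equiv.subRight x.h.i).trans (MulAction.toPerm x.h.e))
        (fun k => y.v k (x.h.f • (m - x.h.l)))
    · simp only [Big.mul_v]
      rw [Finset.sum_add_distrib, hx.2 k, zero_add]
      rw [← hy.2 (x.h.e • (k - x.h.i))]
      exact Equiv.sum_comp ((Equiv.subRight x.h.l).trans (MulAction.toPerm x.h.f))
        (fun m => y.v (x.h.e • (k - x.h.i)) m)
  | inv x _ hx =>
    refine ⟨fun m => ?_, fun k => ?_⟩
    · simp only [Big.inv_v]
      rw [← hx.1 (x.h.l + x.h.f • m)]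
      exact Equiv.sum_comp ((MulAction.toPerm x.h.e).trans (Equiv.addLeft x.h.i))
        (fun k => x.v k (x.h.l + x.h.f • m))
    · simp only [Big.inv_v]
      rw [← hx.2 (x.h.i + x.h.e • k)]
      exact Equiv.sum_comp ((MulAction.toPerm x.h.f).trans (Equiv.addLeft x.h.l))
        (fun m => x.v (x.h.i + x.h.e • k) m)

/-- The parametrization of the group. -/
def param (p : (Fin 6 → ZMod 2) × Hh) : GG :=
  ⟨mkv (fill p.1) * iB p.2, CC.mul_mem (fill_mem p.1) (Subgroup.subset_closure (Or.inr ⟨p.2, rfl⟩))⟩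

theorem param_v (p : (Fin 6 → ZMod 2) × Hh) : ((param p : GG) : Big).v = fill p.1 := by
  funext k m
  simp [param, mkv]

theorem param_h (p : (Fin 6 → ZMod 2) × Hh) : ((param p : GG) : Big).h = p.2 := by
  simp [param, mkv]

theorem param_bij : Function.Bijective param := by
  constructor
  · intro p p' h
    have h1 : fill p.1 = fill p'.1 := by rw [← param_v, ← param_v, h]
    have h2 : p.2 = p'.2 := by rw [← param_h, ← param_h, h]
    refine Prod.ext ?_ h2
    funext i
    fin_cases i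
    · exact congrFun (congrFun h1 0) 0
    · exact congrFun (congrFun h1 0) 1
    · exact congrFun (congrFun h1 1) 0
    · exact congrFun (congrFun h1 1) 1
    · exact congrFun (congrFun h1 2) 0
    · exact congrFun (congrFun h1 2) 1
  · rintro ⟨a, ha⟩
    refine ⟨(![a.v 0 0, a.v 0 1, a.v 1 0, a.v 1 1, a.v 2 0, a.v 2 1], a.h), Subtype.ext ?_⟩
    apply Big.ext'
    · intro k m
      rw [param_v]
      exact (congrFun (congrFun (good_fill a.v (good_of_mem a ha)) k) m).symm
    · rw [param_h]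

theorem card_Hh : Nat.card Hh = 192 := by
  have e : Hh ≃ ZMod 4 × ZMod 4 × ZMod 3 × ℤˣ × ℤˣ :=
    { toFun := fun a => (a.i, a.j, a.l, a.e, a.f)
      invFun := fun p => ⟨p.1, p.2.1, p.2.2.1, p.2.2.2.1, p.2.2.2.2⟩
      left_inv := fun _ => rfl
      right_inv := fun _ => rfl }
  rw [Nat.card_congr e, Nat.card_prod, Nat.card_prod, Nat.card_prod, Nat.card_prod, Nat.card_zmod,
    Nat.card_zmod, Nat.card_eq_fintype_card, Fintype.card_units_int]

/-- **The order of the group.** -/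
theorem card_GG : Nat.card GG = 2 ^ 12 * 3 := by
  rw [← Nat.card_congr (Equiv.ofBijective _ param_bij), Nat.card_prod, card_Hh,
    Nat.card_eq_fintype_card, Fintype.card_fun, ZMod.card, Fintype.card_fin]
  norm_num

end Pool.Agent.H43
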