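import Mathlib

set_option autoImplicit false

/-!
Realization over the rationals of the irreducible complex representations of a group whose
rational group algebra is a product of full matrix algebras, and existence of an irreducible
complex representation with a non-real character value for a group with a non-real element.
-/

namespace Pool.Agent.H43

open MonoidAlgebra

/-- An invariant subspace of an irreducible representation is `0` or everything. -/
theorem irr_sub {G V : Type} [Group G] [AddCommGroup V] [Module ℂ V] (ρ : Representation ℂ G V)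
    (h : ρ.IsIrreducible) (W : Submodule ℂ V) (hW : ∀ g, ∀ w ∈ W, ρ g w ∈ W) (w : V) (hw : w ∈ W)
    (hw0 : w ≠ 0) : W = ⊤ := by
  rcases h.eq_bot_or_eq_top (⟨W, fun g v hv => hW g v hv⟩ : Subrepresentation ρ) with h1 | h1
  · exfalso
    have h2 : W = ⊥ := congrArg Subrepresentation.toSubmodule h1
    rw [h2] at hw
    exact hw0 ((Submodule.mem_bot ℂ).1 hw)
  · exact congrArg Subrepresentation.toSubmodule h1

/-- The action of the rational group algebra. -/
noncomputable def PsiQ {G V : Type} [Group G] [AddCommGroup V] [Module ℂ V]
    (ρ : Representation ℂ G V) : MonoidAlgebra ℚ G →+* Module.End ℂ V :=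
  (ρ.asAlgebraHom : MonoidAlgebra ℂ G →+* Module.End ℂ V).comp
    (MonoidAlgebra.mapRingHom G (algebraMap ℚ ℂ))

theorem PsiQ_single {G V : Type} [Group G] [AddCommGroup V] [Module ℂ V]
    (ρ : Representation ℂ G V) (g : G) (q : ℚ) : PsiQ ρ (single g q) = (q : ℂ) • ρ g := by
  unfold PsiQ
  simp [MonoidAlgebra.mapRingHom_single]

theorem PsiQ_smul {G V : Type} [Group G] [AddCommGroup V] [Module ℂ V]
    (ρ : Representation ℂ G V) (q : ℚ) (a : MonoidAlgebra ℚ G) :
    PsiQ ρ (q • a) = (q : ℂ) • PsiQ ρ a := by
  have h1 : q • a = single 1 q * a := by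
    ext g
    simp
  rw [h1, map_mul, PsiQ_single, map_one, smul_mul_assoc, one_mul]

/-- **Part A.** If the rational group algebra is a product of full matrix algebras then every
irreducible complex representation has rational matrices in a suitable basis. -/
theorem realized {G : Type} [Group G] {ι : Type} [Fintype ι] {n : ι → ℕ}
    (e : MonoidAlgebra ℚ G ≃ₐ[ℚ] ((i : ι) → Matrix (Fin (n i)) (Fin (n i)) ℚ))
    (V : Type) [AddCommGroup V] [Module ℂ V] (ρ : Representation ℂ G V) (h : ρ.IsIrreducible) :
    ∃ (m : ℕ) (b : Module.Basis (Fin m) ℂ V), ∀ (g : G) (i j : Fin m), ∃ q : ℚ,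
      LinearMap.toMatrix b b (ρ g) i j = (q : ℂ) := by
  classical
  -- the matrix units
  set E : (i : ι) → Fin (n i) → Fin (n i) → Module.End ℂ V := fun i j k =>
    PsiQ ρ (e.symm (Pi.single i (Matrix.single j k (1 : ℚ)))) with hE
  have hmul : ∀ (i : ι) (j k l m : Fin (n i)), E i j k * E i l m = if k = l then E i j m else 0 := by
    intro i j k l m
    rw [hE]
    dsimp only
    rw [← map_mul, ← map_mul, ← Pi.single_mul]
    split_ifs with hkl
    · rw [hkl, Matrix.single_mul_single_same, mul_one]
    · rw [Matrix.single_mul_single_of_ne _ _ _ _ hkl, Pi.single_zero, map_zero, map_zero]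
  have hone : (1 : Module.End ℂ V) = ∑ i, ∑ j, E i j j := by
    have h1 : (1 : (i : ι) → Matrix (Fin (n i)) (Fin (n i)) ℚ) =
        ∑ i, ∑ j, Pi.single i (Matrix.single j j (1 : ℚ)) := by
      funext i
      rw [Finset.sum_apply, Finset.sum_eq_single i]
      · rw [Finset.sum_apply]
        simp only [Pi.single_eq_same]
        rw [Pi.one_apply]
        exact (Matrix.sum_single_one).symm
      · intro i' _ hi'
        rw [Finset.sum_apply]
        refine Finset.sum_eq_zero fun j _ => ?_
        rw [Pi.single_eq_of_ne hi'.symm]
      · intro h2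
        exact absurd (Finset.mem_univ _) h2
    rw [← map_one (PsiQ ρ), ← map_one e.symm, h1]
    simp only [map_sum]
    rfl
  -- a nonzero vector
  have hnt : ∃ v : V, v ≠ 0 := by
    by_contra hcon
    push Not at hcon
    have h3 : (⊥ : Subrepresentation ρ) = ⊤ := by
      apply Subrepresentation.toSubmodule_injective
      ext v
      rw [hcon v]
      constructor
      · intro _; exact Submodule.zero_mem _
      · intro _; exact Submodule.zero_mem _
    exact h.exists_pair_ne.elim fun x hx => hx.elim fun y hxy => hxy (by
      rcases h.eq_bot_or_eq_top x with hx | hx <;> rcases h.eq_bot_or_eq_top y with hy | hy <;>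
        rw [hx, hy] <;> first | rfl | exact h3 | exact h3.symm)
  obtain ⟨v, hv⟩ := hnt
  obtain ⟨i, a, hia⟩ : ∃ (i : ι) (a : Fin (n i)), E i a a v ≠ 0 := by
    by_contra hcon
    push Not at hcon
    apply hv
    have h4 : (1 : Module.End ℂ V) v = v := rfl
    rw [← h4, hone, LinearMap.sum_apply]
    refine Finset.sum_eq_zero fun i _ => ?_
    rw [LinearMap.sum_apply]
    exact Finset.sum_eq_zero fun j _ => hcon i j
  set b : Fin (n i) → V := fun j => E i j a v with hb
  have hba : b a ≠ 0 := hia
  -- the rational matrix of `g`
  have hact : ∀ (g : G) (j : Fin (n i)), ρ g (b j) = ∑ k, ((e (single g 1) i k j : ℚ) : ℂ) • b k := by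
    intro g j
    have h5 : PsiQ ρ (single g 1) = ρ g := by rw [PsiQ_single, Rat.cast_one, one_smul]
    have h6 : e (single g 1) * Pi.single i (Matrix.single j a (1 : ℚ)) =
        ∑ k, e (single g 1) i k j • (Pi.single i (Matrix.single k a (1 : ℚ)) :
          (i : ι) → Matrix (Fin (n i)) (Fin (n i)) ℚ) := by
      funext i'
      rw [Pi.mul_apply, Finset.sum_apply]
      by_cases hi' : i' = i
      · subst hi'
        simp only [Pi.smul_apply, Pi.single_eq_same]
        ext x y
        rw [Matrix.sum_apply, Finset.sum_eq_single x]
        · rw [Matrix.smul_apply, smul_eq_mul]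
          by_cases hy : a = y
          · subst hy
            rw [Matrix.mul_single_apply_same, Matrix.single_apply_same]
          · rw [Matrix.mul_single_apply_of_ne _ _ _ _ _ (Ne.symm hy), Matrix.single_apply_of_col_ne _ _ hy, mul_zero]
        · intro k _ hk
          rw [Matrix.smul_apply, Matrix.single_apply_of_row_ne hk, smul_zero]
        · intro h7
          exact absurd (Finset.mem_univ _) h7
      · rw [Pi.single_eq_of_ne hi', mul_zero]
        refine (Finset.sum_eq_zero fun k _ => ?_).symm
        rw [Pi.smul_apply, Pi.single_eq_of_ne hi', smul_zero]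
    have h8 : ρ g * E i j a = ∑ k, ((e (single g 1) i k j : ℚ) : ℂ) • E i k a := by
      rw [← h5, hE]
      dsimp only
      rw [← map_mul]
      have h9 : single g 1 * e.symm (Pi.single i (Matrix.single j a (1 : ℚ))) =
          e.symm (e (single g 1) * Pi.single i (Matrix.single j a (1 : ℚ))) := by
        rw [map_mul, e.symm_apply_apply]
      rw [h9, h6, map_sum, map_sum]
      refine Finset.sum_congr rfl fun k _ => ?_
      rw [map_smul, PsiQ_smul]
    have h10 := congrArg (fun T : Module.End ℂ V => T v) h8
    simp only [Module.End.mul_apply, LinearMap.sum_apply, LinearMap.smul_apply] at h10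
    exact h10
  have hspan : Submodule.span ℂ (Set.range b) = ⊤ := by
    refine irr_sub ρ h _ ?_ (b a) (Submodule.subset_span ⟨a, rfl⟩) hba
    intro g w hw
    induction hw using Submodule.span_induction with
    | mem x hx =>
      obtain ⟨j, rfl⟩ := hx
      rw [hact]
      exact Submodule.sum_mem _ fun k _ => Submodule.smul_mem _ _ (Submodule.subset_span ⟨k, rfl⟩)
    | zero => rw [map_zero]; exact Submodule.zero_mem _
    | add x y _ _ hx hy => rw [map_add]; exact Submodule.add_mem _ hx hy
    | smul c x _ hx => rw [map_smul]; exact Submodule.smul_mem _ _ hx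
  have hind : LinearIndependent ℂ b := by
    rw [Fintype.linearIndependent_iff]
    intro c hc k
    have h11 := congrArg (fun w => E i a k w) hc
    simp only [map_sum, map_smul, map_zero] at h11
    have h12 : ∀ j, E i a k (b j) = if k = j then b a else 0 := by
      intro j
      have h13 := congrArg (fun T : Module.End ℂ V => T v) (hmul i a k j a)
      simp only [Module.End.mul_apply] at h13
      rw [hb]
      dsimp only
      rw [h13]
      split_ifs <;> rfl
    simp only [h12] at h11
    rw [Finset.sum_eq_single k] at h11
    · rw [if_pos rfl] at h11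
      exact (smul_eq_zero.1 h11).resolve_right hba
    · intro j _ hj
      rw [if_neg hj.symm, smul_zero]
    · intro h7
      exact absurd (Finset.mem_univ _) h7
  refine ⟨n i, Module.Basis.mk hind hspan.ge, fun g x y => ⟨e (single g 1) i x y, ?_⟩⟩
  rw [LinearMap.toMatrix_apply, Module.Basis.mk_apply, hact, map_sum, Finsupp.finsetSum_apply]
  rw [Finset.sum_eq_single x]
  · rw [map_smul, Finsupp.smul_apply]
    have h14 : (Module.Basis.mk hind hspan.ge).repr (b x) = Finsupp.single x 1 := by
      have h15 := (Module.Basis.mk hind hspan.ge).repr_self x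
      rw [Module.Basis.mk_apply] at h15
      exact h15
    rw [h14, Finsupp.single_eq_same, smul_eq_mul, mul_one]
  · intro k _ hk
    rw [map_smul, Finsupp.smul_apply]
    have h14 : (Module.Basis.mk hind hspan.ge).repr (b k) = Finsupp.single k 1 := by
      have h15 := (Module.Basis.mk hind hspan.ge).repr_self k
      rw [Module.Basis.mk_apply] at h15
      exact h15
    rw [h14, Finsupp.single_eq_of_ne hk.symm, smul_zero]
  · intro h7
    exact absurd (Finset.mem_univ _) h7

end Pool.Agent.H43
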