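import Pool.Agent.helper43.SplitNon

set_option autoImplicit false

/-!
A finite group with an element that is not conjugate to its inverse has an irreducible complex
representation whose character takes a non-real value at this element.
-/

namespace Pool.Agent.H43

open MonoidAlgebra Matrix
open scoped ComplexOrder

/-- The character of a complex matrix representation of a finite group at an inverse. -/
theorem trace_inv {P : Type} [Group P] [Fintype P] {n : ℕ} (R : P →* Matrix (Fin n) (Fin n) ℂ)
    (x : P) : (R x⁻¹).trace = star (R x).trace := by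
  classical
  set H : Matrix (Fin n) (Fin n) ℂ := ∑ g, (R g)ᴴ * R g with hH
  have hpos : H.PosDef := by
    rw [hH, ← Finset.add_sum_erase _ _ (Finset.mem_univ (1 : P)), map_one, conjTranspose_one, one_mul]
    refine Matrix.PosDef.one.add_posSemidef ?_
    refine Matrix.posSemidef_sum _ fun g _ => Matrix.posSemidef_conjTranspose_mul_self _
  have hinv : ∀ y : P, (R y)ᴴ * H * R y = H := by
    intro y
    rw [hH, Finset.mul_sum, Finset.sum_mul, ← Equiv.sum_comp (Equiv.mulRight y⁻¹)]
    refine Finset.sum_congr rfl fun g _ => ?_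
    rw [Equiv.coe_mulRight]
    have h1 : R g = R (g * y⁻¹) * R y := by rw [← map_mul, inv_mul_cancel_right]
    rw [h1, conjTranspose_mul]
    simp only [mul_assoc]
  have hdet : IsUnit H.det := hpos.isUnit.map Matrix.detMonoidHom
  have h2 : (R x)ᴴ = H * R x⁻¹ * H⁻¹ := by
    have h3 : (R x)ᴴ * H = H * R x⁻¹ := by
      have h4 := hinv x
      calc (R x)ᴴ * H = (R x)ᴴ * H * (R x * R x⁻¹) := by
            rw [← map_mul, mul_inv_cancel, map_one, mul_one]
        _ = ((R x)ᴴ * H * R x) * R x⁻¹ := by simp only [mul_assoc]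
        _ = H * R x⁻¹ := by rw [h4]
    rw [← h3, Matrix.mul_nonsing_inv_cancel_right _ _ hdet]
  have h5 : ((R x)ᴴ).trace = (R x⁻¹).trace := by
    rw [h2, Matrix.trace_mul_comm, ← mul_assoc, Matrix.nonsing_inv_mul _ hdet, one_mul]
  rw [← h5, Matrix.trace_conjTranspose]

/-- The antisymmetric central element with complex coefficients. -/
noncomputable def zelC {P : Type} [Group P] [Fintype P] (x : P) : MonoidAlgebra ℂ P :=
  MonoidAlgebra.mapRingHom P (algebraMap ℚ ℂ) (zel x)

theorem zelC_eq {P : Type} [Group P] [Fintype P] (x : P) :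
    zelC x = ∑ h : P, (single (h * x * h⁻¹) (1 : ℂ) - single (h * x⁻¹ * h⁻¹) (1 : ℂ)) := by
  unfold zelC zel
  rw [map_sum]
  refine Finset.sum_congr rfl fun h _ => ?_
  rw [map_sub, mapRingHom_single, mapRingHom_single, map_one]

theorem zelC_central {P : Type} [Group P] [Fintype P] (x : P) (a : MonoidAlgebra ℂ P) :
    a * zelC x = zelC x * a := by
  induction a using MonoidAlgebra.induction_on with
  | of g =>
    rw [MonoidAlgebra.of_apply]
    have h1 := congrArg (MonoidAlgebra.mapRingHom P (algebraMap ℚ ℂ)) (zel_central x (single g 1))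
    rw [map_mul, map_mul, mapRingHom_single, map_one] at h1
    exact h1
  | add a b ha hb => rw [add_mul, mul_add, ha, hb]
  | smul r a ha => rw [smul_mul_assoc, mul_smul_comm, ha]

theorem zelC_ne_zero {P : Type} [Group P] [Fintype P] (x : P) (hx : ∀ g : P, g * x * g⁻¹ ≠ x⁻¹) :
    zelC x ≠ 0 := by
  intro h0
  apply zel_ne_zero x hx
  ext g
  have h1 := congrArg (fun z : MonoidAlgebra ℂ P => z.coeff g) h0
  simp only [zelC, coeff_mapRingHom] at h1
  simpa using h1

/-- **Part B.** -/
theorem nonreal (P : Type) [Group P] [Finite P] (x : P) (hx : ∀ g : P, g * x * g⁻¹ ≠ x⁻¹) :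
    ∃ (n : ℕ) (ρ : Representation ℂ P (Fin n → ℂ)), ρ.IsIrreducible ∧ (ρ.character x).im ≠ 0 := by
  classical
  have := Fintype.ofFinite P
  obtain ⟨N, d, hd, ⟨e⟩⟩ :=
    IsSemisimpleRing.exists_algEquiv_pi_matrix_of_isAlgClosed ℂ (MonoidAlgebra ℂ P)
  have hz : e (zelC x) ≠ 0 := by
    intro h0
    exact zelC_ne_zero x hx ((map_eq_zero_iff e e.injective).1 h0)
  obtain ⟨i, hi⟩ := Function.ne_iff.1 hz
  rw [Pi.zero_apply] at hi
  have := hd i
  -- the representation
  set φ : MonoidAlgebra ℂ P →ₐ[ℂ] Matrix (Fin (d i)) (Fin (d i)) ℂ :=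
    (Pi.evalAlgHom ℂ (fun j => Matrix (Fin (d j)) (Fin (d j)) ℂ) i).comp e.toAlgHom with hφ
  have hsurj : Function.Surjective φ := by
    intro y
    refine ⟨e.symm (Pi.single i y), ?_⟩
    change e (e.symm (Pi.single i y)) i = y
    rw [e.apply_symm_apply, Pi.single_eq_same]
  set R : P →* Matrix (Fin (d i)) (Fin (d i)) ℂ :=
    (φ : MonoidAlgebra ℂ P →* Matrix (Fin (d i)) (Fin (d i)) ℂ).comp (MonoidAlgebra.of ℂ P) with hR
  set ρ : Representation ℂ P (Fin (d i) → ℂ) :=
    ((Matrix.toLinAlgEquiv' : Matrix (Fin (d i)) (Fin (d i)) ℂ ≃ₐ[ℂ] _) :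
      Matrix (Fin (d i)) (Fin (d i)) ℂ →* _).comp R with hρ
  have hρa : ∀ g w, ρ g w = (R g).mulVec w := fun g w => rfl
  have htr : ∀ g, ρ.character g = (R g).trace := by
    intro g
    exact Matrix.trace_toLin'_eq (R g)
  -- the central element is a scalar
  have hsc : ∃ q : ℂ, φ (zelC x) = Matrix.scalar _ q := by
    have h7 : φ (zelC x) ∈ Set.range (Matrix.scalar (Fin (d i))) := by
      apply Matrix.mem_range_scalar_of_commute_single
      intro a b _
      obtain ⟨w, hw⟩ := hsurj (Matrix.single a b (1 : ℂ))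
      change Matrix.single a b (1 : ℂ) * φ (zelC x) = φ (zelC x) * Matrix.single a b (1 : ℂ)
      rw [← hw, ← map_mul, zelC_central, map_mul]
    obtain ⟨q, hq⟩ := h7
    exact ⟨q, hq.symm⟩
  obtain ⟨q, hq⟩ := hsc
  have hq0 : q ≠ 0 := by
    rintro rfl
    rw [map_zero] at hq
    exact hi hq
  refine ⟨d i, ρ, ?_, ?_⟩
  · -- irreducibility
    have hne : Nonempty (Fin (d i)) := ⟨⟨0, Nat.pos_of_ne_zero (NeZero.ne _)⟩⟩
    have hmem : ∀ (W : Subrepresentation ρ) (a : MonoidAlgebra ℂ P) (w : Fin (d i) → ℂ),
        w ∈ W.toSubmodule → (φ a).mulVec w ∈ W.toSubmodule := by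
      intro W a w hw
      induction a using MonoidAlgebra.induction_on with
      | of g => exact W.apply_mem_toSubmodule g hw
      | add a b ha hb => rw [map_add, Matrix.add_mulVec]; exact W.toSubmodule.add_mem ha hb
      | smul r a ha => rw [map_smul, Matrix.smul_mulVec]; exact W.toSubmodule.smul_mem r ha
    refine { exists_pair_ne := ⟨⊥, ⊤, ?_⟩, eq_bot_or_eq_top := ?_ }
    · intro h8
      have h9 : (⊥ : Submodule ℂ (Fin (d i) → ℂ)) = ⊤ := congrArg Subrepresentation.toSubmodule h8
      obtain ⟨j⟩ := hne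
      have h10 : (Pi.single j (1 : ℂ) : Fin (d i) → ℂ) ∈ (⊥ : Submodule ℂ (Fin (d i) → ℂ)) := by
        rw [h9]; trivial
      have h11 := congrFun ((Submodule.mem_bot ℂ).1 h10) j
      rw [Pi.single_eq_same] at h11
      exact one_ne_zero h11
    · intro W
      by_cases hW : W.toSubmodule = ⊥
      · left
        exact Subrepresentation.toSubmodule_injective hW
      · right
        apply Subrepresentation.toSubmodule_injective
        change W.toSubmodule = ⊤
        obtain ⟨w, hw, hw0⟩ := W.toSubmodule.exists_mem_ne_zero_of_ne_bot hW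
        obtain ⟨a, ha⟩ := Function.ne_iff.1 hw0
        rw [Pi.zero_apply] at ha
        have h12 : ∀ j, (Pi.single j (1 : ℂ) : Fin (d i) → ℂ) ∈ W.toSubmodule := by
          intro j
          obtain ⟨y, hy⟩ := hsurj (Matrix.single j a ((w a)⁻¹))
          have h13 := hmem W y w hw
          rw [hy] at h13
          have h14 : (Matrix.single j a ((w a)⁻¹)).mulVec w = Pi.single j (1 : ℂ) := by
            rw [Matrix.single_mulVec]
            ext k
            by_cases hk : k = j
            · subst hk
              simp [inv_mul_cancel₀ ha]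
            · simp [hk]
          rw [h14] at h13
          exact h13
        rw [eq_top_iff]
        intro u _
        have h15 : u = ∑ j, u j • (Pi.single j (1 : ℂ) : Fin (d i) → ℂ) := by
          funext k
          simp [Finset.sum_apply, Pi.single_apply]
        rw [h15]
        exact Submodule.sum_mem _ fun j _ => Submodule.smul_mem _ _ (h12 j)
  · -- the character value
    intro him
    rw [htr] at him
    have h16 : (R x⁻¹).trace = (R x).trace := by
      rw [trace_inv R x]
      exact Complex.conj_eq_iff_im.2 him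
    have h17 : (φ (zelC x)).trace = 0 := by
      rw [zelC_eq, map_sum, Matrix.trace_sum]
      refine Finset.sum_eq_zero fun h _ => ?_
      rw [map_sub, Matrix.trace_sub]
      have h18 : ∀ y : P, (φ (single (h * y * h⁻¹) 1)).trace = (R y).trace := by
        intro y
        have h19 : φ (single (h * y * h⁻¹) 1) = R h * R y * R h⁻¹ := by
          rw [← map_mul, ← map_mul]
          rfl
        rw [h19, Matrix.trace_mul_comm, ← mul_assoc, ← map_mul, inv_mul_cancel, map_one, one_mul]
      rw [h18, h18, h16, sub_self]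
    rw [hq, Matrix.scalar_apply, Matrix.trace_diagonal] at h17
    simp only [Finset.sum_const, Finset.card_univ, Fintype.card_fin, nsmul_eq_mul] at h17
    rcases mul_eq_zero.1 h17 with h20 | h20
    · exact NeZero.ne (d i) (Nat.cast_eq_zero.1 h20)
    · exact hq0 h20

end Pool.Agent.H43
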