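import Pool.Agent.helper43.SplitMain

set_option autoImplicit false

namespace Pool.Agent.H43

/-- The projection to `Hh`. -/
def hB : Big →* Hh where
  toFun a := a.h
  map_one' := rfl
  map_mul' _ _ := rfl

/-- The projection of `GG` to `Hh`. -/
def hG : GG →* Hh := hB.comp (Subgroup.subtype _)

theorem hG_iG (h : Hh) : hG (iG h) = h := rfl
theorem hG_apply (g : GG) : hG g = (g : Big).h := rfl

/-- Subgroup of `Hh` with `l = 0`. -/
def H0 : Subgroup Hh where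
  carrier := {h | h.l = 0}
  mul_mem' := by
    intro a b ha hb
    simp only [Set.mem_ofPred_eq] at ha hb ⊢
    simp [ha, hb]
  one_mem' := rfl
  inv_mem' := by
    intro a ha
    simp only [Set.mem_ofPred_eq] at ha ⊢
    simp [ha]

/-- A 2-subgroup of `GG` (in fact of index 3). -/
def S0 : Subgroup GG := H0.comap hG

theorem mem_S0 (g : GG) : g ∈ S0 ↔ (hG g).l = 0 := Iff.rfl

theorem H0_four (a : Hh) (ha : a.l = 0) : (a * a) * (a * a) = 1 := by
  have h4 : ∀ z : ZMod 4, z + z + (z + z) = 0 := by decide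
  have hf : a.f * a.f = 1 := Int.units_mul_self a.f
  have he : a.e * a.e = 1 := Int.units_mul_self a.e
  rcases units_cases a.e with h1 | h1
  · ext <;> simp [ha, h1, h4, hf]
  · ext <;> simp [ha, h1, hf]

theorem S0_pow (g : GG) (hg : g ∈ S0) : g ^ (2 ^ 3) = 1 := by
  have h1 : hG (g ^ 4) = 1 := by
    rw [map_pow, pow_succ, pow_succ, pow_two, mul_assoc]
    exact H0_four _ hg
  have h2 : g ^ (2 ^ 3) = g ^ 4 * g ^ 4 := by rw [← pow_add]; norm_num
  rw [h2]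
  apply Subtype.ext
  rw [Subgroup.coe_mul]
  have h3 : ((g ^ 4 : GG) : Big).h = 1 := h1
  apply Big.ext'
  · intro k m
    rw [Big.mul_v, h3]
    simp only [Hh.one_e, Hh.one_i, Hh.one_f, Hh.one_l, one_smul, sub_zero]
    exact CharTwo.add_self_eq_zero _
  · rw [Big.mul_h, h3, mul_one]; rfl

theorem S0_isPGroup : IsPGroup 2 S0 := by
  rintro ⟨g, hg⟩
  refine ⟨3, Subtype.ext ?_⟩
  rw [Subgroup.coe_pow]
  exact S0_pow g hg

/-- In a 2-subgroup containing `S0` every element has `l = 0`. -/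
theorem l_eq_zero {P : Subgroup GG} (hP : IsPGroup 2 P) (hS : S0 ≤ P) (p : GG) (hp : p ∈ P) :
    (hG p).l = 0 := by
  set h := hG p with hh
  set h0 : Hh := ⟨h.i, h.j, 0, h.e, h.f⟩ with hh0
  have h1 : iG h0 ∈ P := hS (by rw [mem_S0, hG_iG])
  have h2 : p * (iG h0)⁻¹ ∈ P := P.mul_mem hp (P.inv_mem h1)
  obtain ⟨k, hk⟩ := hP ⟨_, h2⟩
  have h3 : (p * (iG h0)⁻¹) ^ (2 ^ k) = 1 := congrArg Subtype.val hk
  have h4 : (⟨0, 0, h.l, 1, 1⟩ : Hh) ^ (2 ^ k) = 1 := by
    have h5 : hG (p * (iG h0)⁻¹) = ⟨0, 0, h.l, 1, 1⟩ := by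
      rw [map_mul, map_inv, hG_iG, ← hh]
      have he : h.e * h.e = 1 := Int.units_mul_self h.e
      have hf : h.f * h.f = 1 := Int.units_mul_self h.f
      ext
      · rw [Hh.mul_i, Hh.inv_i, hh0, smul_neg, ← mul_smul, he, one_smul, add_neg_cancel]
      · rw [Hh.mul_j, Hh.inv_j, hh0, smul_neg, ← mul_smul, he, one_smul, add_neg_cancel]
      · rw [Hh.mul_l, Hh.inv_l, hh0, smul_zero, neg_zero, smul_zero, add_zero]
      · rw [Hh.mul_e, Hh.inv_e, hh0, he]
      · rw [Hh.mul_f, Hh.inv_f, hh0, hf]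
    rw [← h5, ← map_pow, h3, map_one]
  have h6 : ∀ (l : ZMod 3) (n : ℕ), (⟨0, 0, l, 1, 1⟩ : Hh) ^ n = ⟨0, 0, (n : ZMod 3) * l, 1, 1⟩ := by
    intro l n
    induction n with
    | zero => rw [pow_zero]; ext <;> simp
    | succ n ih =>
      rw [pow_succ, ih]
      ext <;> simp [add_mul]
  rw [h6] at h4
  have h7 := congrArg Hh.l h4
  simp only [Hh.one_l] at h7
  have h8 : ((2 ^ k : ℕ) : ZMod 3) ≠ 0 := by
    intro h9
    rw [ZMod.natCast_eq_zero_iff] at h9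
    have := Nat.Prime.dvd_of_dvd_pow Nat.prime_three h9
    omega
  have : Fact (Nat.Prime 3) := ⟨Nat.prime_three⟩
  exact (mul_eq_zero.1 h7).resolve_left h8

/-- The element of order 4 used below. -/
def xG : GG := (qG ⟨0, 0⟩ * qG ⟨1, 2⟩) * iG ⟨0, 1, 0, 1, 1⟩

theorem xG_mem : xG ∈ S0 := by
  rw [mem_S0]
  rfl

/-- The function part of `xG`. -/
def uf (k : ZMod 4) (m : ZMod 3) : ZMod 2 := (qB ⟨0, 0⟩).v k m + (qB ⟨1, 2⟩).v k m

theorem uf_check : ∀ (i : ZMod 4) (f : ℤˣ),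
    ¬ ∀ (k : ZMod 4) (m : ZMod 3), uf ((-1 : ℤˣ) • (k - i)) (f • (m - 0)) = uf k m := by
  decide +kernel

theorem xG_v (k : ZMod 4) (m : ZMod 3) : (xG : Big).v k m = uf k m := by
  change (qB ⟨0, 0⟩ * qB ⟨1, 2⟩ * iB ⟨0, 1, 0, 1, 1⟩).v k m = uf k m
  simp only [Big.mul_v, iB_v, add_zero]
  simp [uf, qB]

theorem xG_h : (xG : Big).h = ⟨0, 1, 0, 1, 1⟩ := rfl

theorem xG_not_conj (p : GG) (hp : (hG p).l = 0) : p * xG * p⁻¹ ≠ xG⁻¹ := by
  intro hcon
  have h1 : p * xG = xG⁻¹ * p := by rw [← hcon, inv_mul_cancel_right]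
  have h2 : (p : Big) * (xG : Big) = (xG : Big)⁻¹ * (p : Big) := congrArg Subtype.val h1
  have hl : (p : Big).h.l = 0 := hp
  -- the Hh part
  have h3 := congrArg (fun b : Big => b.h.j) h2
  simp only [Big.mul_h, Big.inv_h, xG_h, Hh.mul_j, Hh.inv_j, Hh.inv_e, one_smul] at h3
  have h4 : (p : Big).h.e = -1 := by
    rcases units_cases (p : Big).h.e with h5 | h5
    · exfalso
      rw [h5, one_smul, add_comm] at h3
      have h6 := add_right_cancel h3
      revert h6; decide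
    · exact h5
  apply uf_check (p : Big).h.i (p : Big).h.f
  intro k m
  have h5 := congrArg (fun b : Big => b.v k m) h2
  simp only [Big.mul_v, Big.inv_v, Big.inv_h, xG_h, Hh.inv_e, Hh.inv_i, Hh.inv_f, Hh.inv_l,
    one_smul, zero_add, neg_zero, sub_zero, xG_v, h4, hl] at h5
  rw [add_comm (uf k m)] at h5
  have h6 := add_left_cancel h5
  rw [sub_zero]
  exact h6

end Pool.Agent.H43
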