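import Pool.Agent.helper43.DPDefs

set_option autoImplicit false

namespace Pool.Agent.H43.Grob

open DirectSum

universe u v

namespace DP

variable {k : Type u} [CommRing k]

/-- The coefficient of `x^[n]`. -/
noncomputable def cf (n : ℕ) : DP k →ₗ[k] k :=
  Finsupp.lapply n ∘ₗ (fs : DP k ≃ₗ[k] (ℕ →₀ k)).toLinearMap

theorem cf_mono (n m : ℕ) (a : k) : cf n (mono m a) = if m = n then a else 0 := by
  simp only [cf, LinearMap.comp_apply, LinearEquiv.coe_coe, fs_mono, Finsupp.lapply_apply,
    Finsupp.single_apply]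

theorem cf_mono_self (n : ℕ) (a : k) : cf n (mono n a) = a := by
  rw [cf_mono, if_pos rfl]

theorem cf_mono_ne {n m : ℕ} (h : m ≠ n) (a : k) : cf n (mono m a) = 0 := by
  rw [cf_mono, if_neg h]

theorem ext {f g : DP k} (h : ∀ n, cf n f = cf n g) : f = g := by
  apply (fs : DP k ≃ₗ[k] (ℕ →₀ k)).injective
  ext n
  exact h n

theorem cf_mono_mul (n m : ℕ) (a : k) (f : DP k) :
    cf n (mono m a * f) = if m ≤ n then (n.choose m : k) * (a * cf (n - m) f) else 0 := by
  induction f using DP.induction with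
  | zero => simp
  | add f g hf hg =>
    rw [mul_add, map_add, hf, hg, map_add]
    split_ifs
    · ring
    · ring
  | mono l b =>
    rw [mono_mul_mono, cf_mono, cf_mono]
    by_cases h : m ≤ n
    · rw [if_pos h]
      by_cases h2 : l = n - m
      · have h3 : m + l = n := by omega
        rw [if_pos h3, if_pos h2, h3]
      · have h3 : ¬ (m + l = n) := by omega
        rw [if_neg h3, if_neg h2, mul_zero, mul_zero]
    · have h3 : ¬ (m + l = n) := by omega
      rw [if_neg h, if_neg h3]

theorem algebraMap_eq (c : k) : algebraMap k (DP k) c = mono 0 c := by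
  rw [Algebra.algebraMap_eq_smul_one, one_def, ← map_smul, smul_eq_mul, mul_one]

theorem smul_eq_mono_mul (c : k) (f : DP k) : c • f = mono 0 c * f := by
  rw [Algebra.smul_def, algebraMap_eq]

theorem smul_mono (c : k) (n : ℕ) (a : k) : c • mono n a = mono n (c * a) := by
  rw [← map_smul, smul_eq_mul]

/-- The elements of degree less than `n`. -/
noncomputable def Dlt (n : ℕ) : Submodule k (DP k) where
  carrier := {f | ∀ j, n ≤ j → cf j f = 0}
  zero_mem' := fun j _ => map_zero _
  add_mem' := fun {f g} hf hg j hj => by rw [map_add, hf j hj, hg j hj, add_zero]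
  smul_mem' := fun c f hf j hj => by rw [map_smul, hf j hj, smul_zero]

theorem mem_Dlt {n : ℕ} {f : DP k} : f ∈ Dlt (k := k) n ↔ ∀ j, n ≤ j → cf j f = 0 := Iff.rfl

theorem Dlt_mono {m n : ℕ} (h : m ≤ n) : Dlt (k := k) m ≤ Dlt n :=
  fun _ hf j hj => hf j (h.trans hj)

theorem exists_mem_Dlt (f : DP k) : ∃ n, f ∈ Dlt (k := k) n := by
  refine ⟨(fs f).support.sup id + 1, fun j hj => ?_⟩
  by_contra h
  have h1 : j ∈ (fs f).support := Finsupp.mem_support_iff.2 h
  have h2 : j ≤ (fs f).support.sup id := Finset.le_sup (f := id) h1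
  omega

theorem mono_mem_Dlt {m n : ℕ} (h : m < n) (a : k) : mono m a ∈ Dlt (k := k) n := by
  intro j hj
  rw [cf_mono_ne (by omega)]

theorem Dlt_zero {f : DP k} (hf : f ∈ Dlt (k := k) 0) : f = 0 :=
  ext fun n => by rw [hf n (Nat.zero_le n), map_zero]

theorem mem_Dlt_succ_of {n : ℕ} {f : DP k} (hf : f ∈ Dlt (k := k) (n + 1)) (h : cf n f = 0) :
    f ∈ Dlt (k := k) n := by
  intro j hj
  rcases Nat.lt_or_ge n j with h1 | h1
  · exact hf j h1
  · have : j = n := by omega
    rw [this, h]

theorem sub_mono_mem {n : ℕ} {f : DP k} (hf : f ∈ Dlt (k := k) (n + 1)) :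
    f - mono n (cf n f) ∈ Dlt (k := k) n := by
  apply mem_Dlt_succ_of
  · exact Submodule.sub_mem _ hf (mono_mem_Dlt (by omega) _)
  · rw [map_sub, cf_mono_self, sub_self]

theorem eq_sum {n : ℕ} {f : DP k} (hf : f ∈ Dlt (k := k) n) :
    f = ∑ i ∈ Finset.range n, mono i (cf i f) := by
  apply ext
  intro j
  rw [map_sum]
  simp only [cf_mono]
  rw [Finset.sum_ite_eq']
  by_cases h : j ∈ Finset.range n
  · rw [if_pos h]
  · rw [if_neg h]
    exact hf j (by simpa using h)

theorem mono_mul_mem_Dlt {m n : ℕ} {f : DP k} (hf : f ∈ Dlt (k := k) n) (a : k) :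
    mono m a * f ∈ Dlt (k := k) (m + n) := by
  intro j hj
  rw [cf_mono_mul]
  by_cases h : m ≤ j
  · rw [if_pos h, hf (j - m) (by omega), mul_zero, mul_zero]
  · rw [if_neg h]

/-- Multiplication and degrees. -/
theorem mul_mem_Dlt {m n : ℕ} {f g : DP k} (hf : f ∈ Dlt (k := k) (m + 1))
    (hg : g ∈ Dlt (k := k) n) : f * g ∈ Dlt (k := k) (m + n) := by
  rw [eq_sum hf, Finset.sum_mul]
  refine Submodule.sum_mem _ fun i hi => ?_
  rw [Finset.mem_range] at hi
  exact Dlt_mono (by omega) (mono_mul_mem_Dlt hg _)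

theorem cf_mul_top {m n : ℕ} {f g : DP k} (hf : f ∈ Dlt (k := k) (m + 1))
    (hg : g ∈ Dlt (k := k) (n + 1)) :
    cf (m + n) (f * g) = ((m + n).choose m : k) * (cf m f * cf n g) := by
  have h1 : f = (f - mono m (cf m f)) + mono m (cf m f) := by ring
  have h2 : cf (m + n) ((f - mono m (cf m f)) * g) = 0 := by
    have h3 := sub_mono_mem hf
    rcases Nat.eq_zero_or_pos m with rfl | hm
    · rw [Dlt_zero h3, zero_mul, map_zero]
    · obtain ⟨m', rfl⟩ : ∃ m', m = m' + 1 := ⟨m - 1, by omega⟩
      have h4 := mul_mem_Dlt h3 hg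
      exact h4 _ (by omega)
  conv_lhs => rw [h1, add_mul, map_add, h2, zero_add, cf_mono_mul, if_pos (by omega : m ≤ m + n),
    Nat.add_sub_cancel_left]

theorem proj_eq (n : ℕ) (f : DP k) : GradedRing.proj (gr k) n f = mono n (cf n f) := by
  induction f using DP.induction with
  | zero => simp
  | add f g hf hg => rw [map_add, hf, hg, map_add, map_add]
  | mono m a =>
    rw [GradedRing.proj_apply, cf_mono]
    by_cases h : m = n
    · subst h
      rw [if_pos rfl]
      exact DirectSum.decompose_of_mem_same (gr k) (mono_mem_gr m a)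
    · rw [if_neg h, map_zero]
      exact DirectSum.decompose_of_mem_ne (gr k) (mono_mem_gr m a) h

/-- The leading terms of the elements of an ideal. -/
def Lset (I : Ideal (DP k)) : Set (DP k) :=
  {g | ∃ n : ℕ, ∃ f ∈ I, f ∈ Dlt (k := k) (n + 1) ∧ g = mono n (cf n f)}

theorem initialIdeal_eq (I : Ideal (DP k)) : initialIdeal (gr k) I = Ideal.span (Lset I) := by
  apply le_antisymm
  · refine Ideal.span_mono ?_
    rintro g ⟨f, hf, n, hg, -, h⟩
    refine ⟨n, f, hf, ?_, by rw [hg, proj_eq]⟩
    intro j hj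
    have h1 := h j (by omega)
    rw [proj_eq] at h1
    have h2 := congrArg (cf j) h1
    rwa [cf_mono_self, map_zero] at h2
  · refine Ideal.span_le.2 ?_
    rintro g ⟨n, f, hf, hfd, rfl⟩
    by_cases h0 : mono n (cf n f) = 0
    · rw [h0]; exact Submodule.zero_mem _
    · refine Ideal.subset_span ⟨f, hf, n, by rw [proj_eq], h0, ?_⟩
      intro m hm
      rw [proj_eq, hfd m (by omega), map_zero]

end DP

theorem polyGr.proj_eq {K : Type u} [CommRing K] (n : ℕ) (f : Polynomial K) :
    GradedRing.proj (polyGr K) n f = Polynomial.monomial n (f.coeff n) := by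
  induction f using Polynomial.induction_on' with
  | add f g hf hg => rw [map_add, hf, hg, Polynomial.coeff_add, map_add]
  | monomial m a =>
    rw [GradedRing.proj_apply, Polynomial.coeff_monomial]
    by_cases h : m = n
    · subst h
      rw [if_pos rfl]
      exact DirectSum.decompose_of_mem_same (polyGr K) (polyGr.monomial_mem m a)
    · rw [if_neg h, map_zero]
      exact DirectSum.decompose_of_mem_ne (polyGr K) (polyGr.monomial_mem m a) h

end Pool.Agent.H43.Grob
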