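import Pool.Agent.helper43.DPBuch

set_option autoImplicit false

namespace Pool.Agent.H43.Grob

universe u v

/-- `binom(t q + i, i)` is prime to `p` for `i < q = p ^ m`. -/
theorem lucas_one {p : ℕ} (hp : p.Prime) (m t i : ℕ) (hi : i < p ^ m) :
    (t * p ^ m + i).choose i ≡ 1 [MOD p] := by
  have : Fact p.Prime := ⟨hp⟩
  induction m generalizing i with
  | zero =>
    have h0 : i = 0 := by simpa using hi
    subst h0
    simp
    rfl
  | succ m ih =>
    have h := Choose.choose_modEq_choose_mod_mul_choose_div_nat (n := t * p ^ (m + 1) + i)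
      (k := i) (p := p)
    have h1 : (t * p ^ (m + 1) + i) % p = i % p := by
      rw [pow_succ, ← mul_assoc, Nat.mul_add_mod']
    have h2 : (t * p ^ (m + 1) + i) / p = t * p ^ m + i / p := by
      rw [pow_succ, ← mul_assoc, mul_comm (t * p ^ m) p, Nat.mul_add_div hp.pos]
    rw [h1, h2, Nat.choose_self, one_mul] at h
    refine h.trans (ih (i / p) ?_)
    rw [Nat.div_lt_iff_lt_mul hp.pos]
    rwa [pow_succ] at hi

theorem lucas_one' {p : ℕ} (hp : p.Prime) (m t i : ℕ) (hi : i < p ^ m) :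
    ¬ p ∣ (t * p ^ m + i).choose i := by
  intro h
  have h1 := lucas_one hp m t i hi
  have h2 : (t * p ^ m + i).choose i ≡ 0 [MOD p] := (Nat.modEq_zero_iff_dvd).2 h
  have h3 : 1 ≡ 0 [MOD p] := h1.symm.trans h2
  rw [Nat.modEq_zero_iff_dvd] at h3
  exact hp.one_lt.ne' (Nat.dvd_one.1 h3)

/-- `binom((t + 1) q, q)` is `t + 1` times a number prime to `p`. -/
theorem choose_block {p : ℕ} (hp : p.Prime) (m t : ℕ) :
    ((t + 1) * p ^ m).choose (p ^ m) =
      (t + 1) * (t * p ^ m + (p ^ m - 1)).choose (p ^ m - 1) := by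
  have hq : 0 < p ^ m := pow_pos hp.pos m
  obtain ⟨q', hq'⟩ : ∃ q', p ^ m = q' + 1 := ⟨p ^ m - 1, by omega⟩
  have h := Nat.add_one_mul_choose_eq (t * p ^ m + (p ^ m - 1)) (p ^ m - 1)
  have h1 : t * p ^ m + (p ^ m - 1) + 1 = (t + 1) * p ^ m := by
    rw [add_mul, one_mul]; omega
  have h2 : p ^ m - 1 + 1 = p ^ m := by omega
  rw [h1, h2] at h
  have h3 : p ^ m * ((t + 1) * (t * p ^ m + (p ^ m - 1)).choose (p ^ m - 1)) =
      p ^ m * ((t + 1) * p ^ m).choose (p ^ m) := by
    rw [mul_comm (p ^ m) (((t + 1) * p ^ m).choose (p ^ m)), ← h]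
    ring
  exact (Nat.eq_of_mul_eq_mul_left hq h3).symm

namespace DP

variable {k : Type u} [CommRing k]

theorem Dlt_natCast_smul (n m : ℕ) {f : DP k} (hf : f ∈ Dlt (k := k) n) :
    (m : k) • f ∈ Dlt (k := k) n := Submodule.smul_mem _ _ hf

section
variable (p m : ℕ)

/-- The `t`-th block of an element. -/
noncomputable def blk (t : ℕ) : DP k →ₗ[k] DP k :=
  ∑ i ∈ Finset.range (p ^ m), mono i ∘ₗ
    (Ring.inverse ((t * p ^ m + i).choose i : k) • cf (t * p ^ m + i))

theorem blk_apply (t : ℕ) (f : DP k) : blk p m t f = ∑ i ∈ Finset.range (p ^ m),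
    mono i (Ring.inverse ((t * p ^ m + i).choose i : k) * cf (t * p ^ m + i) f) := by
  simp only [blk, LinearMap.sum_apply, LinearMap.comp_apply, LinearMap.smul_apply, smul_eq_mul]

theorem cf_blk (t i : ℕ) (hi : i < p ^ m) (f : DP k) : cf i (blk p m t f) =
    Ring.inverse ((t * p ^ m + i).choose i : k) * cf (t * p ^ m + i) f := by
  rw [blk_apply, map_sum]
  simp only [cf_mono]
  rw [Finset.sum_ite_eq' (Finset.range (p ^ m)) i, if_pos (by simpa using hi)]

theorem blk_mem (t : ℕ) (f : DP k) : blk p m t f ∈ Dlt (k := k) (p ^ m) := by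
  rw [blk_apply]
  refine Submodule.sum_mem _ fun i hi => ?_
  rw [Finset.mem_range] at hi
  exact mono_mem_Dlt hi _

theorem blk_zero_of_Dlt {t n : ℕ} (h : n ≤ t * p ^ m) {f : DP k} (hf : f ∈ Dlt (k := k) n) :
    blk p m t f = 0 := by
  rw [blk_apply]
  refine Finset.sum_eq_zero fun i _ => ?_
  rw [hf _ (by omega), mul_zero, map_zero]

end

section
variable {p : ℕ} (hp : p.Prime) (hunit : ∀ s : ℕ, ¬ p ∣ s → IsUnit (s : k)) (m : ℕ)

include hp hunit

theorem unit_choose (t i : ℕ) (hi : i < p ^ m) : IsUnit ((t * p ^ m + i).choose i : k) :=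
  hunit _ (lucas_one' hp m t i hi)

theorem cf_eq_blk (t i : ℕ) (hi : i < p ^ m) (f : DP k) :
    cf (t * p ^ m + i) f = ((t * p ^ m + i).choose i : k) * cf i (blk p m t f) := by
  rw [cf_blk p m t i hi, ← mul_assoc, Ring.mul_inverse_cancel _ (unit_choose hp hunit m t i hi),
    one_mul]

theorem blk_ext {f g : DP k} (h : ∀ t, blk p m t f = blk p m t g) : f = g := by
  have hq : 0 < p ^ m := pow_pos hp.pos m
  apply ext
  intro n
  have h1 : n = n / p ^ m * p ^ m + n % p ^ m := (Nat.div_add_mod' n (p ^ m)).symm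
  rw [h1, cf_eq_blk hp hunit m _ _ (Nat.mod_lt _ hq), cf_eq_blk hp hunit m _ _ (Nat.mod_lt _ hq), h]

/-- Multiplication by `x^[t q]` shifts blocks. -/
theorem blk_mono_mul (s t : ℕ) {b : DP k} (hb : b ∈ Dlt (k := k) (p ^ m)) :
    blk p m s (mono (t * p ^ m) 1 * b) = if s = t then b else 0 := by
  have hq : 0 < p ^ m := pow_pos hp.pos m
  apply ext
  intro i
  by_cases hi : i < p ^ m
  · rw [cf_blk p m s i hi, cf_mono_mul]
    rcases Nat.lt_trichotomy s t with h | h | h
    · have h1 : (s + 1) * p ^ m ≤ t * p ^ m := Nat.mul_le_mul_right _ h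
      rw [add_mul, one_mul] at h1
      rw [if_neg (by omega), if_neg (by omega), mul_zero, map_zero]
    · subst h
      rw [if_pos (by omega), if_pos rfl, Nat.add_sub_cancel_left, one_mul, ← mul_assoc]
      rw [show (s * p ^ m + i).choose (s * p ^ m) = (s * p ^ m + i).choose i from
        Nat.choose_symm_add]
      rw [Ring.inverse_mul_cancel _ (unit_choose hp hunit m s i hi), one_mul]
    · have h1 : (t + 1) * p ^ m ≤ s * p ^ m := Nat.mul_le_mul_right _ h
      rw [add_mul, one_mul] at h1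
      rw [if_pos (by omega), if_neg (by omega), hb _ (by omega), mul_zero, mul_zero, mul_zero,
        map_zero]
  · rw [blk_mem p m s _ i (by omega)]
    split_ifs
    · rw [hb i (by omega)]
    · rw [map_zero]

/-- Decomposition of an element with two blocks. -/
theorem two_blocks {h : DP k} (hh : h ∈ Dlt (k := k) (2 * p ^ m)) :
    h = blk p m 0 h + mono (p ^ m) 1 * blk p m 1 h := by
  apply blk_ext hp hunit m
  intro t
  have h1 : blk p m t (blk p m 0 h) = if t = 0 then blk p m 0 h else 0 := by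
    have := blk_mono_mul hp hunit m t 0 (blk_mem p m 0 h)
    rwa [zero_mul, ← one_def, one_mul] at this
  have h2 : blk p m t (mono (p ^ m) 1 * blk p m 1 h) = if t = 1 then blk p m 1 h else 0 := by
    have := blk_mono_mul hp hunit m t 1 (blk_mem p m 1 h)
    rwa [one_mul] at this
  rw [map_add, h1, h2]
  rcases Nat.lt_trichotomy t 1 with h3 | h3 | h3
  · have h4 : t = 0 := by omega
    subst h4
    simp
  · subst h3
    simp
  · rw [if_neg (by omega), if_neg (by omega), add_zero]
    exact blk_zero_of_Dlt p m (Nat.mul_le_mul_right _ h3) hh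

/-- The unit factor of `binom((t + 1) q, q)`. -/
theorem choose_block_unit (t : ℕ) : ∃ u : kˣ,
    (((t + 1) * p ^ m).choose (p ^ m) : k) = ((t + 1 : ℕ) : k) * u := by
  have hq : 0 < p ^ m := pow_pos hp.pos m
  obtain ⟨u, hu⟩ := unit_choose hp hunit m t (p ^ m - 1) (by omega)
  refine ⟨u, ?_⟩
  rw [choose_block hp m t, Nat.cast_mul, hu]

omit hp hunit in
theorem mono_mul_mono_block (t : ℕ) (b : DP k) :
    mono (t * p ^ m) 1 * (mono (p ^ m) 1 * b) =
      (((t + 1) * p ^ m).choose (p ^ m) : k) • (mono ((t + 1) * p ^ m) 1 * b) := by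
  have h1 : (t + 1) * p ^ m = t * p ^ m + p ^ m := by ring
  rw [← mul_assoc, mono_mul_mono, ← h1, mul_one, mul_one, ← smul_mul_assoc, smul_mono, mul_one]
  congr 3
  rw [h1, Nat.choose_symm_add]

/-- The blocks of `x^[t q] h` for `h` with two blocks. -/
theorem blk_shift (s t : ℕ) {h : DP k} (hh : h ∈ Dlt (k := k) (2 * p ^ m)) :
    blk p m s (mono (t * p ^ m) 1 * h) = (if s = t then blk p m 0 h else 0) +
      (if s = t + 1 then (((t + 1) * p ^ m).choose (p ^ m) : k) • blk p m 1 h else 0) := by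
  conv_lhs => rw [two_blocks hp hunit m hh, mul_add, mono_mul_mono_block, map_add, map_smul,
    blk_mono_mul hp hunit m s t (blk_mem p m 0 h),
    blk_mono_mul hp hunit m s (t + 1) (blk_mem p m 1 h)]
  congr 1
  split_ifs
  · rfl
  · rw [smul_zero]

end

end DP

end Pool.Agent.H43.Grob
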