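import Pool.Agent.helper43.DPQ

set_option autoImplicit false

namespace Pool.Agent.H43.Grob

universe u v

namespace DP

section
variable {k : Type u} [CommRing k] {s : ℕ} (d : Fin s → ℕ) (g : Fin s → DP k)

/-- The combination `∑ hᵢ gᵢ`. -/
noncomputable def Lg (g : Fin s → DP k) : (Fin s → DP k) →ₗ[k] DP k :=
  (Fintype.linearCombination (DP k) g).restrictScalars k

theorem Lg_apply (h : Fin s → DP k) : Lg g h = ∑ i, h i * g i := by
  simp [Lg, Fintype.linearCombination_apply]

/-- The combinations of formal degree less than `n`. -/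
noncomputable def Rn (n : ℕ) : Submodule k (DP k) :=
  (Submodule.pi Set.univ fun i => Dlt (k := k) (n - d i)).map (Lg g)

/-- The leading terms. -/
noncomputable def lt (i : Fin s) : DP k := mono (d i) (cf (d i) (g i))

/-- The homogeneous component of degree `n` of a vector of coefficients. -/
noncomputable def comp (n : ℕ) : (Fin s → DP k) →ₗ[k] (Fin s → DP k) :=
  LinearMap.pi fun i => (if d i ≤ n then mono (n - d i) ∘ₗ cf (n - d i) else 0) ∘ₗ
    LinearMap.proj i

variable {d g}

theorem comp_apply (n : ℕ) (h : Fin s → DP k) (i : Fin s) :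
    comp d n h i = if d i ≤ n then mono (n - d i) (cf (n - d i) (h i)) else 0 := by
  simp only [comp, LinearMap.pi_apply, LinearMap.comp_apply, LinearMap.proj_apply]
  split_ifs
  · rfl
  · rfl

theorem mem_Rn {n : ℕ} {f : DP k} :
    f ∈ Rn d g n ↔ ∃ h : Fin s → DP k, (∀ i, h i ∈ Dlt (k := k) (n - d i)) ∧ Lg g h = f := by
  unfold Rn
  rw [Submodule.mem_map]
  simp only [Submodule.mem_pi, Set.mem_univ, true_implies]

theorem Rn_fg (n : ℕ) : (Rn d g n).FG :=
  (Submodule.fg_pi fun _ => Dlt_fg _).map _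

theorem Rn_mono {m n : ℕ} (h : m ≤ n) : Rn d g m ≤ Rn d g n := by
  intro f hf
  rw [mem_Rn] at hf ⊢
  obtain ⟨c, hc, hf⟩ := hf
  exact ⟨c, fun i => Dlt_mono (by omega) (hc i), hf⟩

theorem Rn_le_Dlt (hg : ∀ i, g i ∈ Dlt (k := k) (d i + 1)) (n : ℕ) : Rn d g n ≤ Dlt n := by
  intro f hf
  rw [mem_Rn] at hf
  obtain ⟨c, hc, rfl⟩ := hf
  rw [Lg_apply]
  refine Submodule.sum_mem _ fun i _ => ?_
  have h1 := hc i
  rcases Nat.eq_zero_or_pos (n - d i) with h0 | h0
  · rw [h0] at h1
    rw [Dlt_zero h1, zero_mul]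
    exact Submodule.zero_mem _
  · obtain ⟨e, he⟩ : ∃ e, n - d i = e + 1 := ⟨n - d i - 1, by omega⟩
    rw [he] at h1
    exact Dlt_mono (by omega) (mul_mem_Dlt h1 (hg i))

theorem Rn_le_ideal {I : Ideal (DP k)} (hI : ∀ i, g i ∈ I) {n : ℕ} {f : DP k}
    (hf : f ∈ Rn d g n) : f ∈ I := by
  rw [mem_Rn] at hf
  obtain ⟨c, -, rfl⟩ := hf
  rw [Lg_apply]
  exact Submodule.sum_mem _ fun i _ => I.mul_mem_left _ (hI i)

theorem mono_mul_Rn {m n : ℕ} (a : k) {f : DP k} (hf : f ∈ Rn d g n) :
    mono m a * f ∈ Rn d g (m + n) := by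
  rw [mem_Rn] at hf ⊢
  obtain ⟨c, hc, rfl⟩ := hf
  refine ⟨fun i => mono m a * c i, fun i => ?_, ?_⟩
  · change mono m a * c i ∈ Dlt (k := k) (m + n - d i)
    rcases Nat.eq_zero_or_pos (n - d i) with h0 | h0
    · have h1 := hc i
      rw [h0] at h1
      rw [Dlt_zero h1, mul_zero]
      exact Submodule.zero_mem _
    · exact Dlt_mono (by omega) (mono_mul_mem_Dlt (hc i) a)
  · rw [Lg_apply, Lg_apply, Finset.mul_sum]
    exact Finset.sum_congr rfl fun i _ => by ring

theorem comp_mem_Rn (n : ℕ) (h : Fin s → DP k) : Lg g (comp d n h) ∈ Rn d g (n + 1) := by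
  rw [mem_Rn]
  refine ⟨_, fun i => ?_, rfl⟩
  rw [comp_apply]
  split_ifs with h1
  · exact mono_mem_Dlt (by omega) _
  · exact Submodule.zero_mem _

/-- The homogeneous component of the combination of the leading terms. -/
theorem Lg_lt_comp (n : ℕ) (h : Fin s → DP k) :
    Lg (lt d g) (comp d n h) = mono n (cf n (Lg (lt d g) h)) := by
  rw [Lg_apply, Lg_apply, map_sum, map_sum]
  refine Finset.sum_congr rfl fun i _ => ?_
  rw [comp_apply, lt, mul_comm (h i), cf_mono_mul]
  split_ifs with h1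
  · rw [mono_mul_mono]
    have h2 : n - d i + d i = n := by omega
    rw [h2]
    congr 1
    rw [show n.choose (n - d i) = n.choose (d i) from Nat.choose_symm h1]
    ring
  · rw [zero_mul, map_zero]

/-- The top coefficient of a combination of formal degree at most `n` only depends on the leading
terms. -/
theorem cf_Lg_top (hg : ∀ i, g i ∈ Dlt (k := k) (d i + 1)) (n : ℕ) (h : Fin s → DP k)
    (hh : ∀ i, h i ∈ Dlt (k := k) (n + 1 - d i)) :
    cf n (Lg g h) = cf n (Lg (lt d g) h) := by
  rw [Lg_apply, Lg_apply, map_sum, map_sum]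
  refine Finset.sum_congr rfl fun i _ => ?_
  have h1 := hh i
  by_cases h2 : d i ≤ n
  · have h3 : n + 1 - d i = n - d i + 1 := by omega
    rw [h3] at h1
    have h4 := cf_mul_top h1 (hg i)
    have h5 : n - d i + d i = n := by omega
    rw [h5] at h4
    rw [h4, lt, mul_comm (h i), cf_mono_mul, if_pos h2, Nat.choose_symm h2]
    ring
  · have h3 : n + 1 - d i = 0 := by omega
    rw [h3] at h1
    rw [Dlt_zero h1, zero_mul, zero_mul]

theorem comp_mem_Dlt (n : ℕ) (h : Fin s → DP k) (i : Fin s) :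
    comp d n h i ∈ Dlt (k := k) (n + 1 - d i) := by
  rw [comp_apply]
  split_ifs with h1
  · exact mono_mem_Dlt (by omega) _
  · exact Submodule.zero_mem _

theorem sub_comp_mem_Dlt (n : ℕ) (h : Fin s → DP k)
    (hh : ∀ i, h i ∈ Dlt (k := k) (n + 1 - d i)) (i : Fin s) :
    h i - comp d n h i ∈ Dlt (k := k) (n - d i) := by
  rw [comp_apply]
  have h1 := hh i
  split_ifs with h2
  · have h3 : n + 1 - d i = n - d i + 1 := by omega
    rw [h3] at h1
    exact sub_mono_mem h1
  · have h3 : n + 1 - d i = n - d i := by omega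
    rw [h3] at h1
    rw [sub_zero]
    exact h1

/-- The leading terms of elements of `Rn`. -/
theorem top_mem_span (hg : ∀ i, g i ∈ Dlt (k := k) (d i + 1)) {n : ℕ} {f : DP k}
    (hf : f ∈ Rn d g (n + 1)) : mono n (cf n f) ∈ Ideal.span (Set.range (lt d g)) := by
  rw [mem_Rn] at hf
  obtain ⟨h, hh, rfl⟩ := hf
  rw [cf_Lg_top hg n h hh, ← Lg_lt_comp, Lg_apply]
  exact Submodule.sum_mem _ fun i _ => Ideal.mul_mem_left _ _ (Ideal.subset_span ⟨i, rfl⟩)

theorem comp_smul_mono (n m : ℕ) (b : k) (x : Fin s → DP k) :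
    comp d n (mono m b • x) = if m ≤ n then mono m b • comp d (n - m) x else 0 := by
  funext i
  rw [comp_apply, Pi.smul_apply, smul_eq_mul, cf_mono_mul]
  by_cases h1 : m ≤ n
  · rw [if_pos h1, Pi.smul_apply, smul_eq_mul, comp_apply]
    by_cases h2 : d i ≤ n
    · rw [if_pos h2]
      by_cases h3 : m ≤ n - d i
      · have h4 : d i ≤ n - m := by omega
        have h5 : m + (n - m - d i) = n - d i := by omega
        have h6 : n - m - d i = n - d i - m := by omega
        rw [if_pos h3, if_pos h4, mono_mul_mono, h5, h6]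
      · have h4 : ¬ (d i ≤ n - m) := by omega
        rw [if_neg h3, if_neg h4, map_zero, mul_zero]
    · have h4 : ¬ (d i ≤ n - m) := by omega
      rw [if_neg h2, if_neg h4, mul_zero]
  · rw [if_neg h1, Pi.zero_apply]
    by_cases h2 : d i ≤ n
    · have h3 : ¬ (m ≤ n - d i) := by omega
      rw [if_pos h2, if_neg h3, map_zero]
    · rw [if_neg h2]

end

section
variable {k : Type u} [CommRing k] {s : ℕ} {d : Fin s → ℕ} {g : Fin s → DP k} {I : Ideal (DP k)}
  (hI : ∀ i, g i ∈ I) (hg : ∀ i, g i ∈ Dlt (k := k) (d i + 1))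
  (hQ : ∀ (n : ℕ), ∀ f ∈ I, f ∈ Dlt (k := k) (n + 1) → ∃ m : ℕ, 0 < m ∧
    (m : k) • mono n (cf n f) ∈ Ideal.span (Set.range (lt d g)))

theorem Lg_mem_ideal {I : Ideal (DP k)} (hI : ∀ i, g i ∈ I) (h : Fin s → DP k) :
    Lg g h ∈ I := by
  rw [Lg_apply]
  exact Submodule.sum_mem _ fun i _ => I.mul_mem_left _ (hI i)

include hI hg hQ

/-- Division with remainder, up to torsion. -/
theorem division (n : ℕ) : ∀ f ∈ I, f ∈ Dlt (k := k) n → ∃ m : ℕ, 0 < m ∧
    (m : k) • f ∈ Rn d g n := by
  induction n with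
  | zero =>
    intro f _ hf
    refine ⟨1, one_pos, ?_⟩
    rw [Dlt_zero hf, smul_zero]
    exact Submodule.zero_mem _
  | succ n ih =>
    intro f hfI hf
    obtain ⟨m, hm, hmJ⟩ := hQ n f hfI hf
    have h1 : (m : k) • mono n (cf n f) ∈ LinearMap.range (Fintype.linearCombination (DP k)
        (lt d g)) := by
      rw [Fintype.range_linearCombination]
      exact hmJ
    obtain ⟨a, ha⟩ := h1
    have ha' : Lg (lt d g) a = (m : k) • mono n (cf n f) := ha
    have h2 : cf n (Lg g (comp d n a)) = (m : k) * cf n f := by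
      rw [cf_Lg_top hg n _ (comp_mem_Dlt n a), Lg_lt_comp, cf_mono_self, ha', map_smul,
        cf_mono_self, smul_eq_mul]
    have h3 : (m : k) • f - Lg g (comp d n a) ∈ I := by
      refine I.sub_mem ?_ (Lg_mem_ideal hI _)
      rw [smul_eq_natCast_mul]
      exact I.mul_mem_left _ hfI
    have h4 : (m : k) • f - Lg g (comp d n a) ∈ Dlt (k := k) n := by
      apply mem_Dlt_succ_of
      · exact Submodule.sub_mem _ (Submodule.smul_mem _ _ hf) (Rn_le_Dlt hg _ (comp_mem_Rn n a))
      · rw [map_sub, h2, map_smul, smul_eq_mul, sub_self]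
    obtain ⟨m', hm', h5⟩ := ih _ h3 h4
    refine ⟨m' * m, Nat.mul_pos hm' hm, ?_⟩
    have h6 : ((m' * m : ℕ) : k) • f =
        (m' : k) • ((m : k) • f - Lg g (comp d n a)) + (m' : k) • Lg g (comp d n a) := by
      rw [smul_sub, sub_add_cancel, Nat.cast_mul, mul_smul]
    rw [h6]
    exact Submodule.add_mem _ (Rn_mono (by omega) h5) (Submodule.smul_mem _ _ (comp_mem_Rn n a))

/-- The uniform bound of Buchberger type. -/
theorem uniform_step (hG : GradedCoherent (gr k)) :
    ∃ M : ℕ, 0 < M ∧ ∀ n : ℕ, ∀ f ∈ Rn d g (n + 1), f ∈ Dlt (k := k) n →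
      (M : k) • f ∈ Rn d g n := by
  obtain ⟨S, hS⟩ := syz_fg hG (lt d g) (fun i => ⟨_, _, rfl⟩)
  have hker : ∀ σ : Fin s → DP k, σ ∈ LinearMap.ker (Fintype.linearCombination (DP k) (lt d g)) ↔
      Lg (lt d g) σ = 0 := fun σ => Iff.rfl
  -- a single relation and a single degree
  have h1 : ∀ (σ : Fin s → DP k), Lg (lt d g) σ = 0 → ∀ n : ℕ, ∃ m : ℕ, 0 < m ∧
      (m : k) • Lg g (comp d n σ) ∈ Rn d g n := by
    intro σ hσ n
    refine division hI hg hQ n _ (Lg_mem_ideal hI _) ?_
    apply mem_Dlt_succ_of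
    · exact Rn_le_Dlt hg _ (comp_mem_Rn n σ)
    · rw [cf_Lg_top hg n _ (comp_mem_Dlt n σ), Lg_lt_comp, cf_mono_self, hσ, map_zero]
  -- a single relation and all degrees
  have h2 : ∀ (σ : Fin s → DP k), Lg (lt d g) σ = 0 → ∃ m : ℕ, 0 < m ∧ ∀ n : ℕ,
      (m : k) • Lg g (comp d n σ) ∈ Rn d g n := by
    intro σ hσ
    -- the components vanish in large degree
    have h3 : ∃ N : ℕ, ∀ n, N ≤ n → comp d n σ = 0 := by
      choose b hb using fun i => exists_mem_Dlt (σ i)
      refine ⟨∑ i, (b i + d i), fun n hn => ?_⟩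
      funext i
      have h4 : b i + d i ≤ n :=
        (Finset.single_le_sum (f := fun i => b i + d i) (fun _ _ => Nat.zero_le _)
          (Finset.mem_univ i)).trans hn
      rw [comp_apply, if_pos (by omega), hb i (n - d i) (by omega), map_zero]
      rfl
    obtain ⟨N, hN⟩ := h3
    have h4 : ∀ N' : ℕ, ∃ m : ℕ, 0 < m ∧ ∀ n < N', (m : k) • Lg g (comp d n σ) ∈ Rn d g n := by
      intro N'
      induction N' with
      | zero => exact ⟨1, one_pos, fun n hn => by omega⟩
      | succ N' ih =>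
        obtain ⟨m, hm, h5⟩ := ih
        obtain ⟨m', hm', h6⟩ := h1 σ hσ N'
        refine ⟨m * m', Nat.mul_pos hm hm', fun n hn => ?_⟩
        rcases Nat.lt_or_ge n N' with h7 | h7
        · rw [mul_comm, Nat.cast_mul, mul_smul]
          exact Submodule.smul_mem _ _ (h5 n h7)
        · have h8 : n = N' := by omega
          rw [h8, Nat.cast_mul, mul_smul]
          exact Submodule.smul_mem _ _ h6
    obtain ⟨m, hm, h5⟩ := h4 N
    refine ⟨m, hm, fun n => ?_⟩
    rcases Nat.lt_or_ge n N with h6 | h6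
    · exact h5 n h6
    · rw [hN n h6, map_zero, smul_zero]
      exact Submodule.zero_mem _
  -- all relations in `S`
  have h3 : ∃ M : ℕ, 0 < M ∧ ∀ σ ∈ S, ∀ n, (M : k) • Lg g (comp d n σ) ∈ Rn d g n := by
    have hS' : ∀ σ ∈ S, Lg (lt d g) σ = 0 := by
      intro σ hσ
      rw [← hker, ← hS]
      exact Submodule.subset_span hσ
    clear hS
    classical
    induction S using Finset.induction_on with
    | empty => exact ⟨1, one_pos, by simp⟩
    | insert x S hx ih =>
      obtain ⟨m, hm, h5⟩ := ih (fun σ hσ => hS' σ (Finset.mem_insert_of_mem hσ))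
      obtain ⟨m', hm', h6⟩ := h2 x (hS' x (Finset.mem_insert_self _ _))
      refine ⟨m * m', Nat.mul_pos hm hm', fun σ hσ n => ?_⟩
      rcases Finset.mem_insert.1 hσ with rfl | h7
      · rw [Nat.cast_mul, mul_smul]
        exact Submodule.smul_mem _ _ (h6 n)
      · rw [mul_comm, Nat.cast_mul, mul_smul]
        exact Submodule.smul_mem _ _ (h5 σ h7 n)
  obtain ⟨M, hM, h4⟩ := h3
  refine ⟨M, hM, ?_⟩
  -- all relations
  have h5 : ∀ x ∈ Submodule.span (DP k) (S : Set (Fin s → DP k)), ∀ n,
      (M : k) • Lg g (comp d n x) ∈ Rn d g n := by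
    intro x hx
    induction hx using Submodule.span_induction with
    | mem x hx => exact h4 x hx
    | zero => intro n; rw [map_zero, map_zero, smul_zero]; exact Submodule.zero_mem _
    | add x y _ _ ihx ihy =>
      intro n
      rw [map_add, map_add, smul_add]
      exact Submodule.add_mem _ (ihx n) (ihy n)
    | smul a x _ ihx =>
      induction a using DP.induction with
      | zero => intro n; rw [zero_smul, map_zero, map_zero, smul_zero]; exact Submodule.zero_mem _
      | add a a' ha ha' =>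
        intro n
        rw [add_smul, map_add, map_add, smul_add]
        exact Submodule.add_mem _ (ha n) (ha' n)
      | mono m b =>
        intro n
        rw [comp_smul_mono]
        by_cases h6 : m ≤ n
        · rw [if_pos h6]
          have h7 := mono_mul_Rn (m := m) b (ihx (n - m))
          have h8 : m + (n - m) = n := by omega
          rw [h8] at h7
          have h9 : (M : k) • Lg g (mono m b • comp d (n - m) x) =
              mono m b * ((M : k) • Lg g (comp d (n - m) x)) := by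
            rw [Lg_apply, Lg_apply, mul_smul_comm, Finset.mul_sum]
            congr 1
            refine Finset.sum_congr rfl fun i _ => ?_
            rw [Pi.smul_apply, smul_eq_mul, mul_assoc]
          rw [h9]
          exact h7
        · rw [if_neg h6, map_zero, smul_zero]
          exact Submodule.zero_mem _
  intro n f hf hfn
  rw [mem_Rn] at hf
  obtain ⟨h, hh, rfl⟩ := hf
  have h6 : Lg g h = Lg g (h - comp d n h) + Lg g (comp d n h) := by
    rw [← map_add, sub_add_cancel]
  have h7 : Lg g (h - comp d n h) ∈ Rn d g n := by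
    rw [mem_Rn]
    exact ⟨_, fun i => sub_comp_mem_Dlt n h hh i, rfl⟩
  have h8 : comp d n h ∈ Submodule.span (DP k) (S : Set (Fin s → DP k)) := by
    rw [hS, hker, Lg_lt_comp, ← cf_Lg_top hg n h hh, hfn n le_rfl, map_zero]
  have h9 : comp d n (comp d n h) = comp d n h := by
    funext i
    rw [comp_apply, comp_apply]
    split_ifs with h10
    · rw [cf_mono_self]
    · rfl
  have h10 := h5 _ h8 n
  rw [h9] at h10
  rw [h6, smul_add]
  exact Submodule.add_mem _ (Submodule.smul_mem _ _ h7) h10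

/-- Away from finitely many primes the leading terms of the `gᵢ` generate the initial ideal. -/
theorem uniform (hG : GradedCoherent (gr k)) (hspan : I ≤ Ideal.span (Set.range g)) :
    ∃ M : ℕ, 0 < M ∧ ∀ n : ℕ, ∀ f ∈ I, f ∈ Dlt (k := k) (n + 1) → ∃ e : ℕ,
      ((M ^ e : ℕ) : k) • mono n (cf n f) ∈ Ideal.span (Set.range (lt d g)) := by
  obtain ⟨M, hM, h1⟩ := uniform_step hI hg hQ hG
  refine ⟨M, hM, fun n f hf hfn => ?_⟩
  -- `f` has some formal degree
  have h2 : ∃ n', f ∈ Rn d g n' := by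
    have h3 : f ∈ LinearMap.range (Fintype.linearCombination (DP k) g) := by
      rw [Fintype.range_linearCombination]
      exact hspan hf
    obtain ⟨h, hh⟩ := h3
    choose b hb using fun i => exists_mem_Dlt (h i)
    refine ⟨∑ i, (b i + d i), ?_⟩
    rw [mem_Rn]
    refine ⟨h, fun i => ?_, hh⟩
    have h4 : b i + d i ≤ ∑ i, (b i + d i) :=
      Finset.single_le_sum (f := fun i => b i + d i) (fun _ _ => Nat.zero_le _)
          (Finset.mem_univ i)
    exact Dlt_mono (by omega) (hb i)
  obtain ⟨n', hn'⟩ := h2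
  have h3 : ∀ t : ℕ, ∀ f : DP k, f ∈ Rn d g (n + 1 + t) → f ∈ Dlt (k := k) (n + 1) → ∃ e : ℕ,
      ((M ^ e : ℕ) : k) • f ∈ Rn d g (n + 1) := by
    intro t
    induction t with
    | zero =>
      intro f hf _
      refine ⟨0, ?_⟩
      rw [pow_zero, Nat.cast_one, one_smul]
      exact hf
    | succ t ih =>
      intro f hf hfn
      have h4 := h1 (n + 1 + t) f hf (Dlt_mono (by omega) hfn)
      obtain ⟨e, he⟩ := ih _ h4 (Submodule.smul_mem _ _ hfn)
      refine ⟨e + 1, ?_⟩
      rw [pow_succ, Nat.cast_mul, mul_smul]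
      exact he
  obtain ⟨e, he⟩ := h3 n' f (Rn_mono (by omega) hn') hfn
  refine ⟨e, ?_⟩
  have h4 := top_mem_span hg he
  rwa [map_smul, map_smul] at h4

end

end DP

end Pool.Agent.H43.Grob
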