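import Mathlib

set_option autoImplicit false

/-!
# Gröbner-coherence and the divided power algebra in one variable
-/

namespace Pool.Agent.H43.Grob

open DirectSum

universe u v

section Graded

variable {R σ : Type*} [CommRing R] [SetLike σ R] [AddSubgroupClass σ R]
  (𝒜 : ℕ → σ) [GradedRing 𝒜]

/-- The graded ring `R` is graded-coherent: every finitely generated homogeneous ideal is finitely
presented. -/
def GradedCoherent : Prop :=
  ∀ I : Ideal R, I.IsHomogeneous 𝒜 → I.FG → Module.FinitePresentation R I

/-- `g` is the nonzero homogeneous component of `f` of largest degree. -/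
def IsInitialForm (f g : R) : Prop :=
  ∃ n : ℕ, g = GradedRing.proj 𝒜 n f ∧ g ≠ 0 ∧ ∀ m : ℕ, n < m → GradedRing.proj 𝒜 m f = 0

/-- The initial ideal of `I`: the ideal generated by the initial forms of the nonzero elements
of `I`. -/
def initialIdeal (I : Ideal R) : Ideal R :=
  Ideal.span {g : R | ∃ f ∈ I, IsInitialForm 𝒜 f g}

/-- The graded ring `R` is Gröbner-coherent: it is graded-coherent and the initial ideal of every
finitely generated ideal is finitely generated. -/
def GroebnerCoherent : Prop :=
  GradedCoherent 𝒜 ∧ ∀ I : Ideal R, I.FG → (initialIdeal 𝒜 I).FG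

end Graded

/-- The divided power algebra in one variable over `k`: the free `k`-module with basis
`x^[n]`, `n : ℕ`; an element is given by its coefficients. -/
def DP (k : Type u) [CommRing k] : Type u := ℕ →₀ k

namespace DP

variable {k : Type u} [CommRing k]

noncomputable instance : AddCommGroup (DP k) := Finsupp.instAddCommGroup
noncomputable instance : Module k (DP k) := Finsupp.module ℕ k

/-- The coefficients of an element. -/
noncomputable def fs : DP k ≃ₗ[k] (ℕ →₀ k) := LinearEquiv.refl k (ℕ →₀ k)

/-- The element `a x^[n]`. -/
noncomputable def mono (n : ℕ) : k →ₗ[k] DP k := fs.symm.toLinearMap ∘ₗ Finsupp.lsingle n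

/-- The bilinear multiplication with `x^[n] x^[m] = binom(n + m, n) x^[n + m]`. -/
noncomputable def mulL : DP k →ₗ[k] DP k →ₗ[k] DP k :=
  (Finsupp.linearCombination k fun n : ℕ =>
    (Finsupp.linearCombination k fun m : ℕ => mono (n + m) ((n + m).choose n : k)) ∘ₗ
      (fs : DP k ≃ₗ[k] (ℕ →₀ k)).toLinearMap) ∘ₗ (fs : DP k ≃ₗ[k] (ℕ →₀ k)).toLinearMap

noncomputable instance : Mul (DP k) := ⟨fun a b => mulL a b⟩
noncomputable instance : One (DP k) := ⟨mono 0 1⟩

theorem mul_def (a b : DP k) : a * b = mulL a b := rfl
theorem one_def : (1 : DP k) = mono 0 1 := rfl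

theorem fs_mono (n : ℕ) (a : k) : fs (mono n a) = Finsupp.single n a := by
  simp [mono]

theorem mono_mul_mono (n m : ℕ) (a b : k) :
    mono n a * mono m b = mono (n + m) (((n + m).choose n : k) * (a * b)) := by
  rw [mul_def, mulL]
  simp only [LinearMap.comp_apply, LinearEquiv.coe_coe, fs_mono, Finsupp.linearCombination_single,
    LinearMap.smul_apply]
  rw [← map_smul, ← map_smul, smul_eq_mul, smul_eq_mul]
  congr 1
  ring

theorem induction {motive : DP k → Prop} (f : DP k) (zero : motive 0)
    (add : ∀ f g, motive f → motive g → motive (f + g))
    (mono : ∀ n a, motive (mono n a)) : motive f := by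
  have h : ∀ g : ℕ →₀ k, motive (fs.symm g) := by
    intro g
    induction g using Finsupp.induction_linear with
    | zero => rw [map_zero]; exact zero
    | add g g' hg hg' => rw [map_add]; exact add _ _ hg hg'
    | single n a => exact mono n a
  have h' := h (fs f)
  rwa [LinearEquiv.symm_apply_apply] at h'

protected theorem left_distrib' (a b c : DP k) : a * (b + c) = a * b + a * c := by
  rw [mul_def, mul_def, mul_def, map_add]

protected theorem right_distrib' (a b c : DP k) : (a + b) * c = a * c + b * c := by
  rw [mul_def, mul_def, mul_def, map_add, LinearMap.add_apply]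

protected theorem zero_mul' (a : DP k) : 0 * a = 0 := by
  rw [mul_def, map_zero, LinearMap.zero_apply]

protected theorem mul_zero' (a : DP k) : a * 0 = 0 := by
  rw [mul_def, map_zero]

protected theorem mul_comm' (a b : DP k) : a * b = b * a := by
  induction a using DP.induction with
  | zero => rw [DP.zero_mul', DP.mul_zero']
  | add a a' ha ha' => rw [DP.right_distrib', DP.left_distrib', ha, ha']
  | mono n a =>
    induction b using DP.induction with
    | zero => rw [DP.zero_mul', DP.mul_zero']
    | add b b' hb hb' => rw [DP.right_distrib', DP.left_distrib', hb, hb']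
    | mono m b =>
      rw [mono_mul_mono, mono_mul_mono, add_comm m n, mul_comm b a,
        Nat.choose_symm_of_eq_add (rfl : n + m = n + m)]

protected theorem mul_assoc' (a b c : DP k) : a * b * c = a * (b * c) := by
  induction a using DP.induction with
  | zero => rw [DP.zero_mul', DP.zero_mul', DP.zero_mul']
  | add a a' ha ha' => rw [DP.right_distrib', DP.right_distrib', DP.right_distrib', ha, ha']
  | mono n a =>
    induction b using DP.induction with
    | zero => rw [DP.mul_zero', DP.zero_mul', DP.mul_zero']
    | add b b' hb hb' =>
      rw [DP.right_distrib', DP.left_distrib', DP.left_distrib', DP.right_distrib', hb, hb']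
    | mono m b =>
      induction c using DP.induction with
      | zero => rw [DP.mul_zero', DP.mul_zero', DP.mul_zero']
      | add c c' hc hc' => rw [DP.left_distrib', DP.left_distrib', DP.left_distrib', hc, hc']
      | mono l c =>
        rw [mono_mul_mono, mono_mul_mono, mono_mul_mono, mono_mul_mono, add_assoc n m l]
        congr 1
        have h : (n + m + l).choose (n + m) * (n + m).choose n =
            (n + (m + l)).choose n * (m + l).choose m := by
          have h1 := Nat.choose_mul (n := n + m + l) (k := n + m) (s := n) (by omega)
          rw [h1, add_assoc, Nat.add_sub_cancel_left, Nat.add_sub_cancel_left]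
        have h' : ((n + m + l).choose (n + m) : k) * ((n + m).choose n : k) =
            ((n + (m + l)).choose n : k) * ((m + l).choose m : k) := by
          exact_mod_cast congrArg (Nat.cast (R := k)) h
        rw [add_assoc] at h'
        linear_combination (a * b * c) * h'

protected theorem one_mul' (a : DP k) : 1 * a = a := by
  induction a using DP.induction with
  | zero => rw [DP.mul_zero']
  | add a a' ha ha' => rw [DP.left_distrib', ha, ha']
  | mono n a => rw [one_def, mono_mul_mono]; simp

noncomputable instance : CommRing (DP k) :=
  { (inferInstance : AddCommGroup (DP k)) with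
    left_distrib := DP.left_distrib'
    right_distrib := DP.right_distrib'
    zero_mul := DP.zero_mul'
    mul_zero := DP.mul_zero'
    mul_assoc := DP.mul_assoc'
    one_mul := DP.one_mul'
    mul_one := fun a => by rw [DP.mul_comm', DP.one_mul']
    mul_comm := DP.mul_comm' }

noncomputable instance : Algebra k (DP k) :=
  Algebra.ofModule (fun r a b => by rw [mul_def, mul_def, map_smul, LinearMap.smul_apply])
    (fun r a b => by rw [mul_def, mul_def, map_smul])

/-- The homogeneous elements of degree `n`: the multiples of `x^[n]`. -/
noncomputable def gr (k : Type u) [CommRing k] (n : ℕ) : Submodule k (DP k) :=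
  LinearMap.range (mono (k := k) n)

theorem mono_mem_gr (n : ℕ) (a : k) : mono n a ∈ gr k n := ⟨a, rfl⟩

instance : SetLike.GradedMonoid (gr k) where
  one_mem := mono_mem_gr 0 1
  mul_mem := by
    rintro n m _ _ ⟨a, rfl⟩ ⟨b, rfl⟩
    rw [mono_mul_mono]
    exact mono_mem_gr _ _

/-- The decomposition into homogeneous components. -/
noncomputable def decomp : DP k →ₗ[k] ⨁ n, gr k n :=
  (Finsupp.lsum k fun n => (DirectSum.lof k ℕ (fun n => gr k n) n) ∘ₗ
    (mono n).codRestrict (gr k n) (mono_mem_gr n)) ∘ₗ (fs : DP k ≃ₗ[k] (ℕ →₀ k)).toLinearMap

theorem decomp_mono (n : ℕ) (a : k) :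
    decomp (mono n a) = DirectSum.lof k ℕ (fun n => gr k n) n ⟨mono n a, mono_mem_gr n a⟩ := by
  simp only [decomp, LinearMap.comp_apply, LinearEquiv.coe_coe, fs_mono, Finsupp.lsum_single]
  rfl

/-- `DP k` is the direct sum of its homogeneous parts. -/
theorem gr_isInternal : DirectSum.IsInternal (gr k) := by
  have hl : ∀ f : DP k, DirectSum.coeAddMonoidHom (gr k) (decomp f) = f := by
    intro f
    induction f using DP.induction with
    | zero => simp
    | add f g hf hg => rw [map_add, map_add, hf, hg]
    | mono n a =>
      rw [decomp_mono]
      exact DirectSum.coeAddMonoidHom_of (gr k) n _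
  have hr : ∀ f : ⨁ n, gr k n, decomp (DirectSum.coeAddMonoidHom (gr k) f) = f := by
    intro f
    induction f using DirectSum.induction_on with
    | zero => simp
    | add f g hf hg => rw [map_add, map_add, hf, hg]
    | of n a =>
      obtain ⟨_, a, rfl⟩ := a
      rw [DirectSum.coeAddMonoidHom_of]
      exact decomp_mono n a
  exact Function.bijective_iff_has_inverse.2 ⟨decomp, hr, hl⟩

noncomputable instance : DirectSum.Decomposition (gr k) := gr_isInternal.chooseDecomposition

noncomputable instance : GradedRing (gr k) where

end DP

/-- The standard grading of the polynomial ring. -/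
noncomputable def polyGr (K : Type u) [CommRing K] (n : ℕ) : Submodule K (Polynomial K) :=
  LinearMap.range (Polynomial.monomial n)

namespace polyGr

variable {K : Type u} [CommRing K]

theorem monomial_mem (n : ℕ) (a : K) : Polynomial.monomial n a ∈ polyGr K n := ⟨a, rfl⟩

instance : SetLike.GradedMonoid (polyGr K) where
  one_mem := monomial_mem 0 1
  mul_mem := by
    rintro n m _ _ ⟨a, rfl⟩ ⟨b, rfl⟩
    rw [Polynomial.monomial_mul_monomial]
    exact monomial_mem _ _

/-- The decomposition into homogeneous components. -/
noncomputable def decomp (f : Polynomial K) : ⨁ n, polyGr K n :=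
  f.sum fun n a => DirectSum.lof K ℕ (fun n => polyGr K n) n
    ⟨Polynomial.monomial n a, monomial_mem n a⟩

theorem decomp_monomial (n : ℕ) (a : K) :
    decomp (Polynomial.monomial n a) = DirectSum.lof K ℕ (fun n => polyGr K n) n
      ⟨Polynomial.monomial n a, monomial_mem n a⟩ := by
  unfold decomp
  rw [Polynomial.sum_monomial_index]
  have : (⟨Polynomial.monomial n 0, monomial_mem n 0⟩ : polyGr K n) = 0 := by
    apply Subtype.ext
    simp
  rw [this, map_zero]

theorem decomp_add (f g : Polynomial K) : decomp (f + g) = decomp f + decomp g := by
  unfold decomp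
  rw [Polynomial.sum_add_index]
  · intro n
    have : (⟨Polynomial.monomial n 0, monomial_mem n 0⟩ : polyGr K n) = 0 := by
      apply Subtype.ext
      simp
    rw [this, map_zero]
  · intro n a b
    rw [← map_add]
    congr 1
    apply Subtype.ext
    simp

theorem decomp_zero : decomp (0 : Polynomial K) = 0 := by
  simp [decomp]

/-- The polynomial ring is the direct sum of its homogeneous parts. -/
theorem isInternal : DirectSum.IsInternal (polyGr K) := by
  have hl : ∀ f : Polynomial K, DirectSum.coeAddMonoidHom (polyGr K) (decomp f) = f := by
    intro f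
    induction f using Polynomial.induction_on' with
    | add f g hf hg => rw [decomp_add, map_add, hf, hg]
    | monomial n a =>
      rw [decomp_monomial]
      exact DirectSum.coeAddMonoidHom_of (polyGr K) n _
  have hr : ∀ f : ⨁ n, polyGr K n, decomp (DirectSum.coeAddMonoidHom (polyGr K) f) = f := by
    intro f
    induction f using DirectSum.induction_on with
    | zero => rw [map_zero, decomp_zero]
    | add f g hf hg => rw [map_add, decomp_add, hf, hg]
    | of n a =>
      obtain ⟨_, a, rfl⟩ := a
      rw [DirectSum.coeAddMonoidHom_of]
      exact decomp_monomial n a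
  exact Function.bijective_iff_has_inverse.2 ⟨decomp, hr, hl⟩

noncomputable instance : DirectSum.Decomposition (polyGr K) := isInternal.chooseDecomposition

noncomputable instance : GradedRing (polyGr K) where

end polyGr

end Pool.Agent.H43.Grob
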