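import Pool.Agent.helper43.DPPer

set_option autoImplicit false

namespace Pool.Agent.H43.Grob

universe u v

namespace DP

variable {k : Type u} [CommRing k]

/-- The leading coefficients in degree `n` of the elements of an ideal. -/
noncomputable def Ln (I : Ideal (DP k)) (n : ℕ) : Submodule k k :=
  (I.restrictScalars k ⊓ Dlt (n + 1)).map (cf n)

theorem mem_Ln {I : Ideal (DP k)} {n : ℕ} {c : k} :
    c ∈ Ln I n ↔ ∃ f ∈ I, f ∈ Dlt (k := k) (n + 1) ∧ cf n f = c := by
  unfold Ln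
  rw [Submodule.mem_map]
  constructor
  · rintro ⟨f, ⟨h1, h2⟩, h3⟩
    exact ⟨f, h1, h2, h3⟩
  · rintro ⟨f, h1, h2, h3⟩
    exact ⟨f, ⟨h1, h2⟩, h3⟩

section
variable {p : ℕ} (hp : p.Prime) (hunit : ∀ s : ℕ, ¬ p ∣ s → IsUnit (s : k)) (m : ℕ)
  {H : Submodule k (DP k)} (hHd : H ≤ Dlt (2 * p ^ m)) {I : Ideal (DP k)}
  (hHI : ∀ h ∈ H, h ∈ I) (hspan : ∀ f ∈ I, ∃ n, f ∈ Pn p m H n)

include hp hunit hHd hHI hspan

theorem Ln_eq (t i : ℕ) (hi : i < p ^ m) :
    Ln I (t * p ^ m + i) = (Et p m H t ⊓ Dlt (i + 1)).map (cf i) := by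
  have hu := unit_choose hp hunit m t i hi
  ext c
  rw [mem_Ln, Submodule.mem_map]
  constructor
  · rintro ⟨f, hf, hfd, hfc⟩
    have h1 : f ∈ Dlt (k := k) ((t + 1) * p ^ m) := Dlt_mono (by rw [add_mul]; omega) hfd
    have h2 : blk p m t f ∈ Dlt (k := k) (i + 1) := by
      intro j hj
      by_cases hj' : j < p ^ m
      · rw [cf_blk p m t j hj', hfd _ (by omega), mul_zero]
      · exact blk_mem p m t f j (by omega)
    refine ⟨((t * p ^ m + i).choose i : k) • blk p m t f,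
      ⟨Submodule.smul_mem _ _ (blk_mem_Et hp hunit m hHd hspan t hf h1),
        Submodule.smul_mem _ _ h2⟩, ?_⟩
    rw [map_smul, smul_eq_mul, ← cf_eq_blk hp hunit m t i hi, hfc]
  · rintro ⟨b, ⟨hb, hbd⟩, hbc⟩
    obtain ⟨f, hf, hfd, hfb⟩ := exists_of_mem_Et hp hunit m hHd hHI t hb
    have h1 : f ∈ Dlt (k := k) (t * p ^ m + i + 1) := by
      intro j hj
      by_cases hj' : j < (t + 1) * p ^ m
      · rw [add_mul, one_mul] at hj'
        obtain ⟨i', rfl⟩ : ∃ i', j = t * p ^ m + i' := ⟨j - t * p ^ m, by omega⟩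
        rw [cf_eq_blk hp hunit m t i' (by omega), hfb, hbd i' (by omega), mul_zero]
      · exact hfd j (by omega)
    refine ⟨mono 0 (Ring.inverse ((t * p ^ m + i).choose i : k)) * f, I.mul_mem_left _ hf, ?_, ?_⟩
    · rw [← smul_eq_mono_mul]
      exact Submodule.smul_mem _ _ h1
    · rw [← smul_eq_mono_mul, map_smul, smul_eq_mul, cf_eq_blk hp hunit m t i hi, hfb, hbc,
        ← mul_assoc, Ring.inverse_mul_cancel _ hu, one_mul]

omit hHd hHI hspan

/-- The shape of the leading modules in large degree. -/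
theorem Et_shape (c c' : ℕ) (hcc : c ≤ c')
    (hper : ∀ t j, Us p m H (t + p ^ c * j) = Us p m H t)
    (htor : ∀ i < p ^ m, ∀ x ∈ Dlt (k := k) (p ^ m), (∃ a : ℕ, 0 < a ∧
      (a : k) • x ∈ Us p m H 0 ⊔ Dlt (i + 1)) → ((p ^ c' : ℕ) : k) • x ∈ Us p m H 0 ⊔ Dlt (i + 1))
    (s j i : ℕ) (hs : s < p ^ c') (hj : 0 < j) (hi : i < p ^ m)
    {b : DP k} (hb : b ∈ Et p m H (s + p ^ c' * j)) (hbd : b ∈ Dlt (k := k) (i + 1)) :
    ∃ b₁ ∈ Et p m H s, b₁ ∈ Dlt (k := k) (i + 1) ∧ ∃ b₂ ∈ Et p m H (s + p ^ c'),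
      b₂ ∈ Dlt (k := k) (i + 1) ∧ cf i b = cf i b₁ + (j : k) * cf i b₂ := by
  have hper' : ∀ t j, Us p m H (t + p ^ c' * j) = Us p m H t := by
    intro t j
    obtain ⟨l, rfl⟩ : ∃ l, c' = c + l := ⟨c' - c, by omega⟩
    rw [pow_add, mul_assoc]
    exact hper _ _
  rcases Nat.eq_zero_or_pos s with rfl | hs0
  · rw [zero_add] at hb
    obtain ⟨x, hx, y, hy, hxy⟩ := Submodule.mem_sup.1 hb
    obtain ⟨h, hh, rfl⟩ := hy
    have hx0 : x ∈ Us p m H 0 := by
      have := hper' 0 j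
      rw [zero_add] at this
      rwa [this] at hx
    set a := blk p m 1 h with ha
    have had : a ∈ Dlt (k := k) (p ^ m) := blk_mem p m 1 h
    have h1 : ((p ^ c' * j : ℕ) : k) • a ∈ Us p m H 0 ⊔ Dlt (i + 1) := by
      have h2 : ((p ^ c' * j : ℕ) : k) • a = -x + b := by
        rw [← hxy, LinearMap.smul_apply, ← add_assoc, neg_add_cancel, zero_add]
      rw [h2]
      exact Submodule.add_mem _ (Submodule.mem_sup_left (Submodule.neg_mem _ hx0))
        (Submodule.mem_sup_right hbd)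
    have h3 := htor i hi a had ⟨_, Nat.mul_pos (pow_pos hp.pos c') hj, h1⟩
    obtain ⟨u', hu', κ, hκ, huκ⟩ := Submodule.mem_sup.1 h3
    have h4 : b = (x + (j : k) • u') + (j : k) • κ := by
      rw [← hxy, LinearMap.smul_apply, ← ha, mul_comm, Nat.cast_mul, mul_smul, ← huκ, smul_add,
        add_assoc]
    have h5 : x + (j : k) • u' ∈ Dlt (k := k) (i + 1) := by
      have h6 : x + (j : k) • u' = b - (j : k) • κ := by
        rw [h4, add_sub_cancel_right]
      rw [h6]
      exact Submodule.sub_mem _ hbd (Submodule.smul_mem _ _ hκ)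
    refine ⟨x + (j : k) • u', ?_, h5, κ, ?_, hκ, ?_⟩
    · exact Submodule.mem_sup_left (Submodule.add_mem _ hx0 (Submodule.smul_mem _ _ hu'))
    · have h7 : κ = -u' + ((p ^ c' : ℕ) : k) • a := by
        rw [← huκ, ← add_assoc, neg_add_cancel, zero_add]
      rw [h7, zero_add]
      refine Submodule.add_mem _ (Submodule.mem_sup_left ?_) (Submodule.mem_sup_right ?_)
      · have h8 := hper' 0 1
        rw [zero_add, mul_one] at h8
        rw [h8]
        exact Submodule.neg_mem _ hu'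
      · exact ⟨h, hh, rfl⟩
    · conv_lhs => rw [h4, map_add, map_smul, smul_eq_mul]
  · have h1 : ¬ p ^ c' ∣ s := fun h => by
      have := Nat.le_of_dvd hs0 h
      omega
    obtain ⟨u, hu⟩ := add_unit hp hunit c' s j h1
    have h2 : Et p m H (s + p ^ c' * j) = Et p m H s := by
      unfold Et
      rw [hper', hu]
      congr 1
      ext x
      constructor
      · rintro ⟨h, hh, rfl⟩
        refine ⟨(u : k) • h, H.smul_mem _ hh, ?_⟩
        rw [LinearMap.smul_apply, LinearMap.smul_apply, map_smul, smul_smul]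
      · rintro ⟨h, hh, rfl⟩
        refine ⟨((u⁻¹ : kˣ) : k) • h, H.smul_mem _ hh, ?_⟩
        rw [LinearMap.smul_apply, LinearMap.smul_apply, map_smul, smul_smul, mul_assoc,
          Units.mul_inv, mul_one]
    rw [h2] at hb
    exact ⟨b, hb, hbd, 0, Submodule.zero_mem _, Submodule.zero_mem _, by
      rw [map_zero, mul_zero, add_zero]⟩

include hHd hHI hspan

/-- The local case: the initial ideal is finitely generated. -/
theorem local_aux (hC : Coh k) (hB : Bd k) (hH : H.FG)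
    {V : Submodule k (DP k)} (hV : V.FG) (hVI : ∀ v ∈ V, v ∈ I) (hVd : V ≤ Dlt (p ^ m))
    (hVt : ∀ f ∈ I, f ∈ Dlt (k := k) (p ^ m) → ∃ a : ℕ, 0 < a ∧ (a : k) • f ∈ V) :
    ∃ G : Finset (DP k), (∀ g ∈ G, g ∈ Lset I) ∧ Lset I ⊆ Ideal.span (G : Set (DP k)) := by
  obtain ⟨c, hfg, hper⟩ := exists_period hp hunit m hHd hC hB hH hHI hspan hV hVI hVd hVt
  have hEfg : ∀ t, (Et p m H t).FG := fun t => (hfg t).sup (hH.map _)
  -- the torsion bound
  have htor : ∃ c', c ≤ c' ∧ ∀ i < p ^ m, ∀ x ∈ Dlt (k := k) (p ^ m), (∃ a : ℕ, 0 < a ∧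
      (a : k) • x ∈ Us p m H 0 ⊔ Dlt (i + 1)) →
        ((p ^ c' : ℕ) : k) • x ∈ Us p m H 0 ⊔ Dlt (i + 1) := by
    have h1 : ∀ i, ∃ c', ∀ x ∈ Dlt (k := k) (p ^ m), (∃ a : ℕ, 0 < a ∧
      (a : k) • x ∈ Us p m H 0 ⊔ Dlt (i + 1)) →
        ((p ^ c' : ℕ) : k) • x ∈ Us p m H 0 ⊔ Dlt (i + 1) := by
      intro i
      obtain ⟨N, hN, hNt⟩ := bd_DP hC hB ((hfg 0).sup (Dlt_fg (i + 1))) (p ^ m)
      obtain ⟨c', u, hNu, -, -⟩ := exists_pow_unit hp hunit N hN
      refine ⟨c', fun x hx hax => ?_⟩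
      have h1 := (Us p m H 0 ⊔ Dlt (i + 1)).smul_mem ((u⁻¹ : kˣ) : k) (hNt x hx hax)
      rwa [smul_smul, hNu, mul_comm, mul_assoc, Units.mul_inv, mul_one] at h1
    choose c' hc' using h1
    refine ⟨c + ∑ i ∈ Finset.range (p ^ m), c' i, by omega, fun i hi x hx hax => ?_⟩
    have h2 := hc' i x hx hax
    have h3 : c' i ≤ c + ∑ i ∈ Finset.range (p ^ m), c' i :=
      (Finset.single_le_sum (fun _ _ => Nat.zero_le _) (Finset.mem_range.2 hi)).trans (by omega)
    obtain ⟨l, hl⟩ : ∃ l, c + ∑ i ∈ Finset.range (p ^ m), c' i = l + c' i :=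
      ⟨c + ∑ i ∈ Finset.range (p ^ m), c' i - c' i, by omega⟩
    rw [hl, pow_add, Nat.cast_mul, mul_smul]
    exact Submodule.smul_mem _ _ h2
  obtain ⟨c', hcc, htor⟩ := htor
  set N := p ^ c' * p ^ m with hN
  have hNpos : 0 < N := Nat.mul_pos (pow_pos hp.pos _) (pow_pos hp.pos _)
  have hNpow : N = p ^ (c' + m) := by rw [hN, pow_add]
  have hqpos : 0 < p ^ m := pow_pos hp.pos m
  -- finite generation of the leading coefficient ideals
  have hLfg : ∀ n, (Ln I n).FG := by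
    intro n
    have h1 : n = n / p ^ m * p ^ m + n % p ^ m := (Nat.div_add_mod' n (p ^ m)).symm
    rw [h1, Ln_eq hp hunit m hHd hHI hspan _ _ (Nat.mod_lt _ hqpos)]
    exact (inf_fg hC (hEfg _) (Dlt_fg _)).map _
  choose Gn hGn using hLfg
  classical
  set G : Finset (DP k) := (Finset.range (2 * N)).biUnion fun n => (Gn n).image (mono n) with hG
  have hmem : ∀ n < 2 * N, ∀ a ∈ Ln I n, mono n a ∈ Ideal.span (G : Set (DP k)) := by
    intro n hn a ha
    rw [← hGn n] at ha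
    induction ha using Submodule.span_induction with
    | mem x hx =>
      refine Ideal.subset_span ?_
      rw [hG, Finset.mem_coe, Finset.mem_biUnion]
      exact ⟨n, Finset.mem_range.2 hn, Finset.mem_image_of_mem _ hx⟩
    | zero => rw [map_zero]; exact Submodule.zero_mem _
    | add x y _ _ hx hy => rw [map_add]; exact Submodule.add_mem _ hx hy
    | smul r x _ hx =>
      rw [map_smul, smul_eq_mono_mul]
      exact Ideal.mul_mem_left _ _ hx
  refine ⟨G, ?_, ?_⟩
  · intro g hg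
    rw [hG, Finset.mem_biUnion] at hg
    obtain ⟨n, -, hg⟩ := hg
    rw [Finset.mem_image] at hg
    obtain ⟨a, ha, rfl⟩ := hg
    have ha' : a ∈ Ln I n := by rw [← hGn n]; exact Submodule.subset_span ha
    obtain ⟨f, hf, hfd, hfa⟩ := mem_Ln.1 ha'
    exact ⟨n, f, hf, hfd, by rw [hfa]⟩
  · rintro g ⟨n, f, hf, hfd, rfl⟩
    have hcn : cf n f ∈ Ln I n := mem_Ln.2 ⟨f, hf, hfd, rfl⟩
    by_cases hn2 : n < 2 * N
    · exact hmem n hn2 _ hcn
    · -- large degree
      set n₀ := n % N with hn₀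
      set j := n / N with hjdef
      have hn₀N : n₀ < N := Nat.mod_lt _ hNpos
      have hnj : n = n₀ + N * j := (Nat.mod_add_div n N).symm
      have hj2 : 2 ≤ j := by
        by_contra h
        have h1 : N * j ≤ N * 1 := Nat.mul_le_mul_left _ (by omega)
        omega
      set s := n₀ / p ^ m with hs
      set i := n₀ % p ^ m with hi
      have hi' : i < p ^ m := Nat.mod_lt _ hqpos
      have hsi : n₀ = s * p ^ m + i := (Nat.div_add_mod' n₀ (p ^ m)).symm
      have hs' : s < p ^ c' := by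
        rw [hs, Nat.div_lt_iff_lt_mul hqpos]
        exact hn₀N
      have hn' : n = (s + p ^ c' * j) * p ^ m + i := by
        rw [hnj, hsi, hN]; ring
      have hn'' : n₀ + N = (s + p ^ c') * p ^ m + i := by
        rw [hsi, hN]; ring
      have h1 := hcn
      rw [hn', Ln_eq hp hunit m hHd hHI hspan _ _ hi'] at h1
      obtain ⟨b, ⟨hb, hbd⟩, hbc⟩ := h1
      obtain ⟨b₁, hb₁, hb₁d, b₂, hb₂, hb₂d, hbb⟩ := Et_shape hp hunit m c c' hcc hper htor s j i
        hs' (by omega) hi' hb hbd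
      have h2 : cf i b₁ ∈ Ln I n₀ := by
        rw [hsi, Ln_eq hp hunit m hHd hHI hspan _ _ hi']
        exact ⟨b₁, ⟨hb₁, hb₁d⟩, rfl⟩
      have h3 : cf i b₂ ∈ Ln I (n₀ + N) := by
        rw [hn'', Ln_eq hp hunit m hHd hHI hspan _ _ hi']
        exact ⟨b₂, ⟨hb₂, hb₂d⟩, rfl⟩
      have h4 := hmem n₀ (by omega) _ h2
      have h5 := hmem (n₀ + N) (by omega) _ h3
      have h6 : cf n f = cf i b₁ + (j : k) * cf i b₂ := by
        rw [← hbb, hbc, ← hn']
      -- the unit binomials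
      obtain ⟨u₁, hu₁⟩ := unit_choose hp hunit (c' + m) j n₀ (by rw [← hNpow]; exact hn₀N)
      rw [← hNpow] at hu₁
      obtain ⟨u₂, hu₂⟩ := unit_choose hp hunit (c' + m) 1 n₀ (by rw [← hNpow]; exact hn₀N)
      rw [← hNpow, one_mul] at hu₂
      obtain ⟨u₃, hu₃⟩ := choose_block_unit hp hunit (c' + m) (j - 1)
      rw [← hNpow, show j - 1 + 1 = j by omega] at hu₃
      have h7 : mono n (cf i b₁) = mono (j * N) ((u₁⁻¹ : kˣ) : k) * mono n₀ (cf i b₁) := by
        rw [mono_mul_mono, Nat.choose_symm_add, ← hu₁, ← mul_assoc (u₁ : k), Units.mul_inv, one_mul,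
          hnj, add_comm, mul_comm N]
      have h8 : ((j * N + n₀).choose ((j - 1) * N) : k) = (j : k) * (u₃ * u₁ * u₂⁻¹ : kˣ) := by
        have h9 := Nat.choose_mul (n := j * N + n₀) (k := j * N) (s := (j - 1) * N)
          (Nat.mul_le_mul_right _ (by omega))
        have hjN : j * N = (j - 1) * N + N := by
          obtain ⟨j', hj'⟩ : ∃ j', j = j' + 1 := ⟨j - 1, by omega⟩
          rw [hj', Nat.add_sub_cancel]; ring
        have h10 : j * N + n₀ - (j - 1) * N = N + n₀ := by omega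
        have h11 : j * N - (j - 1) * N = N := by omega
        have h12 : (j * N).choose ((j - 1) * N) = (j * N).choose N := by
          rw [hjN, Nat.choose_symm_add]
        rw [h10, h11, h12, Nat.choose_symm_add, Nat.choose_symm_add] at h9
        have h13 : ((j * N + n₀).choose n₀ : k) * ((j * N).choose N : k) =
            ((j * N + n₀).choose ((j - 1) * N) : k) * ((N + n₀).choose n₀ : k) := by
          exact_mod_cast congrArg (Nat.cast (R := k)) h9
        rw [← hu₁, ← hu₂, hu₃] at h13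
        calc ((j * N + n₀).choose ((j - 1) * N) : k)
            = ((j * N + n₀).choose ((j - 1) * N) : k) * (u₂ : k) * ((u₂⁻¹ : kˣ) : k) := by
              rw [mul_assoc, Units.mul_inv, mul_one]
          _ = _ := by
              rw [← h13, Units.val_mul, Units.val_mul]
              ring
      have h9 : mono n ((j : k) * cf i b₂) =
          mono ((j - 1) * N) (((u₃ * u₁ * u₂⁻¹)⁻¹ : kˣ) : k) * mono (n₀ + N) (cf i b₂) := by
        have hjN : (j - 1) * N + (n₀ + N) = j * N + n₀ := by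
          obtain ⟨j', hj'⟩ : ∃ j', j = j' + 1 := ⟨j - 1, by omega⟩
          rw [hj', Nat.add_sub_cancel]; ring
        have hn3 : n = j * N + n₀ := by rw [hnj]; ring
        rw [mono_mul_mono, hjN, h8, ← hn3]
        congr 1
        rw [← mul_assoc, mul_assoc (j : k), Units.mul_inv, mul_one]
      rw [h6, map_add, h7, h9]
      exact Submodule.add_mem _ (Ideal.mul_mem_left _ _ h4) (Ideal.mul_mem_left _ _ h5)

end

end DP

end Pool.Agent.H43.Grob
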