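import Pool.Agent.helper43.DPLin

set_option autoImplicit false

namespace Pool.Agent.H43.Grob

universe u v

namespace DP

variable {k : Type u} [CommRing k]

/-- Relations between homogeneous elements are finitely generated. -/
theorem syz_fg (hG : GradedCoherent (gr k)) {n : ℕ} (e : Fin n → DP k)
    (he : ∀ i, ∃ d c, e i = mono d c) :
    (LinearMap.ker (Fintype.linearCombination (DP k) e)).FG := by
  set J : Ideal (DP k) := Ideal.span (Set.range e) with hJ
  have hJh : J.IsHomogeneous (gr k) := by
    apply Ideal.homogeneous_span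
    rintro _ ⟨i, rfl⟩
    obtain ⟨d, c, h⟩ := he i
    exact ⟨d, by rw [h]; exact mono_mem_gr d c⟩
  have hJf : J.FG := Submodule.fg_span (Set.finite_range e)
  have hpres : Module.FinitePresentation (DP k) J := hG J hJh hJf
  have hmem : ∀ c, Fintype.linearCombination (DP k) e c ∈ J := by
    intro c
    have h := LinearMap.mem_range_self (Fintype.linearCombination (DP k) e) c
    rwa [Fintype.range_linearCombination] at h
  let L : (Fin n → DP k) →ₗ[DP k] J := (Fintype.linearCombination (DP k) e).codRestrict J hmem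
  have hL : Function.Surjective L := by
    rintro ⟨x, hx⟩
    have hx' : x ∈ Submodule.span (DP k) (Set.range e) := hx
    rw [← Fintype.range_linearCombination] at hx'
    obtain ⟨c, hc⟩ := hx'
    exact ⟨c, Subtype.ext hc⟩
  have hker : LinearMap.ker L = LinearMap.ker (Fintype.linearCombination (DP k) e) := by
    ext c
    rw [LinearMap.mem_ker, LinearMap.mem_ker]
    exact Subtype.ext_iff
  rw [← hker]
  exact Module.FinitePresentation.fg_ker L hL

theorem coh_of_graded (hG : GradedCoherent (gr k)) : Coh k := by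
  intro n φ
  set a : Fin n → k := fun i => φ (Pi.single i 1) with ha
  have hφ : ∀ c : Fin n → k, φ c = ∑ i, c i * a i := by
    intro c
    conv_lhs => rw [← Finset.univ_sum_single c, map_sum]
    refine Finset.sum_congr rfl fun i _ => ?_
    rw [ha, show (Pi.single i (c i) : Fin n → k) = c i • Pi.single i (1 : k) by
      rw [← Pi.single_smul, smul_eq_mul, mul_one], map_smul, smul_eq_mul]
  obtain ⟨S, hS⟩ := syz_fg hG (fun i => mono 0 (a i)) (fun i => ⟨0, a i, rfl⟩)
  let ev : (Fin n → DP k) →ₗ[k] (Fin n → k) := (cf 0).compLeft (Fin n)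
  have hev : ∀ σ i, ev σ i = cf 0 (σ i) := fun σ i => rfl
  have hcf0 : ∀ f g : DP k, cf 0 (f * g) = cf 0 f * cf 0 g := by
    intro f g
    induction f using DP.induction with
    | zero => simp
    | add f f' hf hf' => rw [add_mul, map_add, hf, hf', map_add, add_mul]
    | mono m b =>
      rw [cf_mono_mul, cf_mono]
      rcases Nat.eq_zero_or_pos m with rfl | hm
      · simp
      · rw [if_neg (by omega), if_neg (by omega), zero_mul]
  classical
  refine ⟨S.image ev, ?_⟩
  rw [Finset.coe_image]
  apply le_antisymm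
  · refine Submodule.span_le.2 ?_
    rintro _ ⟨σ, hσ, rfl⟩
    have h1 : σ ∈ LinearMap.ker (Fintype.linearCombination (DP k) fun i => mono 0 (a i)) := by
      rw [← hS]; exact Submodule.subset_span hσ
    rw [LinearMap.mem_ker, Fintype.linearCombination_apply] at h1
    have h2 := congrArg (cf 0) h1
    rw [map_sum, map_zero] at h2
    rw [SetLike.mem_coe, LinearMap.mem_ker, hφ, ← h2]
    refine Finset.sum_congr rfl fun i _ => ?_
    rw [smul_eq_mul, hcf0, cf_mono_self, hev]
  · intro c hc
    rw [LinearMap.mem_ker, hφ] at hc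
    have h1 : (fun i => mono 0 (c i) : Fin n → DP k) ∈ Submodule.span (DP k) (S : Set _) := by
      rw [hS, LinearMap.mem_ker, Fintype.linearCombination_apply]
      have h2 : ∀ i, (mono 0 (c i) : DP k) • (mono 0 (a i) : DP k) = mono 0 (c i * a i) := by
        intro i
        rw [smul_eq_mul, mono_mul_mono]
        simp
      simp only [h2]
      rw [← map_sum, hc, map_zero]
    have h3 : ∀ x ∈ Submodule.span (DP k) (S : Set (Fin n → DP k)),
        ev x ∈ Submodule.span k (ev '' (S : Set (Fin n → DP k))) := by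
      intro x hx
      induction hx using Submodule.span_induction with
      | mem x hx => exact Submodule.subset_span ⟨x, hx, rfl⟩
      | zero => rw [map_zero]; exact Submodule.zero_mem _
      | add x y _ _ hx hy => rw [map_add]; exact Submodule.add_mem _ hx hy
      | smul b x _ hx =>
        have h4 : ev (b • x) = cf 0 b • ev x := by
          funext i
          rw [Pi.smul_apply, hev, hev, Pi.smul_apply, smul_eq_mul, smul_eq_mul, hcf0]
        rw [h4]
        exact Submodule.smul_mem _ _ hx
    have h5 := h3 _ h1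
    have h6 : ev (fun i => mono 0 (c i)) = c := by
      funext i
      rw [hev, cf_mono_self]
    rwa [h6] at h5

/-- The ideal of elements with all coefficients in a given ideal. -/
def coefIdeal (b : Ideal k) : Ideal (DP k) where
  carrier := {f | ∀ j, cf j f ∈ b}
  zero_mem' := fun j => by rw [map_zero]; exact b.zero_mem
  add_mem' := fun {f g} hf hg j => by rw [map_add]; exact b.add_mem (hf j) (hg j)
  smul_mem' := fun c f hf j => by
    rw [smul_eq_mul]
    induction c using DP.induction with
    | zero => rw [zero_mul, map_zero]; exact b.zero_mem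
    | add c c' hc hc' => rw [add_mul, map_add]; exact b.add_mem hc hc'
    | mono m a =>
      rw [cf_mono_mul]
      split_ifs
      · exact b.mul_mem_left _ (b.mul_mem_left _ (hf _))
      · exact b.zero_mem

theorem mem_coefIdeal {b : Ideal k} {f : DP k} : f ∈ coefIdeal b ↔ ∀ j, cf j f ∈ b := Iff.rfl

theorem bd_of_graded (hG : GradedCoherent (gr k)) : Bd k := by
  intro 𝔞 h𝔞
  obtain ⟨n, a, ha⟩ := Submodule.fg_iff_exists_fin_generating_family.1 h𝔞
  have hmem : ∀ i, a i ∈ 𝔞 := fun i => by rw [← ha]; exact Submodule.subset_span ⟨i, rfl⟩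
  let e : Fin (n + 1) → DP k := Fin.cons (mono 1 1) (fun i => mono 0 (a i))
  obtain ⟨S, hS⟩ := syz_fg hG e (by
    intro i
    refine Fin.cases ?_ (fun i => ?_) i
    · exact ⟨1, 1, rfl⟩
    · exact ⟨0, a i, rfl⟩)
  -- a common degree bound
  have hbound : ∃ N₀ : ℕ, ∀ σ ∈ S, σ 0 ∈ Dlt (k := k) N₀ := by
    classical
    clear hS
    induction S using Finset.induction_on with
    | empty => exact ⟨0, by simp⟩
    | insert x S hx ih =>
      obtain ⟨m, hm⟩ := ih
      obtain ⟨l, hl⟩ := exists_mem_Dlt (x 0)
      refine ⟨max m l, fun σ hσ => ?_⟩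
      rcases Finset.mem_insert.1 hσ with rfl | hσ
      · exact Dlt_mono (le_max_right _ _) hl
      · exact Dlt_mono (le_max_left _ _) (hm σ hσ)
  obtain ⟨N₀, hN₀⟩ := hbound
  set N := N₀.factorial with hN
  refine ⟨N, Nat.factorial_pos _, fun x => ?_⟩
  rintro ⟨m, hm, hmx⟩
  -- the colon ideal
  let 𝔟 : Ideal k := Submodule.comap (LinearMap.mulLeft k (N : k)) 𝔞
  have h𝔟 : ∀ y, y ∈ 𝔟 ↔ (N : k) * y ∈ 𝔞 := fun y => Iff.rfl
  have hker : ∀ σ : Fin (n + 1) → DP k,
      σ ∈ LinearMap.ker (Fintype.linearCombination (DP k) e) ↔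
        σ 0 * mono 1 1 + ∑ i : Fin n, σ i.succ * mono 0 (a i) = 0 := by
    intro σ
    rw [LinearMap.mem_ker, Fintype.linearCombination_apply, Fin.sum_univ_succ]
    rfl
  have hcf1 : ∀ (f : DP k) (j : ℕ), cf (j + 1) (f * mono 1 1) = ((j + 1 : ℕ) : k) * cf j f := by
    intro f j
    rw [mul_comm, cf_mono_mul, if_pos (by omega), Nat.choose_one_right, one_mul,
      Nat.add_sub_cancel]
  have hcf0 : ∀ (f : DP k) (b : k) (j : ℕ), cf j (f * mono 0 b) = cf j f * b := by
    intro f b j
    rw [mul_comm, cf_mono_mul, if_pos (by omega), Nat.choose_zero_right, Nat.cast_one, one_mul,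
      Nat.sub_zero, mul_comm]
  have hSP : ∀ σ ∈ S, σ 0 ∈ coefIdeal 𝔟 := by
    intro σ hσ j
    by_cases hj : N₀ ≤ j
    · rw [hN₀ σ hσ j hj]; exact 𝔟.zero_mem
    · have h1 : σ ∈ LinearMap.ker (Fintype.linearCombination (DP k) e) := by
        rw [← hS]; exact Submodule.subset_span hσ
      rw [hker] at h1
      have h2 := congrArg (cf (j + 1)) h1
      rw [map_add, map_zero, hcf1, map_sum] at h2
      have h3 : ∑ i : Fin n, cf (j + 1) (σ i.succ * mono 0 (a i)) ∈ 𝔞 := by
        refine Submodule.sum_mem _ fun i _ => ?_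
        rw [hcf0]
        exact 𝔞.mul_mem_left _ (hmem i)
      have h4 : ((j + 1 : ℕ) : k) * cf j (σ 0) ∈ 𝔞 := by
        rw [← neg_eq_iff_add_eq_zero] at h2
        have h5 := 𝔞.neg_mem h3
        rw [← h2, neg_neg] at h5
        exact h5
      obtain ⟨c, hc⟩ : (j + 1) ∣ N := Nat.dvd_factorial (by omega) (by omega)
      rw [h𝔟, hc, Nat.cast_mul, mul_comm ((j + 1 : ℕ) : k), mul_assoc]
      exact 𝔞.mul_mem_left _ h4
  have hspan : ∀ σ ∈ Submodule.span (DP k) (S : Set (Fin (n + 1) → DP k)),
      σ 0 ∈ coefIdeal 𝔟 := by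
    intro σ hσ
    induction hσ using Submodule.span_induction with
    | mem x hx => exact hSP x hx
    | zero => exact (coefIdeal 𝔟).zero_mem
    | add x y _ _ hx hy => exact (coefIdeal 𝔟).add_mem hx hy
    | smul b x _ hx => exact (coefIdeal 𝔟).mul_mem_left _ hx
  -- the relation given by `x`
  rw [← ha] at hmx
  obtain ⟨c, hc⟩ := (Submodule.mem_span_range_iff_exists_fun k).1 hmx
  have h6 : (Fin.cons (mono (m - 1) x) (fun i => - mono m (c i)) : Fin (n + 1) → DP k) ∈
      Submodule.span (DP k) (S : Set (Fin (n + 1) → DP k)) := by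
    rw [hS, hker]
    have h7 : (mono (m - 1) x : DP k) * mono 1 1 = mono m ((m : k) * x) := by
      rw [mono_mul_mono]
      have h8 : m - 1 + 1 = m := by omega
      rw [h8, mul_one]
      have h9 : m.choose (m - 1) = m := by
        have h10 := Nat.choose_symm_of_eq_add (n := m) (a := m - 1) (b := 1) (by omega)
        rw [h10, Nat.choose_one_right]
      rw [h9]
    simp only [Fin.cons_zero, Fin.cons_succ]
    rw [h7, ← hc, map_sum, ← Finset.sum_add_distrib]
    refine Finset.sum_eq_zero fun i _ => ?_
    rw [neg_mul, mono_mul_mono]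
    simp
  have h7 := hspan _ h6 (m - 1)
  simp only [Fin.cons_zero] at h7
  rw [cf_mono_self] at h7
  exact h7

end DP

end Pool.Agent.H43.Grob
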