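import Pool.Agent.helper43.DPBasic

set_option autoImplicit false

namespace Pool.Agent.H43.Grob

universe u v

/-- Coherence of `k`: the relations between finitely many elements of `k` are finitely
generated. -/
def Coh (k : Type u) [CommRing k] : Prop :=
  ∀ (n : ℕ) (φ : (Fin n → k) →ₗ[k] k), (LinearMap.ker φ).FG

/-- The torsion of `k / a` is bounded for every finitely generated ideal `a`. -/
def Bd (k : Type u) [CommRing k] : Prop :=
  ∀ a : Ideal k, a.FG → ∃ N : ℕ, 0 < N ∧ ∀ x : k, (∃ m : ℕ, 0 < m ∧ (m : k) * x ∈ a) →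
    (N : k) * x ∈ a

namespace DP

variable {k : Type u} [CommRing k]

theorem inf_ker_fg (hC : Coh k) {E : Type v} [AddCommGroup E] [Module k E] {A : Submodule k E}
    (hA : A.FG) (φ : E →ₗ[k] k) : (A ⊓ LinearMap.ker φ).FG := by
  obtain ⟨n, v, hv⟩ := Submodule.fg_iff_exists_fin_generating_family.1 hA
  have h1 : A ⊓ LinearMap.ker φ =
      (LinearMap.ker (φ ∘ₗ Fintype.linearCombination k v)).map (Fintype.linearCombination k v) := by
    ext x
    simp only [Submodule.mem_inf, LinearMap.mem_ker, Submodule.mem_map, LinearMap.comp_apply]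
    constructor
    · rintro ⟨hx, hφ⟩
      rw [← hv, ← Fintype.range_linearCombination k, LinearMap.mem_range] at hx
      obtain ⟨c, rfl⟩ := hx
      exact ⟨c, hφ, rfl⟩
    · rintro ⟨c, hc, rfl⟩
      refine ⟨?_, hc⟩
      rw [← hv, ← Fintype.range_linearCombination k]
      exact ⟨c, rfl⟩
  rw [h1]
  exact (hC n _).map _

theorem fg_le_Dlt {A : Submodule k (DP k)} (hA : A.FG) : ∃ m, A ≤ Dlt m := by
  obtain ⟨S, rfl⟩ := hA
  classical
  induction S using Finset.induction_on with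
  | empty => exact ⟨0, by simp⟩
  | insert x S hx ih =>
    obtain ⟨m, hm⟩ := ih
    obtain ⟨n, hn⟩ := exists_mem_Dlt x
    refine ⟨max m n, ?_⟩
    rw [Finset.coe_insert, Submodule.span_insert, sup_le_iff]
    constructor
    · rw [Submodule.span_singleton_le_iff_mem]
      exact Dlt_mono (le_max_right _ _) hn
    · exact hm.trans (Dlt_mono (le_max_left _ _))

theorem inf_ker_fg' (hC : Coh k) {E : Type v} [AddCommGroup E] [Module k E] {A : Submodule k E}
    (hA : A.FG) (T : E →ₗ[k] DP k) : (A ⊓ LinearMap.ker T).FG := by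
  obtain ⟨m, hm⟩ := fg_le_Dlt (hA.map T)
  have h1 : ∀ j : ℕ, (A ⊓ ⨅ i : Fin j, LinearMap.ker (cf (k := k) i ∘ₗ T)).FG := by
    intro j
    induction j with
    | zero => simpa using hA
    | succ j ih =>
      have h2 : (A ⊓ ⨅ i : Fin (j + 1), LinearMap.ker (cf (k := k) i ∘ₗ T)) =
          (A ⊓ ⨅ i : Fin j, LinearMap.ker (cf (k := k) i ∘ₗ T)) ⊓
            LinearMap.ker (cf (k := k) j ∘ₗ T) := by
        ext x
        simp only [Submodule.mem_inf, Submodule.mem_iInf, Fin.forall_fin_succ',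
          Fin.val_castSucc, Fin.val_last]
        tauto
      rw [h2]
      exact inf_ker_fg hC ih _
  have h3 : A ⊓ LinearMap.ker T = A ⊓ ⨅ i : Fin m, LinearMap.ker (cf (k := k) i ∘ₗ T) := by
    ext x
    simp only [Submodule.mem_inf, Submodule.mem_iInf, LinearMap.mem_ker, LinearMap.comp_apply]
    constructor
    · rintro ⟨hx, h⟩
      exact ⟨hx, fun i => by rw [h, map_zero]⟩
    · rintro ⟨hx, h⟩
      refine ⟨hx, ext fun i => ?_⟩
      rw [map_zero]
      by_cases hi : i < m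
      · exact h ⟨i, hi⟩
      · exact hm (Submodule.mem_map_of_mem hx) i (by omega)
  rw [h3]
  exact h1 m

theorem inf_comap_fg (hC : Coh k) {E : Type v} [AddCommGroup E] [Module k E] {A : Submodule k E}
    (hA : A.FG) (T : E →ₗ[k] DP k) {B : Submodule k (DP k)} (hB : B.FG) :
    (A ⊓ B.comap T).FG := by
  have h1 : A ⊓ B.comap T =
      ((A.prod B) ⊓ LinearMap.ker (T ∘ₗ LinearMap.fst k E (DP k) - LinearMap.snd k E (DP k))).map
        (LinearMap.fst k E (DP k)) := by
    ext x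
    simp only [Submodule.mem_inf, Submodule.mem_comap, Submodule.mem_map, Submodule.mem_prod,
      LinearMap.mem_ker, LinearMap.sub_apply, LinearMap.comp_apply, LinearMap.fst_apply,
      LinearMap.snd_apply, Prod.exists, exists_and_right, exists_eq_right]
    constructor
    · rintro ⟨hx, hT⟩
      exact ⟨T x, ⟨hx, hT⟩, sub_self _⟩
    · rintro ⟨y, ⟨hx, hy⟩, h⟩
      refine ⟨hx, ?_⟩
      rw [sub_eq_zero] at h
      rw [h]
      exact hy
  rw [h1]
  exact (inf_ker_fg' hC (hA.prod hB) _).map _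

theorem inf_fg (hC : Coh k) {A B : Submodule k (DP k)} (hA : A.FG) (hB : B.FG) : (A ⊓ B).FG :=
  inf_comap_fg hC hA LinearMap.id hB

theorem Dlt_fg (n : ℕ) : (Dlt (k := k) n).FG := by
  classical
  refine ⟨(Finset.range n).image (fun i => mono i (1 : k)), ?_⟩
  apply le_antisymm
  · refine Submodule.span_le.2 ?_
    intro x hx
    simp only [Finset.coe_image, Set.mem_image, Finset.coe_range, Set.mem_Iio] at hx
    obtain ⟨i, hi, rfl⟩ := hx
    exact mono_mem_Dlt hi 1
  · intro x hx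
    rw [eq_sum hx]
    refine Submodule.sum_mem _ fun i hi => ?_
    have h1 : mono i (cf i x) = cf i x • mono i (1 : k) := by rw [smul_mono, mul_one]
    rw [h1]
    refine Submodule.smul_mem _ _ (Submodule.subset_span ?_)
    simp only [Finset.coe_image, Set.mem_image, Finset.coe_range, Set.mem_Iio]
    exact ⟨i, by simpa using hi, rfl⟩

/-- Bounded torsion for submodules of `DP k`. -/
theorem bd_DP (hC : Coh k) (hB : Bd k) {U : Submodule k (DP k)} (hU : U.FG) (n : ℕ) :
    ∃ N : ℕ, 0 < N ∧ ∀ x ∈ Dlt (k := k) n, (∃ m : ℕ, 0 < m ∧ (m : k) • x ∈ U) →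
      (N : k) • x ∈ U := by
  induction n with
  | zero =>
    refine ⟨1, one_pos, fun x hx _ => ?_⟩
    rw [Dlt_zero hx, smul_zero]
    exact Submodule.zero_mem _
  | succ n ih =>
    obtain ⟨N₂, hN₂, h₂⟩ := ih
    have ha : ((U ⊓ Dlt (n + 1)).map (cf (k := k) n)).FG := (inf_fg hC hU (Dlt_fg _)).map _
    obtain ⟨N₁, hN₁, h₁⟩ := hB _ ha
    refine ⟨N₂ * N₁, Nat.mul_pos hN₂ hN₁, fun x hx => ?_⟩
    rintro ⟨m, hm, hmx⟩
    have h3 : (m : k) * cf n x ∈ (U ⊓ Dlt (n + 1)).map (cf (k := k) n) := by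
      refine ⟨(m : k) • x, ⟨hmx, Submodule.smul_mem _ _ hx⟩, ?_⟩
      rw [map_smul, smul_eq_mul]
    obtain ⟨u, ⟨huU, hud⟩, hu⟩ := h₁ _ ⟨m, hm, h3⟩
    have h4 : (N₁ : k) • x - u ∈ Dlt (k := k) n := by
      apply mem_Dlt_succ_of
      · exact Submodule.sub_mem _ (Submodule.smul_mem _ _ hx) hud
      · rw [map_sub, hu, map_smul, smul_eq_mul, sub_self]
    have h5 : (N₂ : k) • ((N₁ : k) • x - u) ∈ U := by
      apply h₂ _ h4
      refine ⟨m, hm, ?_⟩
      rw [smul_sub, smul_comm]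
      exact Submodule.sub_mem _ (Submodule.smul_mem _ _ hmx) (Submodule.smul_mem _ _ huU)
    have h6 : ((N₂ * N₁ : ℕ) : k) • x = (N₂ : k) • ((N₁ : k) • x - u) + (N₂ : k) • u := by
      rw [smul_sub, sub_add_cancel, Nat.cast_mul, mul_smul]
    rw [h6]
    exact Submodule.add_mem _ h5 (Submodule.smul_mem _ _ huU)

end DP

end Pool.Agent.H43.Grob
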