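import Pool.Agent.helper43.DPBlk

set_option autoImplicit false

namespace Pool.Agent.H43.Grob

universe u v

namespace DP

variable {k : Type u} [CommRing k]

section defs
variable (p m : ℕ) (H : Submodule k (DP k))

/-- The transition operator. -/
noncomputable def Phi (c : k) (U : Submodule k (DP k)) : Submodule k (DP k) :=
  (H ⊓ U.comap (c • blk p m 1)).map (blk p m 0)

theorem mem_Phi {c : k} {U : Submodule k (DP k)} {x : DP k} :
    x ∈ Phi p m H c U ↔ ∃ h ∈ H, c • blk p m 1 h ∈ U ∧ blk p m 0 h = x := by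
  unfold Phi
  rw [Submodule.mem_map]
  constructor
  · rintro ⟨h, ⟨h1, h2⟩, h3⟩
    exact ⟨h, h1, h2, h3⟩
  · rintro ⟨h, h1, h2, h3⟩
    exact ⟨h, ⟨h1, h2⟩, h3⟩

theorem Phi_mono (c : k) {U U' : Submodule k (DP k)} (h : U ≤ U') :
    Phi p m H c U ≤ Phi p m H c U' := by
  intro x hx
  rw [mem_Phi] at hx ⊢
  obtain ⟨a, h1, h2, h3⟩ := hx
  exact ⟨a, h1, h h2, h3⟩

theorem Phi_unit (c : k) (u : kˣ) (U : Submodule k (DP k)) :
    Phi p m H (c * u) U = Phi p m H c U := by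
  ext x
  rw [mem_Phi, mem_Phi]
  constructor
  · rintro ⟨a, h1, h2, h3⟩
    refine ⟨a, h1, ?_, h3⟩
    have h4 := U.smul_mem ((u⁻¹ : kˣ) : k) h2
    rwa [smul_smul, mul_comm c, ← mul_assoc, Units.inv_mul, one_mul] at h4
  · rintro ⟨a, h1, h2, h3⟩
    refine ⟨a, h1, ?_, h3⟩
    rw [mul_comm, mul_smul]
    exact U.smul_mem _ h2

theorem Phi_one_le (c : k) (U : Submodule k (DP k)) : Phi p m H 1 U ≤ Phi p m H c U := by
  intro x hx
  rw [mem_Phi] at hx ⊢
  obtain ⟨a, h1, h2, h3⟩ := hx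
  refine ⟨a, h1, ?_, h3⟩
  rw [one_smul] at h2
  exact U.smul_mem _ h2

theorem Phi_le_Dlt (c : k) (U : Submodule k (DP k)) : Phi p m H c U ≤ Dlt (p ^ m) := by
  intro x hx
  rw [mem_Phi] at hx
  obtain ⟨a, -, -, rfl⟩ := hx
  exact blk_mem p m 0 a

variable {H} in
theorem Phi_fg (hC : Coh k) (hH : H.FG) (c : k) {U : Submodule k (DP k)} (hU : U.FG) :
    (Phi p m H c U).FG :=
  (inf_comap_fg hC hH _ hU).map _

/-- The approximations of the leading modules. -/
noncomputable def Uf : ℕ → ℕ → Submodule k (DP k)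
  | 0, _ => ⊥
  | n + 1, t => Phi p m H ((t + 1 : ℕ) : k) (Uf n (t + 1))

/-- The approximations with all multipliers equal to one. -/
noncomputable def Wf : ℕ → Submodule k (DP k)
  | 0 => ⊥
  | n + 1 => Phi p m H 1 (Wf n)

theorem Uf_succ (n t : ℕ) : Uf p m H (n + 1) t = Phi p m H ((t + 1 : ℕ) : k) (Uf p m H n (t + 1)) :=
  rfl

theorem Wf_succ (n : ℕ) : Wf p m H (n + 1) = Phi p m H 1 (Wf p m H n) := rfl

theorem Uf_le_succ (n t : ℕ) : Uf p m H n t ≤ Uf p m H (n + 1) t := by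
  induction n generalizing t with
  | zero => exact bot_le
  | succ n ih => rw [Uf_succ, Uf_succ]; exact Phi_mono p m H _ (ih (t + 1))

theorem Uf_mono {n n' : ℕ} (h : n ≤ n') (t : ℕ) : Uf p m H n t ≤ Uf p m H n' t := by
  induction n', h using Nat.le_induction with
  | base => exact le_rfl
  | succ n' _ ih => exact ih.trans (Uf_le_succ p m H n' t)

theorem Uf_le_Dlt (n t : ℕ) : Uf p m H n t ≤ Dlt (p ^ m) := by
  cases n with
  | zero => exact bot_le
  | succ n => exact Phi_le_Dlt p m H _ _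

theorem Wf_le_Uf (n t : ℕ) : Wf p m H n ≤ Uf p m H n t := by
  induction n generalizing t with
  | zero => exact bot_le
  | succ n ih => exact (Phi_one_le p m H _ _).trans (Phi_mono p m H _ (ih (t + 1)))

variable {H} in
theorem Wf_fg (hC : Coh k) (hH : H.FG) (n : ℕ) : (Wf p m H n).FG := by
  induction n with
  | zero => exact Submodule.fg_bot
  | succ n ih => exact Phi_fg p m hC hH 1 ih

/-- The modules `U_t`. -/
noncomputable def Us (t : ℕ) : Submodule k (DP k) := ⨆ n, Uf p m H n t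

theorem mem_Us {t : ℕ} {x : DP k} : x ∈ Us p m H t ↔ ∃ n, x ∈ Uf p m H n t := by
  unfold Us
  rw [Submodule.mem_iSup_of_directed]
  intro a b
  exact ⟨max a b, Uf_mono p m H (le_max_left _ _) t, Uf_mono p m H (le_max_right _ _) t⟩

theorem Uf_le_Us (n t : ℕ) : Uf p m H n t ≤ Us p m H t := fun _ hx => (mem_Us p m H).2 ⟨n, hx⟩

theorem Us_le_Dlt (t : ℕ) : Us p m H t ≤ Dlt (p ^ m) := by
  intro x hx
  obtain ⟨n, hn⟩ := (mem_Us p m H).1 hx
  exact Uf_le_Dlt p m H n t hn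

theorem Us_eq (t : ℕ) : Us p m H t = Phi p m H ((t + 1 : ℕ) : k) (Us p m H (t + 1)) := by
  apply le_antisymm
  · intro x hx
    obtain ⟨n, hn⟩ := (mem_Us p m H).1 hx
    have h1 := Uf_le_succ p m H n t hn
    rw [Uf_succ] at h1
    exact Phi_mono p m H _ (Uf_le_Us p m H n (t + 1)) h1
  · intro x hx
    rw [mem_Phi] at hx
    obtain ⟨a, h1, h2, h3⟩ := hx
    obtain ⟨n, hn⟩ := (mem_Us p m H).1 h2
    refine (mem_Us p m H).2 ⟨n + 1, ?_⟩
    rw [Uf_succ, mem_Phi]
    exact ⟨a, h1, hn, h3⟩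

/-- The sums `∑_{t < n} x^[t q] H`. -/
noncomputable def Pn : ℕ → Submodule k (DP k)
  | 0 => ⊥
  | n + 1 => Pn n ⊔ H.map (LinearMap.mulLeft k (mono (n * p ^ m) (1 : k)))

theorem mem_Pn_succ {n : ℕ} {x : DP k} : x ∈ Pn p m H (n + 1) ↔
    ∃ f ∈ Pn p m H n, ∃ h ∈ H, f + mono (n * p ^ m) 1 * h = x := by
  change x ∈ Pn p m H n ⊔ H.map (LinearMap.mulLeft k (mono (n * p ^ m) (1 : k))) ↔ _
  rw [Submodule.mem_sup]
  constructor
  · rintro ⟨f, hf, _, ⟨h, hh, rfl⟩, rfl⟩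
    exact ⟨f, hf, h, hh, rfl⟩
  · rintro ⟨f, hf, h, hh, rfl⟩
    exact ⟨f, hf, _, ⟨h, hh, rfl⟩, rfl⟩

theorem Pn_mono {n n' : ℕ} (h : n ≤ n') : Pn p m H n ≤ Pn p m H n' := by
  induction n', h using Nat.le_induction with
  | base => exact le_rfl
  | succ n' _ ih => exact ih.trans le_sup_left

variable {H} in
theorem Pn_le_Dlt (hHd : H ≤ Dlt (2 * p ^ m)) (n : ℕ) : Pn p m H n ≤ Dlt ((n + 1) * p ^ m) := by
  induction n with
  | zero => exact bot_le
  | succ n ih =>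
    intro x hx
    rw [mem_Pn_succ] at hx
    obtain ⟨f, hf, h, hh, rfl⟩ := hx
    refine Submodule.add_mem _ (Dlt_mono ?_ (ih hf)) ?_
    · exact Nat.mul_le_mul_right _ (by omega)
    · refine Dlt_mono ?_ (mono_mul_mem_Dlt (hHd hh) 1)
      rw [← add_mul]

end defs

section
variable {p : ℕ} (hp : p.Prime) (hunit : ∀ s : ℕ, ¬ p ∣ s → IsUnit (s : k)) (m : ℕ)
  {H : Submodule k (DP k)} (hHd : H ≤ Dlt (2 * p ^ m))

include hp hunit

/-- A positive integer is a power of `p` up to a unit. -/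
theorem exists_pow_unit (n : ℕ) (hn : 0 < n) : ∃ (e : ℕ) (u : kˣ), (n : k) = (p ^ e : ℕ) * u ∧
    p ^ e ∣ n ∧ ¬ p ^ (e + 1) ∣ n := by
  obtain ⟨e, a, ha, hna⟩ := Nat.exists_eq_pow_mul_and_not_dvd hn.ne' p hp.ne_one
  obtain ⟨u, hu⟩ := hunit a ha
  refine ⟨e, u, ?_, ⟨a, hna⟩, ?_⟩
  · rw [hna, Nat.cast_mul, hu]
  · rw [hna, pow_succ]
    intro h
    exact ha (Nat.dvd_of_mul_dvd_mul_left (pow_pos hp.pos e) h)

/-- Adding a multiple of `p ^ c` changes an integer by a unit factor only, unless the integer is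
divisible by `p ^ c`. -/
theorem add_unit (c t j : ℕ) (ht : ¬ p ^ c ∣ t) : ∃ u : kˣ,
    ((t + p ^ c * j : ℕ) : k) = (t : k) * u := by
  have ht0 : 0 < t := Nat.pos_of_ne_zero (fun h => ht (h ▸ dvd_zero _))
  obtain ⟨e, a, ha, hta⟩ := Nat.exists_eq_pow_mul_and_not_dvd ht0.ne' p hp.ne_one
  have hec : e < c := by
    by_contra h
    exact ht ((pow_dvd_pow p (by omega)).trans ⟨a, hta⟩)
  obtain ⟨c', rfl⟩ : ∃ c', c = e + 1 + c' := ⟨c - e - 1, by omega⟩
  have h1 : t + p ^ (e + 1 + c') * j = p ^ e * (a + p * (p ^ c' * j)) := by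
    rw [hta]; ring
  have h2 : ¬ p ∣ a + p * (p ^ c' * j) := by
    intro h
    exact ha ((Nat.dvd_add_left (dvd_mul_right _ _)).1 h)
  obtain ⟨u, hu⟩ := hunit a ha
  obtain ⟨u', hu'⟩ := hunit _ h2
  refine ⟨u⁻¹ * u', ?_⟩
  rw [h1, hta, Nat.cast_mul, Nat.cast_mul, ← hu, ← hu', Units.val_mul]
  rw [mul_assoc, ← mul_assoc (u : k), Units.mul_inv, one_mul]

omit hp hunit in
theorem Uf_torsion (n t : ℕ) : ∀ x ∈ Uf p m H n t, ∃ a : ℕ, 0 < a ∧ (a : k) • x ∈ Wf p m H n := by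
  induction n generalizing t with
  | zero => intro x hx; exact ⟨1, one_pos, Submodule.smul_mem _ _ hx⟩
  | succ n ih =>
    intro x hx
    rw [Uf_succ, mem_Phi] at hx
    obtain ⟨h, h1, h2, h3⟩ := hx
    obtain ⟨a, ha, h4⟩ := ih (t + 1) _ h2
    refine ⟨a * (t + 1), Nat.mul_pos ha (Nat.succ_pos _), ?_⟩
    rw [Wf_succ, mem_Phi]
    refine ⟨((a * (t + 1) : ℕ) : k) • h, H.smul_mem _ h1, ?_, ?_⟩
    · rw [one_smul, map_smul, Nat.cast_mul, mul_smul]
      exact h4
    · rw [map_smul, h3]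

include hHd

theorem mono_mul_Us_mem {I : Ideal (DP k)} (hHI : ∀ h ∈ H, h ∈ I) (n t : ℕ) :
    ∀ x ∈ Uf p m H n t, mono (t * p ^ m) 1 * x ∈ I := by
  induction n generalizing t with
  | zero =>
    intro x hx
    have h0 : x = 0 := (Submodule.mem_bot k).1 hx
    rw [h0, mul_zero]
    exact I.zero_mem
  | succ n ih =>
    intro x hx
    rw [Uf_succ, mem_Phi] at hx
    obtain ⟨h, h1, h2, h3⟩ := hx
    have h4 := ih (t + 1) _ h2
    obtain ⟨u, hu⟩ := choose_block_unit hp hunit m t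
    have h5 : mono (t * p ^ m) 1 * h = mono (t * p ^ m) 1 * x +
        (u : k) • (mono ((t + 1) * p ^ m) 1 * (((t + 1 : ℕ) : k) • blk p m 1 h)) := by
      conv_lhs => rw [two_blocks hp hunit m (hHd h1), mul_add, mono_mul_mono_block, h3, hu]
      rw [mul_smul_comm, smul_smul, mul_comm (u : k)]
    have h6 : mono (t * p ^ m) 1 * x = mono (t * p ^ m) 1 * h -
        (u : k) • (mono ((t + 1) * p ^ m) 1 * (((t + 1 : ℕ) : k) • blk p m 1 h)) := by
      rw [h5, add_sub_cancel_right]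
    rw [h6]
    refine I.sub_mem (I.mul_mem_left _ (hHI h h1)) ?_
    rw [Algebra.smul_def]
    exact I.mul_mem_left _ h4

/-- The top block of an element of `Pn n`. -/
theorem blk_top_mem (n : ℕ) {f : DP k} (hf : f ∈ Pn p m H n) :
    blk p m n f ∈ H.map (((n : ℕ) : k) • blk p m 1) := by
  cases n with
  | zero =>
    have h0 : f = 0 := (Submodule.mem_bot k).1 hf
    rw [h0, map_zero]
    exact Submodule.zero_mem _
  | succ n =>
    rw [mem_Pn_succ] at hf
    obtain ⟨f', hf', h, hh, rfl⟩ := hf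
    have h1 : blk p m (n + 1) f' = 0 := blk_zero_of_Dlt p m le_rfl (Pn_le_Dlt p m hHd n hf')
    obtain ⟨u, hu⟩ := choose_block_unit hp hunit m n
    rw [map_add, h1, zero_add, blk_shift hp hunit m _ _ (hHd hh), if_neg (by omega), if_pos rfl,
      zero_add, hu]
    refine ⟨(u : k) • h, H.smul_mem _ hh, ?_⟩
    rw [LinearMap.smul_apply, map_smul, smul_smul]

/-- The leading blocks of elements of the ideal. -/
theorem blk_mem_of_Pn (n : ℕ) : ∀ f ∈ Pn p m H n, ∀ t < n, blk p m n f ∈ Us p m H n →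
    (∀ s, t < s → s < n → blk p m s f = 0) →
    blk p m t f ∈ Us p m H t ⊔ H.map (((t : ℕ) : k) • blk p m 1) := by
  induction n with
  | zero => intro f _ t ht; omega
  | succ n ih =>
    intro f hf t ht htop hmid
    rw [mem_Pn_succ] at hf
    obtain ⟨f', hf', h, hh, rfl⟩ := hf
    have h1 : blk p m (n + 1) f' = 0 := blk_zero_of_Dlt p m le_rfl (Pn_le_Dlt p m hHd n hf')
    obtain ⟨u, hu⟩ := choose_block_unit hp hunit m n
    rw [map_add, h1, zero_add, blk_shift hp hunit m _ _ (hHd hh), if_neg (by omega), if_pos rfl,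
      zero_add, hu] at htop
    have h2 : blk p m 0 h ∈ Us p m H n := by
      rw [Us_eq, mem_Phi]
      refine ⟨h, hh, ?_, rfl⟩
      have h3 := (Us p m H (n + 1)).smul_mem ((u⁻¹ : kˣ) : k) htop
      rwa [smul_smul, mul_comm (((n + 1 : ℕ) : k)), ← mul_assoc, Units.inv_mul, one_mul] at h3
    rcases Nat.lt_or_ge t n with htn | htn
    · have h3 : blk p m n f' ∈ Us p m H n := by
        have h4 := hmid n htn (by omega)
        rw [map_add, blk_shift hp hunit m _ _ (hHd hh), if_pos rfl, if_neg (by omega), add_zero,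
          add_eq_zero_iff_eq_neg] at h4
        rw [h4]
        exact Submodule.neg_mem _ h2
      have h5 : ∀ s, s < n → blk p m s (f' + mono (n * p ^ m) 1 * h) = blk p m s f' := by
        intro s hs
        rw [map_add, blk_shift hp hunit m _ _ (hHd hh), if_neg (by omega), if_neg (by omega),
          add_zero, add_zero]
      rw [h5 t htn]
      refine ih f' hf' t htn h3 (fun s hs hsn => ?_)
      rw [← h5 s hsn]
      exact hmid s hs (by omega)
    · have h3 : t = n := by omega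
      subst h3
      rw [map_add, blk_shift hp hunit m _ _ (hHd hh), if_pos rfl, if_neg (by omega), add_zero,
        add_comm]
      exact Submodule.add_mem _ (Submodule.mem_sup_left h2)
        (Submodule.mem_sup_right (blk_top_mem hp hunit m hHd t hf'))

omit hHd

/-- The leading module of block degree `t`. -/
noncomputable def Et (p m : ℕ) (H : Submodule k (DP k)) (t : ℕ) : Submodule k (DP k) :=
  Us p m H t ⊔ H.map (((t : ℕ) : k) • blk p m 1)

include hHd in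
theorem blk_mem_Et {I : Ideal (DP k)} (hspan : ∀ f ∈ I, ∃ n, f ∈ Pn p m H n) (t : ℕ) {f : DP k}
    (hf : f ∈ I) (hft : f ∈ Dlt (k := k) ((t + 1) * p ^ m)) : blk p m t f ∈ Et p m H t := by
  obtain ⟨n, hn⟩ := hspan f hf
  have h1 := Pn_mono p m H (le_max_left n (t + 1)) hn
  have h2 : ∀ s, t < s → blk p m s f = 0 := fun s hs =>
    blk_zero_of_Dlt p m (Nat.mul_le_mul_right _ hs) hft
  refine blk_mem_of_Pn hp hunit m hHd _ f h1 t (lt_of_lt_of_le (Nat.lt_succ_self t)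
    (le_max_right _ _)) ?_ (fun s hs _ => h2 s hs)
  rw [h2 _ (lt_of_lt_of_le (Nat.lt_succ_self t) (le_max_right _ _))]
  exact Submodule.zero_mem _

include hHd in
theorem exists_of_mem_Et {I : Ideal (DP k)} (hHI : ∀ h ∈ H, h ∈ I) (t : ℕ) {b : DP k}
    (hb : b ∈ Et p m H t) : ∃ f ∈ I, f ∈ Dlt (k := k) ((t + 1) * p ^ m) ∧ blk p m t f = b := by
  obtain ⟨x, hx, y, hy, rfl⟩ := Submodule.mem_sup.1 hb
  have h1 : ∃ f ∈ I, f ∈ Dlt (k := k) ((t + 1) * p ^ m) ∧ blk p m t f = x := by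
    obtain ⟨n, hn⟩ := (mem_Us p m H).1 hx
    refine ⟨mono (t * p ^ m) 1 * x, mono_mul_Us_mem hp hunit m hHd hHI n t x hn, ?_, ?_⟩
    · have := mono_mul_mem_Dlt (m := t * p ^ m) (Uf_le_Dlt p m H n t hn) 1
      rwa [add_mul, one_mul]
    · rw [blk_mono_mul hp hunit m _ _ (Uf_le_Dlt p m H n t hn), if_pos rfl]
  have h2 : ∃ f ∈ I, f ∈ Dlt (k := k) ((t + 1) * p ^ m) ∧ blk p m t f = y := by
    obtain ⟨h, hh, rfl⟩ := hy
    cases t with
    | zero =>
      refine ⟨0, I.zero_mem, Submodule.zero_mem _, ?_⟩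
      rw [map_zero, LinearMap.smul_apply, Nat.cast_zero, zero_smul]
    | succ t =>
      obtain ⟨u, hu⟩ := choose_block_unit hp hunit m t
      refine ⟨mono (t * p ^ m) 1 * (((u⁻¹ : kˣ) : k) • h), I.mul_mem_left _ ?_, ?_, ?_⟩
      · rw [Algebra.smul_def]
        exact I.mul_mem_left _ (hHI h hh)
      · have := mono_mul_mem_Dlt (m := t * p ^ m) (hHd (H.smul_mem ((u⁻¹ : kˣ) : k) hh)) 1
        rw [show (t + 1 + 1) * p ^ m = t * p ^ m + 2 * p ^ m by ring]
        exact this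
      · rw [blk_shift hp hunit m _ _ (hHd (H.smul_mem _ hh)), if_neg (by omega), if_pos rfl,
          zero_add, hu, map_smul, smul_smul, mul_assoc, Units.mul_inv, mul_one,
          LinearMap.smul_apply]
  obtain ⟨f, hf, hfd, hfx⟩ := h1
  obtain ⟨g, hg, hgd, hgy⟩ := h2
  exact ⟨f + g, I.add_mem hf hg, Submodule.add_mem _ hfd hgd, by rw [map_add, hfx, hgy]⟩

end

end DP

end Pool.Agent.H43.Grob
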