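import Pool.Agent.helper43.DPMainLoc

set_option autoImplicit false

namespace Pool.Agent.H43.Grob

universe u v

/-- `k'` is the localisation of `k` at the prime `p` of `ℤ`. -/
structure IsLocP (p : ℕ) (k : Type u) (k' : Type v) [CommRing k] [CommRing k'] [Algebra k k'] :
    Prop where
  unit : ∀ s : ℕ, ¬ p ∣ s → IsUnit (s : k')
  surj : ∀ x : k', ∃ s : ℕ, ¬ p ∣ s ∧ ∃ c : k, (s : k') * x = algebraMap k k' c
  ker : ∀ c : k, algebraMap k k' c = 0 → ∃ s : ℕ, ¬ p ∣ s ∧ (s : k) * c = 0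

theorem not_dvd_mul {p : ℕ} (hp : p.Prime) {a b : ℕ} (ha : ¬ p ∣ a) (hb : ¬ p ∣ b) :
    ¬ p ∣ a * b := fun h => (hp.dvd_mul.1 h).elim ha hb

theorem pos_of_not_dvd {p a : ℕ} (ha : ¬ p ∣ a) : 0 < a :=
  Nat.pos_of_ne_zero fun h => ha (h ▸ dvd_zero p)

/-- The integers prime to `p`, in `k`. -/
def Tp {p : ℕ} (hp : p.Prime) (k : Type u) [CommRing k] : Submonoid k where
  carrier := {x | ∃ s : ℕ, ¬ p ∣ s ∧ (s : k) = x}
  one_mem' := ⟨1, fun h => hp.one_lt.ne' (Nat.dvd_one.1 h), Nat.cast_one⟩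
  mul_mem' := by
    rintro _ _ ⟨a, ha, rfl⟩ ⟨b, hb, rfl⟩
    exact ⟨a * b, not_dvd_mul hp ha hb, Nat.cast_mul _ _⟩

theorem isLocP_localization {p : ℕ} (hp : p.Prime) (k : Type u) [CommRing k] :
    IsLocP p k (Localization (Tp hp k)) where
  unit := by
    intro s hs
    have h := IsLocalization.map_units (Localization (Tp hp k)) (⟨(s : k), s, hs, rfl⟩ : Tp hp k)
    rwa [map_natCast] at h
  surj := by
    intro x
    obtain ⟨⟨c, ⟨_, s, hs, rfl⟩⟩, h⟩ := IsLocalization.surj (Tp hp k) x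
    refine ⟨s, hs, c, ?_⟩
    rw [← h]
    simp only [map_natCast]
    rw [mul_comm]
  ker := by
    intro c hc
    rw [IsLocalization.map_eq_zero_iff (Tp hp k)] at hc
    obtain ⟨⟨_, s, hs, rfl⟩, h⟩ := hc
    exact ⟨s, hs, h⟩

namespace DP

section
variable {k : Type u} [CommRing k] (k' : Type v) [CommRing k'] [Algebra k k']

/-- The map on coefficients as an additive map. -/
noncomputable def mapA : DP k →+ DP k' :=
  ((fs : DP k' ≃ₗ[k'] (ℕ →₀ k')).symm.toLinearMap.toAddMonoidHom.comp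
    (Finsupp.mapRange.addMonoidHom (algebraMap k k').toAddMonoidHom)).comp
      (fs : DP k ≃ₗ[k] (ℕ →₀ k)).toLinearMap.toAddMonoidHom

theorem cf_mapA (n : ℕ) (f : DP k) : cf n (mapA k' f) = algebraMap k k' (cf n f) := by
  rfl

theorem mapA_mono (n : ℕ) (a : k) : mapA k' (mono n a) = mono n (algebraMap k k' a) := by
  apply ext
  intro j
  rw [cf_mapA, cf_mono, cf_mono]
  split_ifs
  · rfl
  · exact map_zero _

theorem mapA_mul (f g : DP k) : mapA k' (f * g) = mapA k' f * mapA k' g := by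
  induction f using DP.induction with
  | zero => simp
  | add f f' hf hf' => rw [add_mul, map_add, hf, hf', map_add, add_mul]
  | mono n a =>
    induction g using DP.induction with
    | zero => simp
    | add g g' hg hg' => rw [mul_add, map_add, hg, hg', map_add, mul_add]
    | mono m b =>
      rw [mono_mul_mono, mapA_mono, mapA_mono, mapA_mono, mono_mul_mono]
      simp only [map_mul, map_natCast]

/-- The ring map on coefficients. -/
noncomputable def mapR : DP k →+* DP k' where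
  toFun := mapA k'
  map_one' := by rw [one_def, mapA_mono, map_one, one_def]
  map_mul' := mapA_mul k'
  map_zero' := map_zero _
  map_add' := map_add _

variable {k'}

theorem cf_mapR (n : ℕ) (f : DP k) : cf n (mapR k' f) = algebraMap k k' (cf n f) := rfl

theorem mapR_mono (n : ℕ) (a : k) : mapR k' (mono n a) = mono n (algebraMap k k' a) :=
  mapA_mono k' n a

theorem mapR_smul (c : k) (f : DP k) : mapR k' (c • f) = algebraMap k k' c • mapR k' f := by
  rw [smul_eq_mono_mul, map_mul, mapR_mono, smul_eq_mono_mul]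

theorem mapR_natCast_smul (s : ℕ) (f : DP k) : mapR k' ((s : k) • f) = (s : k') • mapR k' f := by
  rw [mapR_smul, map_natCast]

theorem mapR_Dlt {n : ℕ} {f : DP k} (hf : f ∈ Dlt (k := k) n) : mapR k' f ∈ Dlt (k := k') n := by
  intro j hj
  rw [cf_mapR, hf j hj, map_zero]

variable {p : ℕ} (hp : p.Prime) (hL : IsLocP p k k')

include hp hL

theorem loc_kill (d t : ℕ) (f : DP k) (hf : f ∈ Dlt (k := k) (d + t))
    (h : ∀ n, d ≤ n → algebraMap k k' (cf n f) = 0) : ∃ s : ℕ, ¬ p ∣ s ∧ (s : k) • f ∈ Dlt d := by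
  induction t generalizing f with
  | zero =>
    exact ⟨1, fun h => hp.one_lt.ne' (Nat.dvd_one.1 h), Submodule.smul_mem _ _ hf⟩
  | succ t ih =>
    obtain ⟨m, hm, hmc⟩ := hL.ker _ (h (d + t) (by omega))
    obtain ⟨m', hm', h'⟩ := ih ((m : k) • f) (by
      apply mem_Dlt_succ_of
      · exact Submodule.smul_mem _ _ hf
      · rw [map_smul, smul_eq_mul, hmc]) (by
      intro n hn
      rw [map_smul, smul_eq_mul, map_mul, h n hn, mul_zero])
    refine ⟨m' * m, not_dvd_mul hp hm' hm, ?_⟩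
    rw [Nat.cast_mul, mul_smul]
    exact h'

theorem loc_kill' (d : ℕ) (f : DP k) (h : mapR k' f ∈ Dlt (k := k') d) :
    ∃ s : ℕ, ¬ p ∣ s ∧ (s : k) • f ∈ Dlt d := by
  obtain ⟨n, hn⟩ := exists_mem_Dlt f
  exact loc_kill hp hL d n f (Dlt_mono (by omega) hn) (fun j hj => by
    rw [← cf_mapR]
    exact h j hj)

theorem loc_ker (f : DP k) (h : mapR k' f = 0) : ∃ s : ℕ, ¬ p ∣ s ∧ (s : k) • f = 0 := by
  obtain ⟨s, hs, h'⟩ := loc_kill' hp hL 0 f (by rw [h]; exact Submodule.zero_mem _)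
  exact ⟨s, hs, Dlt_zero h'⟩

theorem loc_surj (F : DP k') : ∃ s : ℕ, ¬ p ∣ s ∧ ∃ f : DP k, (s : k') • F = mapR k' f := by
  induction F using DP.induction with
  | zero => exact ⟨1, fun h => hp.one_lt.ne' (Nat.dvd_one.1 h), 0, by simp⟩
  | add F G hF hG =>
    obtain ⟨s, hs, f, hf⟩ := hF
    obtain ⟨t, ht, g, hg⟩ := hG
    refine ⟨s * t, not_dvd_mul hp hs ht, (t : k) • f + (s : k) • g, ?_⟩
    rw [map_add, mapR_natCast_smul, mapR_natCast_smul, ← hf, ← hg, smul_add, smul_smul, smul_smul,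
      Nat.cast_mul, mul_comm (t : k')]
  | mono n x =>
    obtain ⟨s, hs, c, hc⟩ := hL.surj x
    exact ⟨s, hs, mono n c, by rw [mapR_mono, smul_mono, hc]⟩

/-- Clearing denominators in an ideal. -/
theorem loc_clear {T : Set (DP k')} {J : Ideal (DP k)}
    (hT : ∀ t ∈ T, ∃ s : ℕ, ¬ p ∣ s ∧ ∃ e ∈ J, (s : k') • t = mapR k' e)
    {x : DP k'} (hx : x ∈ Ideal.span T) :
    ∃ s : ℕ, ¬ p ∣ s ∧ ∃ e ∈ J, (s : k') • x = mapR k' e := by
  change x ∈ Submodule.span (DP k') T at hx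
  induction hx using Submodule.span_induction with
  | mem x hx => exact hT x hx
  | zero => exact ⟨1, fun h => hp.one_lt.ne' (Nat.dvd_one.1 h), 0, J.zero_mem, by simp⟩
  | add x y _ _ ihx ihy =>
    obtain ⟨s, hs, c, hcJ, hc⟩ := ihx
    obtain ⟨t, ht, d, hdJ, hd⟩ := ihy
    refine ⟨s * t, not_dvd_mul hp hs ht, (t : k) • c + (s : k) • d, ?_, ?_⟩
    · rw [smul_eq_natCast_mul, smul_eq_natCast_mul]
      exact J.add_mem (J.mul_mem_left _ hcJ) (J.mul_mem_left _ hdJ)
    · rw [map_add, mapR_natCast_smul, mapR_natCast_smul, ← hc, ← hd, smul_add, smul_smul,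
        smul_smul, Nat.cast_mul, mul_comm (t : k')]
  | smul a x _ ihx =>
    obtain ⟨s, hs, c, hcJ, hc⟩ := ihx
    obtain ⟨t, ht, d, hd⟩ := loc_surj hp hL a
    refine ⟨t * s, not_dvd_mul hp ht hs, d * c, J.mul_mem_left _ hcJ, ?_⟩
    rw [map_mul, ← hd, ← hc, smul_eq_mul, smul_mul_smul_comm, Nat.cast_mul]

theorem loc_mem_map {I : Ideal (DP k)} {F : DP k'} (hF : F ∈ I.map (mapR k')) :
    ∃ s : ℕ, ¬ p ∣ s ∧ ∃ e ∈ I, (s : k') • F = mapR k' e := by
  change F ∈ Ideal.span (mapR k' '' (I : Set (DP k))) at hF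
  refine loc_clear hp hL ?_ hF
  rintro _ ⟨f, hf, rfl⟩
  exact ⟨1, fun h => hp.one_lt.ne' (Nat.dvd_one.1 h), f, hf, by simp⟩

/-- Common denominators. -/
theorem loc_common {ι : Type*} [Fintype ι] (x : ι → k') : ∃ s : ℕ, ¬ p ∣ s ∧ ∃ c : ι → k,
    ∀ i, (s : k') * x i = algebraMap k k' (c i) := by
  classical
  choose s hs c hc using fun i => hL.surj (x i)
  refine ⟨∏ i, s i, ?_, fun i => ((∏ j ∈ Finset.univ.erase i, s j : ℕ) : k) * c i, fun i => ?_⟩
  · intro h
    obtain ⟨i, -, hi⟩ := (Prime.dvd_finsetProd_iff hp.prime _).1 h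
    exact hs i hi
  · rw [← Finset.mul_prod_erase Finset.univ s (Finset.mem_univ i), map_mul, map_natCast, ← hc]
    push_cast
    ring

theorem loc_coh (hC : Coh k) : Coh k' := by
  intro n φ
  obtain ⟨s, hs, a, ha⟩ := loc_common hp hL fun i => φ (Pi.single i 1)
  have hφ : ∀ x : Fin n → k', φ x = ∑ i, x i * φ (Pi.single i 1) := by
    intro c
    conv_lhs => rw [← Finset.univ_sum_single c, map_sum]
    refine Finset.sum_congr rfl fun i _ => ?_
    rw [show (Pi.single i (c i) : Fin n → k') = c i • Pi.single i (1 : k') by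
      rw [← Pi.single_smul, smul_eq_mul, mul_one], map_smul, smul_eq_mul]
  obtain ⟨S, hS⟩ := hC n (Fintype.linearCombination k a)
  have hker : ∀ c, c ∈ LinearMap.ker (Fintype.linearCombination k a) ↔ ∑ i, c i * a i = 0 := by
    intro c
    rw [LinearMap.mem_ker, Fintype.linearCombination_apply]
    rfl
  let ev : (Fin n → k) → (Fin n → k') := fun c i => algebraMap k k' (c i)
  have hunit : ∀ (t : ℕ), ¬ p ∣ t → ∀ (N : Submodule k' (Fin n → k')) (x : Fin n → k'),
      (t : k') • x ∈ N → x ∈ N := by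
    intro t ht N x hx
    obtain ⟨u, hu⟩ := hL.unit t ht
    have h1 := N.smul_mem ((u⁻¹ : k'ˣ) : k') hx
    rwa [smul_smul, ← hu, Units.inv_mul, one_smul] at h1
  have hsum : ∀ c : Fin n → k, algebraMap k k' (∑ i, c i * a i) = (s : k') * φ (ev c) := by
    intro c
    rw [map_sum, hφ, Finset.mul_sum]
    refine Finset.sum_congr rfl fun i _ => ?_
    rw [map_mul, ← ha]
    ring
  classical
  refine ⟨S.image ev, ?_⟩
  rw [Finset.coe_image]
  apply le_antisymm
  · refine Submodule.span_le.2 ?_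
    rintro _ ⟨c, hc, rfl⟩
    have h1 : c ∈ LinearMap.ker (Fintype.linearCombination k a) := by
      rw [← hS]; exact Submodule.subset_span hc
    rw [hker] at h1
    have h2 := hsum c
    rw [h1, map_zero] at h2
    obtain ⟨u, hu⟩ := hL.unit s hs
    rw [← hu] at h2
    rw [SetLike.mem_coe, LinearMap.mem_ker]
    exact (Units.mul_right_eq_zero u).1 h2.symm
  · intro x hx
    rw [LinearMap.mem_ker] at hx
    obtain ⟨t, ht, c, hc⟩ := loc_common hp hL x
    have h1 : ev c = (t : k') • x := by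
      funext i
      exact (hc i).symm
    have h2 := hsum c
    rw [h1, map_smul, hx, smul_zero, mul_zero] at h2
    obtain ⟨w, hw, hwc⟩ := hL.ker _ h2
    have h3 : (w : k) • c ∈ Submodule.span k (S : Set (Fin n → k)) := by
      rw [hS, hker, ← hwc, Finset.mul_sum]
      exact Finset.sum_congr rfl fun i _ => by rw [Pi.smul_apply, smul_eq_mul]; ring
    have h4 : ∀ y ∈ Submodule.span k (S : Set (Fin n → k)),
        ev y ∈ Submodule.span k' (ev '' (S : Set (Fin n → k))) := by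
      intro y hy
      induction hy using Submodule.span_induction with
      | mem y hy => exact Submodule.subset_span ⟨y, hy, rfl⟩
      | zero =>
        have : ev 0 = 0 := by funext i; exact map_zero _
        rw [this]; exact Submodule.zero_mem _
      | add y z _ _ hy hz =>
        have : ev (y + z) = ev y + ev z := by funext i; exact map_add _ _ _
        rw [this]; exact Submodule.add_mem _ hy hz
      | smul r y _ hy =>
        have : ev (r • y) = algebraMap k k' r • ev y := by funext i; exact map_mul _ _ _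
        rw [this]; exact Submodule.smul_mem _ _ hy
    have h5 := h4 _ h3
    have h6 : ev ((w : k) • c) = (w : k') • (t : k') • x := by
      rw [← h1]
      funext i
      change algebraMap k k' ((w : k) * c i) = (w : k') * algebraMap k k' (c i)
      rw [map_mul, map_natCast]
    rw [h6] at h5
    exact hunit t ht _ _ (hunit w hw _ _ h5)

theorem loc_bd (hB : Bd k) : Bd k' := by
  intro 𝔞 h𝔞
  obtain ⟨n, a', ha'⟩ := Submodule.fg_iff_exists_fin_generating_family.1 h𝔞
  obtain ⟨s, hs, a, ha⟩ := loc_common hp hL a'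
  obtain ⟨N, hN, hNt⟩ := hB (Ideal.span (Set.range a)) (Submodule.fg_span (Set.finite_range a))
  have hdown : ∀ c ∈ Ideal.span (Set.range a), algebraMap k k' c ∈ 𝔞 := by
    intro c hc
    have h1 : Ideal.span (Set.range a) ≤ 𝔞.comap (algebraMap k k') := by
      refine Ideal.span_le.2 ?_
      rintro _ ⟨i, rfl⟩
      change algebraMap k k' (a i) ∈ 𝔞
      rw [← ha]
      refine 𝔞.mul_mem_left _ ?_
      rw [← ha']
      exact Submodule.subset_span ⟨i, rfl⟩
    exact h1 hc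
  have hup : ∀ y ∈ 𝔞, ∃ w : ℕ, ¬ p ∣ w ∧ ∃ e ∈ Ideal.span (Set.range a),
      (w : k') * y = algebraMap k k' e := by
    intro y hy
    rw [← ha'] at hy
    obtain ⟨b, rfl⟩ := (Submodule.mem_span_range_iff_exists_fun k').1 hy
    obtain ⟨t, ht, c, hc⟩ := loc_common hp hL b
    refine ⟨t * s, not_dvd_mul hp ht hs, ∑ i, c i * a i,
      Submodule.sum_mem _ fun i _ => Ideal.mul_mem_left _ _ (Ideal.subset_span ⟨i, rfl⟩), ?_⟩
    rw [map_sum, Finset.mul_sum]
    refine Finset.sum_congr rfl fun i _ => ?_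
    rw [map_mul, ← hc, ← ha, smul_eq_mul]
    push_cast
    ring
  refine ⟨N, hN, fun x => ?_⟩
  rintro ⟨m, hm, hmx⟩
  obtain ⟨t, ht, c, hc⟩ := hL.surj x
  have h1 : algebraMap k k' ((m : k) * c) ∈ 𝔞 := by
    rw [map_mul, map_natCast, ← hc]
    have := 𝔞.mul_mem_left (t : k') hmx
    rwa [show (m : k') * ((t : k') * x) = (t : k') * ((m : k') * x) by ring]
  obtain ⟨w, hw, e, he, hwe⟩ := hup _ h1
  have h2 : algebraMap k k' ((w : k) * ((m : k) * c) - e) = 0 := by
    rw [map_sub, map_mul, map_natCast, hwe, sub_self]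
  obtain ⟨w', hw', h3⟩ := hL.ker _ h2
  have h4 : ((w' * w * m : ℕ) : k) * c ∈ Ideal.span (Set.range a) := by
    have h5 : ((w' * w * m : ℕ) : k) * c = (w' : k) * e := by
      rw [mul_sub, sub_eq_zero] at h3
      rw [← h3]
      push_cast
      ring
    rw [h5]
    exact Ideal.mul_mem_left _ _ he
  have h5 := hdown _ (hNt c ⟨w' * w * m, Nat.mul_pos (Nat.mul_pos (pos_of_not_dvd hw')
    (pos_of_not_dvd hw)) hm, h4⟩)
  rw [map_mul, map_natCast, ← hc] at h5
  obtain ⟨u, hu⟩ := hL.unit t ht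
  have h6 := 𝔞.mul_mem_left ((u⁻¹ : k'ˣ) : k') h5
  have h7 : ((u⁻¹ : k'ˣ) : k') * ((N : k') * ((t : k') * x)) = (N : k') * x := by
    rw [← hu]
    calc ((u⁻¹ : k'ˣ) : k') * ((N : k') * ((u : k') * x))
        = (((u⁻¹ : k'ˣ) : k') * (u : k')) * ((N : k') * x) := by ring
      _ = (N : k') * x := by rw [Units.inv_mul, one_mul]
  rwa [h7] at h6

theorem loc_Q {I : Ideal (DP k)} (hQ : ∀ n, ∃ V : Submodule k (DP k), V.FG ∧ (∀ v ∈ V, v ∈ I) ∧
      V ≤ Dlt n ∧ ∀ f ∈ I, f ∈ Dlt (k := k) n → ∃ a : ℕ, 0 < a ∧ (a : k) • f ∈ V) :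
    ∀ n, ∃ V : Submodule k' (DP k'), V.FG ∧ (∀ v ∈ V, v ∈ I.map (mapR k')) ∧ V ≤ Dlt n ∧
      ∀ f ∈ I.map (mapR k'), f ∈ Dlt (k := k') n → ∃ a : ℕ, 0 < a ∧ (a : k') • f ∈ V := by
  intro n
  obtain ⟨V, ⟨S, hS⟩, hVI, hVd, hVt⟩ := hQ n
  have hSV : ∀ x ∈ S, x ∈ V := fun x hx => by rw [← hS]; exact Submodule.subset_span hx
  classical
  refine ⟨Submodule.span k' (mapR k' '' (S : Set (DP k))), ?_, ?_, ?_, ?_⟩
  · exact ⟨S.image (mapR k'), by rw [Finset.coe_image]⟩
  · intro v hv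
    have h1 : Submodule.span k' (mapR k' '' (S : Set (DP k))) ≤
        (I.map (mapR k')).restrictScalars k' := by
      refine Submodule.span_le.2 ?_
      rintro _ ⟨x, hx, rfl⟩
      exact Ideal.mem_map_of_mem _ (hVI x (hSV x hx))
    exact h1 hv
  · refine Submodule.span_le.2 ?_
    rintro _ ⟨x, hx, rfl⟩
    exact mapR_Dlt (hVd (hSV x hx))
  · intro F hF hFd
    obtain ⟨s, hs, f, hf, hsf⟩ := loc_mem_map hp hL hF
    have h1 : mapR k' f ∈ Dlt (k := k') n := by
      rw [← hsf]; exact Submodule.smul_mem _ _ hFd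
    obtain ⟨s', hs', h2⟩ := loc_kill' hp hL n f h1
    have h3 : (s' : k) • f ∈ I := by
      rw [smul_eq_natCast_mul]; exact I.mul_mem_left _ hf
    obtain ⟨a, ha, h4⟩ := hVt _ h3 h2
    have h5 : ∀ v ∈ V, mapR k' v ∈ Submodule.span k' (mapR k' '' (S : Set (DP k))) := by
      intro v hv
      rw [← hS] at hv
      induction hv using Submodule.span_induction with
      | mem y hy => exact Submodule.subset_span ⟨y, hy, rfl⟩
      | zero => rw [map_zero]; exact Submodule.zero_mem _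
      | add y z _ _ hy hz => rw [map_add]; exact Submodule.add_mem _ hy hz
      | smul r y _ hy => rw [mapR_smul]; exact Submodule.smul_mem _ _ hy
    have h6 := h5 _ h4
    rw [mapR_natCast_smul, mapR_natCast_smul, ← hsf, smul_smul, smul_smul] at h6
    refine ⟨a * s' * s, Nat.mul_pos (Nat.mul_pos ha (pos_of_not_dvd hs')) (pos_of_not_dvd hs), ?_⟩
    push_cast
    exact h6

/-- The local statement over `k`, up to integers prime to `p`. -/
theorem local_global (hC : Coh k) (hB : Bd k) {I : Ideal (DP k)} (hI : I.FG)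
    (hQ : ∀ n, ∃ V : Submodule k (DP k), V.FG ∧ (∀ v ∈ V, v ∈ I) ∧
      V ≤ Dlt n ∧ ∀ f ∈ I, f ∈ Dlt (k := k) n → ∃ a : ℕ, 0 < a ∧ (a : k) • f ∈ V) :
    ∃ G : Finset (DP k), (∀ g ∈ G, g ∈ Lset I) ∧ ∀ h ∈ Lset I, ∃ s : ℕ, ¬ p ∣ s ∧
      (s : k) • h ∈ Ideal.span (G : Set (DP k)) := by
  obtain ⟨G', hG', hGL⟩ := local_main hp hL.unit (loc_coh hp hL hC) (loc_bd hp hL hB)
    (hI.map (mapR k')) (loc_Q hp hL hQ)
  have hrep : ∀ g' : G', ∃ s : ℕ, ¬ p ∣ s ∧ ∃ g ∈ Lset I, (s : k') • (g' : DP k') = mapR k' g := by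
    rintro ⟨g', hg'⟩
    obtain ⟨n, F, hF, hFd, rfl⟩ := hG' g' hg'
    obtain ⟨s, hs, f, hf, hsf⟩ := loc_mem_map hp hL hF
    have h1 : mapR k' f ∈ Dlt (k := k') (n + 1) := by
      rw [← hsf]; exact Submodule.smul_mem _ _ hFd
    obtain ⟨s', hs', h2⟩ := loc_kill' hp hL (n + 1) f h1
    refine ⟨s' * s, not_dvd_mul hp hs' hs, mono n (cf n ((s' : k) • f)), ⟨n, (s' : k) • f, ?_, h2,
      rfl⟩, ?_⟩
    · rw [smul_eq_natCast_mul]; exact I.mul_mem_left _ hf
    · rw [mapR_mono, ← cf_mapR, mapR_natCast_smul, ← hsf, map_smul, map_smul, map_smul, map_smul,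
        smul_smul, Nat.cast_mul]
  choose s hs g hg hsg using hrep
  classical
  refine ⟨Finset.univ.image g, ?_, ?_⟩
  · intro x hx
    rw [Finset.mem_image] at hx
    obtain ⟨g', -, rfl⟩ := hx
    exact hg g'
  · intro h hh
    have h1 : mapR k' h ∈ Lset (I.map (mapR k')) := by
      obtain ⟨n, f, hf, hfd, rfl⟩ := hh
      exact ⟨n, mapR k' f, Ideal.mem_map_of_mem _ hf, mapR_Dlt hfd, by rw [mapR_mono, cf_mapR]⟩
    have h2 := hGL h1
    obtain ⟨t, ht, e, he, hte⟩ := loc_clear hp hL (T := (G' : Set (DP k')))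
      (J := Ideal.span ((Finset.univ.image g : Finset (DP k)) : Set (DP k))) (by
        intro g' hg'
        refine ⟨s ⟨g', hg'⟩, hs _, g ⟨g', hg'⟩, Ideal.subset_span ?_, hsg ⟨g', hg'⟩⟩
        rw [Finset.mem_coe, Finset.mem_image]
        exact ⟨_, Finset.mem_univ _, rfl⟩) h2
    have h3 : mapR k' ((t : k) • h - e) = 0 := by
      rw [map_sub, mapR_natCast_smul, hte, sub_self]
    obtain ⟨w, hw, h4⟩ := loc_ker hp hL _ h3
    refine ⟨w * t, not_dvd_mul hp hw ht, ?_⟩
    rw [smul_sub, sub_eq_zero] at h4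
    rw [Nat.cast_mul, mul_smul, h4, smul_eq_natCast_mul]
    exact Ideal.mul_mem_left _ _ he

end

end DP

end Pool.Agent.H43.Grob
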