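import Pool.Agent.helper43.DPLocn

set_option autoImplicit false

namespace Pool.Agent.H43.Grob

universe u v

namespace DP

/-- The main theorem, over an abstract rationalisation. -/
theorem main {k : Type u} [CommRing k] {K : Type v} [CommRing K] [Algebra k K]
    (hK : IsRatl k K) (hG : GradedCoherent (gr k)) (hQ : GroebnerCoherent (polyGr K)) :
    GroebnerCoherent (gr k) := by
  refine ⟨hG, fun I hI => ?_⟩
  have hC := coh_of_graded hG
  have hB := bd_of_graded hG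
  -- a Gröbner basis up to torsion
  obtain ⟨s₁, d₁, g₁, hg₁I, hg₁d, hg₁Q⟩ := exists_groebner_up_to_torsion hK I
    (hQ.2 _ (hI.map (psi K hK)))
  -- add generators of `I`
  obtain ⟨s₂, g₂, hg₂⟩ := Submodule.fg_iff_exists_fin_generating_family.1 hI
  choose d₂ hd₂ using fun i => exists_mem_Dlt (g₂ i)
  let g : Fin (s₁ + s₂) → DP k := Fin.append g₁ g₂
  let d : Fin (s₁ + s₂) → ℕ := Fin.append d₁ d₂
  have hgI : ∀ i, g i ∈ I := by
    intro i
    refine Fin.addCases (fun i => ?_) (fun i => ?_) i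
    · simp only [g, Fin.append_left]; exact hg₁I i
    · simp only [g, Fin.append_right]
      rw [← hg₂]
      exact Submodule.subset_span ⟨i, rfl⟩
  have hgd : ∀ i, g i ∈ Dlt (k := k) (d i + 1) := by
    intro i
    refine Fin.addCases (fun i => ?_) (fun i => ?_) i
    · simp only [g, d, Fin.append_left]; exact hg₁d i
    · simp only [g, d, Fin.append_right]
      exact Dlt_mono (Nat.le_succ _) (hd₂ i)
  have hgspan : I ≤ Ideal.span (Set.range g) := by
    rw [← hg₂]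
    refine Submodule.span_le.2 ?_
    rintro _ ⟨i, rfl⟩
    exact Ideal.subset_span ⟨Fin.natAdd s₁ i, by simp only [g, Fin.append_right]⟩
  have hgQ : ∀ (n : ℕ), ∀ f ∈ I, f ∈ Dlt (k := k) (n + 1) → ∃ m : ℕ, 0 < m ∧
      (m : k) • mono n (cf n f) ∈ Ideal.span (Set.range (lt d g)) := by
    intro n f hf hfd
    obtain ⟨m, hm, h⟩ := hg₁Q n f hf hfd
    refine ⟨m, hm, ?_⟩
    refine Ideal.span_mono ?_ h
    rintro _ ⟨i, rfl⟩
    exact ⟨Fin.castAdd s₂ i, by simp only [lt, g, d, Fin.append_left]⟩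
  obtain ⟨M, hM, hMu⟩ := uniform hgI hgd hgQ hG hgspan
  -- the torsion statement in bounded degree
  have hQ' : ∀ n, ∃ V : Submodule k (DP k), V.FG ∧ (∀ v ∈ V, v ∈ I) ∧
      V ≤ Dlt n ∧ ∀ f ∈ I, f ∈ Dlt (k := k) n → ∃ a : ℕ, 0 < a ∧ (a : k) • f ∈ V := fun n =>
    ⟨Rn d g n, Rn_fg n, fun v hv => Rn_le_ideal hgI hv, Rn_le_Dlt hgd n,
      fun f hf hfd => division hgI hgd hgQ n f hf hfd⟩
  -- the local statements
  have hloc : ∀ p : M.primeFactors, ∃ G : Finset (DP k), (∀ g ∈ G, g ∈ Lset I) ∧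
      ∀ h ∈ Lset I, ∃ s : ℕ, ¬ (p : ℕ) ∣ s ∧ (s : k) • h ∈ Ideal.span (G : Set (DP k)) := by
    rintro ⟨p, hp⟩
    have hp' := Nat.prime_of_mem_primeFactors hp
    exact local_global hp' (isLocP_localization hp' k) hC hB hI hQ'
  choose Gp hGp hGps using hloc
  classical
  set G : Finset (DP k) := Finset.univ.image (lt d g) ∪ Finset.univ.biUnion Gp with hGdef
  have hsub : ∀ x ∈ G, x ∈ Lset I := by
    intro x hx
    rw [hGdef, Finset.mem_union] at hx
    rcases hx with hx | hx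
    · rw [Finset.mem_image] at hx
      obtain ⟨i, -, rfl⟩ := hx
      exact ⟨d i, g i, hgI i, hgd i, rfl⟩
    · rw [Finset.mem_biUnion] at hx
      obtain ⟨p, -, hx⟩ := hx
      exact hGp p x hx
  have hspan1 : Ideal.span (Set.range (lt d g)) ≤ Ideal.span (G : Set (DP k)) := by
    refine Ideal.span_mono ?_
    rintro _ ⟨i, rfl⟩
    rw [hGdef, Finset.mem_coe, Finset.mem_union]
    exact Or.inl (Finset.mem_image_of_mem _ (Finset.mem_univ i))
  have hspan2 : ∀ p, Ideal.span (Gp p : Set (DP k)) ≤ Ideal.span (G : Set (DP k)) := by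
    intro p
    refine Ideal.span_mono ?_
    intro x hx
    rw [hGdef, Finset.mem_coe, Finset.mem_union]
    exact Or.inr (Finset.mem_biUnion.2 ⟨p, Finset.mem_univ p, hx⟩)
  rw [initialIdeal_eq]
  refine ⟨G, le_antisymm (Ideal.span_mono fun x hx => hsub x hx) (Ideal.span_le.2 fun h hh => ?_)⟩
  -- the integers multiplying `h` into the span of `G`
  set 𝔞 : Ideal ℤ := Submodule.comap (LinearMap.toSpanSingleton ℤ (DP k) h)
    ((Ideal.span (G : Set (DP k))).restrictScalars ℤ) with h𝔞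
  have hmem : ∀ z : ℤ, z ∈ 𝔞 ↔ z • h ∈ Ideal.span (G : Set (DP k)) := fun z => Iff.rfl
  have hmemN : ∀ s : ℕ, (s : k) • h ∈ Ideal.span (G : Set (DP k)) → ((s : ℕ) : ℤ) ∈ 𝔞 := by
    intro s hs
    rw [hmem, natCast_zsmul]
    rwa [Nat.cast_smul_eq_nsmul] at hs
  obtain ⟨e, he⟩ : ∃ e : ℕ, ((M ^ e : ℕ) : k) • h ∈ Ideal.span (G : Set (DP k)) := by
    obtain ⟨n, f, hf, hfd, hfh⟩ := hh
    obtain ⟨e, he⟩ := hMu n f hf hfd
    exact ⟨e, by rw [hfh]; exact hspan1 he⟩
  have hone : (1 : ℤ) ∈ 𝔞 := by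
    obtain ⟨z, hz⟩ := (IsPrincipalIdealRing.principal 𝔞).principal
    have hz' : ∀ y : ℤ, y ∈ 𝔞 ↔ z ∣ y := by
      intro y
      rw [hz]
      exact Ideal.mem_span_singleton
    by_cases hz1 : z.natAbs = 1
    · rw [hz']
      exact Int.isUnit_iff_natAbs_eq.2 hz1 |>.dvd
    · exfalso
      obtain ⟨p, hp, hpz⟩ := Nat.exists_prime_and_dvd hz1
      have h1 : z ∣ ((M ^ e : ℕ) : ℤ) := (hz' _).1 (hmemN _ he)
      have h2 : p ∣ M ^ e := by
        have h3 := Int.natAbs_dvd_natAbs.2 h1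
        rw [Int.natAbs_natCast] at h3
        exact hpz.trans h3
      have h3 : p ∣ M := hp.dvd_of_dvd_pow h2
      have h4 : p ∈ M.primeFactors := Nat.mem_primeFactors.2 ⟨hp, h3, hM.ne'⟩
      obtain ⟨s, hs, hsh⟩ := hGps ⟨p, h4⟩ h hh
      have h5 : z ∣ ((s : ℕ) : ℤ) := (hz' _).1 (hmemN _ (hspan2 _ hsh))
      have h6 := Int.natAbs_dvd_natAbs.2 h5
      rw [Int.natAbs_natCast] at h6
      exact hs (hpz.trans h6)
  rw [hmem, one_smul] at hone
  exact hone

end DP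

end Pool.Agent.H43.Grob
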