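import Pool.Agent.helper43.DPFin

set_option autoImplicit false

namespace Pool.Agent.H43.Grob

universe u v

namespace DP

variable {k : Type u} [CommRing k]

/-- The local case of the theorem. -/
theorem local_main {p : ℕ} (hp : p.Prime) (hunit : ∀ s : ℕ, ¬ p ∣ s → IsUnit (s : k))
    (hC : Coh k) (hB : Bd k) {I : Ideal (DP k)} (hI : I.FG)
    (hQ : ∀ n, ∃ V : Submodule k (DP k), V.FG ∧ (∀ v ∈ V, v ∈ I) ∧ V ≤ Dlt n ∧
      ∀ f ∈ I, f ∈ Dlt (k := k) n → ∃ a : ℕ, 0 < a ∧ (a : k) • f ∈ V) :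
    ∃ G : Finset (DP k), (∀ g ∈ G, g ∈ Lset I) ∧ Lset I ⊆ Ideal.span (G : Set (DP k)) := by
  obtain ⟨b, f, hf⟩ := Submodule.fg_iff_exists_fin_generating_family.1 hI
  choose n hn using fun j => exists_mem_Dlt (f j)
  set m := ∑ j, n j with hm
  have hfm : ∀ j, f j ∈ Dlt (k := k) (p ^ m) := by
    intro j
    refine Dlt_mono ?_ (hn j)
    have h1 : n j ≤ m := Finset.single_le_sum (fun _ _ => Nat.zero_le _) (Finset.mem_univ j)
    exact h1.trans (Nat.lt_pow_self hp.one_lt).le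
  have hfI : ∀ j, f j ∈ I := fun j => by rw [← hf]; exact Submodule.subset_span ⟨j, rfl⟩
  set H : Submodule k (DP k) := Submodule.span k
    (Set.range fun x : Fin (p ^ m) × Fin b => mono (x.1 : ℕ) (1 : k) * f x.2) with hHdef
  have hHfg : H.FG := Submodule.fg_span (Set.finite_range _)
  have hHd : H ≤ Dlt (2 * p ^ m) := by
    refine Submodule.span_le.2 ?_
    rintro _ ⟨⟨i, j⟩, rfl⟩
    exact Dlt_mono (by have := i.2; omega) (mono_mul_mem_Dlt (hfm j) 1)
  have hHI : ∀ h ∈ H, h ∈ I := by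
    have h1 : H ≤ I.restrictScalars k := by
      refine Submodule.span_le.2 ?_
      rintro _ ⟨⟨i, j⟩, rfl⟩
      exact I.mul_mem_left _ (hfI j)
    exact fun h hh => h1 hh
  have hq : 0 < p ^ m := pow_pos hp.pos m
  have hmono : ∀ (l : ℕ) (c : k) (j : Fin b), ∃ n, mono l c * f j ∈ Pn p m H n := by
    intro l c j
    set t := l / p ^ m with ht
    set i := l % p ^ m with hi
    have hi' : i < p ^ m := Nat.mod_lt _ hq
    have hl : l = t * p ^ m + i := (Nat.div_add_mod' l (p ^ m)).symm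
    obtain ⟨u, hu⟩ := unit_choose hp hunit m t i hi'
    refine ⟨t + 1, ?_⟩
    rw [mem_Pn_succ]
    refine ⟨0, Submodule.zero_mem _, (c * ((u⁻¹ : kˣ) : k)) • (mono i 1 * f j), ?_, ?_⟩
    · exact H.smul_mem _ (Submodule.subset_span ⟨(⟨i, hi'⟩, j), rfl⟩)
    · have h1 : mono (t * p ^ m) (1 : k) * mono i 1 = mono l (u : k) := by
        rw [mono_mul_mono, Nat.choose_symm_add, ← hu, mul_one, mul_one, ← hl]
      rw [zero_add, mul_smul_comm, ← mul_assoc, h1, ← smul_mul_assoc, smul_mono, mul_assoc,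
        Units.inv_mul, mul_one]
  have hmul : ∀ (a : DP k) (j : Fin b), ∃ n, a * f j ∈ Pn p m H n := by
    intro a j
    induction a using DP.induction with
    | zero => exact ⟨0, by rw [zero_mul]; exact Submodule.zero_mem _⟩
    | add a a' ha ha' =>
      obtain ⟨n₁, h₁⟩ := ha
      obtain ⟨n₂, h₂⟩ := ha'
      refine ⟨max n₁ n₂, ?_⟩
      rw [add_mul]
      exact Submodule.add_mem _ (Pn_mono p m H (le_max_left _ _) h₁)
        (Pn_mono p m H (le_max_right _ _) h₂)
    | mono l c => exact hmono l c j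
  have hspan : ∀ x ∈ I, ∃ n, x ∈ Pn p m H n := by
    intro x hx
    rw [← hf] at hx
    obtain ⟨a, rfl⟩ := (Submodule.mem_span_range_iff_exists_fun (DP k)).1 hx
    choose n' hn' using fun j => hmul (a j) j
    refine ⟨∑ j, n' j, Submodule.sum_mem _ fun j _ => ?_⟩
    exact Pn_mono p m H (Finset.single_le_sum (fun _ _ => Nat.zero_le _) (Finset.mem_univ j))
      (hn' j)
  obtain ⟨V, hV, hVI, hVd, hVt⟩ := hQ (p ^ m)
  exact local_aux hp hunit m hHd hHI hspan hC hB hHfg hV hVI hVd hVt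

end DP

end Pool.Agent.H43.Grob
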