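import Pool.Agent.helper43.DPLoc

set_option autoImplicit false

namespace Pool.Agent.H43.Grob

universe u v

namespace DP

variable {k : Type u} [CommRing k]

theorem exists_Uf_of_fg (p m : ℕ) (H : Submodule k (DP k)) (t : ℕ) {V : Submodule k (DP k)}
    (hV : V.FG) (h : V ≤ Us p m H t) : ∃ n, V ≤ Uf p m H n t := by
  obtain ⟨S, rfl⟩ := hV
  classical
  induction S using Finset.induction_on with
  | empty => exact ⟨0, by simp⟩
  | insert x S hx ih =>
    rw [Finset.coe_insert, Submodule.span_insert, sup_le_iff] at h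
    obtain ⟨n, hn⟩ := ih h.2
    have h1 := h.1
    rw [Submodule.span_singleton_le_iff_mem, mem_Us] at h1
    obtain ⟨n', hn'⟩ := h1
    refine ⟨max n n', ?_⟩
    rw [Finset.coe_insert, Submodule.span_insert, sup_le_iff]
    constructor
    · rw [Submodule.span_singleton_le_iff_mem]
      exact Uf_mono p m H (le_max_right _ _) t hn'
    · exact hn.trans (Uf_mono p m H (le_max_left _ _) t)

theorem Et_zero (p m : ℕ) (H : Submodule k (DP k)) : Et p m H 0 = Us p m H 0 := by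
  unfold Et
  rw [Nat.cast_zero, zero_smul, Submodule.map_zero, sup_bot_eq]

section
variable {p : ℕ} (hp : p.Prime) (hunit : ∀ s : ℕ, ¬ p ∣ s → IsUnit (s : k)) (m : ℕ)
  {H : Submodule k (DP k)} (hHd : H ≤ Dlt (2 * p ^ m))

include hp hunit hHd

/-- The modules `U_t` are finitely generated and periodic. -/
theorem exists_period (hC : Coh k) (hB : Bd k) (hH : H.FG) {I : Ideal (DP k)}
    (hHI : ∀ h ∈ H, h ∈ I) (hspan : ∀ f ∈ I, ∃ n, f ∈ Pn p m H n)
    {V : Submodule k (DP k)} (hV : V.FG) (hVI : ∀ v ∈ V, v ∈ I) (hVd : V ≤ Dlt (p ^ m))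
    (hVt : ∀ f ∈ I, f ∈ Dlt (k := k) (p ^ m) → ∃ a : ℕ, 0 < a ∧ (a : k) • f ∈ V) :
    ∃ c, (∀ t, (Us p m H t).FG) ∧ ∀ t j, Us p m H (t + p ^ c * j) = Us p m H t := by
  have hblk0 : ∀ v ∈ Dlt (k := k) (p ^ m), blk p m 0 v = v := by
    intro v hv
    have := blk_mono_mul hp hunit m 0 0 hv
    rwa [zero_mul, ← one_def, one_mul, if_pos rfl] at this
  have hU0 : V ≤ Us p m H 0 := by
    intro v hv
    have h1 := blk_mem_Et hp hunit m hHd hspan 0 (hVI v hv) (by simpa using hVd hv)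
    rwa [hblk0 v (hVd hv), Et_zero] at h1
  obtain ⟨i₀, hi₀⟩ := exists_Uf_of_fg p m H 0 hV hU0
  have hW : (Wf p m H i₀).FG := Wf_fg p m hC hH i₀
  obtain ⟨N, hN, hNt⟩ := bd_DP hC hB hW (p ^ m)
  obtain ⟨c, u, hNu, -, -⟩ := exists_pow_unit hp hunit N hN
  refine ⟨c, ?_⟩
  set S : Submodule k (DP k) := Dlt (p ^ m) ⊓
    (Wf p m H i₀).comap (((p ^ c : ℕ) : k) • (LinearMap.id : DP k →ₗ[k] DP k)) with hS
  have hSfg : S.FG := inf_comap_fg hC (Dlt_fg _) _ hW
  have s0 : ∀ x, x ∈ S ↔ x ∈ Dlt (k := k) (p ^ m) ∧ ((p ^ c : ℕ) : k) • x ∈ Wf p m H i₀ :=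
    fun x => Iff.rfl
  have s1 : ∀ x ∈ Dlt (k := k) (p ^ m), ∀ a : ℕ, 0 < a → (a : k) • x ∈ Wf p m H i₀ → x ∈ S := by
    intro x hx a ha hax
    rw [s0]
    refine ⟨hx, ?_⟩
    have h1 := (Wf p m H i₀).smul_mem ((u⁻¹ : kˣ) : k) (hNt x hx ⟨a, ha, hax⟩)
    rwa [smul_smul, hNu, mul_comm, mul_assoc, Units.mul_inv, mul_one] at h1
  have hpc : 0 < p ^ c := pow_pos hp.pos c
  have s3 : ∀ x ∈ Dlt (k := k) (p ^ m), ∀ a : ℕ, 0 < a → (a : k) • x ∈ S → x ∈ S := by
    intro x hx a ha hax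
    refine s1 x hx (p ^ c * a) (Nat.mul_pos hpc ha) ?_
    rw [Nat.cast_mul, mul_smul]
    exact ((s0 _).1 hax).2
  have s4 : ∀ t, Us p m H t ≤ S := by
    intro t x hx
    have hxd := Us_le_Dlt p m H t hx
    obtain ⟨n, hn⟩ := (mem_Us p m H).1 hx
    obtain ⟨a, ha, h1⟩ := Uf_torsion m n t x hn
    have h2 : (a : k) • x ∈ Uf p m H n 0 := Wf_le_Uf p m H n 0 h1
    have h3 : (a : k) • x ∈ I := by
      have := mono_mul_Us_mem hp hunit m hHd hHI n 0 _ h2
      rwa [zero_mul, ← one_def, one_mul] at this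
    obtain ⟨a', ha', h4⟩ := hVt _ h3 (Submodule.smul_mem _ _ hxd)
    obtain ⟨a'', ha'', h5⟩ := Uf_torsion m i₀ 0 _ (hi₀ h4)
    refine s1 x hxd (a'' * (a' * a)) (Nat.mul_pos ha'' (Nat.mul_pos ha' ha)) ?_
    rw [Nat.cast_mul, Nat.cast_mul, mul_smul, mul_smul]
    exact h5
  have s5 : ∀ t, ∀ x ∈ S, ((p ^ c : ℕ) : k) • x ∈ Us p m H t := by
    intro t x hx
    exact Uf_le_Us p m H i₀ t (Wf_le_Uf p m H i₀ t ((s0 _).1 hx).2)
  have s6 : ∀ t, p ^ c ∣ t + 1 → Us p m H t = Phi p m H 1 S := by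
    intro t ht
    apply le_antisymm
    · intro x hx
      rw [Us_eq, mem_Phi] at hx
      obtain ⟨h, h1, h2, h3⟩ := hx
      rw [mem_Phi]
      refine ⟨h, h1, ?_, h3⟩
      rw [one_smul]
      exact s3 _ (blk_mem p m 1 h) (t + 1) (Nat.succ_pos _) (s4 _ h2)
    · intro x hx
      rw [mem_Phi] at hx
      obtain ⟨h, h1, h2, h3⟩ := hx
      rw [Us_eq, mem_Phi]
      refine ⟨h, h1, ?_, h3⟩
      obtain ⟨w, hw⟩ := ht
      rw [one_smul] at h2
      rw [hw, mul_comm, Nat.cast_mul, mul_smul]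
      exact Submodule.smul_mem _ _ (s5 _ _ h2)
  have s7 : ∀ d t, p ^ c ∣ t + 1 + d →
      (Us p m H t).FG ∧ ∀ j, Us p m H (t + p ^ c * j) = Us p m H t := by
    have s8 : ∀ t, p ^ c ∣ t + 1 →
      (Us p m H t).FG ∧ ∀ j, Us p m H (t + p ^ c * j) = Us p m H t := by
      intro t ht
      constructor
      · rw [s6 t ht]
        exact Phi_fg p m hC hH 1 hSfg
      · intro j
        rw [s6 t ht]
        apply s6
        rw [add_right_comm]
        exact (Nat.dvd_add_right ht).2 (dvd_mul_right _ _)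
    intro d
    induction d with
    | zero => intro t ht; exact s8 t ht
    | succ d ih =>
      intro t ht
      by_cases h1 : p ^ c ∣ t + 1
      · exact s8 t h1
      · obtain ⟨h2, h3⟩ := ih (t + 1) (by rwa [show t + 1 + 1 + d = t + 1 + (d + 1) by ring])
        constructor
        · rw [Us_eq]
          exact Phi_fg p m hC hH _ h2
        · intro j
          rw [Us_eq p m H (t + p ^ c * j), Us_eq p m H t,
            show t + p ^ c * j + 1 = t + 1 + p ^ c * j by ring, h3 j]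
          obtain ⟨u, hu⟩ := add_unit hp hunit c (t + 1) j h1
          rw [hu, Phi_unit]
  have s9 : ∀ t, ∃ d, p ^ c ∣ t + 1 + d := by
    intro t
    refine ⟨(p ^ c - 1) * (t + 1), ?_⟩
    have h1 : t + 1 + (p ^ c - 1) * (t + 1) = p ^ c * (t + 1) := by
      obtain ⟨q', hq'⟩ : ∃ q', p ^ c = q' + 1 := ⟨p ^ c - 1, by omega⟩
      rw [hq', Nat.add_sub_cancel]
      ring
    rw [h1]
    exact dvd_mul_right _ _
  constructor
  · intro t
    obtain ⟨d, hd⟩ := s9 t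
    exact (s7 d t hd).1
  · intro t
    obtain ⟨d, hd⟩ := s9 t
    exact (s7 d t hd).2

end

end DP

end Pool.Agent.H43.Grob
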