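import Pool.Agent.helper43.DPGr

set_option autoImplicit false

namespace Pool.Agent.H43.Grob

open Polynomial

universe u v

/-- `K` is the rationalisation of `k`. -/
structure IsRatl (k : Type u) (K : Type v) [CommRing k] [CommRing K] [Algebra k K] : Prop where
  ker : ∀ c : k, algebraMap k K c = 0 → ∃ m : ℕ, 0 < m ∧ (m : k) * c = 0
  surj : ∀ x : K, ∃ m : ℕ, 0 < m ∧ ∃ c : k, (m : K) * x = algebraMap k K c
  unit : ∀ m : ℕ, 0 < m → IsUnit (m : K)

theorem isRatl_tensor (k : Type u) [CommRing k] : IsRatl k (TensorProduct ℤ k ℚ) where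
  ker := by
    intro c hc
    have h1 : (1 : ℚ) ⊗ₜ[ℤ] c = 0 := by
      have h2 := congrArg (TensorProduct.comm ℤ k ℚ) hc
      rw [map_zero] at h2
      exact h2
    have h3 : TensorProduct.mk ℤ ℚ k 1 c = 0 := h1
    rw [IsLocalizedModule.eq_zero_iff (nonZeroDivisors ℤ)] at h3
    obtain ⟨⟨s, hs⟩, h4⟩ := h3
    have hs0 : s ≠ 0 := nonZeroDivisors.ne_zero hs
    refine ⟨s.natAbs, Int.natAbs_pos.2 hs0, ?_⟩
    have h5 : (s : k) * c = 0 := by
      rw [← zsmul_eq_mul]
      exact h4
    rcases Int.natAbs_eq s with h | h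
    · rw [h, Int.cast_natCast] at h5
      exact h5
    · rw [h, Int.cast_neg, Int.cast_natCast, neg_mul] at h5
      exact neg_eq_zero.1 h5
  surj := by
    intro x
    induction x using TensorProduct.induction_on with
    | zero => exact ⟨1, one_pos, 0, by simp⟩
    | tmul c q =>
      refine ⟨q.den, q.den_pos, (q.num : k) * c, ?_⟩
      have h1 : ((q.den : ℕ) : TensorProduct ℤ k ℚ) = (1 : k) ⊗ₜ[ℤ] (q.den : ℚ) := by
        rw [← nsmul_one, Algebra.TensorProduct.one_def, ← TensorProduct.tmul_smul, nsmul_one]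
      rw [h1, Algebra.TensorProduct.tmul_mul_tmul, one_mul, Rat.den_mul_eq_num]
      have h2 : ((q.num : ℤ) : ℚ) = q.num • (1 : ℚ) := by simp
      rw [h2, TensorProduct.tmul_smul, TensorProduct.smul_tmul', zsmul_eq_mul]
      rfl
    | add x y hx hy =>
      obtain ⟨m, hm, c, hc⟩ := hx
      obtain ⟨n, hn, d, hd⟩ := hy
      refine ⟨m * n, Nat.mul_pos hm hn, n * c + m * d, ?_⟩
      rw [map_add, map_mul, map_mul, ← hc, ← hd, map_natCast, map_natCast]
      push_cast
      ring
  unit := by
    intro m hm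
    refine IsUnit.of_mul_eq_one ((1 : k) ⊗ₜ[ℤ] ((m : ℚ)⁻¹)) ?_
    have h1 : ((m : ℕ) : TensorProduct ℤ k ℚ) = (1 : k) ⊗ₜ[ℤ] (m : ℚ) := by
      rw [← nsmul_one, Algebra.TensorProduct.one_def, ← TensorProduct.tmul_smul, nsmul_one]
    rw [h1, Algebra.TensorProduct.tmul_mul_tmul, one_mul, mul_inv_cancel₀ (by
      exact_mod_cast hm.ne'), Algebra.TensorProduct.one_def]

namespace DP

section
variable {k : Type u} [CommRing k] (K : Type v) [CommRing K] [Algebra k K]

/-- The linear map `x^[n] ↦ x^n / n!`. -/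
noncomputable def psiL : DP k →ₗ[k] Polynomial K :=
  (Finsupp.linearCombination k fun n : ℕ =>
    (monomial n (Ring.inverse (n.factorial : K)) : Polynomial K)) ∘ₗ
      (fs : DP k ≃ₗ[k] (ℕ →₀ k)).toLinearMap

theorem psiL_mono (n : ℕ) (a : k) :
    psiL K (mono n a) = monomial n (algebraMap k K a * Ring.inverse (n.factorial : K)) := by
  simp only [psiL, LinearMap.comp_apply, LinearEquiv.coe_coe, fs_mono,
    Finsupp.linearCombination_single]
  rw [Polynomial.smul_monomial, Algebra.smul_def]

theorem inv_mul (hK : IsRatl k K) (n m : ℕ) :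
    Ring.inverse (n.factorial : K) * Ring.inverse (m.factorial : K) =
      ((n + m).choose n : K) * Ring.inverse ((n + m).factorial : K) := by
  have h1 := hK.unit _ (Nat.factorial_pos n)
  have h2 := hK.unit _ (Nat.factorial_pos m)
  have h3 := hK.unit _ (Nat.factorial_pos (n + m))
  have h4 : ((n + m).choose n : K) * (n.factorial : K) * (m.factorial : K) =
      ((n + m).factorial : K) := by
    rw [Nat.choose_symm_add]
    exact_mod_cast congrArg (Nat.cast (R := K)) (Nat.add_choose_mul_factorial_mul_factorial n m)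
  have h5 := Ring.mul_inverse_cancel _ h1
  have h6 := Ring.mul_inverse_cancel _ h2
  have h7 := Ring.mul_inverse_cancel _ h3
  calc Ring.inverse (n.factorial : K) * Ring.inverse (m.factorial : K)
      = Ring.inverse (n.factorial : K) * Ring.inverse (m.factorial : K) *
        (((n + m).factorial : K) * Ring.inverse ((n + m).factorial : K)) := by rw [h7, mul_one]
    _ = ((n + m).choose n : K) * Ring.inverse ((n + m).factorial : K) *
        ((n.factorial : K) * Ring.inverse (n.factorial : K)) *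
        ((m.factorial : K) * Ring.inverse (m.factorial : K)) := by rw [← h4]; ring
    _ = _ := by rw [h5, h6, mul_one, mul_one]

theorem psiL_mul (hK : IsRatl k K) (f g : DP k) : psiL K (f * g) = psiL K f * psiL K g := by
  induction f using DP.induction with
  | zero => simp
  | add f f' hf hf' => rw [add_mul, map_add, hf, hf', map_add, add_mul]
  | mono n a =>
    induction g using DP.induction with
    | zero => simp
    | add g g' hg hg' => rw [mul_add, map_add, hg, hg', map_add, mul_add]
    | mono m b =>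
      rw [mono_mul_mono, psiL_mono, psiL_mono, psiL_mono, monomial_mul_monomial,
        map_mul (algebraMap k K), map_mul (algebraMap k K), map_natCast (algebraMap k K)]
      congr 1
      have := inv_mul (k := k) K hK n m
      linear_combination (-(algebraMap k K a * algebraMap k K b)) * this

/-- The ring map `x^[n] ↦ x^n / n!`. -/
noncomputable def psi (hK : IsRatl k K) : DP k →+* Polynomial K where
  toFun := psiL K
  map_one' := by
    rw [one_def, psiL_mono, map_one, one_mul, Nat.factorial_zero, Nat.cast_one, Ring.inverse_one]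
    rfl
  map_mul' := psiL_mul K hK
  map_zero' := map_zero _
  map_add' := map_add _

variable {K}

theorem psi_mono (hK : IsRatl k K) (n : ℕ) (a : k) :
    psi K hK (mono n a) = monomial n (algebraMap k K a * Ring.inverse (n.factorial : K)) :=
  psiL_mono K n a

theorem psi_coeff (hK : IsRatl k K) (n : ℕ) (f : DP k) :
    (psi K hK f).coeff n = algebraMap k K (cf n f) * Ring.inverse (n.factorial : K) := by
  induction f using DP.induction with
  | zero => simp
  | add f g hf hg => rw [map_add, coeff_add, hf, hg, map_add, map_add, add_mul]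
  | mono m a =>
    rw [psi_mono, coeff_monomial, cf_mono]
    by_cases h : m = n
    · subst h
      rw [if_pos rfl, if_pos rfl]
    · rw [if_neg h, if_neg h, map_zero, zero_mul]

theorem psi_coeff_eq_zero (hK : IsRatl k K) (n : ℕ) (f : DP k) :
    (psi K hK f).coeff n = 0 ↔ algebraMap k K (cf n f) = 0 := by
  rw [psi_coeff]
  constructor
  · intro h
    have h1 := Ring.inverse_mul_cancel _ (hK.unit _ (Nat.factorial_pos n))
    calc algebraMap k K (cf n f) = algebraMap k K (cf n f) *
          (Ring.inverse (n.factorial : K) * (n.factorial : K)) := by rw [h1, mul_one]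
      _ = 0 := by rw [← mul_assoc, h, zero_mul]
  · intro h
    rw [h, zero_mul]

/-- Killing the torsion coefficients of large degree. -/
theorem exists_kill (hK : IsRatl k K) (d t : ℕ) (f : DP k) (hf : f ∈ Dlt (k := k) (d + t))
    (h : ∀ n, d ≤ n → algebraMap k K (cf n f) = 0) : ∃ m : ℕ, 0 < m ∧ (m : k) • f ∈ Dlt d := by
  induction t generalizing f with
  | zero => exact ⟨1, one_pos, Submodule.smul_mem _ _ hf⟩
  | succ t ih =>
    obtain ⟨m, hm, hmc⟩ := hK.ker _ (h (d + t) (by omega))
    obtain ⟨m', hm', h'⟩ := ih ((m : k) • f) (by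
      apply mem_Dlt_succ_of
      · exact Submodule.smul_mem _ _ hf
      · rw [map_smul, smul_eq_mul, hmc]) (by
      intro n hn
      rw [map_smul, smul_eq_mul, map_mul, h n hn, mul_zero])
    refine ⟨m' * m, Nat.mul_pos hm' hm, ?_⟩
    rw [Nat.cast_mul, mul_smul]
    exact h'

theorem exists_kill' (hK : IsRatl k K) (d : ℕ) (f : DP k)
    (h : ∀ n, d ≤ n → algebraMap k K (cf n f) = 0) : ∃ m : ℕ, 0 < m ∧ (m : k) • f ∈ Dlt d := by
  obtain ⟨n, hn⟩ := exists_mem_Dlt f
  exact exists_kill hK d n f (Dlt_mono (by omega) hn) h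

theorem psi_ker (hK : IsRatl k K) (f : DP k) (h : psi K hK f = 0) :
    ∃ m : ℕ, 0 < m ∧ (m : k) • f = 0 := by
  obtain ⟨m, hm, h'⟩ := exists_kill' hK 0 f (fun n _ => by
    rw [← psi_coeff_eq_zero hK, h, coeff_zero])
  exact ⟨m, hm, Dlt_zero h'⟩

theorem psi_surj (hK : IsRatl k K) (F : Polynomial K) :
    ∃ m : ℕ, 0 < m ∧ ∃ f : DP k, (m : Polynomial K) * F = psi K hK f := by
  induction F using Polynomial.induction_on' with
  | add F G hF hG =>
    obtain ⟨m, hm, c, hc⟩ := hF
    obtain ⟨n, hn, d, hd⟩ := hG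
    refine ⟨m * n, Nat.mul_pos hm hn, (n : DP k) * c + (m : DP k) * d, ?_⟩
    rw [map_add, map_mul, map_mul, ← hc, ← hd, map_natCast, map_natCast]
    push_cast
    ring
  | monomial n x =>
    obtain ⟨m, hm, c, hc⟩ := hK.surj x
    refine ⟨m, hm, mono n ((n.factorial : k) * c), ?_⟩
    have h1 := Ring.mul_inverse_cancel _ (hK.unit _ (Nat.factorial_pos n))
    rw [psi_mono, map_mul (algebraMap k K), map_natCast (algebraMap k K), ← hc, ← C_eq_natCast,
      C_mul_monomial]
    congr 1
    calc (m : K) * x = (m : K) * x * ((n.factorial : K) * Ring.inverse (n.factorial : K)) := by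
          rw [h1, mul_one]
      _ = _ := by ring

theorem smul_eq_natCast_mul (m : ℕ) (f : DP k) : (m : k) • f = (m : DP k) * f := by
  rw [Algebra.smul_def, map_natCast]

/-- Elements of an ideal generated by multiples of elements in the image. -/
theorem clear_denoms (hK : IsRatl k K) {T : Set (Polynomial K)} {J : Ideal (DP k)}
    (hT : ∀ t ∈ T, ∃ m : ℕ, 0 < m ∧ ∃ e ∈ J, (m : Polynomial K) * t = psi K hK e)
    {x : Polynomial K} (hx : x ∈ Ideal.span T) :
    ∃ m : ℕ, 0 < m ∧ ∃ e ∈ J, (m : Polynomial K) * x = psi K hK e := by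
  change x ∈ Submodule.span (Polynomial K) T at hx
  induction hx using Submodule.span_induction with
  | mem x hx => exact hT x hx
  | zero => exact ⟨1, one_pos, 0, J.zero_mem, by simp⟩
  | add x y _ _ ihx ihy =>
    obtain ⟨m, hm, c, hcJ, hc⟩ := ihx
    obtain ⟨n, hn, d, hdJ, hd⟩ := ihy
    refine ⟨m * n, Nat.mul_pos hm hn, (n : DP k) * c + (m : DP k) * d,
      J.add_mem (J.mul_mem_left _ hcJ) (J.mul_mem_left _ hdJ), ?_⟩
    rw [map_add, map_mul, map_mul, ← hc, ← hd, map_natCast, map_natCast]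
    push_cast
    ring
  | smul a x _ ihx =>
    obtain ⟨m, hm, c, hcJ, hc⟩ := ihx
    obtain ⟨n, hn, d, hd⟩ := psi_surj hK a
    refine ⟨n * m, Nat.mul_pos hn hm, d * c, J.mul_mem_left _ hcJ, ?_⟩
    rw [map_mul, ← hd, ← hc, smul_eq_mul]
    push_cast
    ring

/-- A finite family of elements of `I` whose leading terms generate the initial ideal of `I` up to
torsion. -/
theorem exists_groebner_up_to_torsion (hK : IsRatl k K) (I : Ideal (DP k))
    (hI : (initialIdeal (polyGr K) (I.map (psi K hK))).FG) :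
    ∃ (s : ℕ) (d : Fin s → ℕ) (g : Fin s → DP k), (∀ i, g i ∈ I) ∧ (∀ i, g i ∈ Dlt (d i + 1)) ∧
      ∀ (n : ℕ), ∀ f ∈ I, f ∈ Dlt (k := k) (n + 1) → ∃ m : ℕ, 0 < m ∧
        (m : k) • mono n (cf n f) ∈ Ideal.span (Set.range fun i => mono (d i) (cf (d i) (g i))) := by
  classical
  unfold initialIdeal at hI
  obtain ⟨T, hTS, hT⟩ := Submodule.fg_span_iff_fg_span_finset_subset _ |>.1 hI
  -- choose a representative for each element of `T`
  have hrep : ∀ t : T, ∃ (d : ℕ) (g : DP k) (m : ℕ), 0 < m ∧ g ∈ I ∧ g ∈ Dlt (k := k) (d + 1) ∧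
      (m : Polynomial K) * t = psi K hK (mono d (cf d g)) := by
    intro t
    obtain ⟨F, hF, d, htF, -, hdeg⟩ := hTS t.2
    obtain ⟨m, hm, f, hfI, hf⟩ := clear_denoms hK (J := I) (T := (psi K hK) '' I) (by
      rintro _ ⟨f, hf, rfl⟩
      exact ⟨1, one_pos, f, hf, by simp⟩) hF
    obtain ⟨m', hm', hkill⟩ := exists_kill' hK (d + 1) f (by
      intro n hn
      rw [← psi_coeff_eq_zero hK, ← hf, ← C_eq_natCast, coeff_C_mul]
      have h1 := hdeg n (by omega)
      rw [polyGr.proj_eq] at h1
      have h2 := congrArg (fun p => Polynomial.coeff p n) h1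
      simp only [coeff_monomial, if_true, coeff_zero] at h2
      rw [h2, mul_zero])
    refine ⟨d, (m' : k) • f, m' * m, Nat.mul_pos hm' hm, ?_, hkill, ?_⟩
    · rw [smul_eq_natCast_mul]
      exact I.mul_mem_left _ hfI
    · rw [psi_mono, ← psi_coeff hK, smul_eq_natCast_mul, map_mul, ← hf, map_natCast, htF,
        polyGr.proj_eq, ← C_eq_natCast, ← C_eq_natCast, ← C_eq_natCast, coeff_C_mul, coeff_C_mul,
        C_mul_monomial]
      push_cast
      rw [mul_assoc]
  choose d g m hm hgI hgd hmt using hrep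
  let E := T.equivFin
  refine ⟨T.card, fun i => d (E.symm i), fun i => g (E.symm i), fun i => hgI _, fun i => hgd _, ?_⟩
  intro n f hf hfd
  set J := Ideal.span (Set.range fun i : Fin T.card =>
    mono (d (E.symm i)) (cf (d (E.symm i)) (g (E.symm i)))) with hJ
  have hmemJ : ∀ t : T, mono (d t) (cf (d t) (g t)) ∈ J := by
    intro t
    refine Ideal.subset_span ⟨E t, ?_⟩
    simp
  have h1 : psi K hK (mono n (cf n f)) ∈ Ideal.span (T : Set (Polynomial K)) := by
    have h2 : psi K hK (mono n (cf n f)) ∈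
        Ideal.span {g | ∃ f ∈ I.map (psi K hK), IsInitialForm (polyGr K) f g} := by
      by_cases h0 : psi K hK (mono n (cf n f)) = 0
      · rw [h0]; exact Submodule.zero_mem _
      · refine Ideal.subset_span ⟨psi K hK f, Ideal.mem_map_of_mem _ hf, n, ?_, h0, ?_⟩
        · rw [polyGr.proj_eq, psi_mono, psi_coeff]
        · intro j hj
          rw [polyGr.proj_eq, psi_coeff, hfd j (by omega), map_zero, zero_mul, map_zero]
    have h3 : Ideal.span (T : Set (Polynomial K)) =
        Ideal.span {g | ∃ f ∈ I.map (psi K hK), IsInitialForm (polyGr K) f g} := hT.symm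
    rw [h3]
    exact h2
  obtain ⟨m₁, hm₁, e, heJ, he⟩ := clear_denoms hK (J := J) (T := (T : Set (Polynomial K)))
    (fun t ht => ⟨m ⟨t, ht⟩, hm _, _, hmemJ ⟨t, ht⟩, hmt ⟨t, ht⟩⟩) h1
  have h4 : psi K hK ((m₁ : DP k) * mono n (cf n f) - e) = 0 := by
    rw [map_sub, map_mul, map_natCast, he, sub_self]
  obtain ⟨m₂, hm₂, h5⟩ := psi_ker hK _ h4
  refine ⟨m₂ * m₁, Nat.mul_pos hm₂ hm₁, ?_⟩
  rw [smul_eq_natCast_mul] at h5 ⊢
  rw [mul_sub, sub_eq_zero] at h5
  rw [Nat.cast_mul, mul_assoc, h5]
  exact J.mul_mem_left _ heJ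

end

end DP

end Pool.Agent.H43.Grob
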