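import Pool.Agent.helper43.SplitRep

set_option autoImplicit false

namespace Pool.Agent.H43

variable {G : Type*} [Group G] {M : Type*} [AddCommGroup M] [Module ℚ M]
variable {ρ : G →* Module.End ℚ M} {T : Set G} {N : Submodule ℚ M}

theorem rho_mul_apply (ρ : G →* Module.End ℚ M) (a b : G) (n : M) :
    ρ (a * b) n = ρ a (ρ b n) := by
  rw [map_mul, Module.End.mul_apply]

theorem rho_one_apply (ρ : G →* Module.End ℚ M) (n : M) : ρ 1 n = n := by
  rw [map_one, Module.End.one_apply]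

/-- **Generalised dihedral step.** -/
theorem IrrOn.scalar_of_dihedral (h : IrrOn ρ T N) (A K : Set G) (t : G)
    (hA : A ⊆ T) (ht : t ∈ T) (hK : K ⊆ T)
    (hAmul : ∀ a ∈ A, ∀ b ∈ A, a * b ∈ A)
    (h4 : ∀ a ∈ A, (a * a) * (a * a) = 1)
    (hinv : ∀ a ∈ A, t * a * t = a⁻¹) (ht2 : t * t = 1)
    (hKA : ∀ k ∈ K, ∀ a ∈ A, k * a = a * k) (hKt : ∀ k ∈ K, k * t = t * k)
    (hgen : ∀ g ∈ T, ∃ a ∈ A, ∃ k ∈ K, g = a * k ∨ g = a * t * k)
    (f : Module.End ℚ M) (hf : ∀ n ∈ N, f n ∈ N)
    (hc : ∀ g ∈ T, ∀ n ∈ N, f (ρ g n) = ρ g (f n))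
    (hKs : ∀ N' : Submodule ℚ M, N' ≤ N → IrrOn ρ K N' → (∀ n ∈ N', f n ∈ N') →
      ∃ q : ℚ, ∀ n ∈ N', f n = q • n) :
    ∃ q : ℚ, ∀ n ∈ N, f n = q • n := by
  -- group level facts
  have hcomm : ∀ a ∈ A, ∀ b ∈ A, a * b = b * a := by
    intro a ha b hb
    have h1 := hinv (a * b) (hAmul a ha b hb)
    have h2 : t * (a * b) * t = (t * a * t) * (t * b * t) := by
      have : (t * a * t) * (t * b * t) = t * a * (t * t) * b * t := by group
      rw [this, ht2]; group
    rw [h2, hinv a ha, hinv b hb, ← mul_inv_rev] at h1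
    exact (inv_injective h1).symm
  have hta : ∀ a ∈ A, t * a = a⁻¹ * t := by
    intro a ha
    rw [← hinv a ha, mul_assoc, ht2, mul_one]
  have hsqinv : ∀ a ∈ A, (a * a)⁻¹ = a * a := by
    intro a ha
    exact inv_eq_of_mul_eq_one_left (h4 a ha)
  have htsq : ∀ a ∈ A, t * (a * a) = (a * a) * t := by
    intro a ha
    rw [hta (a * a) (hAmul a ha a ha), hsqinv a ha]
  -- squares are central in T
  have hsqT : ∀ a ∈ A, ∀ g ∈ T, (a * a) * g = g * (a * a) := by
    intro a ha g hg
    obtain ⟨b, hb, k, hk, hg'⟩ := hgen g hg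
    have hka : Commute (a * a) k := (hKA k hk _ (hAmul a ha a ha)).symm
    have hba : Commute (a * a) b := (hcomm b hb _ (hAmul a ha a ha)).symm
    have hta' : Commute (a * a) t := (htsq a ha).symm
    rcases hg' with rfl | rfl
    · exact hba.mul_right hka
    · exact (hba.mul_right hta').mul_right hka
  have hsign2 : ∀ a ∈ A, (∀ n ∈ N, ρ (a * a) n = n) ∨ (∀ n ∈ N, ρ (a * a) n = -n) := by
    intro a ha
    have haT : a ∈ T := hA ha
    refine h.sign (ρ (a * a)) ?_ ?_ ?_
    · intro n hn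
      rw [rho_mul_apply]
      exact h.stable a haT _ (h.stable a haT n hn)
    · intro g hg n hn
      rw [← rho_mul_apply, ← rho_mul_apply, hsqT a ha g hg]
    · intro n hn
      rw [← rho_mul_apply, h4 a ha, rho_one_apply]
  -- an element of A whose square acts trivially acts by a sign
  have hsign1 : ∀ a ∈ A, (∀ n ∈ N, ρ (a * a) n = n) →
      (∀ n ∈ N, ρ a n = n) ∨ (∀ n ∈ N, ρ a n = -n) := by
    intro a ha h1
    have haT : a ∈ T := hA ha
    have hainv : ∀ n ∈ N, ρ a⁻¹ n = ρ a n := by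
      intro n hn
      have h2 := h1 n hn
      have h3 : ρ a⁻¹ (ρ (a * a) n) = ρ a n := by
        rw [← rho_mul_apply]
        congr 2
        group
      rw [h2] at h3
      exact h3
    refine h.sign (ρ a) (fun n hn => h.stable a haT n hn) ?_ ?_
    · intro g hg n hn
      obtain ⟨b, hb, k, hk, hg'⟩ := hgen g hg
      rcases hg' with rfl | rfl
      · rw [← rho_mul_apply, ← rho_mul_apply, ← mul_assoc, hcomm a ha b hb, mul_assoc, mul_assoc,
          hKA k hk a ha]
      · have hkn : ρ k n ∈ N := h.stable k (hK hk) n hn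
        have htkn : ρ t (ρ k n) ∈ N := h.stable t ht _ hkn
        have e1 : ρ a (ρ (b * t * k) n) = ρ b (ρ a (ρ t (ρ k n))) := by
          rw [rho_mul_apply, rho_mul_apply, ← rho_mul_apply ρ a b, hcomm a ha b hb, rho_mul_apply]
        have e2 : ρ (b * t * k) (ρ a n) = ρ b (ρ t (ρ a (ρ k n))) := by
          rw [rho_mul_apply, rho_mul_apply, ← rho_mul_apply ρ k a, hKA k hk a ha, rho_mul_apply]
        have e3 : ρ t (ρ a (ρ k n)) = ρ a (ρ t (ρ k n)) := by
          rw [← rho_mul_apply, hta a ha, rho_mul_apply, hainv _ htkn]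
        rw [e1, e2, e3]
    · intro n hn
      rw [← rho_mul_apply]
      exact h1 n hn
  obtain ⟨n₁, hn₁, hn₁0⟩ := N.exists_mem_ne_zero_of_ne_bot h.ne
  by_cases hall : ∀ a ∈ A, ∀ n ∈ N, ρ (a * a) n = n
  · -- Case 1: everything in A acts by signs
    have hAs : ∀ a ∈ A, (∀ n ∈ N, ρ a n = n) ∨ (∀ n ∈ N, ρ a n = -n) :=
      fun a ha => hsign1 a ha (hall a ha)
    have hAcomm : ∀ a ∈ A, ∀ (g : Module.End ℚ M) (n : M), n ∈ N → g n ∈ N →
        ρ a (g n) = g (ρ a n) := by
      intro a ha g n hn hgn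
      rcases hAs a ha with hs | hs
      · rw [hs _ hgn, hs n hn]
      · rw [hs _ hgn, hs n hn, map_neg]
    have hts : (∀ n ∈ N, ρ t n = n) ∨ (∀ n ∈ N, ρ t n = -n) := by
      refine h.sign (ρ t) (fun n hn => h.stable t ht n hn) ?_ ?_
      · intro g hg n hn
        obtain ⟨b, hb, k, hk, hg'⟩ := hgen g hg
        have hkn : ρ k n ∈ N := h.stable k (hK hk) n hn
        have htn : ρ t n ∈ N := h.stable t ht n hn
        have htkn : ρ t (ρ k n) ∈ N := h.stable t ht _ hkn
        have hktn : ρ k (ρ t n) ∈ N := h.stable k (hK hk) _ htn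
        have hkt : ρ t (ρ k n) = ρ k (ρ t n) := by
          rw [← rho_mul_apply, ← rho_mul_apply, hKt k hk]
        rcases hg' with rfl | rfl
        · rw [rho_mul_apply, rho_mul_apply, ← hAcomm b hb (ρ t) _ hkn htkn, hkt]
        · have httkn : ρ t (ρ t (ρ k n)) ∈ N := h.stable t ht _ htkn
          rw [rho_mul_apply, rho_mul_apply, rho_mul_apply, rho_mul_apply,
            ← hAcomm b hb (ρ t) _ htkn httkn, hkt]
      · intro n hn
        rw [← rho_mul_apply, ht2, rho_one_apply]
    refine hKs N le_rfl ⟨h.ne, fun g hg => h.stable g (hK hg), ?_⟩ hf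
    intro W hW hWst
    refine h.irr W hW ?_
    intro g hg w hw
    obtain ⟨b, hb, k, hk, hg'⟩ := hgen g hg
    have hkw : ρ k w ∈ W := hWst k hk w hw
    have htkw : ρ t (ρ k w) ∈ W := by
      rcases hts with hs | hs
      · rw [hs _ (hW hkw)]; exact hkw
      · rw [hs _ (hW hkw)]; exact W.neg_mem hkw
    rcases hg' with rfl | rfl
    · rw [rho_mul_apply]
      rcases hAs b hb with hs | hs
      · rw [hs _ (hW hkw)]; exact hkw
      · rw [hs _ (hW hkw)]; exact W.neg_mem hkw
    · rw [rho_mul_apply, rho_mul_apply]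
      rcases hAs b hb with hs | hs
      · rw [hs _ (hW htkw)]; exact htkw
      · rw [hs _ (hW htkw)]; exact W.neg_mem htkw
  · -- Case 2
    push Not at hall
    obtain ⟨a₀, ha₀, n₂, hn₂, hn₂ne⟩ := hall
    have hm1 : ∀ n ∈ N, ρ (a₀ * a₀) n = -n := by
      rcases hsign2 a₀ ha₀ with hs | hs
      · exact absurd (hs n₂ hn₂) hn₂ne
      · exact hs
    have ha₀T : a₀ ∈ T := hA ha₀
    have hJJ : ∀ n ∈ N, ρ a₀ (ρ a₀ n) = -n := by
      intro n hn
      rw [← rho_mul_apply]; exact hm1 n hn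
    have hJN : ∀ n ∈ N, ρ a₀ n ∈ N := fun n hn => h.stable a₀ ha₀T n hn
    have hJinv : ∀ n ∈ N, ρ a₀⁻¹ n = -(ρ a₀ n) := by
      intro n hn
      have h3 : ρ a₀⁻¹ (ρ (a₀ * a₀) n) = ρ a₀ n := by
        rw [← rho_mul_apply]
        congr 2
        group
      rw [hm1 n hn, map_neg] at h3
      rw [← h3, neg_neg]
    have htJ : ∀ n ∈ N, ρ t (ρ a₀ n) = -(ρ a₀ (ρ t n)) := by
      intro n hn
      rw [← rho_mul_apply, hta a₀ ha₀, rho_mul_apply, hJinv _ (h.stable t ht n hn)]
    -- every element of A acts as ±1 or ±J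
    have hAs : ∀ b ∈ A, ∃ s : ℚ, (∀ n ∈ N, ρ b n = s • n) ∨ (∀ n ∈ N, ρ b n = s • ρ a₀ n) := by
      intro b hb
      rcases hsign2 b hb with hs | hs
      · rcases hsign1 b hb hs with hs' | hs'
        · exact ⟨1, Or.inl fun n hn => by rw [hs' n hn, one_smul]⟩
        · exact ⟨-1, Or.inl fun n hn => by rw [hs' n hn, neg_smul, one_smul]⟩
      · have hab : a₀ * b ∈ A := hAmul a₀ ha₀ b hb
        have hbN : ∀ n ∈ N, ρ b n ∈ N := fun n hn => h.stable b (hA hb) n hn
        have hsq : ∀ n ∈ N, ρ ((a₀ * b) * (a₀ * b)) n = n := by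
          intro n hn
          have : (a₀ * b) * (a₀ * b) = (a₀ * a₀) * (b * b) := by
            have := hcomm a₀ ha₀ b hb
            calc (a₀ * b) * (a₀ * b) = a₀ * (b * a₀) * b := by group
              _ = a₀ * (a₀ * b) * b := by rw [this]
              _ = (a₀ * a₀) * (b * b) := by group
          rw [this, rho_mul_apply, hs n hn, map_neg, hm1 n hn, neg_neg]
        rcases hsign1 _ hab hsq with hs' | hs'
        · refine ⟨-1, Or.inr fun n hn => ?_⟩
          have h5 := hs' n hn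
          rw [rho_mul_apply] at h5
          have h6 := hJJ _ (hbN n hn)
          rw [h5] at h6
          rw [neg_smul, one_smul, h6, neg_neg]
        · refine ⟨1, Or.inr fun n hn => ?_⟩
          have h5 := hs' n hn
          rw [rho_mul_apply] at h5
          have h6 := hJJ _ (hbN n hn)
          rw [h5, map_neg] at h6
          rw [one_smul]
          exact (neg_injective h6).symm
    set Np := eigOn N (ρ t) 1 with hNp
    have hNpmem : ∀ n, n ∈ Np ↔ n ∈ N ∧ ρ t n = n := by
      intro n; rw [hNp, mem_eigOn, one_smul]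
    have hNpne : Np ≠ ⊥ := by
      intro hbot
      have hneg : ∀ n ∈ N, ρ t n = -n := by
        intro n hn
        have : n + ρ t n ∈ Np := by
          rw [hNpmem]
          refine ⟨N.add_mem hn (h.stable t ht n hn), ?_⟩
          rw [map_add, ← rho_mul_apply, ht2, rho_one_apply, add_comm]
        rw [hbot, Submodule.mem_bot] at this
        rw [add_comm] at this
        exact eq_neg_of_add_eq_zero_left this
      have h7 := htJ n₁ hn₁
      rw [hneg _ (hJN n₁ hn₁), hneg n₁ hn₁, map_neg, neg_neg] at h7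
      have h8 : ρ a₀ n₁ = 0 := by
        have h9 : (2 : ℚ) • ρ a₀ n₁ = 0 := by
          rw [two_smul]
          nth_rewrite 1 [← h7]
          rw [neg_add_cancel]
        exact (smul_eq_zero.1 h9).resolve_left (by norm_num)
      have h10 := hJJ n₁ hn₁
      rw [h8, map_zero] at h10
      exact hn₁0 (by rw [← neg_eq_zero]; exact h10.symm)
    have hNple : Np ≤ N := fun n hn => ((hNpmem n).1 hn).1
    have hIrr : IrrOn ρ K Np := by
      refine ⟨hNpne, ?_, ?_⟩
      · intro k hk n hn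
        rw [hNpmem] at hn ⊢
        refine ⟨h.stable k (hK hk) n hn.1, ?_⟩
        rw [← rho_mul_apply, ← hKt k hk, rho_mul_apply, hn.2]
      · intro W hW hWst
        have hWN : W ≤ N := hW.trans hNple
        have htW : ∀ w ∈ W, ρ t w = w := fun w hw => ((hNpmem w).1 (hW hw)).2
        set W' := W ⊔ W.map (ρ a₀) with hW'
        have hWW' : W ≤ W' := le_sup_left
        have hJW' : ∀ w ∈ W, ρ a₀ w ∈ W' := fun w hw =>
          (le_sup_right : W.map (ρ a₀) ≤ W') ⟨w, hw, rfl⟩
        have hW'N : W' ≤ N := by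
          refine sup_le hWN ?_
          rintro _ ⟨w, hw, rfl⟩
          exact hJN w (hWN hw)
        -- action of A on W'
        have hAW' : ∀ b ∈ A, ∀ x ∈ W', ρ b x ∈ W' := by
          intro b hb x hx
          obtain ⟨w₁, hw₁, y, hy, rfl⟩ := Submodule.mem_sup.1 hx
          obtain ⟨w₂, hw₂, rfl⟩ := hy
          obtain ⟨s, hs | hs⟩ := hAs b hb
          · rw [hs _ (hW'N hx)]
            exact W'.smul_mem _ hx
          · rw [hs _ (hW'N hx), map_add, hJJ w₂ (hWN hw₂)]
            refine W'.smul_mem _ (W'.add_mem (hJW' w₁ hw₁) (W'.neg_mem (hWW' hw₂)))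
        have htW' : ∀ x ∈ W', ρ t x ∈ W' := by
          intro x hx
          obtain ⟨w₁, hw₁, y, hy, rfl⟩ := Submodule.mem_sup.1 hx
          obtain ⟨w₂, hw₂, rfl⟩ := hy
          rw [map_add, htJ w₂ (hWN hw₂), htW w₁ hw₁, htW w₂ hw₂]
          exact W'.add_mem (hWW' hw₁) (W'.neg_mem (hJW' w₂ hw₂))
        have hkW' : ∀ k ∈ K, ∀ x ∈ W', ρ k x ∈ W' := by
          intro k hk x hx
          obtain ⟨w₁, hw₁, y, hy, rfl⟩ := Submodule.mem_sup.1 hx
          obtain ⟨w₂, hw₂, rfl⟩ := hy
          rw [map_add, ← rho_mul_apply ρ k a₀, hKA k hk a₀ ha₀, rho_mul_apply]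
          exact W'.add_mem (hWW' (hWst k hk w₁ hw₁)) (hJW' _ (hWst k hk w₂ hw₂))
        have hW'st : ∀ g ∈ T, ∀ w ∈ W', ρ g w ∈ W' := by
          intro g hg w hw
          obtain ⟨b, hb, k, hk, hg'⟩ := hgen g hg
          rcases hg' with rfl | rfl
          · rw [rho_mul_apply]
            exact hAW' b hb _ (hkW' k hk w hw)
          · rw [rho_mul_apply, rho_mul_apply]
            exact hAW' b hb _ (htW' _ (hkW' k hk w hw))
        rcases h.irr W' hW'N hW'st with h0 | h1
        · left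
          rw [eq_bot_iff, ← h0]
          exact hWW'
        · right
          apply le_antisymm hW
          intro n hn
          have hnn := (hNpmem n).1 hn
          have hnW' : n ∈ W' := by rw [h1]; exact hnn.1
          obtain ⟨w₁, hw₁, y, hy, hsum⟩ := Submodule.mem_sup.1 hnW'
          obtain ⟨w₂, hw₂, rfl⟩ := hy
          have h5 := hnn.2
          rw [← hsum, map_add, htJ w₂ (hWN hw₂), htW w₁ hw₁, htW w₂ hw₂] at h5
          have h6 : ρ a₀ w₂ = 0 := by
            have h7 : -(ρ a₀ w₂) = ρ a₀ w₂ := by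
              exact add_left_cancel h5
            have h9 : (2 : ℚ) • ρ a₀ w₂ = 0 := by
              rw [two_smul]
              nth_rewrite 1 [← h7]
              rw [neg_add_cancel]
            exact (smul_eq_zero.1 h9).resolve_left (by norm_num)
          rw [h6, add_zero] at hsum
          rw [← hsum]
          exact hw₁
    have hfNp : ∀ n ∈ Np, f n ∈ Np := by
      intro n hn
      rw [hNpmem] at hn ⊢
      refine ⟨hf n hn.1, ?_⟩
      rw [← hc t ht n hn.1, hn.2]
    obtain ⟨q, hq⟩ := hKs Np hNple hIrr hfNp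
    obtain ⟨n₀, hn₀, hn₀0⟩ := Np.exists_mem_ne_zero_of_ne_bot hNpne
    exact ⟨q, h.scalar_of_eigen f hc q n₀ (hNple hn₀) hn₀0 (hq n₀ hn₀)⟩

end Pool.Agent.H43
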