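import Mathlib

set_option autoImplicit false

namespace Pool.Agent.H43

open MonoidAlgebra

variable {P : Type} [Group P] [Fintype P]

/-- The standard positive definite form on the rational group algebra. -/
noncomputable def formB (a b : MonoidAlgebra ℚ P) : ℚ := ∑ g, a.coeff g * b.coeff g

theorem formB_single (h : P) (a b : MonoidAlgebra ℚ P) :
    formB (single h (1 : ℚ) * a) b = formB a (single h⁻¹ (1 : ℚ) * b) := by
  unfold formB
  rw [← Equiv.sum_comp (Equiv.mulLeft h)]
  refine Finset.sum_congr rfl fun g _ => ?_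
  rw [MonoidAlgebra.coeff_single_mul_apply, MonoidAlgebra.coeff_single_mul_apply]
  simp

theorem formB_add_left (a b c : MonoidAlgebra ℚ P) : formB (a + b) c = formB a c + formB b c := by
  unfold formB
  rw [← Finset.sum_add_distrib]
  refine Finset.sum_congr rfl fun g _ => ?_
  rw [MonoidAlgebra.coeff_add, Finsupp.add_apply, add_mul]

theorem formB_comm (a b : MonoidAlgebra ℚ P) : formB a b = formB b a := by
  unfold formB
  exact Finset.sum_congr rfl fun g _ => mul_comm (a.coeff g) (b.coeff g)

theorem formB_smul_left (q : ℚ) (a b : MonoidAlgebra ℚ P) :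
    formB (q • a) b = q * formB a b := by
  unfold formB
  rw [Finset.mul_sum]
  refine Finset.sum_congr rfl fun g _ => ?_
  rw [MonoidAlgebra.coeff_smul_apply, smul_eq_mul, mul_assoc]

theorem formB_self_ne_zero {a : MonoidAlgebra ℚ P} (ha : a ≠ 0) : formB a a ≠ 0 := by
  intro h0
  apply ha
  unfold formB at h0
  rw [Finset.sum_eq_zero_iff_of_nonneg (fun g _ => mul_self_nonneg _)] at h0
  ext g
  have := h0 g (Finset.mem_univ g)
  simpa using this

/-- The form as a linear map in the first variable. -/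
noncomputable def formL (b : MonoidAlgebra ℚ P) : MonoidAlgebra ℚ P →ₗ[ℚ] ℚ where
  toFun a := formB a b
  map_add' a c := formB_add_left a c b
  map_smul' q a := by rw [formB_smul_left]; rfl

theorem formB_sum_left {ι : Type*} (s : Finset ι) (F : ι → MonoidAlgebra ℚ P)
    (b : MonoidAlgebra ℚ P) : formB (∑ i ∈ s, F i) b = ∑ i ∈ s, formB (F i) b :=
  map_sum (formL b) F s

theorem formB_sub_left (a c b : MonoidAlgebra ℚ P) :
    formB (a - c) b = formB a b - formB c b := map_sub (formL b) a c

/-- The antisymmetric central element attached to `x`. -/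
noncomputable def zel (x : P) : MonoidAlgebra ℚ P :=
  ∑ h : P, (single (h * x * h⁻¹) (1 : ℚ) - single (h * x⁻¹ * h⁻¹) (1 : ℚ))

theorem zel_central (x : P) (a : MonoidAlgebra ℚ P) : a * zel x = zel x * a := by
  induction a using MonoidAlgebra.induction_on with
  | of g =>
    rw [MonoidAlgebra.of_apply]
    unfold zel
    rw [Finset.mul_sum, Finset.sum_mul]
    conv_rhs => rw [← Equiv.sum_comp (Equiv.mulLeft g)]
    refine Finset.sum_congr rfl fun h _ => ?_
    rw [mul_sub, sub_mul]
    simp only [single_mul_single, Equiv.coe_mulLeft, mul_one]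
    have e1 : g * (h * x * h⁻¹) = g * h * x * (g * h)⁻¹ * g := by group
    have e2 : g * (h * x⁻¹ * h⁻¹) = g * h * x⁻¹ * (g * h)⁻¹ * g := by group
    rw [e1, e2]
  | add a b ha hb => rw [add_mul, mul_add, ha, hb]
  | smul r a ha => rw [smul_mul_assoc, mul_smul_comm, ha]

theorem zel_antisymm (x : P) (a b : MonoidAlgebra ℚ P) :
    formB (zel x * a) b = - formB a (zel x * b) := by
  unfold zel
  rw [Finset.sum_mul, Finset.sum_mul, formB_sum_left, formB_comm a, formB_sum_left,
    ← Finset.sum_neg_distrib]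
  refine Finset.sum_congr rfl fun h _ => ?_
  rw [sub_mul, sub_mul, formB_sub_left, formB_sub_left, formB_single, formB_single,
    formB_comm _ a, formB_comm _ a]
  have h1 : (h * x * h⁻¹)⁻¹ = h * x⁻¹ * h⁻¹ := by group
  have h2 : (h * x⁻¹ * h⁻¹)⁻¹ = h * x * h⁻¹ := by group
  rw [h1, h2]
  ring

theorem zel_ne_zero (x : P) (hx : ∀ g : P, g * x * g⁻¹ ≠ x⁻¹) : zel x ≠ 0 := by
  classical
  intro h0
  have h1 : (zel x).coeff x = ∑ h : P, (if h * x * h⁻¹ = x then (1 : ℚ) else 0) := by
    unfold zel
    rw [MonoidAlgebra.coeff_sum, Finsupp.finsetSum_apply]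
    refine Finset.sum_congr rfl fun h _ => ?_
    rw [MonoidAlgebra.coeff_sub, Finsupp.sub_apply, MonoidAlgebra.coeff_single,
      MonoidAlgebra.coeff_single, Finsupp.single_apply, Finsupp.single_apply]
    have h2 : h * x⁻¹ * h⁻¹ ≠ x := by
      intro h3
      apply hx h
      have h4 : h * x * h⁻¹ = (h * x⁻¹ * h⁻¹)⁻¹ := by group
      rw [h4, h3]
    rw [if_neg h2, sub_zero]
  rw [h0] at h1
  have h4 : (0 : ℚ) < ∑ h : P, (if h * x * h⁻¹ = x then (1 : ℚ) else 0) := by
    apply Finset.sum_pos'
    · intro h _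
      split_ifs <;> norm_num
    · exact ⟨1, Finset.mem_univ _, by simp⟩
  rw [← h1] at h4
  simp at h4

/-- A finite group with an element not conjugate to its inverse is not split over `ℚ`. -/
theorem not_split_of_nonreal (P : Type) [Group P] [Finite P] (x : P)
    (hx : ∀ g : P, g * x * g⁻¹ ≠ x⁻¹) :
    ¬ ∃ (ι : Type) (_ : Fintype ι) (n : ι → ℕ),
      Nonempty (MonoidAlgebra ℚ P ≃ₐ[ℚ] ((i : ι) → Matrix (Fin (n i)) (Fin (n i)) ℚ)) := by
  classical
  have := Fintype.ofFinite P
  rintro ⟨ι, _, n, ⟨e⟩⟩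
  have hz : e (zel x) ≠ 0 := by
    intro h0
    exact zel_ne_zero x hx ((map_eq_zero_iff e e.injective).1 h0)
  obtain ⟨i, hi⟩ := Function.ne_iff.1 hz
  rw [Pi.zero_apply] at hi
  -- the component is scalar
  have hsc : ∃ q : ℚ, e (zel x) i = Matrix.scalar _ q := by
    have : e (zel x) i ∈ Set.range (Matrix.scalar (Fin (n i))) := by
      apply Matrix.mem_range_scalar_of_commute_single
      intro a b _
      have h1 : ∀ y, y * e (zel x) = e (zel x) * y := by
        intro y
        obtain ⟨w, rfl⟩ := e.surjective y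
        rw [← map_mul, zel_central, map_mul]
      have h2 := congrFun (h1 (Pi.single i (Matrix.single a b (1 : ℚ)))) i
      rw [Pi.mul_apply, Pi.mul_apply, Pi.single_eq_same] at h2
      exact h2
    obtain ⟨q, hq⟩ := this
    exact ⟨q, hq.symm⟩
  obtain ⟨q, hq⟩ := hsc
  have hq0 : q ≠ 0 := by
    rintro rfl
    rw [map_zero] at hq
    exact hi hq
  set E : MonoidAlgebra ℚ P := e.symm (Pi.single i 1) with hE
  have hE0 : E ≠ 0 := by
    intro h0
    have h1 : (Pi.single i (1 : Matrix (Fin (n i)) (Fin (n i)) ℚ) :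
        (i : ι) → Matrix (Fin (n i)) (Fin (n i)) ℚ) = 0 := by
      rw [← e.apply_symm_apply (Pi.single i 1), ← hE, h0, map_zero]
    have h2 := congrFun h1 i
    rw [Pi.single_eq_same, Pi.zero_apply] at h2
    apply hi
    rw [← mul_one (e (zel x) i), h2, mul_zero]
  have hzE : zel x * E = q • E := by
    apply e.injective
    rw [map_mul, map_smul, hE, e.apply_symm_apply]
    funext j
    by_cases hj : j = i
    · subst hj
      rw [Pi.mul_apply, Pi.single_eq_same, mul_one, hq, Pi.smul_apply, Pi.single_eq_same]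
      rw [Matrix.scalar_apply, Matrix.smul_one_eq_diagonal]
    · rw [Pi.mul_apply, Pi.smul_apply, Pi.single_eq_of_ne hj, mul_zero, smul_zero]
  have h3 := zel_antisymm x E E
  rw [hzE, formB_smul_left, formB_comm E (q • E), formB_smul_left] at h3
  have h4 : q * formB E E = 0 := by linarith
  rcases mul_eq_zero.1 h4 with h5 | h5
  · exact hq0 h5
  · exact formB_self_ne_zero hE0 h5

end Pool.Agent.H43
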