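import Pool.Agent.helper43.SplitRep

set_option autoImplicit false

namespace Pool.Agent.H43

/-- If every irreducible rational representation of the finite group `G` has only scalar
endomorphisms, then the rational group algebra is a product of matrix algebras over `ℚ`. -/
theorem split_of_scalar (G : Type) [Group G] [Finite G]
    (hG : ∀ (M : Type) [AddCommGroup M] [Module ℚ M] (ρ : G →* Module.End ℚ M),
      IrrOn ρ Set.univ ⊤ → ∀ f : Module.End ℚ M, (∀ g n, f (ρ g n) = ρ g (f n)) →
      ∃ q : ℚ, ∀ n, f n = q • n) :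
    ∃ (ι : Type) (_ : Fintype ι) (n : ι → ℕ),
      Nonempty (MonoidAlgebra ℚ G ≃ₐ[ℚ] ((i : ι) → Matrix (Fin (n i)) (Fin (n i)) ℚ)) := by
  classical
  obtain ⟨n, S, d, hS, hd, ⟨e⟩⟩ :=
    IsSemisimpleRing.exists_algEquiv_pi_matrix_end_mulOpposite ℚ (MonoidAlgebra ℚ G)
  refine ⟨Fin n, inferInstance, d, ⟨e.trans ?_⟩⟩
  refine AlgEquiv.piCongrRight fun i => AlgEquiv.mapMatrix ?_
  have hSi := hS i
  haveI : Nontrivial (S i) := IsSimpleModule.nontrivial (MonoidAlgebra ℚ G) (S i)
  let ρ : G →* Module.End ℚ (S i) :=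
    ((Algebra.lsmul ℚ ℚ (S i) :
      MonoidAlgebra ℚ G →ₐ[ℚ] Module.End ℚ (S i)).toMonoidHom).comp (MonoidAlgebra.of ℚ G)
  have hρ : ∀ g x, ρ g x = (MonoidAlgebra.single g (1 : ℚ)) • x := fun g x => rfl
  have hIrr : IrrOn ρ Set.univ (⊤ : Submodule ℚ (S i)) := by
    refine ⟨?_, fun _ _ _ _ => trivial, ?_⟩
    · exact top_ne_bot
    · intro W _ hW
      have hsm : ∀ (a : MonoidAlgebra ℚ G) (w : S i), w ∈ W → a • w ∈ W := by
        intro a w hw
        induction a using MonoidAlgebra.induction_on with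
        | of g => exact hW g trivial w hw
        | add a b ha hb => rw [add_smul]; exact W.add_mem ha hb
        | smul r a ha => rw [smul_assoc]; exact W.smul_mem r ha
      let W' : Submodule (MonoidAlgebra ℚ G) (S i) :=
        { carrier := W
          add_mem' := fun ha hb => W.add_mem ha hb
          zero_mem' := W.zero_mem
          smul_mem' := fun a w hw => hsm a w hw }
      rcases hSi.1.2 W' with h0 | h0
      · left
        rw [eq_bot_iff]
        intro x hx
        have : x ∈ W' := hx
        rw [h0] at this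
        simpa using this
      · right
        rw [eq_top_iff]
        intro x _
        have : x ∈ W' := by rw [h0]; trivial
        exact this
  have hscal : ∀ φ : Module.End (MonoidAlgebra ℚ G) (S i), ∃ q : ℚ, ∀ x, φ x = q • x := by
    intro φ
    refine hG (S i) ρ hIrr (φ.restrictScalars ℚ) ?_
    intro g x
    rw [hρ, hρ]
    exact φ.map_smul _ _
  refine (AlgEquiv.ofBijective (Algebra.ofId ℚ (Module.End (MonoidAlgebra ℚ G) (S i))ᵐᵒᵖ)
    ⟨?_, ?_⟩).symm
  · exact (algebraMap ℚ (Module.End (MonoidAlgebra ℚ G) (S i))ᵐᵒᵖ).injective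
  · intro φ
    obtain ⟨q, hq⟩ := hscal φ.unop
    refine ⟨q, ?_⟩
    apply MulOpposite.unop_injective
    apply LinearMap.ext
    intro x
    rw [hq x]
    rfl

end Pool.Agent.H43
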