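import Pool.Agent.helper43.SplitS3
import Pool.Agent.helper43.SplitWA
import Pool.Agent.helper43.SplitNon

set_option autoImplicit false

namespace Pool.Agent.H43

/-! ### The acting group `Dih(C₄ × C₄) × S₃`, of order `32 * 6` -/

/-- Elements `(i, j, l, e, f)`: `(i, j, e)` lies in the generalised dihedral group of
`C₄ × C₄`, and `(l, f)` lies in the dihedral group of `C₃`. -/
@[ext] structure Hh where
  i : ZMod 4
  j : ZMod 4
  l : ZMod 3
  e : ℤˣ
  f : ℤˣ

namespace Hh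

instance : Mul Hh := ⟨fun a b => ⟨a.i + a.e • b.i, a.j + a.e • b.j, a.l + a.f • b.l,
  a.e * b.e, a.f * b.f⟩⟩
instance : One Hh := ⟨⟨0, 0, 0, 1, 1⟩⟩
instance : Inv Hh := ⟨fun a => ⟨-(a.e • a.i), -(a.e • a.j), -(a.f • a.l), a.e, a.f⟩⟩

@[simp] theorem mul_i (a b : Hh) : (a * b).i = a.i + a.e • b.i := rfl
@[simp] theorem mul_j (a b : Hh) : (a * b).j = a.j + a.e • b.j := rfl
@[simp] theorem mul_l (a b : Hh) : (a * b).l = a.l + a.f • b.l := rfl
@[simp] theorem mul_e (a b : Hh) : (a * b).e = a.e * b.e := rfl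
@[simp] theorem mul_f (a b : Hh) : (a * b).f = a.f * b.f := rfl
@[simp] theorem one_i : (1 : Hh).i = 0 := rfl
@[simp] theorem one_j : (1 : Hh).j = 0 := rfl
@[simp] theorem one_l : (1 : Hh).l = 0 := rfl
@[simp] theorem one_e : (1 : Hh).e = 1 := rfl
@[simp] theorem one_f : (1 : Hh).f = 1 := rfl
@[simp] theorem inv_i (a : Hh) : (a⁻¹).i = -(a.e • a.i) := rfl
@[simp] theorem inv_j (a : Hh) : (a⁻¹).j = -(a.e • a.j) := rfl
@[simp] theorem inv_l (a : Hh) : (a⁻¹).l = -(a.f • a.l) := rfl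
@[simp] theorem inv_e (a : Hh) : (a⁻¹).e = a.e := rfl
@[simp] theorem inv_f (a : Hh) : (a⁻¹).f = a.f := rfl

instance : Group Hh := Group.ofLeftAxioms
  (by
    intro a b c
    ext <;> simp [smul_add, mul_smul, add_assoc, mul_assoc])
  (by intro a; ext <;> simp)
  (by
    intro a
    have h1 : a.e * a.e = 1 := Int.units_mul_self a.e
    have h2 : a.f * a.f = 1 := Int.units_mul_self a.f
    ext <;> simp [h1, h2])

instance : Finite Hh := by
  refine Finite.of_injective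
    (fun a : Hh => (a.i, a.j, a.l, a.e, a.f) : Hh → ZMod 4 × ZMod 4 × ZMod 3 × ℤˣ × ℤˣ) ?_
  intro a b h
  simp only [Prod.mk.injEq] at h
  obtain ⟨h1, h2, h3, h4, h5⟩ := h
  ext <;> simp_all

end Hh

/-! ### The ambient group: functions on a `4 × 3` grid, extended by `Hh` -/

/-- A pair (function on the grid with values in `F₂`, element of `Hh`). -/
@[ext] structure Big where
  v : ZMod 4 → ZMod 3 → ZMod 2
  h : Hh

namespace Big

instance : Mul Big := ⟨fun a b =>
  ⟨fun k m => a.v k m + b.v (a.h.e • (k - a.h.i)) (a.h.f • (m - a.h.l)), a.h * b.h⟩⟩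
instance : One Big := ⟨⟨fun _ _ => 0, 1⟩⟩
instance : Inv Big := ⟨fun a => ⟨fun k m => a.v (a.h.i + a.h.e • k) (a.h.l + a.h.f • m), a.h⁻¹⟩⟩

@[simp] theorem mul_v (a b : Big) (k : ZMod 4) (m : ZMod 3) : (a * b).v k m =
  a.v k m + b.v (a.h.e • (k - a.h.i)) (a.h.f • (m - a.h.l)) := rfl
@[simp] theorem mul_h (a b : Big) : (a * b).h = a.h * b.h := rfl
@[simp] theorem one_v (k : ZMod 4) (m : ZMod 3) : (1 : Big).v k m = 0 := rfl
@[simp] theorem one_h : (1 : Big).h = 1 := rfl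
@[simp] theorem inv_v (a : Big) (k : ZMod 4) (m : ZMod 3) :
  (a⁻¹).v k m = a.v (a.h.i + a.h.e • k) (a.h.l + a.h.f • m) := rfl
@[simp] theorem inv_h (a : Big) : (a⁻¹).h = a.h⁻¹ := rfl

theorem ext' {a b : Big} (h1 : ∀ k m, a.v k m = b.v k m) (h2 : a.h = b.h) : a = b := by
  ext k m
  · exact h1 k m
  all_goals rw [h2]

instance : Group Big := Group.ofLeftAxioms
  (by
    intro a b c
    apply ext'
    · intro k m
      have e1 : (a.h.e * b.h.e) • (k - (a.h.i + a.h.e • b.h.i)) =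
          b.h.e • (a.h.e • (k - a.h.i) - b.h.i) := by
        have h1 : a.h.e * a.h.e = 1 := Int.units_mul_self a.h.e
        rw [mul_comm, mul_smul, ← sub_sub, smul_sub a.h.e (k - a.h.i), ← mul_smul, h1, one_smul]
      have e2 : (a.h.f * b.h.f) • (m - (a.h.l + a.h.f • b.h.l)) =
          b.h.f • (a.h.f • (m - a.h.l) - b.h.l) := by
        have h1 : a.h.f * a.h.f = 1 := Int.units_mul_self a.h.f
        rw [mul_comm, mul_smul, ← sub_sub, smul_sub a.h.f (m - a.h.l), ← mul_smul, h1, one_smul]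
      simp [add_assoc, e1, e2]
    · simp [mul_assoc])
  (by intro a; apply ext' <;> simp)
  (by
    intro a
    have h1 : a.h.e * a.h.e = 1 := Int.units_mul_self a.h.e
    have h2 : a.h.f * a.h.f = 1 := Int.units_mul_self a.h.f
    apply ext'
    · intro k m
      have e1 : a.h.e • (k - -(a.h.e • a.h.i)) = a.h.i + a.h.e • k := by
        rw [sub_neg_eq_add, smul_add, ← mul_smul, h1, one_smul, add_comm]
      have e2 : a.h.f • (m - -(a.h.f • a.h.l)) = a.h.l + a.h.f • m := by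
        rw [sub_neg_eq_add, smul_add, ← mul_smul, h2, one_smul, add_comm]
      simp only [mul_v, inv_v, inv_h, Hh.inv_e, Hh.inv_i, Hh.inv_f, Hh.inv_l, e1, e2, one_v]
      exact CharTwo.add_self_eq_zero _
    · simp)

instance : Finite Big := by
  refine Finite.of_injective
    (fun a : Big => (a.v, a.h) : Big → (ZMod 4 → ZMod 3 → ZMod 2) × Hh) ?_
  intro a b h
  simp only [Prod.mk.injEq] at h
  exact ext' (fun k m => by rw [h.1]) h.2

end Big

/-- Edges of the square times vertices of the triangle. -/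
@[ext] structure Ed where
  k : ZMod 4
  m : ZMod 3

instance : Fintype Ed := Fintype.ofEquiv (ZMod 4 × ZMod 3)
  ⟨fun p => ⟨p.1, p.2⟩, fun x => (x.k, x.m), fun _ => rfl, fun _ => rfl⟩

/-- shift occurring in the action on edges -/
def tau (e : ℤˣ) : ZMod 4 := if e = 1 then 0 else -1

theorem tau_mul (a b : ℤˣ) : tau (a * b) = a • tau b + tau a := by
  revert a b; decide

instance : MulAction Hh Ed where
  smul h x := ⟨h.i + h.e • x.k + tau h.e, h.l + h.f • x.m⟩
  one_smul x := by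
    change (⟨(0 : ZMod 4) + (1 : ℤˣ) • x.k + tau 1, (0 : ZMod 3) + (1 : ℤˣ) • x.m⟩ : Ed) = x
    ext <;> simp [tau]
  mul_smul a b x := by
    change (⟨(a * b).i + (a * b).e • x.k + tau (a * b).e, (a * b).l + (a * b).f • x.m⟩ : Ed) =
      ⟨a.i + a.e • (b.i + b.e • x.k + tau b.e) + tau a.e, a.l + a.f • (b.l + b.f • x.m)⟩
    ext
    · simp only [Hh.mul_i, Hh.mul_e, tau_mul, smul_add, mul_smul]
      abel
    · simp only [Hh.mul_l, Hh.mul_f, smul_add, mul_smul]
      abel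

@[simp] theorem smul_k (h : Hh) (x : Ed) : (h • x).k = h.i + h.e • x.k + tau h.e := rfl
@[simp] theorem smul_m (h : Hh) (x : Ed) : (h • x).m = h.l + h.f • x.m := rfl

/-- The generating involutions. -/
def qB (x : Ed) : Big :=
  ⟨fun k m => if (k = x.k ∨ k = x.k + 1) ∧ m ≠ x.m then 1 else 0, 1⟩

/-- The embedding of `Hh`. -/
def iB : Hh →* Big where
  toFun h := ⟨fun _ _ => 0, h⟩
  map_one' := rfl
  map_mul' a b := by apply Big.ext' <;> simp

@[simp] theorem iB_v (h : Hh) (k : ZMod 4) (m : ZMod 3) : (iB h).v k m = 0 := rfl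
@[simp] theorem iB_h (h : Hh) : (iB h).h = h := rfl

theorem qB_comm (x y : Ed) : qB x * qB y = qB y * qB x := by
  apply Big.ext'
  · intro k m
    simp [qB, add_comm]
  · rfl

theorem qB_sq (x : Ed) : qB x * qB x = 1 := by
  apply Big.ext'
  · intro k m
    simp only [qB, Big.mul_v, Hh.one_e, Hh.one_i, Hh.one_f, Hh.one_l, one_smul, sub_zero, Big.one_v]
    exact CharTwo.add_self_eq_zero _
  · rfl

theorem edge_check : ∀ (e : ℤˣ) (i k x : ZMod 4),
    (e • (k - i) = x ∨ e • (k - i) = x + 1) ↔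
    (k = i + e • x + tau e ∨ k = i + e • x + tau e + 1) := by decide +kernel

theorem vert_check : ∀ (f : ℤˣ) (l m x : ZMod 3),
    (f • (m - l) ≠ x) ↔ (m ≠ l + f • x) := by decide +kernel

theorem qB_conj (h : Hh) (x : Ed) : iB h * qB x = qB (h • x) * iB h := by
  apply Big.ext'
  · intro k m
    simp only [qB, Big.mul_v, iB_v, iB_h, smul_k, smul_m, Hh.one_e, Hh.one_i, Hh.one_f, Hh.one_l,
      one_smul, sub_zero, zero_add, add_zero, edge_check h.e h.i k x.k, vert_check h.f h.l m x.m]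
  · simp [qB]

/-- The group of order `12288`. -/
abbrev GG : Type := ↥(Subgroup.closure (Set.range qB ∪ Set.range iB))

/-- generators in `GG` -/
def qG (x : Ed) : GG := ⟨qB x, Subgroup.subset_closure (Or.inl ⟨x, rfl⟩)⟩

/-- embedding in `GG` -/
def iG : Hh →* GG :=
  iB.codRestrict _ fun h => Subgroup.subset_closure (Or.inr ⟨h, rfl⟩)

theorem coe_qG (x : Ed) : ((qG x : GG) : Big) = qB x := rfl
theorem coe_iG (h : Hh) : ((iG h : GG) : Big) = iB h := rfl

theorem qG_comm (x y : Ed) : qG x * qG y = qG y * qG x := Subtype.ext (qB_comm x y)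
theorem qG_sq (x : Ed) : qG x * qG x = 1 := Subtype.ext (qB_sq x)
theorem qG_conj (h : Hh) (x : Ed) : iG h * qG x = qG (h • x) * iG h :=
  Subtype.ext (qB_conj h x)

theorem qG_row (m : ZMod 3) : qG ⟨0, m⟩ * (qG ⟨1, m⟩ * (qG ⟨2, m⟩ * qG ⟨3, m⟩)) = 1 := by
  apply Subtype.ext
  apply Big.ext'
  · intro k m'
    change (qB ⟨0, m⟩ * (qB ⟨1, m⟩ * (qB ⟨2, m⟩ * qB ⟨3, m⟩))).v k m' = 0
    simp only [qB, Big.mul_v, Hh.one_e, Hh.one_i, Hh.one_f, Hh.one_l, one_smul, sub_zero]
    revert k m' m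
    decide +kernel
  · rfl

theorem qG_col (k : ZMod 4) : qG ⟨k, 0⟩ * (qG ⟨k, 1⟩ * qG ⟨k, 2⟩) = 1 := by
  apply Subtype.ext
  apply Big.ext'
  · intro k' m'
    change (qB ⟨k, 0⟩ * (qB ⟨k, 1⟩ * qB ⟨k, 2⟩)).v k' m' = 0
    simp only [qB, Big.mul_v, Hh.one_e, Hh.one_i, Hh.one_f, Hh.one_l, one_smul, sub_zero]
    revert k k' m'
    decide +kernel
  · rfl

end Pool.Agent.H43
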