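import Pool.Agent.helper43.SplitGroup

set_option autoImplicit false

namespace Pool.Agent.H43

/-! ### The finite check on stabilisers -/

/-- A sign pattern with trivial row and column products. -/
def cOf (a0 a1 a2 b0 b1 b2 : Bool) (k : ZMod 4) (m : ZMod 3) : Bool :=
  let c0 : Bool := (![a0, a1, a2, a0 ^^ a1 ^^ a2] : Fin 4 → Bool) k
  let c1 : Bool := (![b0, b1, b2, b0 ^^ b1 ^^ b2] : Fin 4 → Bool) k
  (![c0, c1, c0 ^^ c1] : Fin 3 → Bool) m

def Fixes (c : ZMod 4 → ZMod 3 → Bool) (i : ZMod 4) (l : ZMod 3) (e f : ℤˣ) : Prop :=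
  ∀ k m, c (i + e • k + tau e) (l + f • m) = c k m

instance (c : ZMod 4 → ZMod 3 → Bool) (i : ZMod 4) (l : ZMod 3) (e f : ℤˣ) :
    Decidable (Fixes c i l e f) := by unfold Fixes; infer_instance

def Good (c : ZMod 4 → ZMod 3 → Bool) (i0 : ZMod 4) (l0 : ZMod 3) (f0 : ℤˣ) : Prop :=
  Fixes c i0 l0 (-1) f0 ∧ l0 + f0 • l0 = 0 ∧
  ∀ (i : ZMod 4) (l : ZMod 3) (f : ℤˣ), Fixes c i l 1 f →
    ((f = 1 → l = 0) ∧ (f = -1 → f0 = -1 → l = l0))

instance (c : ZMod 4 → ZMod 3 → Bool) (i0 : ZMod 4) (l0 : ZMod 3) (f0 : ℤˣ) :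
    Decidable (Good c i0 l0 f0) := by unfold Good; infer_instance

theorem stab_check : ∀ a0 a1 a2 b0 b1 b2 : Bool, (a0 || a1 || a2 || b0 || b1 || b2) = true →
    ∃ (i0 : ZMod 4) (l0 : ZMod 3) (f0 : ℤˣ), Good (cOf a0 a1 a2 b0 b1 b2) i0 l0 f0 := by
  decide +kernel

theorem cOf_false : ∀ (k : ZMod 4) (m : ZMod 3),
    cOf false false false false false false k m = false := by
  decide +kernel

theorem sgn_prod4 (a b c d : Bool) (h : sgn a * (sgn b * (sgn c * sgn d)) = 1) :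
    d = (a ^^ b ^^ c) := by
  revert h
  cases a <;> cases b <;> cases c <;> cases d <;> simp [sgn] <;> norm_num

theorem sgn_prod3 (a b c : Bool) (h : sgn a * (sgn b * sgn c) = 1) :
    c = (a ^^ b) := by
  revert h
  cases a <;> cases b <;> cases c <;> simp [sgn] <;> norm_num

theorem eq_cOf (c : ZMod 4 → ZMod 3 → Bool)
    (hr : ∀ m, c 3 m = (c 0 m ^^ c 1 m ^^ c 2 m)) (hc : ∀ k, c k 2 = (c k 0 ^^ c k 1)) :
    c = cOf (c 0 0) (c 1 0) (c 2 0) (c 0 1) (c 1 1) (c 2 1) := by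
  have key : ∀ k : ZMod 4, c k 0 = (![c 0 0, c 1 0, c 2 0, c 0 0 ^^ c 1 0 ^^ c 2 0] : Fin 4 → Bool) k
      ∧ c k 1 = (![c 0 1, c 1 1, c 2 1, c 0 1 ^^ c 1 1 ^^ c 2 1] : Fin 4 → Bool) k := by
    intro k
    have hk : k = 0 ∨ k = 1 ∨ k = 2 ∨ k = 3 := by revert k; decide
    rcases hk with rfl | rfl | rfl | rfl
    · exact ⟨rfl, rfl⟩
    · exact ⟨rfl, rfl⟩
    · exact ⟨rfl, rfl⟩
    · exact ⟨hr 0, hr 1⟩
  funext k m
  have hm : m = 0 ∨ m = 1 ∨ m = 2 := by revert m; decide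
  rcases hm with rfl | rfl | rfl
  · exact (key k).1
  · exact (key k).2
  · rw [hc k, (key k).1, (key k).2]
    rfl

section Main

variable {M : Type} [AddCommGroup M] [Module ℚ M] (ρ : GG →* Module.End ℚ M)

/-- A subspace stable under the generators is stable under the whole group. -/
theorem stable_of_gens (W : Submodule ℚ M)
    (hW : ∀ g ∈ Set.range qG ∪ Set.range iG, ∀ w ∈ W, ρ g w ∈ W) (g : GG) :
    ∀ w ∈ W, ρ g w ∈ W := by
  have hpow : ∀ (g : GG) (_ : ∀ w ∈ W, ρ g w ∈ W) (n : ℕ), ∀ w ∈ W, ρ (g ^ n) w ∈ W := by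
    intro g hg n
    induction n with
    | zero => intro w hw; simpa using hw
    | succ n ih =>
      intro w hw
      rw [pow_succ, rho_mul_apply]
      exact ih _ (hg w hw)
  have key : ∀ (b : Big) (hb : b ∈ Subgroup.closure (Set.range qB ∪ Set.range iB)),
      ∀ w ∈ W, ρ ⟨b, hb⟩ w ∈ W := by
    intro b hb
    induction hb using Subgroup.closure_induction with
    | mem x hx =>
      rcases hx with ⟨y, rfl⟩ | ⟨y, rfl⟩
      · exact hW (qG y) (Or.inl ⟨y, rfl⟩)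
      · exact hW (iG y) (Or.inr ⟨y, rfl⟩)
    | one =>
      intro w hw
      have h1 : (⟨1, one_mem _⟩ : GG) = 1 := rfl
      rw [h1, rho_one_apply]; exact hw
    | mul x y hx hy ihx ihy =>
      intro w hw
      have h1 : (⟨x * y, mul_mem hx hy⟩ : GG) = ⟨x, hx⟩ * ⟨y, hy⟩ := rfl
      rw [h1, rho_mul_apply]
      exact ihx _ (ihy _ hw)
    | inv x hx ih =>
      have h1 : (⟨x⁻¹, inv_mem hx⟩ : GG) = (⟨x, hx⟩ : GG)⁻¹ := rfl
      rw [h1]
      obtain ⟨n, hn, hn1⟩ := (isOfFinOrder_of_finite (⟨x, hx⟩ : GG)).exists_pow_eq_one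
      have h2 : (⟨x, hx⟩ : GG)⁻¹ = (⟨x, hx⟩ : GG) ^ (n - 1) := by
        apply inv_eq_of_mul_eq_one_left
        rw [← pow_succ, Nat.sub_add_cancel hn, hn1]
      rw [h2]
      exact hpow _ ih _
  exact key g.1 g.2

variable {ρ}

theorem eq_one_of_smul_self {p : ℚ} {n : M} (h : p • n = n) (hn : n ≠ 0) : p = 1 := by
  have h2 : (p - 1) • n = 0 := by rw [sub_smul, one_smul, h, sub_self]
  rcases smul_eq_zero.1 h2 with h3 | h3
  · linarith
  · exact absurd h3 hn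

theorem units_cases (e : ℤˣ) : e = 1 ∨ e = -1 := Int.units_eq_one_or e

theorem scalar_GG (hirr : IrrOn ρ Set.univ (⊤ : Submodule ℚ M)) (φ : Module.End ℚ M)
    (hφ : ∀ g n, φ (ρ g n) = ρ g (φ n)) : ∃ q : ℚ, ∀ n, φ n = q • n := by
  have hirr' : IrrOn ρ (Set.range qG ∪ Set.range iG) (⊤ : Submodule ℚ M) := by
    refine ⟨hirr.ne, fun _ _ _ _ => trivial, ?_⟩
    intro W _ hW
    exact hirr.irr W le_top fun g _ => stable_of_gens ρ W hW g
  obtain ⟨c, hN⟩ := clifford qG iG qG_comm qG_sq qG_conj hirr'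
  set N := wt (fun x => ρ (qG x)) c with hNdef
  obtain ⟨n₀, hn₀, hn₀0⟩ := N.exists_mem_ne_zero_of_ne_bot hN.ne
  have hq : ∀ x, ∀ n ∈ N, ρ (qG x) n = sgn (c x) • n := fun x n hn => hn x
  have hφN : ∀ n ∈ N, φ n ∈ N := by
    intro n hn x
    change ρ (qG x) (φ n) = sgn (c x) • φ n
    rw [← hφ, hq x n hn, map_smul]
  -- relations for c
  have hr : ∀ m, c ⟨3, m⟩ = (c ⟨0, m⟩ ^^ c ⟨1, m⟩ ^^ c ⟨2, m⟩) := by
    intro m
    apply sgn_prod4
    have h1 : ρ (qG ⟨0, m⟩ * (qG ⟨1, m⟩ * (qG ⟨2, m⟩ * qG ⟨3, m⟩))) n₀ = n₀ := by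
      rw [qG_row, rho_one_apply]
    simp only [rho_mul_apply, hq _ _ hn₀, map_smul, smul_smul] at h1
    have h2 := eq_one_of_smul_self h1 hn₀0
    linarith
  have hc : ∀ k, c ⟨k, 2⟩ = (c ⟨k, 0⟩ ^^ c ⟨k, 1⟩) := by
    intro k
    apply sgn_prod3
    have h1 : ρ (qG ⟨k, 0⟩ * (qG ⟨k, 1⟩ * qG ⟨k, 2⟩)) n₀ = n₀ := by
      rw [qG_col, rho_one_apply]
    simp only [rho_mul_apply, hq _ _ hn₀, map_smul, smul_smul] at h1
    have h2 := eq_one_of_smul_self h1 hn₀0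
    linarith
  set cc : ZMod 4 → ZMod 3 → Bool := fun k m => c ⟨k, m⟩ with hcc
  have hcceq := eq_cOf cc hr hc
  have hfix : ∀ h : Hh, (∀ x, c (h • x) = c x) ↔ Fixes cc h.i h.l h.e h.f := by
    intro h
    constructor
    · intro hh k m
      exact hh ⟨k, m⟩
    · rintro hh ⟨k, m⟩
      exact hh k m
  suffices hsuf : ∃ q : ℚ, ∀ n ∈ N, φ n = q • n by
    obtain ⟨q, hq'⟩ := hsuf
    refine ⟨q, fun n => hirr.scalar_of_eigen φ (fun g _ n _ => hφ g n) q n₀ trivial hn₀0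
      (hq' n₀ hn₀) n trivial⟩
  by_cases hz : (cc 0 0 || cc 1 0 || cc 2 0 || cc 0 1 || cc 1 1 || cc 2 1) = true
  · -- nontrivial pattern
    obtain ⟨i0, l0, f0, hgood⟩ := stab_check _ _ _ _ _ _ hz
    rw [← hcceq] at hgood
    obtain ⟨hg1, hg2, hg3⟩ := hgood
    set t : Hh := ⟨i0, 0, l0, -1, f0⟩ with ht
    have htfix : ∀ x, c (t • x) = c x := (hfix t).2 hg1
    have htt : t * t = 1 := by
      have h1 : f0 * f0 = 1 := Int.units_mul_self f0
      ext <;> simp [ht, hg2, h1]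
    have hmulfix : ∀ a b : Hh, (∀ x, c (a • x) = c x) → (∀ x, c (b • x) = c x) →
        ∀ x, c ((a * b) • x) = c x := by
      intro a b ha hb x
      rw [mul_smul, ha, hb]
    refine hN.scalar_of_dihedral (iG '' {h | (∀ x, c (h • x) = c x) ∧ h.e = 1}) {1} (iG t)
      ?_ ?_ ?_ ?_ ?_ ?_ ?_ ?_ ?_ ?_ φ hφN (fun g _ n _ => hφ g n) ?_
    · rintro _ ⟨h, hh, rfl⟩
      exact ⟨h, hh.1, rfl⟩
    · exact ⟨t, htfix, rfl⟩
    · rintro _ rfl
      refine ⟨1, ?_, map_one _⟩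
      intro x
      rw [one_smul]
    · rintro _ ⟨a, ha, rfl⟩ _ ⟨b, hb, rfl⟩
      refine ⟨a * b, ⟨hmulfix a b ha.1 hb.1, ?_⟩, map_mul _ _ _⟩
      rw [Hh.mul_e, ha.2, hb.2, one_mul]
    · rintro _ ⟨a, ⟨ha, hae⟩, rfl⟩
      have h1 := (hfix a).1 ha
      rw [hae] at h1
      have h2 := hg3 _ _ _ h1
      have h4 : ∀ z : ZMod 4, z + z + (z + z) = 0 := by decide
      have h5 : a.l + a.f • a.l + (a.f * a.f) • (a.l + a.f • a.l) = 0 := by
        have h6 : a.f * a.f = 1 := Int.units_mul_self a.f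
        rw [h6, one_smul]
        rcases units_cases a.f with h7 | h7
        · rw [h2.1 h7]; simp
        · rw [h7]; simp
      rw [← map_mul, ← map_mul, ← map_one iG]
      congr 1
      ext
      · simp [hae, h4]
      · simp [hae, h4]
      · simp only [Hh.mul_l, Hh.mul_f, Hh.one_l]; exact h5
      · simp [hae]
      · have h6 : a.f * a.f = 1 := Int.units_mul_self a.f
        simp [h6]
    · rintro _ ⟨a, ⟨ha, hae⟩, rfl⟩
      have h1 := (hfix a).1 ha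
      rw [hae] at h1
      have h2 := hg3 _ _ _ h1
      rw [← map_mul, ← map_mul, ← map_inv]
      congr 1
      have hff : f0 * f0 = 1 := Int.units_mul_self f0
      have h5 : l0 + f0 • a.l + (f0 * a.f) • l0 = -(a.f • a.l) := by
        rcases units_cases a.f with h7 | h7
        · rw [h2.1 h7, h7]
          simpa using hg2
        · rcases units_cases f0 with h8 | h8
          · rw [h7, h8]
            simp
          · rw [h7, h8, h2.2 h7 h8]
            simp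
      ext
      · simp [ht, hae]
      · simp [ht, hae]
      · simp only [ht, Hh.mul_l, Hh.mul_f, Hh.inv_l]
        exact h5
      · simp [ht, hae]
      · have h9 : f0 * a.f * f0 = a.f := by
          rw [mul_comm f0 a.f, mul_assoc, hff, mul_one]
        simp only [ht, Hh.mul_f, Hh.inv_f, h9]
    · rw [← map_mul, htt, map_one]
    · rintro _ rfl a _
      rw [one_mul, mul_one]
    · rintro _ rfl
      rw [one_mul, mul_one]
    · rintro _ ⟨h, hh, rfl⟩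
      rcases units_cases h.e with he | he
      · refine ⟨iG h, ⟨h, ⟨hh, he⟩, rfl⟩, 1, rfl, Or.inl (mul_one _).symm⟩
      · refine ⟨iG (h * t), ⟨h * t, ⟨hmulfix h t hh htfix, ?_⟩, rfl⟩, 1, rfl, Or.inr ?_⟩
        · simp [ht, he]
        · rw [mul_one, ← map_mul, mul_assoc, htt, mul_one]
    · intro N' _ hN' hφN'
      refine hN'.scalar_of_scalars ?_ φ hφN'
      rintro _ rfl
      exact ⟨1, fun n _ => by rw [rho_one_apply, one_smul]⟩
  · -- trivial pattern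
    have hz' : cc 0 0 = false ∧ cc 1 0 = false ∧ cc 2 0 = false ∧ cc 0 1 = false ∧
        cc 1 1 = false ∧ cc 2 1 = false := by
      revert hz
      cases cc 0 0 <;> cases cc 1 0 <;> cases cc 2 0 <;> cases cc 0 1 <;> cases cc 1 1 <;>
        cases cc 2 1 <;> simp
    have hcf : ∀ x, c x = false := by
      rintro ⟨k, m⟩
      have h1 : c ⟨k, m⟩ = cc k m := rfl
      rw [h1, hcceq, hz'.1, hz'.2.1, hz'.2.2.1, hz'.2.2.2.1, hz'.2.2.2.2.1, hz'.2.2.2.2.2,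
        cOf_false]
    refine hN.scalar_of_dihedral (iG '' {h | h.l = 0 ∧ h.e = 1 ∧ h.f = 1})
      (iG '' {h | h.i = 0 ∧ h.j = 0 ∧ h.e = 1}) (iG ⟨0, 0, 0, -1, 1⟩)
      ?_ ?_ ?_ ?_ ?_ ?_ ?_ ?_ ?_ ?_ φ hφN (fun g _ n _ => hφ g n) ?_
    · rintro _ ⟨h, _, rfl⟩
      exact ⟨h, fun x => by rw [hcf, hcf], rfl⟩
    · exact ⟨_, fun x => by rw [hcf, hcf], rfl⟩
    · rintro _ ⟨h, _, rfl⟩
      exact ⟨h, fun x => by rw [hcf, hcf], rfl⟩
    · rintro _ ⟨a, ⟨ha1, ha2, ha3⟩, rfl⟩ _ ⟨b, ⟨hb1, hb2, hb3⟩, rfl⟩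
      refine ⟨a * b, ⟨?_, ?_, ?_⟩, map_mul _ _ _⟩
      · simp [ha1, hb1]
      · simp [ha2, hb2]
      · simp [ha3, hb3]
    · rintro _ ⟨a, ⟨ha1, ha2, ha3⟩, rfl⟩
      have h4 : ∀ z : ZMod 4, z + z + (z + z) = 0 := by decide
      rw [← map_mul, ← map_mul, ← map_one iG]
      congr 1
      ext <;> simp [ha1, ha2, ha3, h4]
    · rintro _ ⟨a, ⟨ha1, ha2, ha3⟩, rfl⟩
      rw [← map_mul, ← map_mul, ← map_inv]
      congr 1
      ext <;> simp [ha1, ha2, ha3]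
    · rw [← map_mul, ← map_one iG]
      congr 1
    · rintro _ ⟨k, ⟨hk1, hk2, hk3⟩, rfl⟩ _ ⟨a, ⟨ha1, ha2, ha3⟩, rfl⟩
      rw [← map_mul, ← map_mul]
      congr 1
      ext <;> simp [ha1, ha2, ha3, hk1, hk2, hk3]
    · rintro _ ⟨k, ⟨hk1, hk2, hk3⟩, rfl⟩
      rw [← map_mul, ← map_mul]
      congr 1
      ext <;> simp [hk1, hk2, hk3]
    · rintro _ ⟨h, hh, rfl⟩
      rcases units_cases h.e with he | he
      · refine ⟨iG ⟨h.i, h.j, 0, 1, 1⟩, ⟨_, ⟨rfl, rfl, rfl⟩, rfl⟩,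
          iG ⟨0, 0, h.l, 1, h.f⟩, ⟨_, ⟨rfl, rfl, rfl⟩, rfl⟩, Or.inl ?_⟩
        rw [← map_mul]
        congr 1
        ext <;> simp [he]
      · refine ⟨iG ⟨h.i, h.j, 0, 1, 1⟩, ⟨_, ⟨rfl, rfl, rfl⟩, rfl⟩,
          iG ⟨0, 0, h.l, 1, h.f⟩, ⟨_, ⟨rfl, rfl, rfl⟩, rfl⟩, Or.inr ?_⟩
        rw [← map_mul, ← map_mul]
        congr 1
        ext <;> simp [he]
    · intro N' _ hN' hφN'
      refine hN'.scalar_of_S3 (iG ⟨0, 0, 1, 1, 1⟩) (iG ⟨0, 0, 0, 1, -1⟩)
        ⟨_, ⟨rfl, rfl, rfl⟩, rfl⟩ ⟨_, ⟨rfl, rfl, rfl⟩, rfl⟩ ?_ ?_ ?_ ?_ φ hφN'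
        (fun g _ n _ => hφ g n)
      · rintro W hs ht _ ⟨h, ⟨hh1, hh2, hh3⟩, rfl⟩ w hw
        have hs2 : ∀ w ∈ W, ρ (iG ⟨0, 0, h.l, 1, 1⟩) w ∈ W := by
          intro w hw
          have hl : h.l = 0 ∨ h.l = 1 ∨ h.l = 2 := by
            generalize h.l = l
            revert l; decide
          rcases hl with hl | hl | hl
          · rw [hl]
            have : iG ⟨0, 0, 0, 1, 1⟩ = 1 := map_one iG
            rw [this, rho_one_apply]; exact hw
          · rw [hl]; exact hs w hw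
          · rw [hl]
            have : iG ⟨0, 0, 2, 1, 1⟩ = iG ⟨0, 0, 1, 1, 1⟩ * iG ⟨0, 0, 1, 1, 1⟩ := by
              rw [← map_mul]
              congr 1
            rw [this, rho_mul_apply]; exact hs _ (hs w hw)
        rcases units_cases h.f with hf | hf
        · have : h = ⟨0, 0, h.l, 1, 1⟩ := by ext <;> simp [hh1, hh2, hh3, hf]
          rw [this]
          exact hs2 w hw
        · have : h = ⟨0, 0, h.l, 1, 1⟩ * ⟨0, 0, 0, 1, -1⟩ := by
            ext <;> simp [hh1, hh2, hh3, hf]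
          rw [this, map_mul, rho_mul_apply]
          exact hs2 _ (ht w hw)
      · rw [← map_mul, ← map_mul, ← map_one iG]
        congr 1
      · rw [← map_mul, ← map_one iG]
        congr 1
      · rw [← map_mul, ← map_mul, ← map_mul]
        congr 1

end Main

/-- The group of order `12288` is split over the rationals. -/
theorem GG_split : ∃ (ι : Type) (_ : Fintype ι) (n : ι → ℕ),
    Nonempty (MonoidAlgebra ℚ GG ≃ₐ[ℚ] ((i : ι) → Matrix (Fin (n i)) (Fin (n i)) ℚ)) :=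
  split_of_scalar GG fun _ _ _ _ hirr φ hφ => scalar_GG hirr φ hφ

end Pool.Agent.H43
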