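import Mathlib

set_option autoImplicit false

/-!
Elementary representation theory over the rationals, used for the split-group problem.
-/

namespace Pool.Agent.H43

variable {G : Type*} [Group G] {M : Type*} [AddCommGroup M] [Module ℚ M]

/-- `N` is nonzero, stable under `T`, and has no proper nonzero `T`-stable subspace. -/
structure IrrOn (ρ : G →* Module.End ℚ M) (T : Set G) (N : Submodule ℚ M) : Prop where
  ne : N ≠ ⊥
  stable : ∀ g ∈ T, ∀ n ∈ N, ρ g n ∈ N
  irr : ∀ W : Submodule ℚ M, W ≤ N → (∀ g ∈ T, ∀ w ∈ W, ρ g w ∈ W) → W = ⊥ ∨ W = N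

variable {ρ : G →* Module.End ℚ M} {T : Set G} {N : Submodule ℚ M}

/-- The subspace of `N` where `f` acts as the scalar `q`. -/
def eigOn (N : Submodule ℚ M) (f : Module.End ℚ M) (q : ℚ) : Submodule ℚ M where
  carrier := {n | n ∈ N ∧ f n = q • n}
  add_mem' := by
    rintro a b ⟨ha, ha'⟩ ⟨hb, hb'⟩
    exact ⟨N.add_mem ha hb, by rw [map_add, ha', hb', smul_add]⟩
  zero_mem' := ⟨N.zero_mem, by simp⟩
  smul_mem' := by
    rintro c a ⟨ha, ha'⟩
    exact ⟨N.smul_mem c ha, by rw [map_smul, ha', smul_comm]⟩

theorem mem_eigOn {N : Submodule ℚ M} {f : Module.End ℚ M} {q : ℚ} {n : M} :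
    n ∈ eigOn N f q ↔ n ∈ N ∧ f n = q • n := Iff.rfl

/-- An operator commuting with `T` which has an eigenvector in `N` is a scalar on `N`. -/
theorem IrrOn.scalar_of_eigen (h : IrrOn ρ T N) (f : Module.End ℚ M)
    (hc : ∀ g ∈ T, ∀ n ∈ N, f (ρ g n) = ρ g (f n)) (q : ℚ) (n₀ : M) (hn₀ : n₀ ∈ N)
    (hne : n₀ ≠ 0) (hq : f n₀ = q • n₀) : ∀ n ∈ N, f n = q • n := by
  have hW := h.irr (eigOn N f q) (fun _ hx => hx.1) ?_
  · rcases hW with hW | hW
    · exfalso
      apply hne
      have : n₀ ∈ eigOn N f q := ⟨hn₀, hq⟩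
      rw [hW] at this
      simpa using this
    · intro n hn
      rw [← hW] at hn
      exact hn.2
  · rintro g hg w ⟨hw1, hw2⟩
    exact ⟨h.stable g hg w hw1, by rw [hc g hg w hw1, hw2, map_smul]⟩

/-- An involution commuting with `T` is `1` or `-1` on `N`. -/
theorem IrrOn.sign (h : IrrOn ρ T N) (z : Module.End ℚ M) (hz : ∀ n ∈ N, z n ∈ N)
    (hc : ∀ g ∈ T, ∀ n ∈ N, z (ρ g n) = ρ g (z n)) (h2 : ∀ n ∈ N, z (z n) = n) :
    (∀ n ∈ N, z n = n) ∨ (∀ n ∈ N, z n = -n) := by
  by_cases hex : ∃ n ∈ N, n + z n ≠ 0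
  · obtain ⟨n, hn, hne⟩ := hex
    left
    have := h.scalar_of_eigen z hc 1 (n + z n) (N.add_mem hn (hz n hn)) hne
      (by rw [map_add, h2 n hn, one_smul, add_comm])
    intro n hn
    simpa using this n hn
  · right
    intro n hn
    by_contra hcon
    apply hex
    refine ⟨n, hn, fun h0 => hcon ?_⟩
    rw [add_comm] at h0
    exact eq_neg_of_add_eq_zero_left h0

/-- If `T` acts by scalars then every commuting operator is a scalar on `N`. -/
theorem IrrOn.scalar_of_scalars (h : IrrOn ρ T N)
    (hT : ∀ g ∈ T, ∃ c : ℚ, ∀ n ∈ N, ρ g n = c • n)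
    (f : Module.End ℚ M) (hf : ∀ n ∈ N, f n ∈ N) : ∃ q : ℚ, ∀ n ∈ N, f n = q • n := by
  obtain ⟨n₀, hn₀, hne⟩ := N.exists_mem_ne_zero_of_ne_bot h.ne
  have hW := h.irr (Submodule.span ℚ {n₀}) (by simpa using hn₀) ?_
  · rcases hW with hW | hW
    · exact absurd (by simpa using hW) hne
    · have : f n₀ ∈ Submodule.span ℚ {n₀} := by rw [hW]; exact hf n₀ hn₀
      obtain ⟨q, hq⟩ := Submodule.mem_span_singleton.1 this
      refine ⟨q, fun n hn => ?_⟩
      rw [← hW] at hn
      obtain ⟨a, rfl⟩ := Submodule.mem_span_singleton.1 hn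
      rw [map_smul, ← hq, smul_comm]
  · intro g hg w hw
    obtain ⟨c, hc⟩ := hT g hg
    obtain ⟨a, rfl⟩ := Submodule.mem_span_singleton.1 hw
    rw [map_smul, hc n₀ hn₀]
    exact Submodule.smul_mem _ _ (Submodule.smul_mem _ _ (Submodule.mem_span_singleton_self n₀))

/-! ### The Clifford step for a family of commuting involutions -/

/-- Common eigenvector of finitely many commuting involutions. -/
theorem exists_common_eigen {X : Type*} (τ : X → Module.End ℚ M)
    (hcomm : ∀ x y, τ x * τ y = τ y * τ x) (hsq : ∀ x, τ x * τ x = 1)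
    (L : List X) :
    ∀ N : Submodule ℚ M, N ≠ ⊥ → (∀ x, ∀ n ∈ N, τ x n ∈ N) →
      ∃ m ∈ N, m ≠ 0 ∧ ∀ x ∈ L, τ x m = m ∨ τ x m = -m := by
  induction L with
  | nil =>
    intro N hN _
    obtain ⟨m, hm, hne⟩ := N.exists_mem_ne_zero_of_ne_bot hN
    exact ⟨m, hm, hne, by simp⟩
  | cons a L ih =>
    intro N hN hst
    have key : ∃ q : ℚ, (q = 1 ∨ q = -1) ∧ eigOn N (τ a) q ≠ ⊥ := by
      obtain ⟨m, hm, hne⟩ := N.exists_mem_ne_zero_of_ne_bot hN
      have haa : τ a (τ a m) = m := by
        have := congrArg (fun t => t m) (hsq a)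
        simpa using this
      by_cases h1 : m + τ a m = 0
      · refine ⟨-1, Or.inr rfl, fun hbot => hne ?_⟩
        have : m ∈ eigOn N (τ a) (-1) := by
          refine ⟨hm, ?_⟩
          rw [neg_smul, one_smul]
          rw [add_comm] at h1
          exact eq_neg_of_add_eq_zero_left h1
        rw [hbot] at this
        simpa using this
      · refine ⟨1, Or.inl rfl, fun hbot => h1 ?_⟩
        have : m + τ a m ∈ eigOn N (τ a) 1 := by
          refine ⟨N.add_mem hm (hst a m hm), ?_⟩
          rw [map_add, haa, one_smul, add_comm]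
        rw [hbot] at this
        simpa using this
    obtain ⟨q, hq, hne⟩ := key
    obtain ⟨m, hm, hm0, hmL⟩ := ih (eigOn N (τ a) q) hne (by
      rintro x n ⟨hn1, hn2⟩
      refine ⟨hst x n hn1, ?_⟩
      have := congrArg (fun t => t n) (hcomm a x)
      simp only [Module.End.mul_apply] at this
      rw [this, hn2, map_smul])
    refine ⟨m, hm.1, hm0, ?_⟩
    intro x hx
    rcases List.mem_cons.1 hx with rfl | hx
    · rcases hq with rfl | rfl
      · left; simpa using hm.2
      · right; simpa using hm.2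
    · exact hmL x hx

/-- The sign attached to a Boolean. -/
def sgn (b : Bool) : ℚ := if b then -1 else 1

@[simp] theorem sgn_true : sgn true = -1 := rfl
@[simp] theorem sgn_false : sgn false = 1 := rfl

theorem sgn_mul_self (b : Bool) : sgn b * sgn b = 1 := by cases b <;> simp

theorem sgn_half (a b : Bool) : (1 / 2 : ℚ) * (1 + sgn a * sgn b) = if a = b then 1 else 0 := by
  cases a <;> cases b <;> norm_num

/-- Simultaneous eigenspace. -/
def wt {X : Type*} (τ : X → Module.End ℚ M) (c : X → Bool) : Submodule ℚ M where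
  carrier := {m | ∀ x, τ x m = sgn (c x) • m}
  add_mem' := by
    intro a b ha hb x
    rw [map_add, ha x, hb x, smul_add]
  zero_mem' := by intro x; simp
  smul_mem' := by
    intro q a ha x
    rw [map_smul, ha x, smul_comm]

theorem mem_wt {X : Type*} {τ : X → Module.End ℚ M} {c : X → Bool} {m : M} :
    m ∈ wt τ c ↔ ∀ x, τ x m = sgn (c x) • m := Iff.rfl

/-- The operator projecting onto the weight space `c` (a product over the list `L`). -/
noncomputable def projL {X : Type*} (τ : X → Module.End ℚ M) (c : X → Bool) (L : List X) :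
    Module.End ℚ M :=
  (L.map fun x => (1 / 2 : ℚ) • (1 + sgn (c x) • τ x)).prod

theorem projL_apply {X : Type*} (τ : X → Module.End ℚ M) (c c' : X → Bool) (L : List X)
    (m : M) (hm : m ∈ wt τ c') :
    projL τ c L m = if (∀ x ∈ L, c x = c' x) then m else 0 := by
  induction L with
  | nil => simp [projL]
  | cons a L ih =>
    have hstep : projL τ c (a :: L) m =
        (1 / 2 : ℚ) • (projL τ c L m + sgn (c a) • τ a (projL τ c L m)) := by
      simp [projL, Module.End.mul_apply]
    rw [hstep, ih]
    by_cases hL : ∀ x ∈ L, c x = c' x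
    · rw [if_pos hL]
      rw [hm a, smul_smul]
      have : m + (sgn (c a) * sgn (c' a)) • m = (1 + sgn (c a) * sgn (c' a)) • m := by
        rw [add_smul, one_smul]
      rw [this, smul_smul, sgn_half]
      by_cases ha : c a = c' a
      · rw [if_pos ha, if_pos, one_smul]
        intro x hx
        rcases List.mem_cons.1 hx with rfl | hx
        · exact ha
        · exact hL x hx
      · rw [if_neg ha, if_neg, zero_smul]
        intro hcon
        exact ha (hcon a (by simp))
    · rw [if_neg hL, if_neg]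
      · simp
      · intro hcon
        exact hL fun x hx => hcon x (by simp [hx])

/-- **Clifford step.**  If the commuting involutions `q x` are permuted by the group `H`
and `M` is irreducible under both, then some simultaneous eigenspace is nonzero and
irreducible under the stabiliser in `H` of its sign pattern. -/
theorem clifford {X : Type*} [Fintype X] {H : Type*} [Group H] [MulAction H X]
    (q : X → G) (ι : H →* G)
    (hcomm : ∀ x y, q x * q y = q y * q x) (hsq : ∀ x, q x * q x = 1)
    (hconj : ∀ h x, ι h * q x = q (h • x) * ι h)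
    (h : IrrOn ρ (Set.range q ∪ Set.range ι) ⊤) :
    ∃ c : X → Bool, IrrOn ρ (ι '' {g | ∀ x, c (g • x) = c x}) (wt (fun x => ρ (q x)) c) := by
  classical
  set τ : X → Module.End ℚ M := fun x => ρ (q x) with hτ
  have hτcomm : ∀ x y, τ x * τ y = τ y * τ x := by
    intro x y
    simp only [hτ, ← map_mul, hcomm x y]
  have hτsq : ∀ x, τ x * τ x = 1 := by
    intro x
    simp only [hτ, ← map_mul, hsq x, map_one]
  obtain ⟨m, -, hm0, hm⟩ := exists_common_eigen τ hτcomm hτsq (Finset.univ.toList : List X) ⊤ h.ne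
    (fun _ _ _ => trivial)
  set c : X → Bool := fun x => if τ x m = m then false else true with hc
  have hmc : m ∈ wt τ c := by
    intro x
    by_cases hx : τ x m = m
    · simp [hc, hx]
    · have := (hm x (by simp)).resolve_left hx
      simp [hc, hx]
      exact this
  have hmove : ∀ (g : H) (d : X → Bool) (n : M), n ∈ wt τ d →
      ρ (ι g) n ∈ wt τ (fun x => d (g⁻¹ • x)) := by
    intro g d n hn x
    have h1 := hconj g (g⁻¹ • x)
    rw [smul_inv_smul] at h1
    have h2 : τ x (ρ (ι g) n) = ρ (ι g) (τ (g⁻¹ • x) n) := by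
      simp only [hτ, ← Module.End.mul_apply, ← map_mul, h1]
    rw [h2, hn, map_smul]
  refine ⟨c, ?_, ?_, ?_⟩
  · intro hbot
    apply hm0
    rw [hbot] at hmc
    simpa using hmc
  · rintro _ ⟨g, hg, rfl⟩ n hn
    have h1 := hmove g c n hn
    have h2 : (fun x => c (g⁻¹ • x)) = c := by
      funext x
      have := hg (g⁻¹ • x)
      rw [smul_inv_smul] at this
      exact this.symm
    rwa [h2] at h1
  · intro W hWle hWst
    set W' : Submodule ℚ M := ⨆ g : H, W.map (ρ (ι g)) with hW'
    have hWW' : W ≤ W' := by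
      intro w hw
      have : w ∈ W.map (ρ (ι 1)) := ⟨w, hw, by simp⟩
      exact (le_iSup (fun g : H => W.map (ρ (ι g))) 1) this
    have hproj : ∀ y ∈ W', projL τ c Finset.univ.toList y ∈ W := by
      intro y hy
      refine Submodule.iSup_induction (fun g : H => W.map (ρ (ι g)))
        (motive := fun y => projL τ c Finset.univ.toList y ∈ W) hy ?_ (by simp) ?_
      · rintro g _ ⟨w, hw, rfl⟩
        rw [projL_apply τ c _ _ _ (hmove g c w (hWle hw))]
        split_ifs with hcond
        · refine hWst (ι g) ⟨g, ?_, rfl⟩ w hw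
          intro x
          have := hcond (g • x) (by simp)
          rw [inv_smul_smul] at this
          exact this
        · exact W.zero_mem
      · intro a b ha hb
        rw [map_add]
        exact W.add_mem ha hb
    have hW'st : ∀ g ∈ Set.range q ∪ Set.range ι, ∀ w ∈ W', ρ g w ∈ W' := by
      intro g hg y hy
      refine Submodule.iSup_induction (fun g : H => W.map (ρ (ι g)))
        (motive := fun y => ρ g y ∈ W') hy ?_ (by simp) ?_
      · rintro g' _ ⟨w, hw, rfl⟩
        rcases hg with ⟨x, rfl⟩ | ⟨g₁, rfl⟩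
        · have := hmove g' c w (hWle hw) x
          have h3 : ρ (q x) (ρ (ι g') w) = sgn (c (g'⁻¹ • x)) • ρ (ι g') w := this
          rw [h3]
          refine W'.smul_mem _ ?_
          exact (le_iSup (fun g : H => W.map (ρ (ι g))) g') ⟨w, hw, rfl⟩
        · refine (le_iSup (fun g : H => W.map (ρ (ι g))) (g₁ * g')) ⟨w, hw, ?_⟩
          simp [Module.End.mul_apply]
      · intro a b ha hb
        rw [map_add]
        exact W'.add_mem ha hb
    rcases h.irr W' le_top hW'st with h0 | h1
    · left
      rw [eq_bot_iff, ← h0]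
      exact hWW'
    · right
      apply le_antisymm hWle
      intro n hn
      have h2 := hproj n (by rw [h1]; trivial)
      rw [projL_apply τ c c _ _ hn, if_pos (fun _ _ => rfl)] at h2
      exact h2

end Pool.Agent.H43
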