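import Pool.Agent.helper43.SplitDih

set_option autoImplicit false

namespace Pool.Agent.H43

variable {G : Type*} [Group G] {M : Type*} [AddCommGroup M] [Module ℚ M]
variable {ρ : G →* Module.End ℚ M} {K : Set G} {N : Submodule ℚ M}

/-- Irreducible rational representations of the symmetric group on three letters have only
scalar endomorphisms. -/
theorem IrrOn.scalar_of_S3 (h : IrrOn ρ K N) (s t : G) (hs : s ∈ K) (ht : t ∈ K)
    (hgen : ∀ W : Submodule ℚ M, (∀ w ∈ W, ρ s w ∈ W) → (∀ w ∈ W, ρ t w ∈ W) →
      ∀ g ∈ K, ∀ w ∈ W, ρ g w ∈ W)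
    (hs3 : s * (s * s) = 1) (ht2 : t * t = 1) (hconj : t * s = (s * s) * t)
    (f : Module.End ℚ M) (hf : ∀ n ∈ N, f n ∈ N)
    (hc : ∀ g ∈ K, ∀ n ∈ N, f (ρ g n) = ρ g (f n)) :
    ∃ q : ℚ, ∀ n ∈ N, f n = q • n := by
  obtain ⟨n₁, hn₁, hn₁0⟩ := N.exists_mem_ne_zero_of_ne_bot h.ne
  have hsN : ∀ n ∈ N, ρ s n ∈ N := fun n hn => h.stable s hs n hn
  have htN : ∀ n ∈ N, ρ t n ∈ N := fun n hn => h.stable t ht n hn
  have htt : ∀ n, ρ t (ρ t n) = n := by
    intro n; rw [← rho_mul_apply, ht2, rho_one_apply]
  have hsss : ∀ n, ρ s (ρ s (ρ s n)) = n := by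
    intro n; rw [← rho_mul_apply, ← rho_mul_apply, mul_assoc, hs3, rho_one_apply]
  have hts : ∀ n, ρ t (ρ s n) = ρ s (ρ s (ρ t n)) := by
    intro n; rw [← rho_mul_apply, hconj, rho_mul_apply, rho_mul_apply]
  by_cases hF : eigOn N (ρ s) 1 = ⊥
  · have hsum : ∀ n ∈ N, n + ρ s n + ρ s (ρ s n) = 0 := by
      intro n hn
      have : n + ρ s n + ρ s (ρ s n) ∈ eigOn N (ρ s) 1 := by
        refine ⟨N.add_mem (N.add_mem hn (hsN n hn)) (hsN _ (hsN n hn)), ?_⟩
        rw [map_add, map_add, hsss, one_smul]
        abel
      rw [hF, Submodule.mem_bot] at this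
      exact this
    have hss : ∀ n ∈ N, ρ s (ρ s n) = -n - ρ s n := by
      intro n hn
      have := hsum n hn
      have h2 : ρ s (ρ s n) = -(n + ρ s n) := by
        rw [add_comm] at this
        exact eq_neg_of_add_eq_zero_left this
      rw [h2]; abel
    have hex : ∃ m ∈ N, m ≠ 0 ∧ ρ t m = m := by
      by_contra hcon
      push Not at hcon
      have hneg : ∀ n ∈ N, ρ t n = -n := by
        intro n hn
        by_contra hne
        have h0 : n + ρ t n ≠ 0 := by
          intro h0
          rw [add_comm] at h0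
          exact hne (eq_neg_of_add_eq_zero_left h0)
        exact hcon _ (N.add_mem hn (htN n hn)) h0 (by rw [map_add, htt, add_comm])
      have h1 := hts n₁
      rw [hneg n₁ hn₁, hneg _ (hsN n₁ hn₁), map_neg, map_neg, neg_inj] at h1
      have h2 := hsss n₁
      rw [← h1] at h2
      -- h2 : ρ s (ρ s n₁) = n₁ , h1 : ρ s n₁ = ρ s (ρ s n₁)
      have h3 : ρ s n₁ = n₁ := by rw [h1]; exact h2
      have : n₁ ∈ eigOn N (ρ s) 1 := ⟨hn₁, by rw [h3, one_smul]⟩
      rw [hF, Submodule.mem_bot] at this
      exact hn₁0 this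
    obtain ⟨m, hm, hm0, htm⟩ := hex
    have htsm : ρ t (ρ s m) = -m - ρ s m := by
      rw [hts, htm, hss m hm]
    have hW := h.irr (Submodule.span ℚ {m, ρ s m}) ?_ ?_
    · rcases hW with hW | hW
      · exfalso
        apply hm0
        have : m ∈ Submodule.span ℚ {m, ρ s m} := Submodule.subset_span (by simp)
        rw [hW, Submodule.mem_bot] at this
        exact this
      · have hfm : f m ∈ Submodule.span ℚ {m, ρ s m} := by rw [hW]; exact hf m hm
        obtain ⟨a, b, hab⟩ := Submodule.mem_span_pair.1 hfm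
        have h1 : ρ t (f m) = f m := by rw [← hc t ht m hm, htm]
        rw [← hab, map_add, map_smul, map_smul, htm, htsm] at h1
        have h2 : b • (m + (2 : ℚ) • ρ s m) = 0 := by
          have h3 : b • (m + (2 : ℚ) • ρ s m) =
              (a • m + b • ρ s m) - (a • m + b • (-m - ρ s m)) := by
            module
          rw [h3, h1, sub_self]
        rcases smul_eq_zero.1 h2 with hb | hb
        · exact ⟨a, h.scalar_of_eigen f hc a m hm hm0 (by rw [← hab, hb, zero_smul, add_zero])⟩
        · exfalso
          have h4 : ρ s m = (-(1/2) : ℚ) • m := by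
            have h5 : ρ s m = (-(1/2) : ℚ) • m + (1/2 : ℚ) • (m + (2 : ℚ) • ρ s m) := by module
            rw [hb, smul_zero, add_zero] at h5
            exact h5
          have h6 := hsss m
          rw [h4, map_smul, h4, map_smul, map_smul, h4, smul_smul, smul_smul] at h6
          have h7 : (-(9/8) : ℚ) • m = 0 := by
            have h8 : (-(9/8) : ℚ) • m = (-(1 / 2) * -(1 / 2) * -(1 / 2) : ℚ) • m - m := by module
            rw [h8, h6, sub_self]
          rcases smul_eq_zero.1 h7 with h9 | h9
          · norm_num at h9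
          · exact hm0 h9
    · rw [Submodule.span_le]
      intro x hx
      rcases hx with rfl | hx
      · exact hm
      · rw [Set.mem_singleton_iff] at hx
        rw [hx]; exact hsN m hm
    · apply hgen
      · intro w hw
        obtain ⟨a, b, rfl⟩ := Submodule.mem_span_pair.1 hw
        rw [map_add, map_smul, map_smul, hss m hm, Submodule.mem_span_pair]
        exact ⟨-b, a - b, by module⟩
      · intro w hw
        obtain ⟨a, b, rfl⟩ := Submodule.mem_span_pair.1 hw
        rw [map_add, map_smul, map_smul, htm, htsm, Submodule.mem_span_pair]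
        exact ⟨a - b, -b, by module⟩
  · -- s acts trivially on N
    have hst : ∀ g ∈ K, ∀ w ∈ eigOn N (ρ s) 1, ρ g w ∈ eigOn N (ρ s) 1 := by
      apply hgen
      · rintro w ⟨hw1, hw2⟩
        rw [one_smul] at hw2
        exact ⟨hsN w hw1, by rw [one_smul, hw2, hw2]⟩
      · rintro w ⟨hw1, hw2⟩
        rw [one_smul] at hw2
        refine ⟨htN w hw1, ?_⟩
        rw [one_smul]
        have h2 : ρ s (ρ s (ρ t w)) = ρ t w := by
          rw [← hts, hw2]
        have h3 := hsss (ρ t w)
        rw [h2] at h3
        exact h3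
    have hFs : eigOn N (ρ s) 1 = N :=
      (h.irr (eigOn N (ρ s) 1) (fun _ hx => hx.1) hst).resolve_left hF
    have hs1 : ∀ n ∈ N, ρ s n = n := by
      intro n hn
      rw [← hFs] at hn
      simpa using hn.2
    have hT : (∀ n ∈ N, ρ t n = n) ∨ (∀ n ∈ N, ρ t n = -n) := by
      refine h.sign (ρ t) htN ?_ (fun n _ => htt n)
      -- ρ t commutes with K on N: use the subspace of N where it does
      intro g hg n hn
      have hsp : ∀ g ∈ K, ∀ n ∈ N, ρ g n ∈ Submodule.span ℚ {n, ρ t n} := by
        intro g hg n hn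
        refine hgen (Submodule.span ℚ {n, ρ t n}) ?_ ?_ g hg n (Submodule.subset_span (by simp))
        · intro w hw
          obtain ⟨a, b, rfl⟩ := Submodule.mem_span_pair.1 hw
          rw [map_add, map_smul, map_smul, hs1 n hn, hs1 _ (htN n hn)]
          exact hw
        · intro w hw
          obtain ⟨a, b, rfl⟩ := Submodule.mem_span_pair.1 hw
          rw [map_add, map_smul, map_smul, htt, Submodule.mem_span_pair]
          exact ⟨b, a, by rw [add_comm]⟩
      -- the graph trick
      have hgr := hgen (LinearMap.ker (ρ g * ρ t - ρ t * ρ g) ⊓ N)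
      by_cases hplus : ∃ m ∈ N, m ≠ 0 ∧ ρ t m = m
      · obtain ⟨m, hm, hm0, htm⟩ := hplus
        have hspan := h.irr (Submodule.span ℚ {m}) (by simpa using hm) (by
          apply hgen
          · intro w hw
            obtain ⟨a, rfl⟩ := Submodule.mem_span_singleton.1 hw
            rw [map_smul, hs1 m hm]; exact hw
          · intro w hw
            obtain ⟨a, rfl⟩ := Submodule.mem_span_singleton.1 hw
            rw [map_smul, htm]; exact hw)
        rcases hspan with h0 | h0
        · exact absurd (by simpa using h0) hm0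
        · have hall : ∀ n ∈ N, ρ t n = n := by
            intro n hn
            rw [← h0] at hn
            obtain ⟨a, rfl⟩ := Submodule.mem_span_singleton.1 hn
            rw [map_smul, htm]
          rw [hall n hn, hall _ (h.stable g hg n hn)]
      · have hall : ∀ n ∈ N, ρ t n = -n := by
          intro n hn
          by_contra hne
          apply hplus
          refine ⟨n + ρ t n, N.add_mem hn (htN n hn), ?_, by rw [map_add, htt, add_comm]⟩
          intro h0
          rw [add_comm] at h0
          exact hne (eq_neg_of_add_eq_zero_left h0)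
        rw [hall n hn, hall _ (h.stable g hg n hn), map_neg]
    have hspan := h.irr (Submodule.span ℚ {n₁}) (by simpa using hn₁) (by
      apply hgen
      · intro w hw
        obtain ⟨a, rfl⟩ := Submodule.mem_span_singleton.1 hw
        rw [map_smul, hs1 n₁ hn₁]; exact hw
      · intro w hw
        obtain ⟨a, rfl⟩ := Submodule.mem_span_singleton.1 hw
        rcases hT with hT | hT
        · rw [map_smul, hT n₁ hn₁]; exact hw
        · rw [map_smul, hT n₁ hn₁, smul_neg]; exact Submodule.neg_mem _ hw)
    rcases hspan with h0 | h0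
    · exact absurd (by simpa using h0) hn₁0
    · have hfm : f n₁ ∈ Submodule.span ℚ {n₁} := by rw [h0]; exact hf n₁ hn₁
      obtain ⟨a, ha⟩ := Submodule.mem_span_singleton.1 hfm
      exact ⟨a, h.scalar_of_eigen f hc a n₁ hn₁ hn₁0 ha.symm⟩

end Pool.Agent.H43
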