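import Pool.Agent.helper43.UniCoords

set_option autoImplicit false

namespace Pool.Agent.H43.Uni

open TensorProduct Coalgebra MvPolynomial

universe u v w

section
variable {k : Type u} {A : Type v} [Field k] [CommRing A] [HopfAlgebra k A]
variable {M : Type w} [AddCommGroup M] [Module k M]

/-- The contraction `id ⊗ φ : N ⊗ A → N`. -/
noncomputable def ctr {N : Type*} [AddCommGroup N] [Module k N] {B : Type*} [AddCommGroup B]
    [Module k B] (φ : B →ₗ[k] k) : N ⊗[k] B →ₗ[k] N :=
  (TensorProduct.rid k N).toLinearMap ∘ₗ φ.lTensor N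

@[simp] theorem ctr_tmul {N : Type*} [AddCommGroup N] [Module k N] {B : Type*} [AddCommGroup B]
    [Module k B] (φ : B →ₗ[k] k) (n : N) (b : B) : ctr φ (n ⊗ₜ[k] b) = φ b • n := by
  simp [ctr]

/-- The convolution product of two functionals. -/
noncomputable def conv (φ ψ : A →ₗ[k] k) : A →ₗ[k] k :=
  φ ∘ₗ ctr ψ ∘ₗ comul (R := k) (A := A)

/-- The action of a functional on a rational module. -/
noncomputable def RationalModule.act (ρ : RationalModule k A M) (φ : A →ₗ[k] k) : M →ₗ[k] M :=
  ctr φ ∘ₗ ρ.coact

theorem RationalModule.coact_ctr (ρ : RationalModule k A M) (ψ : A →ₗ[k] k) (m : M) :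
    ρ.coact (ρ.act ψ m) = (ctr ψ ∘ₗ comul (R := k) (A := A)).lTensor M (ρ.coact m) := by
  have h := congrArg (fun f => f m) ρ.coassoc
  simp only [LinearMap.comp_apply] at h
  have h1 : ∀ t : M ⊗[k] A, ρ.coact (ctr ψ t) =
      (ctr ψ).lTensor M ((TensorProduct.assoc k M A A) (ρ.coact.rTensor A t)) := by
    intro t
    induction t using TensorProduct.induction_on with
    | zero => simp
    | tmul m a =>
      rw [ctr_tmul, map_smul, LinearMap.rTensor_tmul]
      generalize ρ.coact m = s
      induction s using TensorProduct.induction_on with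
      | zero => simp
      | tmul m' a' => simp [TensorProduct.tmul_smul]
      | add s t hs ht => rw [smul_add, hs, ht, TensorProduct.add_tmul, map_add, map_add]
    | add s t hs ht => rw [map_add, map_add, hs, ht, map_add, map_add, map_add]
  have h2 : ρ.coact (ρ.act ψ m) = (ctr ψ).lTensor M
      ((TensorProduct.assoc k M A A) (ρ.coact.rTensor A (ρ.coact m))) := h1 _
  rw [h2]
  have h3 : (TensorProduct.assoc k M A A) (ρ.coact.rTensor A (ρ.coact m)) =
    (comul (R := k) (A := A)).lTensor M (ρ.coact m) := h
  rw [h3, LinearMap.lTensor_comp, LinearMap.comp_apply]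

theorem RationalModule.act_act (ρ : RationalModule k A M) (φ ψ : A →ₗ[k] k) (m : M) :
    ρ.act φ (ρ.act ψ m) = ρ.act (conv φ ψ) m := by
  have h : ρ.act φ (ρ.act ψ m) = ctr φ (ρ.coact (ρ.act ψ m)) := rfl
  rw [h, ρ.coact_ctr]
  have h2 : ρ.act (conv φ ψ) m = ctr (conv φ ψ) (ρ.coact m) := rfl
  rw [h2]
  generalize ρ.coact m = t
  induction t using TensorProduct.induction_on with
  | zero => simp
  | tmul m a => rw [LinearMap.lTensor_tmul, ctr_tmul, ctr_tmul]; rfl
  | add s t hs ht => rw [map_add, map_add, map_add, hs, ht]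

theorem RationalModule.act_smul (ρ : RationalModule k A M) (c : k) (φ : A →ₗ[k] k) (m : M) :
    ρ.act (c • φ) m = c • ρ.act φ m := by
  simp only [RationalModule.act, LinearMap.comp_apply]
  generalize ρ.coact m = t
  induction t using TensorProduct.induction_on with
  | zero => simp
  | tmul m a => simp [mul_smul]
  | add s t hs ht => rw [map_add, map_add, smul_add, hs, ht]

/-- Over a cocommutative Hopf algebra, the action of a functional is a comodule map. -/
theorem RationalModule.coact_act_comm (ρ : RationalModule k A M)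
    (hco : ∀ a : A, (TensorProduct.comm k A A) (comul (R := k) a) = comul (R := k) a)
    (ψ : A →ₗ[k] k) (m : M) :
    ρ.coact (ρ.act ψ m) = (ρ.act ψ).rTensor A (ρ.coact m) := by
  rw [ρ.coact_ctr]
  have h := congrArg (fun f => f m) ρ.coassoc
  simp only [LinearMap.comp_apply] at h
  have h3 : (TensorProduct.assoc k M A A) (ρ.coact.rTensor A (ρ.coact m)) =
    (comul (R := k) (A := A)).lTensor M (ρ.coact m) := h
  -- left contraction
  let L : A ⊗[k] A →ₗ[k] A := ctr ψ ∘ₗ (TensorProduct.comm k A A).toLinearMap
  have hL : ∀ a b : A, L (a ⊗ₜ b) = ψ a • b := fun a b => by simp [L]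
  have h4 : ctr ψ ∘ₗ comul (R := k) (A := A) = L ∘ₗ comul (R := k) (A := A) := by
    ext a
    simp only [LinearMap.comp_apply, L]
    rw [show (TensorProduct.comm k A A).toLinearMap (comul (R := k) a) =
      (TensorProduct.comm k A A) (comul (R := k) a) from rfl, hco]
  rw [h4, LinearMap.lTensor_comp, LinearMap.comp_apply, ← h3]
  generalize ρ.coact m = t
  induction t using TensorProduct.induction_on with
  | zero => simp
  | tmul m a =>
    rw [LinearMap.rTensor_tmul, LinearMap.rTensor_tmul]
    have h5 : ρ.act ψ m = ctr ψ (ρ.coact m) := rfl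
    rw [h5]
    generalize ρ.coact m = s
    induction s using TensorProduct.induction_on with
    | zero => simp
    | tmul m' a' =>
      rw [TensorProduct.assoc_tmul, LinearMap.lTensor_tmul, hL, ctr_tmul, TensorProduct.tmul_smul,
        TensorProduct.smul_tmul']
    | add s t hs ht => rw [TensorProduct.add_tmul, map_add, map_add, hs, ht, map_add,
        TensorProduct.add_tmul]
  | add s t hs ht => rw [map_add, map_add, map_add, hs, ht, map_add]

end

end Pool.Agent.H43.Uni
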