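import Pool.Agent.helper43.UniAct

set_option autoImplicit false

namespace Pool.Agent.H43.Uni

open TensorProduct Coalgebra

universe u v w

theorem W_split {p : ℕ} (hp : p.Prime) {R : Type*} [CommRing R] (a b : R) :
    ∃ c : R, W p a b = a ^ (p - 1) * b + b ^ 2 * c := by
  refine ⟨∑ k ∈ Finset.Ioo 0 (p - 1), a ^ k * b ^ (p - k - 2) * ((p.choose k / p : ℕ) : R), ?_⟩
  have h2 := hp.two_le
  have h1 : Finset.Ioo 0 p = insert (p - 1) (Finset.Ioo 0 (p - 1)) := by
    ext j
    simp only [Finset.mem_Ioo, Finset.mem_insert]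
    omega
  have h3 : p - 1 ∉ Finset.Ioo 0 (p - 1) := by simp
  have h4 : p.choose (p - 1) / p = 1 := by
    rw [show p.choose (p - 1) = p from by
      have := Nat.choose_symm (n := p) (k := 1) (by omega)
      rw [this, Nat.choose_one_right]]
    exact Nat.div_self hp.pos
  rw [W, h1, Finset.sum_insert h3, h4, show p - (p - 1) = 1 by omega, pow_one, Nat.cast_one,
    mul_one, Finset.mul_sum]
  congr 1
  refine Finset.sum_congr rfl fun j hj => ?_
  rw [Finset.mem_Ioo] at hj
  have h5 : p - j = 2 + (p - j - 2) := by omega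
  rw [h5, pow_add, show 2 + (p - j - 2) - 2 = p - j - 2 by omega]
  ring

/-- `binom((n + 1) p ^ r, p ^ r) = n + 1` modulo `p`. -/
theorem choose_q {p : ℕ} (hp : p.Prime) (n r : ℕ) :
    ((n + 1) * p ^ r).choose (p ^ r) ≡ n + 1 [MOD p] := by
  have : Fact p.Prime := ⟨hp⟩
  induction r with
  | zero => simp; rfl
  | succ r ih =>
    have h := Choose.choose_modEq_choose_mod_mul_choose_div_nat (n := (n + 1) * p ^ (r + 1))
      (k := p ^ (r + 1)) (p := p)
    have h1 : (n + 1) * p ^ (r + 1) % p = 0 := by
      rw [pow_succ, ← mul_assoc]; exact Nat.mul_mod_left _ _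
    have h2 : p ^ (r + 1) % p = 0 := by
      rw [pow_succ]; exact Nat.mul_mod_left _ _
    have h3 : (n + 1) * p ^ (r + 1) / p = (n + 1) * p ^ r := by
      rw [pow_succ, ← mul_assoc]; exact Nat.mul_div_cancel _ hp.pos
    have h4 : p ^ (r + 1) / p = p ^ r := by
      rw [pow_succ]; exact Nat.mul_div_cancel _ hp.pos
    rw [h1, h2, h3, h4, Nat.choose_zero_right, one_mul] at h
    exact h.trans ih

section
variable {p r : ℕ} {k : Type u} {A : Type v} [Field k] [CommRing A] [HopfAlgebra k A]
variable (c : Coords p r k A)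

/-- The coordinate `x`. -/
noncomputable def Coords.x : A := c.equiv.symm (MvPolynomial.X 0)
/-- The coordinate `z`. -/
noncomputable def Coords.z : A := c.equiv.symm (MvPolynomial.X 1)

theorem Coords.comul_x' : comul (R := k) c.x = c.x ⊗ₜ[k] (1 : A) + 1 ⊗ₜ c.x := c.comul_x
theorem Coords.comul_z' : comul (R := k) c.z = c.z ⊗ₜ[k] (1 : A) + 1 ⊗ₜ c.z +
      W p (c.x ⊗ₜ[k] (1 : A)) (1 ⊗ₜ c.x) ^ p ^ r := c.comul_z
theorem Coords.counit_x' : counit (R := k) c.x = 0 := c.counit_x
theorem Coords.counit_z' : counit (R := k) c.z = 0 := c.counit_z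

/-- Algebra maps out of the coordinate ring. -/
noncomputable def Coords.hom {B : Type*} [CommRing B] [Algebra k B] (a b : B) : A →ₐ[k] B :=
  (MvPolynomial.aeval ![a, b]).comp c.equiv.toAlgHom

@[simp] theorem Coords.hom_x {B : Type*} [CommRing B] [Algebra k B] (a b : B) :
    c.hom a b c.x = a := by
  simp [Coords.hom, Coords.x]

@[simp] theorem Coords.hom_z {B : Type*} [CommRing B] [Algebra k B] (a b : B) :
    c.hom a b c.z = b := by
  simp [Coords.hom, Coords.z]

theorem Coords.hom_ext {B : Type*} [CommRing B] [Algebra k B] {f g : A →ₐ[k] B}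
    (hx : f c.x = g c.x) (hz : f c.z = g c.z) : f = g := by
  have : f.comp c.equiv.symm.toAlgHom = g.comp c.equiv.symm.toAlgHom := by
    apply MvPolynomial.algHom_ext
    intro i
    fin_cases i
    · exact hx
    · exact hz
  ext a
  have h := congrArg (fun h => h (c.equiv a)) this
  simpa using h

/-- The monomial basis of the coordinate ring. -/
noncomputable def Coords.basis : Module.Basis (Fin 2 →₀ ℕ) k A :=
  (MvPolynomial.basisMonomials (Fin 2) k).map c.equiv.symm.toLinearEquiv

theorem Coords.basis_apply (s : Fin 2 →₀ ℕ) : c.basis s = c.x ^ s 0 * c.z ^ s 1 := by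
  have h : c.basis s = c.equiv.symm (MvPolynomial.monomial s 1) := by
    simp [Coords.basis]
  rw [h, MvPolynomial.monomial_eq]
  rw [Finsupp.prod_fintype _ _ (by simp)]
  simp [Coords.x, Coords.z, Fin.prod_univ_two]

theorem Coords.lin_ext {N : Type*} [AddCommGroup N] [Module k N] {f g : A →ₗ[k] N}
    (h : ∀ i j : ℕ, f (c.x ^ i * c.z ^ j) = g (c.x ^ i * c.z ^ j)) : f = g := by
  refine c.basis.ext fun s => ?_
  rw [c.basis_apply]
  exact h _ _

include c in
theorem Coords.comul_comm (hp : p.Prime) (a : A) :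
    (TensorProduct.comm k A A) (comul (R := k) a) = comul (R := k) a := by
  have h : ((Algebra.TensorProduct.comm k A A).toAlgHom).comp
      (Bialgebra.comulAlgHom k A) = Bialgebra.comulAlgHom k A := by
    have hW : ∀ (f : A ⊗[k] A →ₐ[k] A ⊗[k] A)
        (a b : A ⊗[k] A), f (W p a b) = W p (f a) (f b) :=
      fun f a b => W_map f.toRingHom p a b
    apply c.hom_ext
    · change (Algebra.TensorProduct.comm k A A) (comul (R := k) c.x) = comul (R := k) c.x
      rw [c.comul_x', map_add, Algebra.TensorProduct.comm_tmul, Algebra.TensorProduct.comm_tmul,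
        add_comm]
    · change (Algebra.TensorProduct.comm k A A).toAlgHom (comul (R := k) c.z) =
        comul (R := k) c.z
      rw [c.comul_z', map_add, map_add, map_pow, hW]
      simp only [AlgEquiv.toAlgHom_apply, Algebra.TensorProduct.comm_tmul]
      rw [W_comm hp, add_comm (1 ⊗ₜ[k] c.z)]
  exact congrArg (fun f => f a) h

/-- The functional giving the coefficient of `x ^ (n q)`. -/
noncomputable def Coords.e (n : ℕ) : A →ₗ[k] k :=
  Polynomial.lcoeff k (n * p ^ r) ∘ₗ (c.hom (B := Polynomial k) Polynomial.X 0).toLinearMap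

/-- The functional giving the coefficient of `z`. -/
noncomputable def Coords.d : A →ₗ[k] k :=
  Polynomial.lcoeff k 1 ∘ₗ (c.hom (B := Polynomial k) 0 Polynomial.X).toLinearMap

theorem Coords.e_apply (n i j : ℕ) :
    c.e n (c.x ^ i * c.z ^ j) = if j = 0 ∧ i = n * p ^ r then 1 else 0 := by
  simp only [Coords.e, LinearMap.comp_apply, AlgHom.toLinearMap_apply, map_mul, map_pow,
    Coords.hom_x, Coords.hom_z, Polynomial.lcoeff_apply]
  rcases Nat.eq_zero_or_pos j with rfl | hj
  · simp [Polynomial.coeff_X_pow, eq_comm]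
  · rw [zero_pow (by omega)]
    simp [hj.ne']

theorem Coords.d_apply (i j : ℕ) :
    c.d (c.x ^ i * c.z ^ j) = if i = 0 ∧ j = 1 then 1 else 0 := by
  simp only [Coords.d, LinearMap.comp_apply, AlgHom.toLinearMap_apply, map_mul, map_pow,
    Coords.hom_x, Coords.hom_z, Polynomial.lcoeff_apply]
  rcases Nat.eq_zero_or_pos i with rfl | hi
  · simp [Polynomial.coeff_X_pow, eq_comm]
  · rw [zero_pow (by omega)]
    simp [hi.ne']

/-- The evaluation map used to compute the convolution. -/
noncomputable def Coords.kap : A ⊗[k] A →ₐ[k] Polynomial (Polynomial k) :=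
  Algebra.TensorProduct.lift
    ((Algebra.ofId (Polynomial k) (Polynomial (Polynomial k)) |>.restrictScalars k).comp
      (c.hom (B := Polynomial k) Polynomial.X 0))
    (c.hom (B := Polynomial (Polynomial k)) Polynomial.X 0)
    (fun _ _ => Commute.all _ _)

theorem Coords.kap_tmul (a b : A) : c.kap (a ⊗ₜ b) =
    Polynomial.C (c.hom (B := Polynomial k) Polynomial.X 0 a) *
      c.hom (B := Polynomial (Polynomial k)) Polynomial.X 0 b := by
  simp [Coords.kap, Algebra.ofId_apply]

theorem Coords.hom_map (b : A) :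
    c.hom (B := Polynomial (Polynomial k)) Polynomial.X 0 b =
      (c.hom (B := Polynomial k) Polynomial.X 0 b).map Polynomial.C := by
  have h : c.hom (B := Polynomial (Polynomial k)) Polynomial.X 0 =
      (Polynomial.mapAlgHom (Algebra.ofId k (Polynomial k))).comp
        (c.hom (B := Polynomial k) Polynomial.X 0) := by
    apply c.hom_ext
    · simp
    · simp
  rw [h]
  rfl

theorem Coords.kap_coeff (m n : ℕ) (t : A ⊗[k] A) :
    ((c.kap t).coeff m).coeff n =
      Polynomial.lcoeff k n (c.hom (B := Polynomial k) Polynomial.X 0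
        (ctr (Polynomial.lcoeff k m ∘ₗ (c.hom (B := Polynomial k) Polynomial.X 0).toLinearMap)
          t)) := by
  induction t using TensorProduct.induction_on with
  | zero => simp
  | tmul a b =>
    rw [c.kap_tmul, c.hom_map, Polynomial.coeff_C_mul, Polynomial.coeff_map,
      Polynomial.coeff_mul_C, ctr_tmul, map_smul, map_smul, smul_eq_mul, mul_comm]
    rfl
  | add s t hs ht =>
    rw [map_add, Polynomial.coeff_add, Polynomial.coeff_add, hs, ht, map_add, map_add, map_add]

theorem Coords.conv_e (m n : ℕ) (a : A) :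
    conv (c.e n) (c.e m) a =
      ((c.kap (comul (R := k) a)).coeff (m * p ^ r)).coeff (n * p ^ r) := by
  rw [c.kap_coeff]
  rfl

theorem Coords.kap_comul (a : A) : c.kap (comul (R := k) a) =
    c.hom (B := Polynomial (Polynomial k)) (Polynomial.X + Polynomial.C Polynomial.X)
      (W p (Polynomial.C (Polynomial.X : Polynomial k))
        (Polynomial.X : Polynomial (Polynomial k)) ^ p ^ r) a := by
  have h : c.kap.comp (Bialgebra.comulAlgHom k A) =
      c.hom (B := Polynomial (Polynomial k)) (Polynomial.X + Polynomial.C Polynomial.X)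
      (W p (Polynomial.C (Polynomial.X : Polynomial k))
        (Polynomial.X : Polynomial (Polynomial k)) ^ p ^ r) := by
    have hW : ∀ (f : A ⊗[k] A →ₐ[k] Polynomial (Polynomial k))
        (a b : A ⊗[k] A), f (W p a b) = W p (f a) (f b) :=
      fun f a b => W_map f.toRingHom p a b
    apply c.hom_ext
    · change c.kap (comul (R := k) c.x) = _
      rw [c.comul_x', map_add, c.kap_tmul, c.kap_tmul]
      simp [add_comm]
    · change c.kap (comul (R := k) c.z) = _
      rw [c.comul_z', map_add, map_add, map_pow, hW, c.kap_tmul, c.kap_tmul, c.kap_tmul,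
        c.kap_tmul]
      simp
  exact congrArg (fun f => f a) h

/-- The main convolution formula. -/
theorem Coords.conv_formula (hp : p.Prime) [CharP k p] (n : ℕ) (hn : 1 ≤ n) (hn' : n ≤ p - 1) :
    conv (c.e n) (c.e 1) = ((n + 1 : ℕ) : k) • c.e (n + 1) +
      (if n = p - 1 then (1 : k) else 0) • c.d := by
  have hq : 0 < p ^ r := pow_pos hp.pos r
  have hpz : ((p : ℕ) : Polynomial (Polynomial k)) = 0 := natCast_p_zero (k := k) p _
  apply c.lin_ext
  intro i j
  rw [LinearMap.add_apply, LinearMap.smul_apply, LinearMap.smul_apply, c.conv_e, c.kap_comul,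
    map_mul, map_pow, map_pow, c.hom_x, c.hom_z, c.e_apply, c.d_apply, one_mul]
  set q := p ^ r with hqdef
  obtain ⟨R, hR⟩ := W_split hp (Polynomial.C (Polynomial.X : Polynomial k))
    (Polynomial.X : Polynomial (Polynomial k))
  have hWq : W p (Polynomial.C (Polynomial.X : Polynomial k))
      (Polynomial.X : Polynomial (Polynomial k)) ^ q =
      Polynomial.C (Polynomial.X ^ ((p - 1) * q)) * Polynomial.X ^ q +
        R ^ q * Polynomial.X ^ (2 * q) := by
    rw [hR, hqdef, add_pow_q hp hpz, mul_pow, mul_pow, ← pow_mul, ← pow_mul, ← hqdef, map_pow]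
    ring
  rcases Nat.lt_trichotomy j 1 with hj | rfl | hj
  · -- `j = 0`
    have hj0 : j = 0 := by omega
    subst hj0
    rw [pow_zero, mul_one, Polynomial.coeff_X_add_C_pow, Polynomial.coeff_mul_natCast,
      Polynomial.coeff_X_pow]
    have h1 : ¬ (i = 0 ∧ 0 = 1) := by omega
    rw [if_neg h1, smul_zero, add_zero, smul_eq_mul]
    by_cases hi : i = (n + 1) * q
    · have h2 : n * q = i - q := by
        rw [hi, add_mul, one_mul]; omega
      rw [if_pos h2, if_pos ⟨rfl, hi⟩, one_mul, mul_one, hi]
      rw [CharP.cast_eq_iff_mod_eq k p]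
      exact choose_q hp n r
    · have h2 : ¬ (n * q = i - q) := by
        intro h3
        apply hi
        have : 0 < n * q := Nat.mul_pos hn hq
        rw [add_mul, one_mul]
        omega
      rw [if_neg h2, if_neg (fun h => hi h.2), zero_mul, mul_zero]
  · -- `j = 1`
    rw [pow_one, hWq, mul_add, ← mul_assoc, ← mul_assoc, Polynomial.coeff_add,
      Polynomial.coeff_mul_X_pow', Polynomial.coeff_mul_X_pow', if_pos le_rfl,
      if_neg (by omega : ¬ (2 * q ≤ q)), add_zero, Nat.sub_self, Polynomial.coeff_mul_C,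
      Polynomial.coeff_X_add_C_pow, Nat.choose_zero_right, Nat.cast_one, mul_one, Nat.sub_zero,
      ← pow_add, Polynomial.coeff_X_pow]
    have h1 : ¬ ((1 : ℕ) = 0 ∧ i = (n + 1) * q) := by omega
    rw [if_neg h1, smul_zero, zero_add, smul_eq_mul]
    by_cases hi : i = 0 ∧ n = p - 1
    · rw [if_pos (by rw [hi.1, hi.2, zero_add]), if_pos hi.2, if_pos ⟨hi.1, rfl⟩, one_mul]
    · have h2 : ¬ (n * q = i + (p - 1) * q) := by
        intro h3
        have h4 : n * q ≤ (p - 1) * q := Nat.mul_le_mul_right _ hn'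
        have h5 : i = 0 := by omega
        have h6 : n * q = (p - 1) * q := by omega
        exact hi ⟨h5, Nat.eq_of_mul_eq_mul_right hq h6⟩
      rw [if_neg h2]
      by_cases hi0 : i = 0
      · rw [if_neg (fun h => hi ⟨hi0, h⟩), zero_mul]
      · simp [hi0]
  · -- `j ≥ 2`
    obtain ⟨j, rfl⟩ : ∃ j', j = j' + 2 := ⟨j - 2, by omega⟩
    have h1 : ¬ (j + 2 = 0 ∧ i = (n + 1) * q) := by omega
    have h2 : ¬ (i = 0 ∧ j + 2 = 1) := by omega
    rw [if_neg h1, if_neg h2, smul_zero, smul_zero, add_zero]
    have h4 : (Polynomial.X + Polynomial.C Polynomial.X) ^ i *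
        (W p (Polynomial.C (Polynomial.X : Polynomial k))
          (Polynomial.X : Polynomial (Polynomial k)) ^ q) ^ (j + 2) =
        ((Polynomial.X + Polynomial.C Polynomial.X) ^ i *
        (Polynomial.C (Polynomial.X ^ ((p - 1) * q)) + R ^ q * Polynomial.X ^ q) ^ (j + 2) *
          Polynomial.X ^ (q * j)) * Polynomial.X ^ (2 * q) := by
      rw [hWq, show Polynomial.C (Polynomial.X ^ ((p - 1) * q)) * Polynomial.X ^ q +
        R ^ q * Polynomial.X ^ (2 * q) =
        (Polynomial.C (Polynomial.X ^ ((p - 1) * q)) + R ^ q * Polynomial.X ^ q) *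
          Polynomial.X ^ q by ring, mul_pow]
      ring
    rw [h4, Polynomial.coeff_mul_X_pow', if_neg (by omega : ¬ (2 * q ≤ q)), Polynomial.coeff_zero]

end

end Pool.Agent.H43.Uni
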