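import Pool.Agent.helper43.UniDefs

set_option autoImplicit false

namespace Pool.Agent.H43.Uni

open TensorProduct Coalgebra MvPolynomial

universe u v w

/-- Coordinates `x, z` on a group scheme with the law
`(x, z)(x', z') = (x + x', z + z' + W(x, x') ^ (p ^ r))`. -/
structure Coords (p r : ℕ) (k : Type u) (A : Type v) [Field k] [CommRing A] [HopfAlgebra k A] where
  equiv : A ≃ₐ[k] MvPolynomial (Fin 2) k
  comul_x : comul (R := k) (equiv.symm (X 0)) =
    equiv.symm (X 0) ⊗ₜ[k] (1 : A) + 1 ⊗ₜ equiv.symm (X 0)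
  comul_z : comul (R := k) (equiv.symm (X 1)) =
    equiv.symm (X 1) ⊗ₜ[k] (1 : A) + 1 ⊗ₜ equiv.symm (X 1) +
      W p (equiv.symm (X 0) ⊗ₜ[k] (1 : A)) (1 ⊗ₜ equiv.symm (X 0)) ^ p ^ r
  counit_x : counit (R := k) (equiv.symm (X 0)) = 0
  counit_z : counit (R := k) (equiv.symm (X 1)) = 0

section BaseChange

variable (p r : ℕ) (F : Type) [Field F] [Fact p.Prime] [CharP F p] (k : Type u) [Field k]
  [Algebra F k]

/-- The base changed coordinate ring as a polynomial ring. -/
noncomputable def bcEquiv : (k ⊗[F] UU p r F) ≃ₐ[k] MvPolynomial (Fin 2) k :=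
  (Algebra.TensorProduct.congr AlgEquiv.refl (UU.equiv p r F)).trans
    (MvPolynomial.algebraTensorAlgEquiv F k)

theorem bcEquiv_symm_X0 : (bcEquiv p r F k).symm (X 0) = 1 ⊗ₜ UU.x p r F := by
  rw [AlgEquiv.symm_apply_eq]
  simp [bcEquiv, UU.x]

theorem bcEquiv_symm_X1 : (bcEquiv p r F k).symm (X 1) = 1 ⊗ₜ UU.z p r F := by
  rw [AlgEquiv.symm_apply_eq]
  simp [bcEquiv, UU.z]

/-- The algebra map `B ⊗ B → (k ⊗ B) ⊗ (k ⊗ B)`. -/
noncomputable def bcj (B : Type) [CommRing B] [Algebra F B] :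
    B ⊗[F] B →ₐ[F] (k ⊗[F] B) ⊗[k] (k ⊗[F] B) :=
  Algebra.TensorProduct.lift
    ((Algebra.TensorProduct.includeLeft (R := k) (S := k) (A := k ⊗[F] B) (B := k ⊗[F] B)
        |>.restrictScalars F).comp
      (Algebra.TensorProduct.includeRight (R := F) (A := k) (B := B)))
    ((Algebra.TensorProduct.includeRight (R := k) (A := k ⊗[F] B) (B := k ⊗[F] B)
        |>.restrictScalars F).comp
      (Algebra.TensorProduct.includeRight (R := F) (A := k) (B := B)))
    (fun _ _ => Commute.all _ _)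

theorem bcj_tmul (B : Type) [CommRing B] [Algebra F B] (b c : B) :
    bcj F k B (b ⊗ₜ c) = ((1 : k) ⊗ₜ[F] b) ⊗ₜ[k] ((1 : k) ⊗ₜ[F] c) := by
  simp [bcj]

theorem bc_comul (B : Type) [CommRing B] [HopfAlgebra F B] (b : B) :
    comul (R := k) ((1 : k) ⊗ₜ[F] b) = bcj F k B (comul (R := F) b) := by
  rw [TensorProduct.comul_tmul]
  generalize comul (R := F) b = t
  induction t using TensorProduct.induction_on with
  | zero => simp
  | tmul c d => rw [bcj_tmul]; simp
  | add s t hs ht => rw [TensorProduct.tmul_add, map_add, map_add, hs, ht]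

/-- Coordinates after base change. -/
noncomputable def bcCoords : Coords p r k (k ⊗[F] UU p r F) where
  equiv := bcEquiv p r F k
  comul_x := by
    rw [bcEquiv_symm_X0, bc_comul, UU.comul_x, map_add, bcj_tmul, bcj_tmul]
    rfl
  comul_z := by
    have hW : ∀ (a b : UU p r F ⊗[F] UU p r F), bcj F k (UU p r F) (W p a b) =
        W p (bcj F k (UU p r F) a) (bcj F k (UU p r F) b) :=
      fun a b => W_map (bcj F k (UU p r F)).toRingHom p a b
    rw [bcEquiv_symm_X1, bcEquiv_symm_X0, bc_comul, UU.comul_z, map_add, map_add, map_pow, hW,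
      bcj_tmul, bcj_tmul, bcj_tmul, bcj_tmul]
    rfl
  counit_x := by
    rw [bcEquiv_symm_X0, TensorProduct.counit_tmul, UU.counit_x, zero_smul]
  counit_z := by
    rw [bcEquiv_symm_X1, TensorProduct.counit_tmul, UU.counit_z, zero_smul]

end BaseChange

end Pool.Agent.H43.Uni
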