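import Pool.Agent.helper43.UniHopf

set_option autoImplicit false

namespace Pool.Agent.H43.Uni

open TensorProduct Coalgebra

universe u v w

/-- A rational module of the affine group scheme with coordinate Hopf algebra `A` over the
field `k`: a right `A`-comodule. -/
structure RationalModule (k : Type u) (A : Type v) (M : Type w) [Field k] [CommRing A]
    [HopfAlgebra k A] [AddCommGroup M] [Module k M] where
  /-- The coaction. -/
  coact : M →ₗ[k] M ⊗[k] A
  coassoc : (TensorProduct.assoc k M A A).toLinearMap ∘ₗ coact.rTensor A ∘ₗ coact =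
    (comul (R := k) (A := A)).lTensor M ∘ₗ coact
  counit_coact : (TensorProduct.rid k M).toLinearMap ∘ₗ
    (counit (R := k) (A := A)).lTensor M ∘ₗ coact = LinearMap.id

/-- The affine group scheme with coordinate Hopf algebra `A` over `k` is unipotent: every nonzero
rational module has a nonzero fixed vector. -/
def IsUnipotent (k : Type u) (A : Type v) [Field k] [CommRing A] [HopfAlgebra k A] : Prop :=
  ∀ (M : Type w) [AddCommGroup M] [Module k M] [Nontrivial M] (ρ : RationalModule k A M),
    ∃ m : M, m ≠ 0 ∧ ρ.coact m = m ⊗ₜ 1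

/-- The ideal of the `r`-th Frobenius kernel (in characteristic `p`): it is generated by the
`p ^ r`-th powers of the functions vanishing at the neutral element. -/
def frobeniusKernel (k : Type u) (A : Type v) [Field k] [CommRing A] [HopfAlgebra k A]
    (p r : ℕ) : Ideal A :=
  Ideal.span {b | ∃ a : A, counit (R := k) a = 0 ∧ b = a ^ p ^ r}

section

variable {k : Type u} {A : Type v} [Field k] [CommRing A] [HopfAlgebra k A]

theorem natCast_p_zero (p : ℕ) [CharP k p] (B : Type*) [CommRing B] [Algebra k B] :
    ((p : ℕ) : B) = 0 := by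
  rw [← map_natCast (algebraMap k B), CharP.cast_eq_zero, map_zero]

/-- The Frobenius kernel is a closed subgroup scheme: its ideal is a Hopf coideal. -/
instance frobeniusKernel_isCoideal (p r : ℕ) [Fact p.Prime] [CharP k p] :
    ((frobeniusKernel k A p r).restrictScalars k).IsCoideal := by
  have hp : p.Prime := Fact.out
  have hq : p ^ r ≠ 0 := pow_ne_zero _ hp.ne_zero
  set I := frobeniusKernel k A p r with hI
  constructor
  · intro x hx
    have hle : I ≤ RingHom.ker (Bialgebra.counitAlgHom k A).toRingHom := by
      rw [hI, frobeniusKernel, Ideal.span_le]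
      rintro _ ⟨a, ha, rfl⟩
      change Bialgebra.counitAlgHom k A (a ^ p ^ r) = 0
      rw [map_pow]
      change (counit (R := k) a) ^ p ^ r = 0
      rw [ha, zero_pow hq]
    exact hle hx
  · intro x hx
    let δ : A ⊗[k] A →ₐ[k] (A ⧸ I) ⊗[k] (A ⧸ I) :=
      Algebra.TensorProduct.map (Ideal.Quotient.mkₐ k I) (Ideal.Quotient.mkₐ k I)
    have hpz : ((p : ℕ) : (A ⧸ I) ⊗[k] (A ⧸ I)) = 0 := natCast_p_zero (k := k) p _
    have hpA : ((p : ℕ) : A) = 0 := natCast_p_zero (k := k) p _
    have hmk : ∀ b : A, (Ideal.Quotient.mkₐ k I) b ^ p ^ r =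
        algebraMap k (A ⧸ I) (counit (R := k) b ^ p ^ r) := by
      intro b
      have h1 : b = (b - algebraMap k A (counit b)) + algebraMap k A (counit (R := k) b) := by
        ring
      have h2 : (b - algebraMap k A (counit (R := k) b)) ^ p ^ r ∈ I := by
        apply Ideal.subset_span
        refine ⟨_, ?_, rfl⟩
        rw [map_sub, Bialgebra.counit_algebraMap, sub_self]
      rw [← map_pow]
      have h3 : b ^ p ^ r = (b - algebraMap k A (counit (R := k) b)) ^ p ^ r +
          algebraMap k A (counit (R := k) b) ^ p ^ r := by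
        rw [← add_pow_q hp hpA, ← h1]
      rw [h3, map_add, ← map_pow (algebraMap k A)]
      have h4 : (Ideal.Quotient.mkₐ k I) ((b - algebraMap k A (counit (R := k) b)) ^ p ^ r) = 0 :=
        Ideal.Quotient.eq_zero_iff_mem.2 h2
      rw [h4, zero_add, AlgHom.commutes]
    let εε : A ⊗[k] A →ₐ[k] k := Algebra.TensorProduct.lift (Bialgebra.counitAlgHom k A)
      (Bialgebra.counitAlgHom k A) (fun _ _ => Commute.all _ _)
    have key : ∀ t : A ⊗[k] A, δ t ^ p ^ r = algebraMap k _ (εε t ^ p ^ r) := by
      intro t
      induction t using TensorProduct.induction_on with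
      | zero => rw [map_zero, map_zero, zero_pow hq, zero_pow hq, map_zero]
      | tmul b c =>
        have h1 : δ (b ⊗ₜ c) = (Ideal.Quotient.mkₐ k I b) ⊗ₜ (Ideal.Quotient.mkₐ k I c) := by
          simp [δ]
        have h2 : εε (b ⊗ₜ c) = counit (R := k) b * counit (R := k) c := by
          simp [εε]
        rw [h1, h2, Algebra.TensorProduct.tmul_pow, hmk, hmk, mul_pow,
          Algebra.algebraMap_eq_smul_one, Algebra.algebraMap_eq_smul_one,
          Algebra.algebraMap_eq_smul_one, TensorProduct.smul_tmul_smul,
          Algebra.TensorProduct.one_def]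
      | add s t hs ht =>
        rw [map_add, map_add, add_pow_q hp hpz, hs, ht, add_pow_q hp (natCast_p_zero (k := k) p k),
          map_add]
    have hle : I ≤ RingHom.ker (δ.comp (Bialgebra.comulAlgHom k A)).toRingHom := by
      refine Ideal.span_le.2 ?_
      rintro _ ⟨a, ha, rfl⟩
      change δ (Bialgebra.comulAlgHom k A (a ^ p ^ r)) = 0
      rw [map_pow, map_pow, key]
      have h1 : εε (Bialgebra.comulAlgHom k A a) = counit (R := k) a := by
        have h2 : εε.toLinearMap ∘ₗ (comul (R := k) (A := A)) = counit := by
          have h3 : εε.toLinearMap = (TensorProduct.lid k k).toLinearMap ∘ₗ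
              (LinearMap.lTensor k counit) ∘ₗ (LinearMap.rTensor A counit) := by
            apply TensorProduct.ext'
            intro b c
            simp [εε]
          rw [h3, LinearMap.comp_assoc, LinearMap.comp_assoc, rTensor_counit_comp_comul]
          ext b
          simp
        exact congrArg (fun f => f a) h2
      rw [h1, ha, zero_pow hq, map_zero]
    exact hle hx

/-- The coaction of the closed subgroup scheme `Spec (A ⧸ I)` on a rational module of
`Spec A`, obtained by restriction. -/
def RationalModule.restrict {M : Type w} [AddCommGroup M] [Module k M]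
    (ρ : RationalModule k A M) (I : Ideal A) : M →ₗ[k] M ⊗[k] (A ⧸ I) :=
  (Ideal.Quotient.mkₐ k I).toLinearMap.lTensor M ∘ₗ ρ.coact

/-- The restriction of the rational module to the closed subgroup scheme `H = Spec (A ⧸ I)` is
isomorphic to the regular module `k[H] = ind_1^H(k)`. -/
def RationalModule.IsRegularOn {M : Type w} [AddCommGroup M] [Module k M]
    (ρ : RationalModule k A M) (I : Ideal A) [(I.restrictScalars k).IsCoideal] : Prop :=
  ∃ e : M ≃ₗ[k] (A ⧸ I),
    e.toLinearMap.rTensor (A ⧸ I) ∘ₗ ρ.restrict I =
      comul (R := k) (A := A ⧸ I) ∘ₗ e.toLinearMap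

end

end Pool.Agent.H43.Uni
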