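import Pool.Agent.helper43.UniNo

set_option autoImplicit false

namespace Pool.Agent.H43.Uni

open TensorProduct Coalgebra

universe u v w

section
variable {p r : ℕ} {k : Type u} {A : Type v} [Field k] [CommRing A] [HopfAlgebra k A]
variable (c : Coords p r k A)

/-- The evaluation map used to compute the coaction on an extremal vector. -/
noncomputable def Coords.lam : A ⊗[k] A →ₐ[k] Polynomial (Polynomial A) :=
  Algebra.TensorProduct.lift
    (Algebra.ofId A (Polynomial (Polynomial A)) |>.restrictScalars k)
    (c.hom (B := Polynomial (Polynomial A)) (Polynomial.C Polynomial.X) Polynomial.X)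
    (fun _ _ => Commute.all _ _)

theorem Coords.lam_tmul (a b : A) : c.lam (a ⊗ₜ b) =
    Polynomial.C (Polynomial.C a) *
      c.hom (B := Polynomial (Polynomial A)) (Polynomial.C Polynomial.X) Polynomial.X b := by
  simp [Coords.lam, Algebra.ofId_apply, Polynomial.algebraMap_apply]

theorem Coords.lam_coeff (s : Fin 2 →₀ ℕ) (t : A ⊗[k] A) :
    ctr (c.basis.coord s) t = ((c.lam t).coeff (s 1)).coeff (s 0) := by
  induction t using TensorProduct.induction_on with
  | zero => simp
  | tmul a b =>
    have h : LinearMap.toSpanSingleton k A a ∘ₗ c.basis.coord s =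
        (((Polynomial.lcoeff A (s 0)).restrictScalars k) ∘ₗ
          ((Polynomial.lcoeff (Polynomial A) (s 1)).restrictScalars k)) ∘ₗ
        c.lam.toLinearMap ∘ₗ TensorProduct.mk k A A a := by
      refine c.basis.ext fun s' => ?_
      simp only [LinearMap.comp_apply, Module.Basis.coord_apply, Module.Basis.repr_self,
        LinearMap.toSpanSingleton_apply, TensorProduct.mk_apply, AlgHom.toLinearMap_apply,
        LinearMap.coe_restrictScalars, Polynomial.lcoeff_apply]
      rw [c.lam_tmul, c.basis_apply, map_mul, map_pow, map_pow, c.hom_x, c.hom_z,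
        Polynomial.coeff_C_mul, ← map_pow, Polynomial.coeff_C_mul,
        Polynomial.coeff_C_mul, Polynomial.coeff_X_pow, Finsupp.single_apply]
      by_cases h : s' = s
      · subst h
        simp
      · rw [if_neg h, zero_smul]
        by_cases h1 : s 1 = s' 1
        · rw [if_pos h1, mul_one, Polynomial.coeff_X_pow]
          have h0 : s 0 ≠ s' 0 := by
            intro h0
            apply h
            ext i
            fin_cases i
            · exact h0.symm
            · exact h1.symm
          rw [if_neg h0, mul_zero]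
        · rw [if_neg h1, mul_zero, Polynomial.coeff_zero, mul_zero]
    have h' := congrArg (fun f => f b) h
    simp only [LinearMap.comp_apply, Module.Basis.coord_apply,
      LinearMap.toSpanSingleton_apply, TensorProduct.mk_apply, AlgHom.toLinearMap_apply,
      LinearMap.coe_restrictScalars, Polynomial.lcoeff_apply] at h'
    rw [ctr_tmul, ← h']
    rfl
  | add s t hs ht => rw [map_add, map_add, hs, ht, Polynomial.coeff_add, Polynomial.coeff_add]

theorem Coords.lam_comul (a : A) : c.lam (comul (R := k) a) =
    c.hom (B := Polynomial (Polynomial A))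
      (Polynomial.C (Polynomial.X + Polynomial.C c.x))
      (Polynomial.X + Polynomial.C (Polynomial.C c.z +
        W p (Polynomial.C c.x) (Polynomial.X : Polynomial A) ^ p ^ r)) a := by
  have h : c.lam.comp (Bialgebra.comulAlgHom k A) =
      c.hom (B := Polynomial (Polynomial A))
      (Polynomial.C (Polynomial.X + Polynomial.C c.x))
      (Polynomial.X + Polynomial.C (Polynomial.C c.z +
        W p (Polynomial.C c.x) (Polynomial.X : Polynomial A) ^ p ^ r)) := by
    have hW : ∀ (f : A ⊗[k] A →ₐ[k] Polynomial (Polynomial A))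
        (a b : A ⊗[k] A), f (W p a b) = W p (f a) (f b) :=
      fun f a b => W_map f.toRingHom p a b
    apply c.hom_ext
    · change c.lam (comul (R := k) c.x) = _
      rw [c.comul_x', map_add, c.lam_tmul, c.lam_tmul, c.hom_x, c.hom_x]
      simp [add_comm]
    · change c.lam (comul (R := k) c.z) = _
      rw [c.comul_z', map_add, map_add, map_pow, hW, c.lam_tmul, c.lam_tmul, c.lam_tmul,
        c.lam_tmul, c.hom_x, c.hom_z, c.hom_z, map_one, map_one, map_one, mul_one, mul_one, one_mul,
        one_mul, map_add Polynomial.C, map_pow Polynomial.C, W_map Polynomial.C]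
      ring
  exact congrArg (fun f => f a) h

/-- The lexicographic weight. -/
def wt (s : Fin 2 →₀ ℕ) : ℕ ×ₗ ℕ := toLex (s 1, s 0)

theorem Coords.contr_self (s : Fin 2 →₀ ℕ) :
    ctr (c.basis.coord s) (comul (R := k) (c.basis s)) = 1 := by
  rw [c.lam_coeff, c.lam_comul, c.basis_apply, map_mul, map_pow, map_pow, c.hom_x, c.hom_z,
    ← map_pow, Polynomial.coeff_C_mul, Polynomial.coeff_X_add_C_pow, Nat.sub_self, pow_zero,
    Nat.choose_self, Nat.cast_one, mul_one, mul_one, Polynomial.coeff_X_add_C_pow, Nat.sub_self,
    pow_zero, Nat.choose_self, Nat.cast_one, mul_one]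

theorem Coords.contr_lt (s s' : Fin 2 →₀ ℕ) (h : wt s' < wt s) :
    ctr (c.basis.coord s) (comul (R := k) (c.basis s')) = 0 := by
  rw [c.lam_coeff, c.lam_comul, c.basis_apply, map_mul, map_pow, map_pow, c.hom_x, c.hom_z,
    ← map_pow, Polynomial.coeff_C_mul, Polynomial.coeff_X_add_C_pow]
  rw [wt, wt, Prod.Lex.toLex_lt_toLex] at h
  rcases h with h | ⟨h1, h2⟩
  · have h3 : (s' 1).choose (s 1) = 0 := Nat.choose_eq_zero_of_lt h
    rw [h3, Nat.cast_zero, mul_zero, mul_zero, Polynomial.coeff_zero]
  · have h1' : s' 1 = s 1 := h1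
    have h2' : s' 0 < s 0 := h2
    rw [h1', Nat.sub_self, pow_zero, Nat.choose_self, Nat.cast_one, mul_one, mul_one,
      Polynomial.coeff_X_add_C_pow, Nat.choose_eq_zero_of_lt h2', Nat.cast_zero, mul_zero]

include c in
/-- The group scheme is unipotent. -/
theorem Coords.isUnipotent : IsUnipotent.{u, v, w} k A := by
  intro M _ _ _ ρ
  obtain ⟨v, hv⟩ := exists_ne (0 : M)
  set E := TensorProduct.equivFinsuppOfBasisRight (M := M) c.basis with hE
  set f := E (ρ.coact v) with hf
  have hcoact : ρ.coact v = f.sum fun s m => m ⊗ₜ c.basis s := by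
    rw [← E.symm_apply_apply (ρ.coact v), ← hf, hE,
      TensorProduct.equivFinsuppOfBasisRight_symm_apply]
  have hfne : f ≠ 0 := by
    intro h0
    have h1 : ρ.coact v = 0 := by
      rw [hcoact, h0, Finsupp.sum_zero_index]
    have h2 := congrArg (fun g => g v) ρ.counit_coact
    simp only [LinearMap.comp_apply, LinearMap.id_apply, h1, map_zero] at h2
    exact hv h2.symm
  have hne : f.support.Nonempty := Finsupp.support_nonempty_iff.2 hfne
  obtain ⟨s, hs, hmax⟩ := Finset.exists_max_image f.support wt hne
  refine ⟨f s, Finsupp.mem_support_iff.1 hs, ?_⟩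
  have hfs : f s = ρ.act (c.basis.coord s) v := by
    have h1 : ρ.act (c.basis.coord s) v = ctr (c.basis.coord s) (ρ.coact v) := rfl
    rw [h1, hcoact, Finsupp.sum, map_sum]
    simp only [ctr_tmul, Module.Basis.coord_apply, Module.Basis.repr_self, Finsupp.single_apply,
      ite_smul, one_smul, zero_smul]
    rw [Finset.sum_ite_eq' f.support s, if_pos hs]
  have hwt : Function.Injective wt := by
    intro a b hab
    have h1 : (a 1, a 0) = (b 1, b 0) := toLex.injective hab
    rw [Prod.mk.injEq] at h1
    ext i
    fin_cases i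
    · exact h1.2
    · exact h1.1
  conv_lhs => rw [hfs]
  rw [ρ.coact_ctr, hcoact, Finsupp.sum, map_sum, Finset.sum_eq_single_of_mem s hs]
  · rw [LinearMap.lTensor_tmul, LinearMap.comp_apply, c.contr_self]
  · intro s' hs' hne'
    have h1 : wt s' < wt s := lt_of_le_of_ne (hmax s' hs') (fun h => hne' (hwt h))
    rw [LinearMap.lTensor_tmul, LinearMap.comp_apply, c.contr_lt s s' h1, TensorProduct.tmul_zero]

end

end Pool.Agent.H43.Uni
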