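import Pool.Agent.helper43.UniW

set_option autoImplicit false

namespace Pool.Agent.H43.Uni

open TensorProduct MvPolynomial

section
variable (p r : ℕ) (F : Type) [Field F]

/-- The coordinate ring `F[x, z]` of the group `U` with law
`(x, z)(x', z') = (x + x', z + z' + W(x, x') ^ (p ^ r))`. -/
def UU (_p _r : ℕ) (F : Type) [Field F] : Type := MvPolynomial (Fin 2) F

noncomputable instance : CommRing (UU p r F) := inferInstanceAs (CommRing (MvPolynomial (Fin 2) F))
noncomputable instance : Algebra F (UU p r F) :=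
  inferInstanceAs (Algebra F (MvPolynomial (Fin 2) F))

/-- The identification of the coordinate ring with the polynomial ring. -/
noncomputable def UU.equiv : UU p r F ≃ₐ[F] MvPolynomial (Fin 2) F := AlgEquiv.refl

/-- The coordinate function `x`. -/
noncomputable def UU.x : UU p r F := (UU.equiv p r F).symm (X 0)
/-- The coordinate function `z`. -/
noncomputable def UU.z : UU p r F := (UU.equiv p r F).symm (X 1)

variable {p r F}

/-- The algebra map out of the coordinate ring with prescribed values on `x` and `z`. -/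
noncomputable def UU.lift {B : Type*} [CommRing B] [Algebra F B] (a b : B) : UU p r F →ₐ[F] B :=
  (MvPolynomial.aeval ![a, b]).comp (UU.equiv p r F).toAlgHom

@[simp] theorem UU.lift_x {B : Type*} [CommRing B] [Algebra F B] (a b : B) :
    UU.lift (p := p) (r := r) (F := F) a b (UU.x p r F) = a := by
  simp [UU.lift, UU.x]

@[simp] theorem UU.lift_z {B : Type*} [CommRing B] [Algebra F B] (a b : B) :
    UU.lift (p := p) (r := r) (F := F) a b (UU.z p r F) = b := by
  simp [UU.lift, UU.z]

theorem UU.hom_ext {B : Type*} [CommRing B] [Algebra F B] {f g : UU p r F →ₐ[F] B}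
    (hx : f (UU.x p r F) = g (UU.x p r F)) (hz : f (UU.z p r F) = g (UU.z p r F)) : f = g := by
  have : f.comp (UU.equiv p r F).symm.toAlgHom = g.comp (UU.equiv p r F).symm.toAlgHom := by
    apply MvPolynomial.algHom_ext
    intro i
    fin_cases i
    · exact hx
    · exact hz
  ext a
  have h := congrArg (fun h => h (UU.equiv p r F a)) this
  simpa using h

/-- Comultiplication. -/
noncomputable def UU.comulHom : UU p r F →ₐ[F] UU p r F ⊗[F] UU p r F :=
  UU.lift (UU.x p r F ⊗ₜ 1 + 1 ⊗ₜ UU.x p r F)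
    (UU.z p r F ⊗ₜ 1 + 1 ⊗ₜ UU.z p r F +
      W p (UU.x p r F ⊗ₜ 1) (1 ⊗ₜ UU.x p r F) ^ p ^ r)

/-- Counit. -/
noncomputable def UU.counitHom : UU p r F →ₐ[F] F := UU.lift 0 0

/-- Antipode. -/
noncomputable def UU.antipodeHom : UU p r F →ₐ[F] UU p r F :=
  UU.lift (-UU.x p r F) (-UU.z p r F - W p (UU.x p r F) (-UU.x p r F) ^ p ^ r)

theorem cast_p_zero [CharP F p] (B : Type*) [CommRing B] [Algebra F B] : ((p : ℕ) : B) = 0 := by
  rw [← map_natCast (algebraMap F B), CharP.cast_eq_zero, map_zero]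

noncomputable instance [Fact p.Prime] [CharP F p] : Bialgebra F (UU p r F) :=
  Bialgebra.ofAlgHom UU.comulHom UU.counitHom
    (by
      have hp : p.Prime := Fact.out
      apply UU.hom_ext
      · simp only [UU.comulHom, AlgHom.comp_apply,
          UU.lift_x, map_add, Algebra.TensorProduct.map_tmul, AlgHom.coe_id, id_eq, map_one,
          TensorProduct.add_tmul, TensorProduct.tmul_add]
        simp only [Algebra.TensorProduct.one_def]
        abel
      · have hW1 : ∀ (f : UU p r F ⊗[F] UU p r F →ₐ[F] UU p r F ⊗[F] (UU p r F ⊗[F] UU p r F))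
            (a b : UU p r F ⊗[F] UU p r F), f (W p a b) = W p (f a) (f b) :=
          fun f a b => W_map f.toRingHom p a b
        set x := UU.x p r F with hx
        set z := UU.z p r F with hz
        set x₁ : UU p r F ⊗[F] (UU p r F ⊗[F] UU p r F) := x ⊗ₜ (1 ⊗ₜ 1) with hx₁
        set x₂ : UU p r F ⊗[F] (UU p r F ⊗[F] UU p r F) := 1 ⊗ₜ (x ⊗ₜ 1) with hx₂
        set x₃ : UU p r F ⊗[F] (UU p r F ⊗[F] UU p r F) := 1 ⊗ₜ (1 ⊗ₜ x) with hx₃
        set z₁ : UU p r F ⊗[F] (UU p r F ⊗[F] UU p r F) := z ⊗ₜ (1 ⊗ₜ 1) with hz₁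
        set z₂ : UU p r F ⊗[F] (UU p r F ⊗[F] UU p r F) := 1 ⊗ₜ (z ⊗ₜ 1) with hz₂
        set z₃ : UU p r F ⊗[F] (UU p r F ⊗[F] UU p r F) := 1 ⊗ₜ (1 ⊗ₜ z) with hz₃
        have hpz : ((p : ℕ) : UU p r F ⊗[F] (UU p r F ⊗[F] UU p r F)) = 0 := cast_p_zero (F := F) _
        let Φ : UU p r F ⊗[F] UU p r F →ₐ[F] UU p r F ⊗[F] (UU p r F ⊗[F] UU p r F) :=
          ((Algebra.TensorProduct.assoc F F F (UU p r F) (UU p r F) (UU p r F)).toAlgHom.comp
            (Algebra.TensorProduct.map UU.comulHom (.id F (UU p r F))))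
        let Ψ : UU p r F ⊗[F] UU p r F →ₐ[F] UU p r F ⊗[F] (UU p r F ⊗[F] UU p r F) :=
          (Algebra.TensorProduct.map (.id F (UU p r F)) UU.comulHom)
        -- the left inclusion of `A ⊗ A`
        let ι₁ : UU p r F ⊗[F] UU p r F →ₐ[F] UU p r F ⊗[F] (UU p r F ⊗[F] UU p r F) :=
          (Algebra.TensorProduct.assoc F F F (UU p r F) (UU p r F) (UU p r F)).toAlgHom.comp
            Algebra.TensorProduct.includeLeft
        let ι₂ : UU p r F ⊗[F] UU p r F →ₐ[F] UU p r F ⊗[F] (UU p r F ⊗[F] UU p r F) :=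
          Algebra.TensorProduct.includeRight
        have e1 : ∀ a, Φ (a ⊗ₜ 1) = ι₁ (UU.comulHom a) := fun a => by
          simp [Φ, ι₁]
        have e2 : ∀ a, Φ (1 ⊗ₜ a) = 1 ⊗ₜ (1 ⊗ₜ a) := fun a => by
          simp [Φ, Algebra.TensorProduct.one_def]
        have e3 : ∀ a, Ψ (a ⊗ₜ 1) = a ⊗ₜ (1 ⊗ₜ 1) := fun a => by
          simp [Ψ, Algebra.TensorProduct.one_def]
        have e4 : ∀ a, Ψ (1 ⊗ₜ a) = ι₂ (UU.comulHom a) := fun a => by
          simp [Ψ, ι₂]
        have e5 : ∀ a b, ι₁ (a ⊗ₜ b) = a ⊗ₜ (b ⊗ₜ 1) := fun a b => by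
          simp [ι₁]
        have e6 : ∀ a b, ι₂ (a ⊗ₜ b) = 1 ⊗ₜ (a ⊗ₜ b) := fun a b => by
          simp [ι₂]
        change Φ (UU.comulHom z) = Ψ (UU.comulHom z)
        have hcz : UU.comulHom z = z ⊗ₜ 1 + 1 ⊗ₜ z + W p (x ⊗ₜ 1) (1 ⊗ₜ x) ^ p ^ r := by
          rw [hz, UU.comulHom, UU.lift_z]
        have hcx : UU.comulHom x = x ⊗ₜ 1 + 1 ⊗ₜ x := by
          rw [hx, UU.comulHom, UU.lift_x]
        rw [hcz]
        simp only [map_add, map_pow, hW1, e1, e2, e3, e4, hcz, hcx, e5, e6]
        rw [← hx₁, ← hx₂, ← hx₃, ← hz₁, ← hz₂, ← hz₃]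
        have hco := W_cocycle hp x₁ x₂ x₃
        have h1 : W p x₁ x₂ ^ p ^ r + W p (x₁ + x₂) x₃ ^ p ^ r =
            W p x₂ x₃ ^ p ^ r + W p x₁ (x₂ + x₃) ^ p ^ r := by
          rw [← add_pow_q hp hpz, ← add_pow_q hp hpz, hco]
        linear_combination h1)
    (by
      have hp : p.Prime := Fact.out
      have hq : p ^ r ≠ 0 := pow_ne_zero _ hp.ne_zero
      apply UU.hom_ext
      · simp [UU.comulHom, UU.counitHom]
      · have hW : ∀ (f : UU p r F ⊗[F] UU p r F →ₐ[F] F ⊗[F] UU p r F)
            (a b : UU p r F ⊗[F] UU p r F), f (W p a b) = W p (f a) (f b) :=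
          fun f a b => W_map f.toRingHom p a b
        simp only [UU.comulHom, UU.counitHom, AlgHom.comp_apply, UU.lift_z, map_add, map_pow, hW,
          Algebra.TensorProduct.map_tmul, AlgHom.coe_id, id_eq, map_one, UU.lift_x,
          TensorProduct.zero_tmul, W_zero_left, zero_pow hq, add_zero, zero_add]
        rfl)
    (by
      have hp : p.Prime := Fact.out
      have hq : p ^ r ≠ 0 := pow_ne_zero _ hp.ne_zero
      apply UU.hom_ext
      · simp [UU.comulHom, UU.counitHom]
      · have hW : ∀ (f : UU p r F ⊗[F] UU p r F →ₐ[F] UU p r F ⊗[F] F)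
            (a b : UU p r F ⊗[F] UU p r F), f (W p a b) = W p (f a) (f b) :=
          fun f a b => W_map f.toRingHom p a b
        simp only [UU.comulHom, UU.counitHom, AlgHom.comp_apply, UU.lift_z, map_add, map_pow, hW,
          Algebra.TensorProduct.map_tmul, AlgHom.coe_id, id_eq, map_one, UU.lift_x,
          TensorProduct.tmul_zero, W_zero_right, zero_pow hq, add_zero, zero_add]
        rfl)

theorem UU.comul_x [Fact p.Prime] [CharP F p] : Coalgebra.comul (R := F) (UU.x p r F) =
    UU.x p r F ⊗ₜ 1 + 1 ⊗ₜ UU.x p r F := UU.lift_x _ _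

theorem UU.comul_z [Fact p.Prime] [CharP F p] : Coalgebra.comul (R := F) (UU.z p r F) =
    UU.z p r F ⊗ₜ 1 + 1 ⊗ₜ UU.z p r F +
      W p (UU.x p r F ⊗ₜ[F] (1 : UU p r F)) (1 ⊗ₜ UU.x p r F) ^ p ^ r := UU.lift_z _ _

theorem UU.counit_x [Fact p.Prime] [CharP F p] :
    Coalgebra.counit (R := F) (UU.x p r F) = 0 := UU.lift_x _ _

theorem UU.counit_z [Fact p.Prime] [CharP F p] :
    Coalgebra.counit (R := F) (UU.z p r F) = 0 := UU.lift_z _ _

noncomputable instance [Fact p.Prime] [CharP F p] : HopfAlgebra F (UU p r F) :=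
  HopfAlgebra.ofAlgHom UU.antipodeHom
    (by
      have hp : p.Prime := Fact.out
      have hW : ∀ (f : UU p r F ⊗[F] UU p r F →ₐ[F] UU p r F)
          (a b : UU p r F ⊗[F] UU p r F), f (W p a b) = W p (f a) (f b) :=
        fun f a b => W_map f.toRingHom p a b
      have hpz : ((p : ℕ) : UU p r F) = 0 := cast_p_zero (F := F) _
      apply UU.hom_ext
      · change (Algebra.TensorProduct.lift UU.antipodeHom (.id F (UU p r F))
            fun _ _ ↦ Commute.all _ _) (UU.comulHom (UU.x p r F)) =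
          algebraMap F _ (UU.counitHom (UU.x p r F))
        simp [UU.comulHom, UU.counitHom, UU.antipodeHom]
      · change (Algebra.TensorProduct.lift UU.antipodeHom (.id F (UU p r F))
            fun _ _ ↦ Commute.all _ _) (UU.comulHom (UU.z p r F)) =
          algebraMap F _ (UU.counitHom (UU.z p r F))
        simp only [UU.comulHom, UU.counitHom, UU.lift_z, map_add, map_pow, hW,
          Algebra.TensorProduct.lift_tmul, map_one, mul_one, one_mul, AlgHom.coe_id, id_eq,
          UU.antipodeHom, UU.lift_x, map_zero]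
        rw [W_comm hp (-UU.x p r F) (UU.x p r F)]
        ring)
    (by
      have hp : p.Prime := Fact.out
      have hW : ∀ (f : UU p r F ⊗[F] UU p r F →ₐ[F] UU p r F)
          (a b : UU p r F ⊗[F] UU p r F), f (W p a b) = W p (f a) (f b) :=
        fun f a b => W_map f.toRingHom p a b
      apply UU.hom_ext
      · change (Algebra.TensorProduct.lift (.id F (UU p r F)) UU.antipodeHom
            fun _ _ ↦ Commute.all _ _) (UU.comulHom (UU.x p r F)) =
          algebraMap F _ (UU.counitHom (UU.x p r F))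
        simp [UU.comulHom, UU.counitHom, UU.antipodeHom]
      · change (Algebra.TensorProduct.lift (.id F (UU p r F)) UU.antipodeHom
            fun _ _ ↦ Commute.all _ _) (UU.comulHom (UU.z p r F)) =
          algebraMap F _ (UU.counitHom (UU.z p r F))
        simp only [UU.comulHom, UU.counitHom, UU.lift_z, map_add, map_pow, hW,
          Algebra.TensorProduct.lift_tmul, map_one, mul_one, one_mul, AlgHom.coe_id, id_eq,
          UU.antipodeHom, UU.lift_x, map_zero]
        ring)

instance [Fact p.Prime] [CharP F p] : Coalgebra.IsCocomm F (UU p r F) where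
  comm_comp_comul := by
    have hp : p.Prime := Fact.out
    have h : ((Algebra.TensorProduct.comm F (UU p r F) (UU p r F)).toAlgHom).comp
        (UU.comulHom : UU p r F →ₐ[F] _) = UU.comulHom := by
      have hW : ∀ (f : UU p r F ⊗[F] UU p r F →ₐ[F] UU p r F ⊗[F] UU p r F)
          (a b : UU p r F ⊗[F] UU p r F), f (W p a b) = W p (f a) (f b) :=
        fun f a b => W_map f.toRingHom p a b
      apply UU.hom_ext
      · simp [UU.comulHom, add_comm]
      · rw [AlgHom.comp_apply, UU.comulHom, UU.lift_z, map_add, map_add, map_pow, hW]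
        simp only [AlgEquiv.toAlgHom_apply, Algebra.TensorProduct.comm_tmul]
        rw [W_comm hp, add_comm (1 ⊗ₜ[F] UU.z p r F)]
    exact congrArg AlgHom.toLinearMap h

end

end Pool.Agent.H43.Uni
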