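import Pool.Agent.helper43.UniCalc

set_option autoImplicit false

namespace Pool.Agent.H43.Uni

open TensorProduct Coalgebra

universe u v w

section
variable {p r : ℕ} {k : Type u} {A : Type v} [Field k] [CommRing A] [HopfAlgebra k A]
variable {M : Type w} [AddCommGroup M] [Module k M]
variable (c : Coords p r k A)

theorem RationalModule.act_add (ρ : RationalModule k A M) (φ ψ : A →ₗ[k] k) (m : M) :
    ρ.act (φ + ψ) m = ρ.act φ m + ρ.act ψ m := by
  simp only [RationalModule.act, LinearMap.comp_apply]
  generalize ρ.coact m = t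
  induction t using TensorProduct.induction_on with
  | zero => simp
  | tmul m a => simp [add_smul]
  | add s t hs ht => rw [map_add, map_add, map_add, hs, ht]; abel

include c in
theorem Coords.pow_act (hp : p.Prime) [CharP k p] (ρ : RationalModule k A M) (n : ℕ) (hn : 1 ≤ n)
    (hn' : n ≤ p - 1) (m : M) :
    (ρ.act (c.e 1))^[n] m = (n.factorial : k) • ρ.act (c.e n) m := by
  induction n, hn using Nat.le_induction generalizing m with
  | base => simp
  | succ n hn ih =>
    rw [Function.iterate_succ_apply, ih (by omega), ρ.act_act,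
      c.conv_formula hp n hn (by omega), if_neg (by omega), zero_smul, add_zero, ρ.act_smul,
      smul_smul, Nat.factorial_succ]
    congr 1
    push_cast
    ring

include c in
theorem Coords.pow_p_act (hp : p.Prime) [CharP k p] (ρ : RationalModule k A M) (m : M) :
    (ρ.act (c.e 1))^[p] m = ((p - 1).factorial : k) • ρ.act c.d m := by
  have h2 := hp.two_le
  have h1 : p = (p - 1) + 1 := by omega
  have h : (ρ.act (c.e 1))^[(p - 1) + 1] m = ((p - 1).factorial : k) • ρ.act c.d m := by
    rw [Function.iterate_succ_apply, c.pow_act hp ρ (p - 1) (by omega) le_rfl, ρ.act_act,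
      c.conv_formula hp (p - 1) (by omega) le_rfl, if_pos rfl, one_smul, ρ.act_add, ρ.act_smul,
      show p - 1 + 1 = p by omega, CharP.cast_eq_zero k p, zero_smul, zero_add]
  rw [← h1] at h
  exact h

theorem pow_mem_frob (a : A) (ha : counit (R := k) a = 0) :
    a ^ p ^ r ∈ frobeniusKernel k A p r := Ideal.subset_span ⟨a, ha, rfl⟩

/-- The functional `d` vanishes on the ideal of the Frobenius kernel. -/
theorem Coords.d_frob (hp : p.Prime) (hr : 0 < r) (b : A) (hb : b ∈ frobeniusKernel k A p r) :
    c.d b = 0 := by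
  have hcount : ∀ a : A, (c.hom (B := Polynomial k) 0 Polynomial.X a).coeff 0 =
      counit (R := k) a := by
    intro a
    have h : (Polynomial.aeval (0 : k)).comp (c.hom (B := Polynomial k) 0 Polynomial.X) =
        Bialgebra.counitAlgHom k A := by
      apply c.hom_ext
      · change _ = counit (R := k) c.x
        rw [c.counit_x']
        simp
      · change _ = counit (R := k) c.z
        rw [c.counit_z']
        simp
    have h1 := congrArg (fun f => f a) h
    simp only [AlgHom.comp_apply] at h1
    change _ = counit (R := k) a at h1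
    rw [← h1, Polynomial.coeff_zero_eq_aeval_zero]
  have hle : frobeniusKernel k A p r ≤ (Ideal.span {(Polynomial.X : Polynomial k) ^ 2}).comap
      (c.hom (B := Polynomial k) 0 Polynomial.X).toRingHom := by
    refine Ideal.span_le.2 ?_
    rintro _ ⟨a, ha, rfl⟩
    change c.hom (B := Polynomial k) 0 Polynomial.X (a ^ p ^ r) ∈ Ideal.span _
    rw [Ideal.mem_span_singleton, map_pow]
    have h1 : (Polynomial.X : Polynomial k) ∣ c.hom (B := Polynomial k) 0 Polynomial.X a := by
      rw [Polynomial.X_dvd_iff, hcount, ha]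
    have h2 : 2 ≤ p ^ r := by
      calc 2 ≤ p := hp.two_le
        _ = p ^ 1 := (pow_one p).symm
        _ ≤ p ^ r := Nat.pow_le_pow_right hp.pos hr
    exact (pow_dvd_pow_of_dvd h1 2).trans (pow_dvd_pow _ h2)
  have h3 : c.hom (B := Polynomial k) 0 Polynomial.X b ∈ Ideal.span {Polynomial.X ^ 2} := hle hb
  rw [Ideal.mem_span_singleton, Polynomial.X_pow_dvd_iff] at h3
  exact h3 1 (by norm_num)

include c in
/-- The key obstruction: there is no rational module whose restriction to a closed subgroup
scheme `Spec (A / I)` with `x ^ (p ^ r) ∈ I ⊆ ker d` is the regular module. -/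
theorem no_structure_aux (hp : p.Prime) [CharP k p]
    (ρ : RationalModule k A M) (I : Ideal A) [(I.restrictScalars k).IsCoideal]
    (hxI' : c.x ^ p ^ r ∈ I) (hdI : ∀ b ∈ I, c.d b = 0) :
    ¬ ρ.IsRegularOn I := by
  rintro ⟨e, he⟩
  -- the comodule endomorphism
  let T : M →ₗ[k] M := ρ.act (c.e 1)
  let S : (A ⧸ I) →ₗ[k] (A ⧸ I) := e.toLinearMap ∘ₗ T ∘ₗ e.symm.toLinearMap
  have he' : ∀ m : M, comul (R := k) (e m) = e.toLinearMap.rTensor (A ⧸ I) (ρ.restrict I m) :=
    fun m => (congrArg (fun f => f m) he).symm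
  have hres : ∀ m : M, ρ.restrict I (T m) = T.rTensor (A ⧸ I) (ρ.restrict I m) := by
    intro m
    simp only [RationalModule.restrict, LinearMap.comp_apply, T]
    rw [ρ.coact_act_comm (c.comul_comm hp)]
    generalize ρ.coact m = t
    induction t using TensorProduct.induction_on with
    | zero => simp
    | tmul m a => simp
    | add s t hs ht => rw [map_add, map_add, map_add, map_add, hs, ht]
  have hS : ∀ b : A ⧸ I, comul (R := k) (S b) = S.rTensor (A ⧸ I) (comul (R := k) b) := by
    intro b
    have h1 : S b = e (T (e.symm b)) := rfl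
    rw [h1, he', hres]
    have h2 : comul (R := k) b = e.toLinearMap.rTensor (A ⧸ I) (ρ.restrict I (e.symm b)) := by
      rw [← he', e.apply_symm_apply]
    rw [h2]
    generalize ρ.restrict I (e.symm b) = t
    induction t using TensorProduct.induction_on with
    | zero => simp
    | tmul m a => simp [S]
    | add s t hs ht => rw [map_add, map_add, map_add, map_add, hs, ht]
  -- the quotient and its elements
  set z : A ⧸ I := Ideal.Quotient.mk I c.z with hz
  have hxI : (Ideal.Quotient.mk I c.x) ^ p ^ r = 0 := by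
    rw [← map_pow, Ideal.Quotient.eq_zero_iff_mem]
    exact hxI'
  have hΔz : comul (R := k) z = z ⊗ₜ[k] (1 : A ⧸ I) + (1 : A ⧸ I) ⊗ₜ z := by
    rw [hz, Bialgebra.Quotient.comul_mk, c.comul_z']
    change (Algebra.TensorProduct.map (Ideal.Quotient.mkₐ k I) (Ideal.Quotient.mkₐ k I))
      (_ : A ⊗[k] A) = _
    have hW : ∀ (f : A ⊗[k] A →ₐ[k] (A ⧸ I) ⊗[k] (A ⧸ I))
        (a b : A ⊗[k] A), f (W p a b) = W p (f a) (f b) :=
      fun f a b => W_map f.toRingHom p a b
    rw [map_add, map_add, map_pow, hW, Algebra.TensorProduct.map_tmul,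
      Algebra.TensorProduct.map_tmul, Algebra.TensorProduct.map_tmul,
      Algebra.TensorProduct.map_tmul, map_one]
    obtain ⟨R, hR⟩ := W_split hp ((Ideal.Quotient.mkₐ k I c.x) ⊗ₜ[k] (1 : A ⧸ I))
      ((1 : A ⧸ I) ⊗ₜ[k] (Ideal.Quotient.mkₐ k I c.x))
    have h0 : (W p ((Ideal.Quotient.mkₐ k I c.x) ⊗ₜ[k] (1 : A ⧸ I))
      ((1 : A ⧸ I) ⊗ₜ[k] (Ideal.Quotient.mkₐ k I c.x))) ^ p ^ r = 0 := by
      have h1 : (W p ((Ideal.Quotient.mkₐ k I c.x) ⊗ₜ[k] (1 : A ⧸ I))
        ((1 : A ⧸ I) ⊗ₜ[k] (Ideal.Quotient.mkₐ k I c.x))) =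
        ((1 : A ⧸ I) ⊗ₜ[k] (Ideal.Quotient.mkₐ k I c.x)) *
          (((Ideal.Quotient.mkₐ k I c.x) ⊗ₜ[k] (1 : A ⧸ I)) ^ (p - 1) +
          ((1 : A ⧸ I) ⊗ₜ[k] (Ideal.Quotient.mkₐ k I c.x)) * R) := by
        rw [hR]; ring
      rw [h1, mul_pow, Algebra.TensorProduct.tmul_pow]
      have h2 : (Ideal.Quotient.mkₐ k I c.x) ^ p ^ r = 0 := hxI
      rw [h2, TensorProduct.tmul_zero, zero_mul]
    rw [h0, add_zero]
    rfl
  have hεz : counit (R := k) z = 0 := by
    rw [hz, Bialgebra.Quotient.counit_mk, c.counit_z']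
  have hΔ1 : comul (R := k) (1 : A ⧸ I) = (1 : A ⧸ I) ⊗ₜ[k] (1 : A ⧸ I) := by
    rw [Bialgebra.comul_one, Algebra.TensorProduct.one_def]
  -- counit on the left
  let L : (A ⧸ I) ⊗[k] (A ⧸ I) →ₗ[k] (A ⧸ I) :=
    (TensorProduct.lid k (A ⧸ I)).toLinearMap ∘ₗ (counit (R := k) (A := A ⧸ I)).rTensor (A ⧸ I)
  have hL : ∀ a b : A ⧸ I, L (a ⊗ₜ b) = counit (R := k) a • b := fun a b => by simp [L]
  have hLΔ : ∀ b : A ⧸ I, L (comul (R := k) b) = b := by
    intro b
    have := Coalgebra.rTensor_counit_comul (R := k) b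
    simp only [L, LinearMap.comp_apply]
    rw [this]
    simp
  set β : k := counit (R := k) (S 1) with hβ
  set γ : k := counit (R := k) (S z) with hγ
  have hS1 : S 1 = β • 1 := by
    rw [← hLΔ (S 1), hS, hΔ1, LinearMap.rTensor_tmul, hL]
  have hSz : S z = γ • 1 + β • z := by
    rw [← hLΔ (S z), hS, hΔz, map_add, LinearMap.rTensor_tmul, LinearMap.rTensor_tmul, map_add,
      hL, hL]
  -- iterates
  have hiter : ∀ n : ℕ, S^[n] z = (n * β ^ (n - 1) * γ) • (1 : A ⧸ I) + (β ^ n) • z := by
    intro n
    induction n with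
    | zero => simp
    | succ n ih =>
      rw [Function.iterate_succ_apply', ih, map_add, map_smul, map_smul, hS1, hSz, smul_add,
        smul_smul, smul_smul, smul_smul, ← add_assoc, ← add_smul, pow_succ]
      congr 2
      rcases Nat.eq_zero_or_pos n with rfl | hn
      · simp
      · obtain ⟨m, rfl⟩ : ∃ m, n = m + 1 := ⟨n - 1, by omega⟩
        simp only [Nat.add_sub_cancel, pow_succ]
        push_cast
        ring
  have hiter' : ∀ (n : ℕ) (b : A ⧸ I), S^[n] b = e (T^[n] (e.symm b)) := by
    intro n b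
    induction n with
    | zero => simp
    | succ n ih =>
      rw [Function.iterate_succ_apply', ih, Function.iterate_succ_apply']
      simp [S]
  -- compute `S^p z` in the second way
  let D : (A ⧸ I) →ₗ[k] k := (I.restrictScalars k).liftQ c.d
    (fun b hb => hdI b hb)
  have hD : ∀ a : A, D (Ideal.Quotient.mk I a) = c.d a := fun a => rfl
  have hactd : ∀ m : M, ρ.act c.d m = ctr D (ρ.restrict I m) := by
    intro m
    simp only [RationalModule.act, RationalModule.restrict, LinearMap.comp_apply]
    generalize ρ.coact m = t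
    induction t using TensorProduct.induction_on with
    | zero => simp
    | tmul m a =>
      rw [LinearMap.lTensor_tmul, ctr_tmul, ctr_tmul]
      rfl
    | add s t hs ht => rw [map_add, map_add, map_add, hs, ht]
  have hectr : ∀ t : M ⊗[k] (A ⧸ I), e (ctr D t) = ctr D (e.toLinearMap.rTensor (A ⧸ I) t) := by
    intro t
    induction t using TensorProduct.induction_on with
    | zero => simp
    | tmul m a => simp
    | add s t hs ht => rw [map_add, map_add, map_add, map_add, hs, ht]
  have h1 : S^[p] z = ((p - 1).factorial : k) • (1 : A ⧸ I) := by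
    rw [hiter', c.pow_p_act hp ρ, map_smul, hactd, hectr, ← he', e.apply_symm_apply, hΔz, map_add,
      ctr_tmul, ctr_tmul]
    have hDz : D z = 1 := by
      rw [hz, hD]
      have := c.d_apply 0 1
      simpa using this
    have hD1 : D 1 = 0 := by
      have h := c.d_apply 0 0
      have h2 : D 1 = c.d 1 := hD 1
      rw [h2]
      simpa using h
    rw [hDz, hD1, zero_smul, zero_add, one_smul]
  have h2 := hiter p
  rw [h1, CharP.cast_eq_zero k p, zero_mul, zero_mul, zero_smul, zero_add] at h2
  have h3 := congrArg (counit (R := k) (A := A ⧸ I)) h2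
  rw [map_smul, map_smul, Bialgebra.counit_one, hεz, smul_zero, smul_eq_mul, mul_one] at h3
  rw [CharP.cast_eq_zero_iff k p, hp.dvd_factorial] at h3
  have := hp.two_le
  omega

include c in
/-- There is no rational module whose restriction to the `r`-th Frobenius kernel is the regular
module. -/
theorem no_structure [Fact p.Prime] (hr : 0 < r) [CharP k p] (ρ : RationalModule k A M) :
    ¬ ρ.IsRegularOn (frobeniusKernel k A p r) :=
  no_structure_aux c Fact.out ρ _ (pow_mem_frob _ c.counit_x')
    (fun b hb => c.d_frob Fact.out hr b hb)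

end

end Pool.Agent.H43.Uni
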