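import Mathlib

set_option autoImplicit false

/-!
The polynomial `W(x, y) = ((x + y)^p - x^p - y^p) / p` of Witt vector addition.
-/

namespace Pool.Agent.H43.Uni

open Finset

section
variable {R S : Type*} [CommRing R] [CommRing S]

/-- The integral polynomial `((x + y)^p - x^p - y^p) / p`, evaluated in a commutative ring. -/
def W (p : ℕ) (x y : R) : R := ∑ k ∈ Ioo 0 p, x ^ k * y ^ (p - k) * ((p.choose k / p : ℕ) : R)

theorem W_spec {p : ℕ} (hp : p.Prime) (x y : R) :
    (x + y) ^ p = x ^ p + y ^ p + p * W p x y := add_pow_prime_eq' hp x y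

theorem W_map (f : R →+* S) (p : ℕ) (x y : R) : f (W p x y) = W p (f x) (f y) := by
  simp [W, map_sum]

theorem W_zero_left (p : ℕ) (y : R) : W p 0 y = 0 := by
  unfold W
  refine sum_eq_zero fun k hk => ?_
  rw [mem_Ioo] at hk
  rw [zero_pow (by omega), zero_mul, zero_mul]

theorem W_zero_right (p : ℕ) (x : R) : W p x 0 = 0 := by
  unfold W
  refine sum_eq_zero fun k hk => ?_
  rw [mem_Ioo] at hk
  rw [zero_pow (by omega), mul_zero, zero_mul]

/-- An identity between integer polynomial expressions holds in every commutative ring once it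
holds in `ℤ[X₀, X₁, X₂]`. -/
theorem W_comm {p : ℕ} (hp : p.Prime) (x y : R) : W p x y = W p y x := by
  have key : W p (MvPolynomial.X 0 : MvPolynomial (Fin 2) ℤ) (MvPolynomial.X 1) =
      W p (MvPolynomial.X 1 : MvPolynomial (Fin 2) ℤ) (MvPolynomial.X 0) := by
    have hp0 : ((p : ℕ) : MvPolynomial (Fin 2) ℤ) ≠ 0 := by
      exact_mod_cast hp.ne_zero
    apply mul_left_cancel₀ hp0
    have h1 := W_spec hp (MvPolynomial.X 0 : MvPolynomial (Fin 2) ℤ) (MvPolynomial.X 1)
    have h2 := W_spec hp (MvPolynomial.X 1 : MvPolynomial (Fin 2) ℤ) (MvPolynomial.X 0)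
    rw [add_comm (MvPolynomial.X 1 : MvPolynomial (Fin 2) ℤ) (MvPolynomial.X 0)] at h2
    linear_combination h2 - h1
  have h := congrArg (MvPolynomial.eval₂Hom (Int.castRingHom R) ![x, y]) key
  rw [W_map, W_map] at h
  simpa using h

theorem W_cocycle {p : ℕ} (hp : p.Prime) (x y t : R) :
    W p x y + W p (x + y) t = W p y t + W p x (y + t) := by
  have key : W p (MvPolynomial.X 0 : MvPolynomial (Fin 3) ℤ) (MvPolynomial.X 1) +
        W p (MvPolynomial.X 0 + MvPolynomial.X 1) (MvPolynomial.X 2) =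
      W p (MvPolynomial.X 1 : MvPolynomial (Fin 3) ℤ) (MvPolynomial.X 2) +
        W p (MvPolynomial.X 0) (MvPolynomial.X 1 + MvPolynomial.X 2) := by
    have hp0 : ((p : ℕ) : MvPolynomial (Fin 3) ℤ) ≠ 0 := by
      exact_mod_cast hp.ne_zero
    apply mul_left_cancel₀ hp0
    have h1 := W_spec hp (MvPolynomial.X 0 : MvPolynomial (Fin 3) ℤ) (MvPolynomial.X 1)
    have h2 := W_spec hp (MvPolynomial.X 0 + MvPolynomial.X 1 : MvPolynomial (Fin 3) ℤ)
      (MvPolynomial.X 2)
    have h3 := W_spec hp (MvPolynomial.X 1 : MvPolynomial (Fin 3) ℤ) (MvPolynomial.X 2)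
    have h4 := W_spec hp (MvPolynomial.X 0 : MvPolynomial (Fin 3) ℤ)
      (MvPolynomial.X 1 + MvPolynomial.X 2)
    rw [← add_assoc] at h4
    linear_combination h4 + h3 - h2 - h1
  have h := congrArg (MvPolynomial.eval₂Hom (Int.castRingHom R) ![x, y, t]) key
  rw [map_add, map_add, W_map, W_map, W_map, W_map] at h
  simpa using h

theorem add_pow_q {p : ℕ} (hp : p.Prime) (hR : (p : R) = 0) (r : ℕ) (x y : R) :
    (x + y) ^ p ^ r = x ^ p ^ r + y ^ p ^ r := by
  rw [add_pow_prime_pow_eq' hp, hR, zero_mul, add_zero]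

theorem neg_pow_q {p : ℕ} (hp : p.Prime) (hR : (p : R) = 0) (r : ℕ) (x : R) :
    (-x) ^ p ^ r = - x ^ p ^ r := by
  have h := add_pow_q hp hR r x (-x)
  rw [add_neg_cancel, zero_pow (pow_ne_zero _ hp.ne_zero)] at h
  linear_combination -h

theorem sum_pow_q {p : ℕ} (hp : p.Prime) (hR : (p : R) = 0) (r : ℕ) {ι : Type*} (s : Finset ι)
    (f : ι → R) : (∑ i ∈ s, f i) ^ p ^ r = ∑ i ∈ s, f i ^ p ^ r := by
  classical
  induction s using Finset.induction_on with
  | empty => simp [hp.ne_zero]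
  | insert a s ha ih => rw [sum_insert ha, sum_insert ha, add_pow_q hp hR, ih]

end

end Pool.Agent.H43.Uni
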